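import Pool.Agent.LibVB85.Basic

/-! The adaptive stage. -/

namespace VB85

/-- **Adaptive stage.** Against the placement rule `place` with history `hist` one can present `n` items
with sizes in `(lo, hi)` one after the other such that, for some threshold `θ ∈ (lo, hi)`, an item that
goes to a bin not in `used` and not used by an earlier item of the stage is larger than `θ`, all the others
are smaller than `θ`.
Proof: induction on `n`, first item `(lo+hi)/2`; if it opens a bin continue with `(lo, (lo+hi)/2)` and
`insert b used`, otherwise with `((lo+hi)/2, hi)`. -/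
theorem adaptive (place : List ℝ → ℝ → Bin) (n : ℕ) : ∀ (hist : List ℝ) (used : Finset Bin)
    (lo hi : ℝ), 0 ≤ lo → lo < hi → ∃ (L : List ℝ) (θ : ℝ), L.length = n ∧
      (∀ a ∈ L, lo < a ∧ a < hi) ∧ lo < θ ∧ θ < hi ∧ (∀ a ∈ L, a ≠ θ) ∧
      (L.filter (fun a => decide (θ < a))).length =
        ((((run place hist L).map Prod.snd).toFinset) \ used).card ∧
      (∀ b ∈ (((run place hist L).map Prod.snd).toFinset) \ used, θ < load (run place hist L) b) := by
  induction n with
  | zero =>
    intro hist used lo hi hlo hlh
    exact ⟨[], (lo + hi) / 2, rfl, by simp, by linarith, by linarith, by simp, by simp [run], by simp [run]⟩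
  | succ n ih =>
    intro hist used lo hi hlo hlh
    set a := (lo + hi) / 2 with ha
    set b := place hist a with hb
    have h1 : lo < a := by rw [ha]; linarith
    have h2 : a < hi := by rw [ha]; linarith
    by_cases hu : b ∈ used
    · obtain ⟨L, θ, hL, hI, ht1, ht2, hne, hc, hld⟩ := ih (hist ++ [a]) used a hi (hlo.trans h1.le) h2
      refine ⟨a :: L, θ, by simp [hL], ?_, h1.trans ht1, ht2, ?_, ?_, ?_⟩
      · intro x hx
        rcases List.mem_cons.1 hx with rfl | hx
        · exact ⟨h1, h2⟩
        · exact ⟨h1.trans (hI x hx).1, (hI x hx).2⟩
      · intro x hx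
        rcases List.mem_cons.1 hx with rfl | hx
        · exact ht1.ne
        · exact hne x hx
      · rw [List.filter_cons_of_neg (by simpa using ht1.le), hc]
        congr 1
        ext x
        simp only [run, List.map_cons, List.toFinset_cons, Finset.mem_sdiff, Finset.mem_insert, ← hb]
        constructor
        · rintro ⟨h, h'⟩; exact ⟨Or.inr h, h'⟩
        · rintro ⟨h | h, h'⟩
          · exact absurd (h ▸ hu) h'
          · exact ⟨h, h'⟩
      · intro x hx
        simp only [run, List.map_cons, List.toFinset_cons, Finset.mem_sdiff, Finset.mem_insert, ← hb] at hx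
        have hx2 : x ∈ ((run place (hist ++ [a]) L).map Prod.snd).toFinset \ used := by
          rcases hx with ⟨h | h, h'⟩
          · exact absurd (h ▸ hu) h'
          · exact Finset.mem_sdiff.2 ⟨h, h'⟩
        have := hld x hx2
        simp only [run, load_cons]
        split_ifs <;> linarith
    · obtain ⟨L, θ, hL, hI, ht1, ht2, hne, hc, hld⟩ := ih (hist ++ [a]) (insert b used) lo a hlo h1
      have hpos : ∀ q ∈ run place (hist ++ [a]) L, 0 ≤ q.1 := fun q hq =>
        hlo.trans (hI q.1 (mem_run_fst hq)).1.le
      refine ⟨a :: L, θ, by simp [hL], ?_, ht1, ht2.trans h2, ?_, ?_, ?_⟩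
      · intro x hx
        rcases List.mem_cons.1 hx with rfl | hx
        · exact ⟨h1, h2⟩
        · exact ⟨(hI x hx).1, (hI x hx).2.trans h2⟩
      · intro x hx
        rcases List.mem_cons.1 hx with rfl | hx
        · exact ht2.ne'
        · exact hne x hx
      · rw [List.filter_cons_of_pos (by simpa using ht2), List.length_cons, hc]
        have : ((run place hist (a :: L)).map Prod.snd).toFinset \ used =
            insert b (((run place (hist ++ [a]) L).map Prod.snd).toFinset \ insert b used) := by
          ext x
          simp only [run, List.map_cons, List.toFinset_cons, Finset.mem_sdiff, Finset.mem_insert, ← hb,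
            not_or]
          constructor
          · rintro ⟨h | h, h'⟩
            · exact Or.inl h
            · by_cases hxb : x = b
              · exact Or.inl hxb
              · exact Or.inr ⟨h, hxb, h'⟩
          · rintro (h | ⟨h, h', h''⟩)
            · exact ⟨Or.inl h, h ▸ hu⟩
            · exact ⟨Or.inr h, h''⟩
        rw [this, Finset.card_insert_of_notMem]
        simp
      · intro x hx
        simp only [run, List.map_cons, List.toFinset_cons, Finset.mem_sdiff, Finset.mem_insert, ← hb] at hx
        simp only [run, load_cons, ← hb]
        by_cases hxb : b = x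
        · rw [if_pos hxb]
          have := load_nonneg hpos x
          linarith
        · rw [if_neg hxb]
          have hx2 : x ∈ ((run place (hist ++ [a]) L).map Prod.snd).toFinset \ insert b used := by
            rcases hx with ⟨h | h, h'⟩
            · exact absurd h.symm hxb
            · exact Finset.mem_sdiff.2 ⟨h, fun hm => (Finset.mem_insert.1 hm).elim
                (fun e => hxb e.symm) h'⟩
          have := hld x hx2
          linarith

end VB85
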