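import Pool.Agent.LibVB85.Defs

/-! Basic facts on packings, cost, optimum. -/

namespace VB85

theorem run_append (place : List ℝ → ℝ → Bin) (L1 : List ℝ) : ∀ (h L2 : List ℝ),
    run place h (L1 ++ L2) = run place h L1 ++ run place (h ++ L1) L2 := by
  induction L1 with
  | nil => intro h L2; simp [run]
  | cons a L ih => intro h L2; simp [run, ih]

theorem run_map_fst (place : List ℝ → ℝ → Bin) (L : List ℝ) : ∀ h : List ℝ,
    (run place h L).map Prod.fst = L := by
  induction L with
  | nil => intro h; simp [run]
  | cons a L ih => intro h; simp [run, ih]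

theorem run_length (place : List ℝ → ℝ → Bin) (L h : List ℝ) :
    (run place h L).length = L.length := by
  have := congrArg List.length (run_map_fst place L h)
  simpa using this

theorem load_nil (b : Bin) : load [] b = 0 := rfl

theorem load_append (P Q : List (ℝ × Bin)) (b : Bin) : load (P ++ Q) b = load P b + load Q b := by
  simp [load]

theorem load_cons (q : ℝ × Bin) (P : List (ℝ × Bin)) (b : Bin) :
    load (q :: P) b = (if q.2 = b then q.1 else 0) + load P b := by
  by_cases h : q.2 = b <;> simp [load, h]

theorem load_perm {P Q : List (ℝ × Bin)} (h : P.Perm Q) (b : Bin) : load P b = load Q b :=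
  ((h.filter _).map _).sum_eq

theorem load_nonneg {P : List (ℝ × Bin)} (h : ∀ q ∈ P, 0 ≤ q.1) (b : Bin) : 0 ≤ load P b := by
  induction P with
  | nil => simp [load]
  | cons q P ih =>
    rw [load_cons]
    have h1 := ih (fun q hq => h q (List.mem_cons_of_mem _ hq))
    have h2 := h q List.mem_cons_self
    split_ifs <;> linarith

theorem load_of_not_mem {P : List (ℝ × Bin)} {b : Bin} (h : b ∉ P.map Prod.snd) : load P b = 0 := by
  induction P with
  | nil => simp [load]
  | cons q P ih =>
    rw [load_cons]
    simp only [List.map_cons, List.mem_cons, not_or] at h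
    rw [ih h.2, if_neg (fun e => h.1 e.symm)]; simp

/-- all items of size at least `s`: the load is at least `s` times the number of items in the bin -/
theorem mul_count_le_load {P : List (ℝ × Bin)} {s : ℝ} (h : ∀ q ∈ P, s ≤ q.1) (b : Bin) :
    s * ((P.map Prod.snd).count b) ≤ load P b := by
  induction P with
  | nil => simp [load]
  | cons q P ih =>
    rw [load_cons]
    have h1 := ih (fun q hq => h q (List.mem_cons_of_mem _ hq))
    have h2 := h q List.mem_cons_self
    by_cases e : q.2 = b
    · simp only [List.map_cons, e, List.count_cons_self, if_true]; push_cast; linarith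
    · simp only [List.map_cons, if_neg e, zero_add]
      rw [List.count_cons_of_ne (by simpa using e)]; exact h1

/-- all items of size at most `s`: the load is at most `s` times the number of items in the bin -/
theorem load_le_mul_count {P : List (ℝ × Bin)} {s : ℝ} (h : ∀ q ∈ P, q.1 ≤ s) (b : Bin) :
    load P b ≤ s * ((P.map Prod.snd).count b) := by
  induction P with
  | nil => simp [load]
  | cons q P ih =>
    rw [load_cons]
    have h1 := ih (fun q hq => h q (List.mem_cons_of_mem _ hq))
    have h2 := h q List.mem_cons_self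
    by_cases e : q.2 = b
    · simp only [List.map_cons, e, List.count_cons_self, if_true]; push_cast; linarith
    · simp only [List.map_cons, if_neg e, zero_add]
      rw [List.count_cons_of_ne (by simpa using e)]; exact h1

theorem mem_run_fst {place : List ℝ → ℝ → Bin} {h L : List ℝ} {q : ℝ × Bin}
    (hq : q ∈ run place h L) : q.1 ∈ L := by
  have : q.1 ∈ (run place h L).map Prod.fst := List.mem_map_of_mem hq
  rwa [run_map_fst] at this

theorem load_run_replicate (place : List ℝ → ℝ → Bin) (h : List ℝ) (k : ℕ) (s : ℝ) (b : Bin) :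
    load (run place h (List.replicate k s)) b =
      s * (((run place h (List.replicate k s)).map Prod.snd).count b) := by
  apply le_antisymm
  · exact load_le_mul_count (fun q hq => le_of_eq (List.eq_of_mem_replicate (mem_run_fst hq))) b
  · exact mul_count_le_load (fun q hq => le_of_eq (List.eq_of_mem_replicate (mem_run_fst hq)).symm) b

theorem sum_load_of_subset {P : List (ℝ × Bin)} {U : Finset Bin} (hU : (P.map Prod.snd).toFinset ⊆ U) :
    ∑ b ∈ U, load P b = (P.map Prod.fst).sum := by
  induction P with
  | nil => simp [load]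
  | cons q P ih =>
    have h1 : (P.map Prod.snd).toFinset ⊆ U := by
      intro x hx; apply hU; simp only [List.map_cons, List.toFinset_cons, Finset.mem_insert]; right; exact hx
    have h2 : q.2 ∈ U := hU (by simp)
    simp only [load_cons, Finset.sum_add_distrib, ih h1, List.map_cons, List.sum_cons]
    congr 1
    rw [Finset.sum_ite_eq]; simp [h2]

theorem sum_load (P : List (ℝ × Bin)) :
    ∑ b ∈ (P.map Prod.snd).toFinset, load P b = (P.map Prod.fst).sum :=
  sum_load_of_subset (Finset.Subset.refl _)

theorem bsize_pos {α : ℝ} (h0 : 0 < α) (b : Bin) : 0 < bsize α b := by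
  unfold bsize; split_ifs <;> linarith

theorem bsize_le_one {α : ℝ} (h1 : α < 1) (b : Bin) : bsize α b ≤ 1 := by
  unfold bsize; split_ifs <;> linarith

theorem cost_nonneg {α : ℝ} (h0 : 0 < α) (P : List (ℝ × Bin)) : 0 ≤ cost α P :=
  Finset.sum_nonneg (fun b _ => (bsize_pos h0 b).le)

theorem cost_le_nBins {α : ℝ} (h1 : α < 1) (P : List (ℝ × Bin)) : cost α P ≤ nBins P := by
  unfold cost nBins
  calc ∑ b ∈ (P.map Prod.snd).toFinset, bsize α b ≤ ∑ b ∈ (P.map Prod.snd).toFinset, (1 : ℝ) :=
        Finset.sum_le_sum (fun b _ => bsize_le_one h1 b)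
    _ = _ := by simp

theorem run_isPacking {α : ℝ} (A : OnlineAlg α) {L : List ℝ} (hL : IsInput L) :
    IsPacking α L (run A.place [] L) :=
  ⟨by rw [run_map_fst], A.valid L hL⟩

theorem sum_le_cost {α : ℝ} {L : List ℝ} {P : List (ℝ × Bin)} (hP : IsPacking α L P) :
    L.sum ≤ cost α P := by
  rw [← hP.1.sum_eq, ← sum_load P]
  exact Finset.sum_le_sum (fun b _ => hP.2 b)

theorem optCost_bddBelow {α : ℝ} (h0 : 0 < α) (L : List ℝ) :
    BddBelow {c | ∃ P, IsPacking α L P ∧ cost α P = c} :=
  ⟨0, by rintro c ⟨P, -, rfl⟩; exact cost_nonneg h0 P⟩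

theorem optCost_le {α : ℝ} (h0 : 0 < α) {L : List ℝ} {P : List (ℝ × Bin)} (hP : IsPacking α L P) :
    optCost α L ≤ cost α P :=
  csInf_le (optCost_bddBelow h0 L) ⟨P, hP, rfl⟩

/-- every input has a packing: every item in its own bin of size one -/
theorem exists_packing {α : ℝ} (h0 : 0 < α) {L : List ℝ} (hL : IsInput L) : ∃ P, IsPacking α L P := by
  suffices h : ∀ (L : List ℝ) (n : ℕ), IsInput L → ∃ P : List (ℝ × Bin), P.map Prod.fst = L ∧
      (∀ q ∈ P, n ≤ q.2.2) ∧ ∀ b, load P b ≤ bsize α b by
    obtain ⟨P, h1, -, h3⟩ := h L 0 hL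
    exact ⟨P, by rw [h1], h3⟩
  intro L
  induction L with
  | nil => intro n _; exact ⟨[], by simp, by simp, fun b => by rw [load_nil]; exact (bsize_pos h0 b).le⟩
  | cons a L ih =>
    intro n hL
    obtain ⟨P, h1, h2, h3⟩ := ih (n+1) (fun x hx => hL x (List.mem_cons_of_mem _ hx))
    refine ⟨(a, (true, n)) :: P, by simp [h1], ?_, ?_⟩
    · intro q hq
      rcases List.mem_cons.1 hq with rfl | hq
      · exact le_rfl
      · exact (Nat.le_succ n).trans (h2 q hq)
    · intro b
      rw [load_cons]
      by_cases e : (true, n) = b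
      · subst e
        have : load P (true, n) = 0 := by
          apply load_of_not_mem
          intro hmem
          obtain ⟨q, hq, hq2⟩ := List.mem_map.1 hmem
          have := h2 q hq
          rw [hq2] at this; simp at this
        rw [this, if_pos rfl]
        have := (hL a List.mem_cons_self).2
        simpa [bsize] using this
      · rw [if_neg e, zero_add]; exact h3 b

theorem costs_finite {α : ℝ} (L : List ℝ) : {c | ∃ P, IsPacking α L P ∧ cost α P = c}.Finite := by
  apply Set.Finite.subset (Set.Finite.image2 (fun (i j : ℕ) => (i : ℝ) + j * α)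
    (Set.finite_Iic L.length) (Set.finite_Iic L.length))
  rintro c ⟨P, hP, rfl⟩
  have hlen : (P.map Prod.snd).toFinset.card ≤ L.length := by
    calc (P.map Prod.snd).toFinset.card ≤ (P.map Prod.snd).length := List.toFinset_card_le _
      _ = L.length := by rw [List.length_map, ← hP.1.length_eq, List.length_map]
  refine ⟨((P.map Prod.snd).toFinset.filter (fun b => b.1 = true)).card, ?_,
    ((P.map Prod.snd).toFinset.filter (fun b => ¬ b.1 = true)).card, ?_, ?_⟩
  · exact (Finset.card_filter_le _ _).trans hlen
  · exact (Finset.card_filter_le _ _).trans hlen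
  · unfold cost
    rw [← Finset.sum_filter_add_sum_filter_not _ (fun b : Bin => b.1 = true)]
    have e1 : ∑ b ∈ (P.map Prod.snd).toFinset.filter (fun b : Bin => b.1 = true), bsize α b =
        ∑ b ∈ (P.map Prod.snd).toFinset.filter (fun b : Bin => b.1 = true), (1 : ℝ) := by
      apply Finset.sum_congr rfl
      intro b hb
      have := (Finset.mem_filter.1 hb).2
      simp [bsize, this]
    have e2 : ∑ b ∈ (P.map Prod.snd).toFinset.filter (fun b : Bin => ¬ b.1 = true), bsize α b =
        ∑ b ∈ (P.map Prod.snd).toFinset.filter (fun b : Bin => ¬ b.1 = true), α := by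
      apply Finset.sum_congr rfl
      intro b hb
      have := (Finset.mem_filter.1 hb).2
      simp only [bsize, if_neg this]
    rw [e1, e2, Finset.sum_const, Finset.sum_const]
    simp

theorem exists_optimal {α : ℝ} (h0 : 0 < α) {L : List ℝ} (hL : IsInput L) :
    ∃ P, IsPacking α L P ∧ cost α P = optCost α L := by
  obtain ⟨P, hP⟩ := exists_packing h0 hL
  have := Set.Nonempty.csInf_mem (s := {c | ∃ P, IsPacking α L P ∧ cost α P = c})
    ⟨_, P, hP, rfl⟩ (costs_finite L)
  exact this

theorem sum_le_optCost {α : ℝ} (h0 : 0 < α) {L : List ℝ} (hL : IsInput L) : L.sum ≤ optCost α L := by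
  obtain ⟨P, hP, h⟩ := exists_optimal h0 hL
  rw [← h]; exact sum_le_cost hP

theorem optBins_ge {α : ℝ} (h0 : 0 < α) (h1 : α < 1) {L : List ℝ} (hL : IsInput L) {k : ℕ}
    (hk : (k : ℝ) ≤ L.sum) : k ≤ optBins α L := by
  obtain ⟨P, hP, h⟩ := exists_optimal h0 hL
  apply le_csInf (s := {m | ∃ P, IsPacking α L P ∧ cost α P = optCost α L ∧ nBins P = m})
    ⟨nBins P, P, hP, h, rfl⟩
  rintro m ⟨Q, hQ, hQ2, rfl⟩
  have : (k : ℝ) ≤ nBins Q := hk.trans ((sum_le_cost hQ).trans (cost_le_nBins h1 Q))
  exact_mod_cast this

end VB85
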