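import Pool.Agent.LibVB85.CheckDefs

/-! Certificates 1. -/

namespace VB85

/-- bin sizes `0 ≤ α ≤ 1/7` -/
def c0 : CertD where
  M := 42
  A0 := 0
  A1 := 6
  st := [(6, 6, 1), (14, 14, 1)]
  lf := [⟨1, none, 21, 21, 1⟩]

def p0_0 : PieceD where
  X0 := 0
  X1 := 1
  D := 1
  w := [(125999833, 125999833)]
  wS := (251999836, 251999835)
  wL := (251999833, 251999835)
  w' := [(251999838, 251999836)]
  lam := [6000001, 6000001]
  lam' := [6000001]
  Dy := 1000000
  pt := [[(true, [6], 166668)], [(true, [2, 2], 500001)]]
  pt0 := [[(true, [1, 1, 1], 1000001)]]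
  pt1 := [[]]

theorem chk0 : chkAll c0 6877 5000 [p0_0] = true := by
  decide +kernel

/-- bin sizes `1/7 ≤ α ≤ 2529/10000` -/
def c1 : CertD where
  M := 210000
  A0 := 30000
  A1 := 53109
  st := [(30000, 30000, 1), (70000, 70000, 1)]
  lf := [⟨1, none, 105000, 105000, 1⟩]

def p1_0 : PieceD where
  X0 := 0
  X1 := 1
  D := 1
  w := [(514284914308, 599999176242)]
  wS := (1285713460806, 1199999197395)
  wL := (1285713446196, 1285713460640)
  w' := [(1285713472058, 1285713456195)]
  lam := [4897960, 6122449]
  lam' := [6122449]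
  Dy := 1000000
  pt := [[(true, [6], 166668)], [(true, [2, 2], 500001)]]
  pt0 := [[(true, [1, 1, 1], 1000001)]]
  pt1 := [[]]

theorem chk1 : chkAll c1 6877 5000 [p1_0] = true := by
  decide +kernel

/-- bin sizes `2529/10000 ≤ α ≤ 743/2000` -/
def c2 : CertD where
  M := 10000
  A0 := 2529
  A1 := 3715
  st := [(2000, 2000, 1), (2500, 2500, 1)]
  lf := [⟨1, some true, 0, 0, 0⟩, ⟨1, none, 5000, 5000, 1⟩]

def p2_0 : PieceD where
  X0 := 0
  X1 := 1
  D := 1
  w := [(37463605064, 37463604936)]
  wS := (37463604908, 37463604889)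
  wL := (25363516150, 25363516743)
  w' := [(0, 0), (74927250206, 74927249645)]
  lam := [4956374, 2536356]
  lam' := [0, 7492729]
  Dy := 1000000
  pt := [[(true, [4], 250001)], [(true, [4, 0], 166668), (true, [1, 3], 333335)]]
  pt0 := [[(true, [4, 0], 250001)], [(true, [1, 1, 1], 1000001)]]
  pt1 := [[(true, [4, 0], 166668), (true, [1, 3], 333335)], []]

theorem chk2 : chkAll c2 6877 5000 [p2_0] = true := by
  decide +kernel

/-- bin sizes `743/2000 ≤ α ≤ 2307/5000` -/
def c3 : CertD where
  M := 90000
  A0 := 33435
  A1 := 41526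
  st := [(10000, 10000, 2), (22500, 22500, 1)]
  lf := [⟨1, some true, 0, 0, 0⟩, ⟨1, none, 45000, 45000, 1⟩]

def p3_0 : PieceD where
  X0 := 0
  X1 := 1
  D := 1
  w := [(115296060952, 143196862772)]
  wS := (336940362115, 318339828862)
  wL := (336940374638, 374141435032)
  w' := [(0, 0), (673881077059, 636680017877)]
  lam := [2562143, 3743786]
  lam' := [1, 7487572]
  Dy := 1000000
  pt := [[(true, [8], 250001)], [(true, [8, 0], 166668), (true, [2, 3], 333335)]]
  pt0 := [[(true, [8, 0], 250001)], [(true, [2, 1, 1], 1000001)]]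
  pt1 := [[(true, [8, 0], 166668), (true, [2, 3], 333335)], []]

theorem chk3 : chkAll c3 6877 5000 [p3_0] = true := by
  decide +kernel

/-- bin sizes `2307/5000 ≤ α ≤ 1/2` -/
def c4 : CertD where
  M := 5000
  A0 := 2307
  A1 := 2500
  st := [(1000, 1000, 1), (1250, 1250, 1)]
  lf := [⟨1, some true, 0, 0, 0⟩, ⟨1, none, 2307, 2500, 1⟩, ⟨1, none, 2500, 2500, 1⟩]

def p4_0 : PieceD where
  X0 := 0
  X1 := 1
  D := 1
  w := [(17645014556, 19121170363)]
  wS := (17645014824, 17645014967)
  wL := (17645015238, 17645014984)
  w' := [(0, 0), (0, 0), (35290049085, 33813893625)]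
  lam := [4709932, 3529008]
  lam' := [1, 0, 7058014]
  Dy := 1000000
  pt := [[(false, [2], 500001)], [(false, [1, 1], 1000001)]]
  pt0 := [[(false, [2, 0], 500001)], [(true, [1, 1, 1], 1000001)], [(true, [1, 1, 1], 1000001)]]
  pt1 := [[(false, [1, 1], 1000001)], [], []]

theorem chk4 : chkAll c4 6877 5000 [p4_0] = true := by
  decide +kernel

/-- bin sizes `1/2 ≤ α ≤ 261/500` -/
def c5 : CertD where
  M := 10500
  A0 := 5250
  A1 := 5481
  st := [(1500, 1500, 1), (3500, 3500, 1)]
  lf := [⟨1, none, 5250, 5481, 1⟩]

def p5_0 : PieceD where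
  X0 := 0
  X1 := 1
  D := 1
  w := [(31499958582, 31499958484)]
  wS := (62999959190, 62999959016)
  wL := (62999958459, 62999959050)
  w' := [(62999959433, 62999958838)]
  lam := [6000001, 6000001]
  lam' := [6000000]
  Dy := 1000000
  pt := [[(true, [6], 166668)], [(true, [2, 2], 500001)]]
  pt0 := [[(true, [1, 1, 1], 1000001)]]
  pt1 := [[]]

theorem chk5 : chkAll c5 6877 5000 [p5_0] = true := by
  decide +kernel

/-- bin sizes `261/500 ≤ α ≤ 713/1250` -/
def c6 : CertD where
  M := 52500
  A0 := 27405
  A1 := 29946
  st := [(7500, 7500, 1), (17500, 17500, 1)]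
  lf := [⟨1, some true, 0, 0, 0⟩, ⟨1, none, 26250, 26250, 1⟩, ⟨1, none, 27405, 29946, 1⟩]

def p6_0 : PieceD where
  X0 := 0
  X1 := 1
  D := 1
  w := [(146511420423, 146511420800)]
  wS := (293023052252, 293023051698)
  wL := (293023058909, 293023060282)
  w' := [(0, 0), (0, 0), (293023041876, 293023040076)]
  lam := [5581396, 5581396]
  lam' := [1, 1, 5581396]
  Dy := 1000000
  pt := [[(true, [6], 166668)], [(true, [2, 2], 500001)]]
  pt0 := [[(true, [6, 0], 166668)], [(true, [1, 1, 1], 1000001)], [(true, [2, 2, 0], 125001),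
    (true, [3, 0, 1], 250001), (true, [0, 1, 1], 750001)]]
  pt1 := [[(true, [2, 2], 500001)], [], []]

theorem chk6 : chkAll c6 6877 5000 [p6_0] = true := by
  decide +kernel

/-- bin sizes `713/1250 ≤ α ≤ 3211/5000` -/
def c7 : CertD where
  M := 15000
  A0 := 8556
  A1 := 9633
  st := [(5000, 5000, 1)]
  lf := [⟨0, some true, 0, 0, 0⟩, ⟨0, none, 8556, 9633, 1⟩]

def p7_0 : PieceD where
  X0 := 0
  X1 := 16
  D := 32
  w := []
  wS := (149999942837, 149999941981)
  wL := (-59882, -60000)
  w' := [(0, 0), (149999941635, 149999942769)]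
  lam := [0]
  lam' := [0, 10000001]
  Dy := 1000000
  pt := [[(true, [2], 500001)]]
  pt0 := [[], [(true, [1, 1], 1000001)]]
  pt1 := [[(true, [2], 250001)], []]

def p7_1 : PieceD where
  X0 := 16
  X1 := 18
  D := 32
  w := []
  wS := (149999942837, 149999942987)
  wL := (-59882, -60179)
  w' := [(0, 0), (149999941635, 149999942284)]
  lam := [0]
  lam' := [0, 10000001]
  Dy := 1000000
  pt := [[(true, [2], 500001)]]
  pt0 := [[(true, [2], 250001)], [(true, [1, 1], 1000001)]]
  pt1 := [[(true, [2], 281251)], []]

def p7_2 : PieceD where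
  X0 := 18
  X1 := 20
  D := 32
  w := []
  wS := (76753060209, 76753064037)
  wL := (101908646735, 101908642136)
  w' := [(101908646999, 101908647425), (76753060356, 76753061490)]
  lam := [0]
  lam' := [6793914, 5116875]
  Dy := 1000000
  pt := [[(true, [2], 500001)]]
  pt0 := [[(true, [2], 281251)], [(true, [1, 1], 1000001)]]
  pt1 := [[(true, [2], 312501)], []]

def p7_3 : PieceD where
  X0 := 20
  X1 := 22
  D := 32
  w := []
  wS := (78417951441, 78417952654)
  wL := (104119200643, 104119198660)
  w' := [(104119200907, 104119199965), (78417951589, 78417952722)]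
  lam := [0]
  lam' := [6941284, 5227868]
  Dy := 1000000
  pt := [[(true, [2], 500001)]]
  pt0 := [[(true, [2], 312501)], [(true, [1, 1], 1000001)]]
  pt1 := [[(true, [2], 343751)], []]

def p7_4 : PieceD where
  X0 := 22
  X1 := 24
  D := 32
  w := []
  wS := (80156672163, 80156673778)
  wL := (106427781416, 106427779030)
  w' := [(106427781680, 106427782105), (80156672311, 80156673444)]
  lam := [0]
  lam' := [7095190, 5343783]
  Dy := 1000000
  pt := [[(true, [2], 500001)]]
  pt0 := [[(true, [2], 343751)], [(true, [1, 1], 1000001)]]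
  pt1 := [[(true, [2], 375001)], []]

def p7_5 : PieceD where
  X0 := 24
  X1 := 25
  D := 32
  w := []
  wS := (81974244677, 81974245890)
  wL := (108841057398, 108841055414)
  w' := [(108841057662, 108841057685), (81974244825, 81974245958)]
  lam := [0]
  lam' := [7256075, 5464954]
  Dy := 1000000
  pt := [[(true, [2], 500001)]]
  pt0 := [[(true, [2], 375001)], [(true, [1, 1], 1000001)]]
  pt1 := [[(true, [2], 390626)], []]

def p7_6 : PieceD where
  X0 := 25
  X1 := 26
  D := 32
  w := []
  wS := (82914295821, 82914296993)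
  wL := (110089207241, 110089205298)
  w' := [(110089207545, 110089207971), (82914295928, 82914297062)]
  lam := [0]
  lam' := [7339285, 5527624]
  Dy := 1000000
  pt := [[(true, [2], 500001)]]
  pt0 := [[(true, [2], 390626)], [(true, [1, 1], 1000001)]]
  pt1 := [[(true, [2], 406251)], []]

def p7_7 : PieceD where
  X0 := 26
  X1 := 27
  D := 32
  w := []
  wS := (83876157428, 83876158439)
  wL := (111366315855, 111366314072)
  w' := [(111366316320, 111366316745), (83876157374, 83876158507)]
  lam := [0]
  lam' := [7424425, 5591748]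
  Dy := 1000000
  pt := [[(true, [2], 500001)]]
  pt0 := [[(true, [2], 406251)], [(true, [1, 1], 1000001)]]
  pt1 := [[(true, [2], 421876)], []]

def p7_8 : PieceD where
  X0 := 27
  X1 := 28
  D := 32
  w := []
  wS := (84860597422, 84860598299)
  wL := (112673402848, 112673401200)
  w' := [(112673403448, 112673403873), (84860597233, 84860598367)]
  lam := [0]
  lam' := [7511565, 5657378]
  Dy := 1000000
  pt := [[(true, [2], 500001)]]
  pt0 := [[(true, [2], 421876)], [(true, [1, 1], 1000001)]]
  pt1 := [[(true, [2], 437501)], []]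

def p7_9 : PieceD where
  X0 := 28
  X1 := 32
  D := 32
  w := []
  wS := (89054667537, 89054668750)
  wL := (118242065776, 118242063793)
  w' := [(29187340954, 29187334652), (89054667685, 89054668818)]
  lam := [5936982]
  lam' := [1945827, 5936982]
  Dy := 1000000
  pt := [[(true, [2], 500001)]]
  pt0 := [[(true, [2], 437501)], [(true, [1, 1], 1000001)]]
  pt1 := [[(true, [2], 500001)], []]

theorem chk7 : chkAll c7 6877 5000 [p7_0, p7_1, p7_2, p7_3, p7_4, p7_5, p7_6, p7_7, p7_8, p7_9] =
    true := by
  decide +kernel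

/-- bin sizes `3211/5000 ≤ α ≤ 3319/5000` -/
def c8 : CertD where
  M := 15000
  A0 := 9633
  A1 := 9957
  st := [(5000, 5000, 1)]
  lf := [⟨0, some true, 0, 0, 0⟩, ⟨0, none, 9633, 9957, 1⟩]

def p8_0 : PieceD where
  X0 := 0
  X1 := 8
  D := 16
  w := []
  wS := (149999942837, 149999941981)
  wL := (-59882, -60000)
  w' := [(0, 0), (149999941635, 149999942769)]
  lam := [0]
  lam' := [0, 10000001]
  Dy := 1000000
  pt := [[(true, [2], 500001)]]
  pt0 := [[], [(true, [1, 1], 1000001)]]
  pt1 := [[(true, [2], 250001)], []]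

def p8_1 : PieceD where
  X0 := 8
  X1 := 9
  D := 16
  w := []
  wS := (149999942837, 149999942987)
  wL := (-59882, -60179)
  w' := [(0, 0), (149999941635, 149999942284)]
  lam := [0]
  lam' := [0, 10000001]
  Dy := 1000000
  pt := [[(true, [2], 500001)]]
  pt0 := [[(true, [2], 250001)], [(true, [1, 1], 1000001)]]
  pt1 := [[(true, [2], 281251)], []]

def p8_2 : PieceD where
  X0 := 9
  X1 := 10
  D := 16
  w := []
  wS := (65500585487, 65500589314)
  wL := (117564263740, 117564259141)
  w' := [(117564264004, 117564264430), (65500585634, 65500586767)]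
  lam := [0]
  lam' := [7837622, 4366710]
  Dy := 1000000
  pt := [[(true, [2], 500001)]]
  pt0 := [[(true, [2], 281251)], [(true, [1, 1], 1000001)]]
  pt1 := [[(true, [2], 312501)], []]

def p8_3 : PieceD where
  X0 := 10
  X1 := 11
  D := 16
  w := []
  wS := (67145143879, 67145145091)
  wL := (120516011643, 120516009659)
  w' := [(120516011907, 120516010965), (67145144026, 67145145160)]
  lam := [0]
  lam' := [8034405, 4476347]
  Dy := 1000000
  pt := [[(true, [2], 500001)]]
  pt0 := [[(true, [2], 312501)], [(true, [1, 1], 1000001)]]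
  pt1 := [[(true, [2], 343751)], []]

def p8_4 : PieceD where
  X0 := 11
  X1 := 12
  D := 16
  w := []
  wS := (68874410635, 68874412249)
  wL := (123619798983, 123619796597)
  w' := [(123619799248, 123619799673), (68874410782, 68874411915)]
  lam := [0]
  lam' := [8241324, 4591632]
  Dy := 1000000
  pt := [[(true, [2], 500001)]]
  pt0 := [[(true, [2], 343751)], [(true, [1, 1], 1000001)]]
  pt1 := [[(true, [2], 375001)], []]

def p8_5 : PieceD where
  X0 := 12
  X1 := 16
  D := 16
  w := []
  wS := (75120663254, 75120664466)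
  wL := (134830932108, 134830930124)
  w' := [(59710210212, 59710205462), (75120663401, 75120664534)]
  lam := [5008049]
  lam' := [3980685, 5008049]
  Dy := 1000000
  pt := [[(true, [2], 500001)]]
  pt0 := [[(true, [2], 375001)], [(true, [1, 1], 1000001)]]
  pt1 := [[(true, [2], 500001)], []]

theorem chk8 : chkAll c8 6877 5000 [p8_0, p8_1, p8_2, p8_3, p8_4, p8_5] = true := by
  decide +kernel

/-- bin sizes `3319/5000 ≤ α ≤ 673/1000` -/
def c9 : CertD where
  M := 65000
  A0 := 43147
  A1 := 43745
  st := [(5000, 5000, 1), (16250, 16250, 1)]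
  lf := [⟨1, some true, 0, 0, 0⟩, ⟨1, none, 43147, 43745, 1⟩]

def p9_0 : PieceD where
  X0 := 0
  X1 := 1
  D := 1
  w := [(89163630208, 89548690130)]
  wS := (267491410499, 268646591423)
  wL := (267491419544, 267491424071)
  w' := [(0, 0), (538448620082, 538448616431)]
  lam := [4133029, 4115257]
  lam' := [1, 8283829]
  Dy := 1000000
  pt := [[(true, [12], 83335)], [(true, [3, 3], 333335)]]
  pt0 := [[(true, [12, 0], 83335)], [(true, [1, 1, 1], 1000001)]]
  pt1 := [[(true, [3, 3], 333335)], []]

theorem chk9 : chkAll c9 6877 5000 [p9_0] = true := by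
  decide +kernel

/-- bin sizes `673/1000 ≤ α ≤ 139/200` -/
def c10 : CertD where
  M := 19000
  A0 := 12787
  A1 := 13205
  st := [(1000, 1000, 1), (4750, 4750, 1)]
  lf := [⟨1, some true, 0, 0, 0⟩, ⟨1, none, 12787, 13205, 1⟩]

def p10_0 : PieceD where
  X0 := 0
  X1 := 1
  D := 1
  w := [(15957632227, 16318382677)]
  wS := (79788465098, 79788464953)
  wL := (79788467790, 79788467952)
  w' := [(0, 0), (159577004683, 159216253885)]
  lam := [3625334, 4199398]
  lam' := [1, 8398794]
  Dy := 1000000
  pt := [[(true, [18], 55557)], [(true, [0, 3], 83335), (true, [4, 3], 250001)]]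
  pt0 := [[(true, [18, 0], 55557)], [(true, [1, 1, 1], 1000001)]]
  pt1 := [[(true, [0, 3], 83335), (true, [4, 3], 250001)], []]

theorem chk10 : chkAll c10 839 625 [p10_0] = true := by
  decide +kernel

/-- bin sizes `139/200 ≤ α ≤ 2246/3125` -/
def c11 : CertD where
  M := 100000
  A0 := 69500
  A1 := 71872
  st := [(3125, 3125, 1), (25000, 25000, 1)]
  lf := [⟨1, some true, 0, 0, 0⟩, ⟨1, none, 69500, 71872, 1⟩]

def p11_0 : PieceD where
  X0 := 0
  X1 := 32
  D := 128
  w := [(966996493211, 987418102854)]
  wS := (7735974745504, 7899347624419)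
  wL := (-15471950677015, -15798696435521)
  w' := [(0, 0), (0, 0)]
  lam := [306099736, 0]
  lam' := [0, 0]
  Dy := 1000000
  pt := [[(false, [22], 45456)], [(true, [0, 3], 190478), (true, [7, 3], 142859)]]
  pt0 := [[(false, [22, 0], 45456)], [(true, [1, 1, 1], 1000001)]]
  pt1 := [[(false, [22, 0], 11365), (false, [6, 2], 125001)], []]

def p11_1 : PieceD where
  X0 := 32
  X1 := 40
  D := 128
  w := [(966996493211, 987418102854)]
  wS := (7735974745504, 7899347624419)
  wL := (-15471950677016, -15798696435521)
  w' := [(0, 0), (0, 0)]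
  lam := [306099736, 0]
  lam' := [0, 0]
  Dy := 1000000
  pt := [[(false, [22], 45456)], [(true, [0, 3], 190478), (true, [7, 3], 142859)]]
  pt0 := [[(false, [22, 0], 11365), (false, [6, 2], 125001)], [(true, [1, 1, 1], 1000001)]]
  pt1 := [[(false, [22, 0], 2842), (false, [6, 2], 156251)], []]

def p11_2 : PieceD where
  X0 := 40
  X1 := 44
  D := 128
  w := [(60563729857, 61842758514)]
  wS := (484512638665, 494744869699)
  wL := (-405882, -20464868624)
  w' := [(0, 0), (969025669365, 968066400907)]
  lam := [9481119, 0]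
  lam' := [0, 9690261]
  Dy := 1000000
  pt := [[(false, [22], 45456)], [(true, [0, 3], 190478), (true, [7, 3], 142859)]]
  pt0 := [[(false, [22, 0], 2842), (false, [6, 2], 156251)], [(true, [1, 1, 1], 1000001)]]
  pt1 := [[(true, [7, 3], 15626), (false, [6, 2], 148439)], []]

def p11_3 : PieceD where
  X0 := 44
  X1 := 45
  D := 128
  w := [(60563724547, 61842753091)]
  wS := (484512596181, 494744826317)
  wL := (-287383, -20464748331)
  w' := [(0, 0), (969025584395, 969025578779)]
  lam := [9481117, 0]
  lam' := [2, 9690260]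
  Dy := 1000000
  pt := [[(false, [22], 45456)], [(true, [0, 3], 190478), (true, [7, 3], 142859)]]
  pt0 := [[(true, [7, 3], 15626), (false, [6, 2], 148439)], [(true, [1, 1, 1], 1000001)]]
  pt1 := [[(true, [7, 3], 27345), (false, [6, 2], 134767)], []]

def p11_4 : PieceD where
  X0 := 45
  X1 := 46
  D := 128
  w := [(45094086419, 45094094638)]
  wS := (360755491158, 360755487338)
  wL := (345183222492, 345183229457)
  w' := [(345183242683, 345183237015), (721511374348, 721511368732)]
  lam := [3607560, 0]
  lam' := [3451837, 7215118]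
  Dy := 1000000
  pt := [[(false, [22], 45456)], [(true, [0, 3], 190478), (true, [7, 3], 142859)]]
  pt0 := [[(true, [7, 3], 27345), (false, [6, 2], 134767)], [(true, [1, 1, 1], 1000001)]]
  pt1 := [[(true, [7, 3], 39064), (false, [6, 2], 121095)], []]

def p11_5 : PieceD where
  X0 := 46
  X1 := 47
  D := 128
  w := [(45186425071, 45186433161)]
  wS := (361494200373, 361494196553)
  wL := (345890046006, 345890052971)
  w' := [(345890066197, 345890060529), (722988792778, 722988787162)]
  lam := [3614947, 0]
  lam' := [3458905, 7229892]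
  Dy := 1000000
  pt := [[(false, [22], 45456)], [(true, [0, 3], 190478), (true, [7, 3], 142859)]]
  pt0 := [[(true, [7, 3], 39064), (false, [6, 2], 121095)], [(true, [1, 1, 1], 1000001)]]
  pt1 := [[(true, [7, 3], 50783), (false, [6, 2], 107423)], []]

def p11_6 : PieceD where
  X0 := 47
  X1 := 48
  D := 128
  w := [(46062745119, 46062753081)]
  wS := (332330253648, 332330249827)
  wL := (424947007527, 424947014492)
  w' := [(424947027717, 424947022050), (664660899328, 664660893712)]
  lam := [3685053, 0]
  lam' := [4249475, 6646613]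
  Dy := 1000000
  pt := [[(false, [22], 45456)], [(true, [0, 3], 190478), (true, [7, 3], 142859)]]
  pt0 := [[(true, [7, 3], 50783), (false, [6, 2], 107423)], [(true, [1, 1, 1], 1000001)]]
  pt1 := [[(true, [7, 3], 62501), (false, [6, 2], 93751)], []]

def p11_7 : PieceD where
  X0 := 48
  X1 := 49
  D := 128
  w := [(46178917855, 46178925688)]
  wS := (333168402640, 333168398820)
  wL := (426018739026, 426018745991)
  w' := [(426018759217, 426018753548), (666337197314, 666337191697)]
  lam := [3694347, 0]
  lam' := [4260192, 6663376]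
  Dy := 1000000
  pt := [[(false, [22], 45456)], [(true, [0, 3], 190478), (true, [7, 3], 142859)]]
  pt0 := [[(true, [7, 3], 62501), (false, [6, 2], 93751)], [(true, [1, 1, 1], 1000001)]]
  pt1 := [[(true, [7, 3], 74220), (false, [6, 2], 80080)], []]

def p11_8 : PieceD where
  X0 := 49
  X1 := 50
  D := 128
  w := [(46295678056, 46295685760)]
  wS := (334010790002, 334010786182)
  wL := (427095890078, 427095897043)
  w' := [(427095910269, 427095904601), (668021972036, 668021966420)]
  lam := [3703687, 0]
  lam' := [4270963, 6680224]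
  Dy := 1000000
  pt := [[(false, [22], 45456)], [(true, [0, 3], 190478), (true, [7, 3], 142859)]]
  pt0 := [[(true, [7, 3], 74220), (false, [6, 2], 80080)], [(true, [1, 1, 1], 1000001)]]
  pt1 := [[(true, [7, 3], 85939), (false, [6, 2], 66408)], []]

def p11_9 : PieceD where
  X0 := 50
  X1 := 52
  D := 128
  w := [(46413030147, 46413037595)]
  wS := (334857447977, 334857444157)
  wL := (428178501915, 428178508880)
  w' := [(428178522106, 428178516438), (669715287986, 669715282370)]
  lam := [3713076, 0]
  lam' := [4281790, 6697157]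
  Dy := 1000000
  pt := [[(false, [22], 45456)], [(true, [0, 3], 190478), (true, [7, 3], 142859)]]
  pt0 := [[(true, [7, 3], 85939), (false, [6, 2], 66408)], [(true, [1, 1, 1], 1000001)]]
  pt1 := [[(true, [7, 3], 109376), (false, [6, 2], 39064)], []]

def p11_10 : PieceD where
  X0 := 52
  X1 := 54
  D := 128
  w := [(46649528306, 46649535497)]
  wS := (336563706259, 336563702438)
  wL := (430360274799, 430360281764)
  w' := [(430360294991, 430360289322), (673127804550, 673127798934)]
  lam := [3731995, 0]
  lam' := [4303607, 6731282]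
  Dy := 1000000
  pt := [[(false, [22], 45456)], [(true, [0, 3], 190478), (true, [7, 3], 142859)]]
  pt0 := [[(true, [7, 3], 109376), (false, [6, 2], 39064)], [(true, [1, 1, 1], 1000001)]]
  pt1 := [[(true, [7, 3], 132814), (false, [6, 2], 11720)], []]

def p11_11 : PieceD where
  X0 := 54
  X1 := 56
  D := 128
  w := [(46888448949, 46888455882)]
  wS := (338287441972, 338287438152)
  wL := (432564395876, 432564402841)
  w' := [(432564416067, 432564410399), (676575275977, 676575270360)]
  lam := [3751109, 0]
  lam' := [4325649, 6765757]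
  Dy := 1000000
  pt := [[(false, [22], 45456)], [(true, [0, 3], 190478), (true, [7, 3], 142859)]]
  pt0 := [[(true, [7, 3], 132814), (false, [6, 2], 11720)], [(true, [1, 1, 1], 1000001)]]
  pt1 := [[(true, [0, 3], 2978), (true, [7, 3], 142859)], []]

def p11_12 : PieceD where
  X0 := 56
  X1 := 58
  D := 128
  w := [(47113168692, 47113175369)]
  wS := (339908722800, 339908718980)
  wL := (434637509066, 434637516029)
  w' := [(434637529256, 434637523588), (679817837632, 679817832016)]
  lam := [3769087, 0]
  lam' := [4346380, 6798183]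
  Dy := 1000000
  pt := [[(false, [22], 45456)], [(true, [0, 3], 190478), (true, [7, 3], 142859)]]
  pt0 := [[(true, [0, 3], 2978), (true, [7, 3], 142859)], [(true, [1, 1, 1], 1000001)]]
  pt1 := [[(true, [0, 3], 8186), (true, [7, 3], 142859)], []]

def p11_13 : PieceD where
  X0 := 58
  X1 := 60
  D := 128
  w := [(47327444380, 47327450800)]
  wS := (341454653146, 341454649326)
  wL := (436614272460, 436614279424)
  w' := [(436614292650, 436614286981), (682909698326, 682909692709)]
  lam := [3786229, 0]
  lam' := [4366147, 6829101]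
  Dy := 1000000
  pt := [[(false, [22], 45456)], [(true, [0, 3], 190478), (true, [7, 3], 142859)]]
  pt0 := [[(true, [0, 3], 8186), (true, [7, 3], 142859)], [(true, [1, 1, 1], 1000001)]]
  pt1 := [[(true, [0, 3], 13394), (true, [7, 3], 142859)], []]

def p11_14 : PieceD where
  X0 := 60
  X1 := 64
  D := 128
  w := [(47543677973, 47543683878)]
  wS := (343014709767, 343014705948)
  wL := (438609098960, 438609105924)
  w' := [(438609119150, 438609113482), (686029811568, 686029805952)]
  lam := [3803527, 0]
  lam' := [4386096, 6860302]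
  Dy := 1000000
  pt := [[(false, [22], 45456)], [(true, [0, 3], 190478), (true, [7, 3], 142859)]]
  pt0 := [[(true, [0, 3], 13394), (true, [7, 3], 142859)], [(true, [1, 1, 1], 1000001)]]
  pt1 := [[(true, [0, 3], 23811), (true, [7, 3], 142859)], []]

def p11_15 : PieceD where
  X0 := 64
  X1 := 128
  D := 128
  w := [(41115751854, 41984066656)]
  wS := (328928815121, 335875335221)
  wL := (575625727291, 575625734565)
  w' := [(246696526084, 238013363827), (725891942425, 725891936809)]
  lam := [0, 3289293]
  lam' := [2466970, 7258924]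
  Dy := 1000000
  pt := [[(false, [22], 45456)], [(true, [0, 3], 190478), (true, [7, 3], 142859)]]
  pt0 := [[(true, [0, 3], 23811), (true, [7, 3], 142859)], [(true, [1, 1, 1], 1000001)]]
  pt1 := [[(true, [0, 3], 190478), (true, [7, 3], 142859)], []]

theorem chk11 : chkAll c11 839 625 [p11_0, p11_1, p11_2, p11_3, p11_4, p11_5, p11_6, p11_7, p11_8,
    p11_9, p11_10, p11_11, p11_12, p11_13, p11_14, p11_15] = true := by
  decide +kernel

/-- bin sizes `2246/3125 ≤ α ≤ 72399/100000` -/
def c12 : CertD where
  M := 3900000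
  A0 := 2803008
  A1 := 2823561
  st := [(100000, 100000, 1), (975000, 975000, 1)]
  lf := [⟨1, some true, 0, 0, 0⟩, ⟨1, none, 2803008, 2823561, 1⟩]

def p12_0 : PieceD where
  X0 := 0
  X1 := 64
  D := 256
  w := [(38674552113327, 38674552113522)]
  wS := (386745661476213, 386745661531710)
  wL := (-773491369206621, -773491369343980)
  w' := [(0, 0), (0, 0)]
  lam := [386745678, 0]
  lam' := [0, 0]
  Dy := 1000000
  pt := [[(false, [28], 35716)], [(true, [0, 3], 222224), (true, [9, 3], 111113)]]
  pt0 := [[(false, [28, 0], 35716)], [(true, [1, 1, 1], 1000001)]]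
  pt1 := [[(true, [29, 1], 9617), (true, [9, 3], 80130)], []]

def p12_1 : PieceD where
  X0 := 64
  X1 := 80
  D := 256
  w := [(38674552113327, 38674552113522)]
  wS := (386745661476213, 386745661531710)
  wL := (-773491369206621, -773491369343980)
  w' := [(0, 0), (0, 0)]
  lam := [386745678, 0]
  lam' := [0, 0]
  Dy := 1000000
  pt := [[(false, [28], 35716)], [(true, [0, 3], 222224), (true, [9, 3], 111113)]]
  pt0 := [[(true, [29, 1], 9617), (true, [9, 3], 80130)], [(true, [1, 1, 1], 1000001)]]
  pt1 := [[(true, [29, 1], 2405), (true, [9, 3], 103367)], []]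

def p12_2 : PieceD where
  X0 := 80
  X1 := 88
  D := 256
  w := [(1903233138027, 1903233140640)]
  wS := (19032471777111, 19032471825237)
  wL := (-15829398, -15557802)
  w' := [(0, 0), (38064959237760, 38064959018697)]
  lam := [9272238, 0]
  lam' := [0, 9760250]
  Dy := 1000000
  pt := [[(false, [28], 35716)], [(true, [0, 3], 222224), (true, [9, 3], 111113)]]
  pt0 := [[(true, [29, 1], 2405), (true, [9, 3], 103367)], [(true, [1, 1, 1], 1000001)]]
  pt1 := [[(true, [0, 3], 3474), (true, [9, 3], 111113)], []]

def p12_3 : PieceD where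
  X0 := 88
  X1 := 89
  D := 256
  w := [(1903232757387, 1903232760039)]
  wS := (19032467970984, 19032468019110)
  wL := (-5021796, -5051904)
  w' := [(0, 0), (38064951323723, 38064951406404)]
  lam := [9272233, 0]
  lam' := [3, 9760248]
  Dy := 1000000
  pt := [[(false, [28], 35716)], [(true, [0, 3], 222224), (true, [9, 3], 111113)]]
  pt0 := [[(true, [0, 3], 3474), (true, [9, 3], 111113)], [(true, [1, 1, 1], 1000001)]]
  pt1 := [[(true, [0, 3], 4776), (true, [9, 3], 111113)], []]

def p12_4 : PieceD where
  X0 := 89
  X1 := 90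
  D := 256
  w := [(1399667755551, 1399668081084)]
  wS := (13938228547308, 13938228398328)
  wL := (14055413799648, 14055414071244)
  w' := [(14055414587058, 14055414366006), (27876472383863, 27876472164840)]
  lam := [3230040, 0]
  lam' := [3603957, 7147818]
  Dy := 1000000
  pt := [[(false, [28], 35716)], [(true, [0, 3], 222224), (true, [9, 3], 111113)]]
  pt0 := [[(true, [0, 3], 4776), (true, [9, 3], 111113)], [(true, [1, 1, 1], 1000001)]]
  pt1 := [[(true, [0, 3], 6078), (true, [9, 3], 111113)], []]

def p12_5 : PieceD where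
  X0 := 90
  X1 := 91
  D := 256
  w := [(1400982632751, 1400982955788)]
  wS := (13951322361404, 13951322212424)
  wL := (14068617479241, 14068617750837)
  w' := [(14068618266650, 14068618045599), (27902660012097, 27902659793073)]
  lam := [3233074, 0]
  lam' := [3607342, 7154533]
  Dy := 1000000
  pt := [[(false, [28], 35716)], [(true, [0, 3], 222224), (true, [9, 3], 111113)]]
  pt0 := [[(true, [0, 3], 6078), (true, [9, 3], 111113)], [(true, [1, 1, 1], 1000001)]]
  pt1 := [[(true, [0, 3], 7380), (true, [9, 3], 111113)], []]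

def p12_6 : PieceD where
  X0 := 91
  X1 := 92
  D := 256
  w := [(1402299982668, 1402300303170)]
  wS := (13964440799244, 13964440650264)
  wL := (14081845989510, 14081846261106)
  w' := [(14081846776920, 14081846555868), (27928896887775, 27928896668712)]
  lam := [3236114, 0]
  lam' := [3610734, 7161260]
  Dy := 1000000
  pt := [[(false, [28], 35716)], [(true, [0, 3], 222224), (true, [9, 3], 111113)]]
  pt0 := [[(true, [0, 3], 7380), (true, [9, 3], 111113)], [(true, [1, 1, 1], 1000001)]]
  pt1 := [[(true, [0, 3], 8682), (true, [9, 3], 111113)], []]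

def p12_7 : PieceD where
  X0 := 92
  X1 := 93
  D := 256
  w := [(1441697997714, 1441698315720)]
  wS := (12148767278310, 12148767129330)
  wL := (18893484612990, 18893484884585)
  w' := [(18893485400400, 18893485179348), (24297549845946, 24297549626882)]
  lam := [3327033, 0]
  lam' := [4844488, 6230145]
  Dy := 1000000
  pt := [[(false, [28], 35716)], [(true, [0, 3], 222224), (true, [9, 3], 111113)]]
  pt0 := [[(true, [0, 3], 8682), (true, [9, 3], 111113)], [(true, [1, 1, 1], 1000001)]]
  pt1 := [[(true, [0, 3], 9984), (true, [9, 3], 111113)], []]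

def p12_8 : PieceD where
  X0 := 93
  X1 := 94
  D := 256
  w := [(1443519138906, 1443519454455)]
  wS := (12164113363856, 12164113214877)
  wL := (18917350482030, 18917350753626)
  w' := [(18917351269439, 18917351048427), (24328242016962, 24328241797938)]
  lam := [3331235, 0]
  lam' := [4850607, 6238015]
  Dy := 1000000
  pt := [[(false, [28], 35716)], [(true, [0, 3], 222224), (true, [9, 3], 111113)]]
  pt0 := [[(true, [0, 3], 9984), (true, [9, 3], 111113)], [(true, [1, 1, 1], 1000001)]]
  pt1 := [[(true, [0, 3], 11286), (true, [9, 3], 111113)], []]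

def p12_9 : PieceD where
  X0 := 94
  X1 := 96
  D := 256
  w := [(1445344886076, 1445345196594)]
  wS := (12179498268326, 12179498119347)
  wL := (18941276721432, 18941276993028)
  w' := [(18941277508842, 18941277287829), (24359011825940, 24359011606917)]
  lam := [3335449, 0]
  lam' := [4856742, 6245905]
  Dy := 1000000
  pt := [[(false, [28], 35716)], [(true, [0, 3], 222224), (true, [9, 3], 111113)]]
  pt0 := [[(true, [0, 3], 11286), (true, [9, 3], 111113)], [(true, [1, 1, 1], 1000001)]]
  pt1 := [[(true, [0, 3], 13890), (true, [9, 3], 111113)], []]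

def p12_10 : PieceD where
  X0 := 96
  X1 := 98
  D := 256
  w := [(1449010271982, 1449010577469)]
  wS := (12210385123677, 12210384974697)
  wL := (18989311228017, 18989311499612)
  w' := [(18989312015427, 18989311794374), (24420785536680, 24420785317616)]
  lam := [3343907, 0]
  lam' := [4869059, 6261744]
  Dy := 1000000
  pt := [[(false, [28], 35716)], [(true, [0, 3], 222224), (true, [9, 3], 111113)]]
  pt0 := [[(true, [0, 3], 13890), (true, [9, 3], 111113)], [(true, [1, 1, 1], 1000001)]]
  pt1 := [[(true, [0, 3], 16495), (true, [9, 3], 111113)], []]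

def p12_11 : PieceD where
  X0 := 98
  X1 := 100
  D := 256
  w := [(1452694295715, 1452694596210)]
  wS := (12241429033470, 12241428884490)
  wL := (19037589981930, 19037590253526)
  w' := [(19037590769340, 19037590548288), (24482873356227, 24482873137203)]
  lam := [3352409, 0]
  lam' := [4881438, 6277664]
  Dy := 1000000
  pt := [[(false, [28], 35716)], [(true, [0, 3], 222224), (true, [9, 3], 111113)]]
  pt0 := [[(true, [0, 3], 16495), (true, [9, 3], 111113)], [(true, [1, 1, 1], 1000001)]]
  pt1 := [[(true, [0, 3], 19099), (true, [9, 3], 111113)], []]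

def p12_12 : PieceD where
  X0 := 100
  X1 := 104
  D := 256
  w := [(1456397098416, 1456397388888)]
  wS := (12272631199101, 12272631050121)
  wL := (19086114851544, 19086115123140)
  w' := [(19086115638954, 19086115417902), (24545277687489, 24545277468426)]
  lam := [3360954, 0]
  lam' := [4893880, 6293665]
  Dy := 1000000
  pt := [[(false, [28], 35716)], [(true, [0, 3], 222224), (true, [9, 3], 111113)]]
  pt0 := [[(true, [0, 3], 19099), (true, [9, 3], 111113)], [(true, [1, 1, 1], 1000001)]]
  pt1 := [[(true, [0, 3], 24307), (true, [9, 3], 111113)], []]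

def p12_13 : PieceD where
  X0 := 104
  X1 := 108
  D := 256
  w := [(1463859625293, 1463859905703)]
  wS := (12335515160826, 12335515011846)
  wL := (19183910500754, 19183910772351)
  w' := [(19183911288165, 19183911067113), (24671045610900, 24671045391876)]
  lam := [3378175, 0]
  lam' := [4918956, 6325914]
  Dy := 1000000
  pt := [[(false, [28], 35716)], [(true, [0, 3], 222224), (true, [9, 3], 111113)]]
  pt0 := [[(true, [0, 3], 24307), (true, [9, 3], 111113)], [(true, [1, 1, 1], 1000001)]]
  pt1 := [[(true, [0, 3], 29515), (true, [9, 3], 111113)], []]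

def p12_14 : PieceD where
  X0 := 108
  X1 := 112
  D := 256
  w := [(1471399020663, 1471399291089)]
  wS := (12399046865243, 12399046716263)
  wL := (19282713504093, 19282713775688)
  w' := [(19282714291503, 19282714070490), (24798109019736, 24798108800712)]
  lam := [3395573, 0]
  lam' := [4944290, 6358494]
  Dy := 1000000
  pt := [[(false, [28], 35716)], [(true, [0, 3], 222224), (true, [9, 3], 111113)]]
  pt0 := [[(true, [0, 3], 29515), (true, [9, 3], 111113)], [(true, [1, 1, 1], 1000001)]]
  pt1 := [[(true, [0, 3], 34724), (true, [9, 3], 111113)], []]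

def p12_15 : PieceD where
  X0 := 112
  X1 := 120
  D := 256
  w := [(1479016475586, 1479016725927)]
  wS := (12463236373340, 12463236224361)
  wL := (19382539508201, 19382539779798)
  w' := [(19382540295612, 19382540074560), (24926488035969, 24926487816945)]
  lam := [3413152, 0]
  lam' := [4969886, 6391412]
  Dy := 1000000
  pt := [[(false, [28], 35716)], [(true, [0, 3], 222224), (true, [9, 3], 111113)]]
  pt0 := [[(true, [0, 3], 34724), (true, [9, 3], 111113)], [(true, [1, 1, 1], 1000001)]]
  pt1 := [[(true, [0, 3], 45140), (true, [9, 3], 111113)], []]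

def p12_16 : PieceD where
  X0 := 120
  X1 := 128
  D := 256
  w := [(1494490478598, 1494490708893)]
  wS := (12593630088429, 12593629939448)
  wL := (19585324728372, 19585324999967)
  w' := [(19585325515782, 19585325294729), (25187275466145, 25187275247121)]
  lam := [3448861, 0]
  lam' := [5021883, 6458280]
  Dy := 1000000
  pt := [[(false, [28], 35716)], [(true, [0, 3], 222224), (true, [9, 3], 111113)]]
  pt0 := [[(true, [0, 3], 45140), (true, [9, 3], 111113)], [(true, [1, 1, 1], 1000001)]]
  pt1 := [[(true, [0, 3], 55557), (true, [9, 3], 111113)], []]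

def p12_17 : PieceD where
  X0 := 128
  X1 := 256
  D := 256
  w := [(1316448376113, 1316448334305)]
  wS := (13109527150200, 13109528155619)
  wL := (23751433044261, 23751433267185)
  w' := [(10641890836746, 10641889486176), (27535533775035, 27535533556011)]
  lam := [0, 3361422]
  lam' := [2728694, 7060398]
  Dy := 1000000
  pt := [[(false, [28], 35716)], [(true, [0, 3], 222224), (true, [9, 3], 111113)]]
  pt0 := [[(true, [0, 3], 55557), (true, [9, 3], 111113)], [(true, [1, 1, 1], 1000001)]]
  pt1 := [[(true, [0, 3], 222224), (true, [9, 3], 111113)], []]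

theorem chk12 : chkAll c12 839 625 [p12_0, p12_1, p12_2, p12_3, p12_4, p12_5, p12_6, p12_7, p12_8,
    p12_9, p12_10, p12_11, p12_12, p12_13, p12_14, p12_15, p12_16, p12_17] = true := by
  decide +kernel

end VB85
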