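import Pool.Agent.LibVB85.CheckDefs

/-! Certificates 2. -/

namespace VB85

/-- bin sizes `72399/100000 ≤ α ≤ 14499/20000` -/
def c13 : CertD where
  M := 100000
  A0 := 72399
  A1 := 72495
  st := [(2500, 2500, 21), (25000, 25000, 20)]
  lf := [⟨1, some true, 0, 0, 0⟩, ⟨1, none, 72399, 72495, 20⟩]

def p13_0 : PieceD where
  X0 := 0
  X1 := 128
  D := 512
  w := [(952380557863, 952380557731)]
  wS := (9523809177069, 9523809178902)
  wL := (-19047619540143, -19047619544486)
  w' := [(0, 0), (0, 0)]
  lam := [371428574, 0]
  lam' := [0, 0]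
  Dy := 1000000
  pt := [[(true, [39], 538463)], [(true, [0, 3], 4333335), (true, [9, 3], 2333335)]]
  pt0 := [[(true, [39, 0], 538463)], [(true, [1, 1, 1], 20000001), (true, [39, 0, 0], 25643)]]
  pt1 := [[(true, [39, 0], 153848), (true, [9, 3], 1666668)], []]

def p13_1 : PieceD where
  X0 := 128
  X1 := 160
  D := 512
  w := [(952380557863, 952380557731)]
  wS := (9523809177069, 9523809178902)
  wL := (-19047619540143, -19047619544486)
  w' := [(0, 0), (0, 0)]
  lam := [371428574, 0]
  lam' := [0, 0]
  Dy := 1000000
  pt := [[(true, [39], 538463)], [(true, [0, 3], 4333335), (true, [9, 3], 2333335)]]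
  pt0 := [[(true, [39, 0], 153848), (true, [9, 3], 1666668)], [(true, [1, 1, 1], 20000001), (true,
    [39, 0, 0], 25643)]]
  pt1 := [[(true, [39, 0], 57694), (true, [9, 3], 2083335)], []]

def p13_2 : PieceD where
  X0 := 160
  X1 := 176
  D := 512
  w := [(48691778874, 48691778742)]
  wS := (486921387175, 486921389007)
  wL := (-405882, -398918)
  w' := [(0, 0), (973843177689, 973843172072)]
  lam := [9251514, 0]
  lam' := [0, 9738436]
  Dy := 1000000
  pt := [[(true, [39], 538463)], [(true, [0, 3], 4333335), (true, [9, 3], 2333335)]]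
  pt0 := [[(true, [39, 0], 57694), (true, [9, 3], 2083335)], [(true, [1, 1, 1], 20000001), (true,
    [39, 0, 0], 25643)]]
  pt1 := [[(true, [39, 0], 9617), (true, [9, 3], 2291668)], []]

def p13_3 : PieceD where
  X0 := 176
  X1 := 178
  D := 512
  w := [(36714769236, 36714769899)]
  wS := (367151301125, 367151300574)
  wL := (330436127679, 330436128104)
  w' := [(330436141329, 330436135662), (734302992965, 734302995205)]
  lam := [3671518, 0]
  lam' := [3304366, 7343034]
  Dy := 1000000
  pt := [[(true, [39], 538463)], [(true, [0, 3], 4333335), (true, [9, 3], 2333335)]]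
  pt0 := [[(true, [39, 0], 9617), (true, [9, 3], 2291668)], [(true, [1, 1, 1], 20000001), (true,
    [39, 0, 0], 25643)]]
  pt1 := [[(true, [39, 0], 3607), (true, [9, 3], 2317710)], []]

def p13_4 : PieceD where
  X0 := 178
  X1 := 180
  D := 512
  w := [(36750042367, 36750043032)]
  wS := (367504032471, 367504031911)
  wL := (330753585864, 330753586306)
  w' := [(330753599533, 330753593865), (735008455669, 735008457879)]
  lam := [3675045, 0]
  lam' := [3307540, 7350089]
  Dy := 1000000
  pt := [[(true, [39], 538463)], [(true, [0, 3], 4333335), (true, [9, 3], 2333335)]]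
  pt0 := [[(true, [39, 0], 3607), (true, [9, 3], 2317710)], [(true, [1, 1, 1], 20000001), (true,
    [39, 0, 0], 25643)]]
  pt1 := [[(true, [0, 3], 10418), (true, [9, 3], 2333335)], []]

def p13_5 : PieceD where
  X0 := 180
  X1 := 182
  D := 512
  w := [(36783919605, 36783920273)]
  wS := (367842804890, 367842804323)
  wL := (331058481016, 331058481477)
  w' := [(331058494703, 331058489036), (735686000521, 735686002702)]
  lam := [3678433, 0]
  lam' := [3310589, 7356864]
  Dy := 1000000
  pt := [[(true, [39], 538463)], [(true, [0, 3], 4333335), (true, [9, 3], 2333335)]]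
  pt0 := [[(true, [0, 3], 10418), (true, [9, 3], 2333335)], [(true, [1, 1, 1], 20000001), (true,
    [39, 0, 0], 25643)]]
  pt1 := [[(true, [0, 3], 36460), (true, [9, 3], 2333335)], []]

def p13_6 : PieceD where
  X0 := 182
  X1 := 183
  D := 512
  w := [(36815659925, 36815660595)]
  wS := (368160208113, 368160207540)
  wL := (331344143903, 331344144373)
  w' := [(331344157599, 331344151931), (736320806971, 736320809136)]
  lam := [3681607, 0]
  lam' := [3313446, 7363213]
  Dy := 1000000
  pt := [[(true, [39], 538463)], [(true, [0, 3], 4333335), (true, [9, 3], 2333335)]]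
  pt0 := [[(true, [0, 3], 36460), (true, [9, 3], 2333335)], [(true, [1, 1, 1], 20000001), (true,
    [39, 0, 0], 25643)]]
  pt1 := [[(true, [0, 3], 49481), (true, [9, 3], 2333335)], []]

def p13_7 : PieceD where
  X0 := 183
  X1 := 184
  D := 512
  w := [(38176074643, 38176076092)]
  wS := (305575182641, 305575093087)
  wL := (495966244249, 495966422679)
  w' := [(495966435906, 495966430239), (611150585847, 611150580231)]
  lam := [3817648, 0]
  lam' := [4959669, 6111510]
  Dy := 1000000
  pt := [[(true, [39], 538463)], [(true, [0, 3], 4333335), (true, [9, 3], 2333335)]]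
  pt0 := [[(true, [0, 3], 49481), (true, [9, 3], 2333335)], [(true, [1, 1, 1], 20000001), (true,
    [39, 0, 0], 25643)]]
  pt1 := [[(true, [0, 3], 62501), (true, [9, 3], 2333335)], []]

def p13_8 : PieceD where
  X0 := 184
  X1 := 186
  D := 512
  w := [(38200744346, 38200745794)]
  wS := (305772646094, 305772568438)
  wL := (496286738715, 496286893351)
  w' := [(496286906578, 496286900910), (611545536550, 611545530934)]
  lam := [3820115, 0]
  lam' := [4962873, 6115460]
  Dy := 1000000
  pt := [[(true, [39], 538463)], [(true, [0, 3], 4333335), (true, [9, 3], 2333335)]]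
  pt0 := [[(true, [0, 3], 62501), (true, [9, 3], 2333335)], [(true, [1, 1, 1], 20000001), (true,
    [39, 0, 0], 25643)]]
  pt1 := [[(true, [0, 3], 88543), (true, [9, 3], 2333335)], []]

def p13_9 : PieceD where
  X0 := 186
  X1 := 188
  D := 512
  w := [(38250182198, 38250182067)]
  wS := (306168343992, 306168259152)
  wL := (496928979012, 496929148017)
  w' := [(496929161243, 496929155576), (612336917976, 612336912360)]
  lam := [3825059, 0]
  lam' := [4969296, 6123374]
  Dy := 1000000
  pt := [[(true, [39], 538463)], [(true, [0, 3], 4333335), (true, [9, 3], 2333335)]]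
  pt0 := [[(true, [0, 3], 88543), (true, [9, 3], 2333335)], [(true, [1, 1, 1], 20000001), (true,
    [39, 0, 0], 25643)]]
  pt1 := [[(true, [0, 3], 114585), (true, [9, 3], 2333335)], []]

def p13_10 : PieceD where
  X0 := 188
  X1 := 192
  D := 512
  w := [(38299745623, 38299745492)]
  wS := (306565064020, 306564995399)
  wL := (497572878283, 497573014848)
  w' := [(497573028075, 497573022406), (613130390471, 613130384854)]
  lam := [3830015, 0]
  lam' := [4975735, 6131308]
  Dy := 1000000
  pt := [[(true, [39], 538463)], [(true, [0, 3], 4333335), (true, [9, 3], 2333335)]]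
  pt0 := [[(true, [0, 3], 114585), (true, [9, 3], 2333335)], [(true, [1, 1, 1], 20000001), (true,
    [39, 0, 0], 25643)]]
  pt1 := [[(true, [0, 3], 166668), (true, [9, 3], 2333335)], []]

def p13_11 : PieceD where
  X0 := 192
  X1 := 196
  D := 512
  w := [(38399259202, 38399259070)]
  wS := (307361599561, 307361542038)
  wL := (498865700978, 498865815348)
  w' := [(498865828573, 498865822906), (614723483748, 614723478132)]
  lam := [3839967, 0]
  lam' := [4988663, 6147239]
  Dy := 1000000
  pt := [[(true, [39], 538463)], [(true, [0, 3], 4333335), (true, [9, 3], 2333335)]]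
  pt0 := [[(true, [0, 3], 166668), (true, [9, 3], 2333335)], [(true, [1, 1, 1], 20000001), (true,
    [39, 0, 0], 25643)]]
  pt1 := [[(true, [0, 3], 218751), (true, [9, 3], 2333335)], []]

def p13_12 : PieceD where
  X0 := 196
  X1 := 200
  D := 512
  w := [(38499291303, 38499291171)]
  wS := (308162285506, 308162236054)
  wL := (500165260014, 500165358243)
  w' := [(500165371469, 500165365802), (616324871781, 616324866165)]
  lam := [3849970, 0]
  lam' := [5001658, 6163253]
  Dy := 1000000
  pt := [[(true, [39], 538463)], [(true, [0, 3], 4333335), (true, [9, 3], 2333335)]]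
  pt0 := [[(true, [0, 3], 218751), (true, [9, 3], 2333335)], [(true, [1, 1, 1], 20000001), (true,
    [39, 0, 0], 25643)]]
  pt1 := [[(true, [0, 3], 270835), (true, [9, 3], 2333335)], []]

def p13_13 : PieceD where
  X0 := 200
  X1 := 208
  D := 512
  w := [(38599845873, 38599845742)]
  wS := (308967153449, 308967114951)
  wL := (501471606674, 501471682996)
  w' := [(501471696221, 501471690554), (617934629575, 617934623959)]
  lam := [3860025, 0]
  lam' := [5014721, 6179351]
  Dy := 1000000
  pt := [[(true, [39], 538463)], [(true, [0, 3], 4333335), (true, [9, 3], 2333335)]]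
  pt0 := [[(true, [0, 3], 270835), (true, [9, 3], 2333335)], [(true, [1, 1, 1], 20000001), (true,
    [39, 0, 0], 25643)]]
  pt1 := [[(true, [0, 3], 375001), (true, [9, 3], 2333335)], []]

def p13_14 : PieceD where
  X0 := 208
  X1 := 216
  D := 512
  w := [(38802539366, 38802539234)]
  wS := (310589570947, 310589539536)
  wL := (504104882969, 504104945116)
  w' := [(504104958342, 504104952674), (621179478744, 621179473128)]
  lam := [3880295, 0]
  lam' := [5041054, 6211799]
  Dy := 1000000
  pt := [[(true, [39], 538463)], [(true, [0, 3], 4333335), (true, [9, 3], 2333335)]]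
  pt0 := [[(true, [0, 3], 375001), (true, [9, 3], 2333335)], [(true, [1, 1, 1], 20000001), (true,
    [39, 0, 0], 25643)]]
  pt1 := [[(true, [0, 3], 479168), (true, [9, 3], 2333335)], []]

def p13_15 : PieceD where
  X0 := 216
  X1 := 224
  D := 512
  w := [(39007372858, 39007372726)]
  wS := (312229117613, 312229091164)
  wL := (506765960886, 506766013110)
  w' := [(506766026336, 506766020668), (624458582000, 624458576384)]
  lam := [3900778, 0]
  lam' := [5067665, 6244590]
  Dy := 1000000
  pt := [[(true, [39], 538463)], [(true, [0, 3], 4333335), (true, [9, 3], 2333335)]]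
  pt0 := [[(true, [0, 3], 479168), (true, [9, 3], 2333335)], [(true, [1, 1, 1], 20000001), (true,
    [39, 0, 0], 25643)]]
  pt1 := [[(true, [0, 3], 583335), (true, [9, 3], 2333335)], []]

def p13_16 : PieceD where
  X0 := 224
  X1 := 240
  D := 512
  w := [(39214380339, 39214380207)]
  wS := (313886065525, 313886045563)
  wL := (509455282016, 509455321265)
  w' := [(509455334491, 509455328823), (627772490798, 627772485182)]
  lam := [3921479, 0]
  lam' := [5094558, 6277729]
  Dy := 1000000
  pt := [[(true, [39], 538463)], [(true, [0, 3], 4333335), (true, [9, 3], 2333335)]]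
  pt0 := [[(true, [0, 3], 583335), (true, [9, 3], 2333335)], [(true, [1, 1, 1], 20000001), (true,
    [39, 0, 0], 25643)]]
  pt1 := [[(true, [0, 3], 791668), (true, [9, 3], 2333335)], []]

def p13_17 : PieceD where
  X0 := 240
  X1 := 256
  D := 512
  w := [(39635057520, 39635057388)]
  wS := (317253287680, 317253271773)
  wL := (514920475962, 514920507101)
  w' := [(514920520326, 514920514659), (634506943218, 634506937601)]
  lam := [3963546, 0]
  lam' := [5149210, 6345074]
  Dy := 1000000
  pt := [[(true, [39], 538463)], [(true, [0, 3], 4333335), (true, [9, 3], 2333335)]]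
  pt0 := [[(true, [0, 3], 791668), (true, [9, 3], 2333335)], [(true, [1, 1, 1], 20000001), (true,
    [39, 0, 0], 25643)]]
  pt1 := [[(true, [0, 3], 1000001), (true, [9, 3], 2333335)], []]

def p13_18 : PieceD where
  X0 := 256
  X1 := 512
  D := 512
  w := [(33766557213, 33766557081)]
  wS := (337669170564, 337669172997)
  wL := (615760662096, 615760660329)
  w' := [(278091092348, 278091086680), (701149867593, 701149861976)]
  lam := [1, 3376696]
  lam' := [2780915, 7011503]
  Dy := 1000000
  pt := [[(true, [39], 538463)], [(true, [0, 3], 4333335), (true, [9, 3], 2333335)]]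
  pt0 := [[(true, [0, 3], 1000001), (true, [9, 3], 2333335)], [(true, [1, 1, 1], 20000001), (true,
    [39, 0, 0], 25643)]]
  pt1 := [[(true, [0, 3], 4333335), (true, [9, 3], 2333335)], []]

theorem chk13 : chkAll c13 839 625 [p13_0, p13_1, p13_2, p13_3, p13_4, p13_5, p13_6, p13_7, p13_8,
    p13_9, p13_10, p13_11, p13_12, p13_13, p13_14, p13_15, p13_16, p13_17, p13_18] = true := by
  decide +kernel

/-- bin sizes `14499/20000 ≤ α ≤ 14509/20000` -/
def c14 : CertD where
  M := 820000
  A0 := 594459
  A1 := 594869
  st := [(20000, 20000, 23), (205000, 205000, 20)]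
  lf := [⟨1, some true, 0, 0, 0⟩, ⟨1, none, 594459, 594869, 20⟩]

def p14_0 : PieceD where
  X0 := 0
  X1 := 128
  D := 512
  w := [(7129939790467, 7130431542769)]
  wS := (71299427423097, 71304344960760)
  wL := (-142598864571437, -142608699652306)
  w' := [(0, 0), (0, 0)]
  lam := [347826089, 0]
  lam' := [0, 0]
  Dy := 1000000
  pt := [[(true, [40], 575002)], [(true, [0, 3], 4366668), (true, [10, 3], 2300002)]]
  pt0 := [[(true, [40, 0], 575002)], [(true, [1, 1, 1], 20000001), (true, [40, 0, 0], 75001)]]
  pt1 := [[(true, [40, 0], 158335), (true, [10, 3], 1666668)], []]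

def p14_1 : PieceD where
  X0 := 128
  X1 := 160
  D := 512
  w := [(7129939790467, 7130431542769)]
  wS := (71299427423097, 71304344960760)
  wL := (-142598864571445, -142608699652314)
  w' := [(0, 0), (0, 0)]
  lam := [347826089, 0]
  lam' := [0, 0]
  Dy := 1000000
  pt := [[(true, [40], 575002)], [(true, [0, 3], 4366668), (true, [10, 3], 2300002)]]
  pt0 := [[(true, [40, 0], 158335), (true, [10, 3], 1666668)], [(true, [1, 1, 1], 20000001),
    (true, [40, 0, 0], 75001)]]
  pt1 := [[(true, [40, 0], 54168), (true, [10, 3], 2083335)], []]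

def p14_2 : PieceD where
  X0 := 160
  X1 := 168
  D := 512
  w := [(397089635960, 397117021746)]
  wS := (3970925877994, 3971199750475)
  wL := (-3328233, -551078729)
  w' := [(0, 0), (7941854970668, 7941819222817)]
  lam := [9686530, 0]
  lam' := [0, 9685193]
  Dy := 1000000
  pt := [[(true, [40], 575002)], [(true, [0, 3], 4366668), (true, [10, 3], 2300002)]]
  pt0 := [[(true, [40, 0], 54168), (true, [10, 3], 2083335)], [(true, [1, 1, 1], 20000001), (true,
    [40, 0, 0], 75001)]]
  pt1 := [[(true, [40, 0], 28126), (true, [10, 3], 2187501)], []]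

def p14_3 : PieceD where
  X0 := 168
  X1 := 172
  D := 512
  w := [(397089635960, 397117021746)]
  wS := (3970925877994, 3971199750475)
  wL := (-3328233, -551078729)
  w' := [(0, 0), (7941854970668, 7941825641384)]
  lam := [9686530, 0]
  lam' := [0, 9685193]
  Dy := 1000000
  pt := [[(true, [40], 575002)], [(true, [0, 3], 4366668), (true, [10, 3], 2300002)]]
  pt0 := [[(true, [40, 0], 28126), (true, [10, 3], 2187501)], [(true, [1, 1, 1], 20000001), (true,
    [40, 0, 0], 75001)]]
  pt1 := [[(true, [40, 0], 15106), (true, [10, 3], 2239585)], []]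

def p14_4 : PieceD where
  X0 := 172
  X1 := 174
  D := 512
  w := [(397089635960, 397117021746)]
  wS := (3970925877994, 3971199750475)
  wL := (-3328233, -551078729)
  w' := [(0, 0), (7941854970668, 7941854924609)]
  lam := [9686530, 0]
  lam' := [0, 9685193]
  Dy := 1000000
  pt := [[(true, [40], 575002)], [(true, [0, 3], 4366668), (true, [10, 3], 2300002)]]
  pt0 := [[(true, [40, 0], 15106), (true, [10, 3], 2239585)], [(true, [1, 1, 1], 20000001), (true,
    [40, 0, 0], 75001)]]
  pt1 := [[(true, [40, 0], 8595), (true, [10, 3], 2265626)], []]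

def p14_5 : PieceD where
  X0 := 174
  X1 := 175
  D := 512
  w := [(397088643489, 397116029210)]
  wS := (3970915953313, 3971189825105)
  wL := (24231098, -523518029)
  w' := [(24396656, 24350178), (7941835121289, 7941835075238)]
  lam := [9686472, 0]
  lam' := [34, 9685169]
  Dy := 1000000
  pt := [[(true, [40], 575002)], [(true, [0, 3], 4366668), (true, [10, 3], 2300002)]]
  pt0 := [[(true, [40, 0], 8595), (true, [10, 3], 2265626)], [(true, [1, 1, 1], 20000001), (true,
    [40, 0, 0], 75001)]]
  pt1 := [[(true, [40, 0], 5340), (true, [10, 3], 2278647)], []]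

def p14_6 : PieceD where
  X0 := 175
  X1 := 176
  D := 512
  w := [(291929562225, 291929622659)]
  wS := (2919325140659, 2919325109335)
  wL := (2920129879286, 2920129936391)
  w' := [(2920130044844, 2920129998367), (5838653495989, 5838653449929)]
  lam := [3560158, 0]
  lam' := [3561139, 7120314]
  Dy := 1000000
  pt := [[(true, [40], 575002)], [(true, [0, 3], 4366668), (true, [10, 3], 2300002)]]
  pt0 := [[(true, [40, 0], 5340), (true, [10, 3], 2278647)], [(true, [1, 1, 1], 20000001), (true,
    [40, 0, 0], 75001)]]
  pt1 := [[(true, [40, 0], 2085), (true, [10, 3], 2291668)], []]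

def p14_7 : PieceD where
  X0 := 176
  X1 := 177
  D := 512
  w := [(292081928712, 292081988925)]
  wS := (2920848805578, 2920848774254)
  wL := (2921653966841, 2921654023954)
  w' := [(2921654132408, 2921654085930), (5841700825827, 5841700779767)]
  lam := [3562016, 0]
  lam' := [3562997, 7124030]
  Dy := 1000000
  pt := [[(true, [40], 575002)], [(true, [0, 3], 4366668), (true, [10, 3], 2300002)]]
  pt0 := [[(true, [40, 0], 2085), (true, [10, 3], 2291668)], [(true, [1, 1, 1], 20000001), (true,
    [40, 0, 0], 75001)]]
  pt1 := [[(true, [0, 3], 4689), (true, [10, 3], 2300002)], []]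

def p14_8 : PieceD where
  X0 := 177
  X1 := 178
  D := 512
  w := [(292228350249, 292228410232)]
  wS := (2922313020948, 2922312989624)
  wL := (2923118588456, 2923118645561)
  w' := [(2923118754014, 2923118707536), (5844629256558, 5844629210507)]
  lam := [3563802, 0]
  lam' := [3564783, 7127601]
  Dy := 1000000
  pt := [[(true, [40], 575002)], [(true, [0, 3], 4366668), (true, [10, 3], 2300002)]]
  pt0 := [[(true, [0, 3], 4689), (true, [10, 3], 2300002)], [(true, [1, 1, 1], 20000001), (true,
    [40, 0, 0], 75001)]]
  pt1 := [[(true, [0, 3], 17710), (true, [10, 3], 2300002)], []]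

def p14_9 : PieceD where
  X0 := 178
  X1 := 179
  D := 512
  w := [(292364056699, 292364116444)]
  wS := (2923670085409, 2923670054085)
  wL := (2924476029600, 2924476086705)
  w' := [(2924476195158, 2924476148681), (5847343385489, 5847343339430)]
  lam := [3565457, 0]
  lam' := [3566439, 7130911]
  Dy := 1000000
  pt := [[(true, [40], 575002)], [(true, [0, 3], 4366668), (true, [10, 3], 2300002)]]
  pt0 := [[(true, [0, 3], 17710), (true, [10, 3], 2300002)], [(true, [1, 1, 1], 20000001), (true,
    [40, 0, 0], 75001)]]
  pt1 := [[(true, [0, 3], 30731), (true, [10, 3], 2300002)], []]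

def p14_10 : PieceD where
  X0 := 179
  X1 := 180
  D := 512
  w := [(292499889240, 292499948763)]
  wS := (2925028410850, 2925028379526)
  wL := (2925834732061, 2925834789174)
  w' := [(2925834897627, 2925834851149), (5850060036362, 5850059990311)]
  lam := [3567113, 0]
  lam' := [3568096, 7134224]
  Dy := 1000000
  pt := [[(true, [40], 575002)], [(true, [0, 3], 4366668), (true, [10, 3], 2300002)]]
  pt0 := [[(true, [0, 3], 30731), (true, [10, 3], 2300002)], [(true, [1, 1, 1], 20000001), (true,
    [40, 0, 0], 75001)]]
  pt1 := [[(true, [0, 3], 43752), (true, [10, 3], 2300002)], []]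

def p14_11 : PieceD where
  X0 := 180
  X1 := 181
  D := 512
  w := [(292635848060, 292635907355)]
  wS := (2926387999025, 2926387967701)
  wL := (2927194697616, 2927194754721)
  w' := [(2927194863174, 2927194816697), (5852779212713, 5852779166662)]
  lam := [3568771, 0]
  lam' := [3569754, 7137540]
  Dy := 1000000
  pt := [[(true, [40], 575002)], [(true, [0, 3], 4366668), (true, [10, 3], 2300002)]]
  pt0 := [[(true, [0, 3], 43752), (true, [10, 3], 2300002)], [(true, [1, 1, 1], 20000001), (true,
    [40, 0, 0], 75001)]]
  pt1 := [[(true, [0, 3], 56772), (true, [10, 3], 2300002)], []]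

def p14_12 : PieceD where
  X0 := 181
  X1 := 182
  D := 512
  w := [(292771933325, 292771992390)]
  wS := (2927748851689, 2927748820365)
  wL := (2928555928005, 2928555985110)
  w' := [(2928556093564, 2928556047086), (5855500918050, 5855500871990)]
  lam := [3570431, 0]
  lam' := [3571414, 7140859]
  Dy := 1000000
  pt := [[(true, [40], 575002)], [(true, [0, 3], 4366668), (true, [10, 3], 2300002)]]
  pt0 := [[(true, [0, 3], 56772), (true, [10, 3], 2300002)], [(true, [1, 1, 1], 20000001), (true,
    [40, 0, 0], 75001)]]
  pt1 := [[(true, [0, 3], 69793), (true, [10, 3], 2300002)], []]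

def p14_13 : PieceD where
  X0 := 182
  X1 := 183
  D := 512
  w := [(301985282798, 301985341633)]
  wS := (2492084290363, 2492084259039)
  wL := (4076310954982, 4076311012086)
  w' := [(4076311120540, 4076311074062), (4984171795405, 4984171749346)]
  lam := [3682789, 0]
  lam' := [4971115, 6078263]
  Dy := 1000000
  pt := [[(true, [40], 575002)], [(true, [0, 3], 4366668), (true, [10, 3], 2300002)]]
  pt0 := [[(true, [0, 3], 69793), (true, [10, 3], 2300002)], [(true, [1, 1, 1], 20000001), (true,
    [40, 0, 0], 75001)]]
  pt1 := [[(true, [0, 3], 82814), (true, [10, 3], 2300002)], []]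

def p14_14 : PieceD where
  X0 := 183
  X1 := 184
  D := 512
  w := [(302180880653, 302180939251)]
  wS := (2493698415091, 2493698383767)
  wL := (4078951182995, 4078951240100)
  w' := [(4078951348553, 4078951302075), (4987400044861, 4987399998801)]
  lam := [3685174, 0]
  lam' := [4974335, 6082200]
  Dy := 1000000
  pt := [[(true, [40], 575002)], [(true, [0, 3], 4366668), (true, [10, 3], 2300002)]]
  pt0 := [[(true, [0, 3], 82814), (true, [10, 3], 2300002)], [(true, [1, 1, 1], 20000001), (true,
    [40, 0, 0], 75001)]]
  pt1 := [[(true, [0, 3], 95835), (true, [10, 3], 2300002)], []]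

def p14_15 : PieceD where
  X0 := 184
  X1 := 186
  D := 512
  w := [(302376731971, 302376790117)]
  wS := (2495314632139, 2495314600815)
  wL := (4081594833418, 4081594890522)
  w' := [(4081594998976, 4081594952506), (4990632478949, 4990632432897)]
  lam := [3687562, 0]
  lam' := [4977559, 6086142]
  Dy := 1000000
  pt := [[(true, [40], 575002)], [(true, [0, 3], 4366668), (true, [10, 3], 2300002)]]
  pt0 := [[(true, [0, 3], 95835), (true, [10, 3], 2300002)], [(true, [1, 1, 1], 20000001), (true,
    [40, 0, 0], 75001)]]
  pt1 := [[(true, [0, 3], 121877), (true, [10, 3], 2300002)], []]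

def p14_16 : PieceD where
  X0 := 186
  X1 := 188
  D := 512
  w := [(302769197361, 302769255048)]
  wS := (2498553359349, 2498553328025)
  wL := (4086892427936, 4086892485041)
  w' := [(4086892593494, 4086892547016), (4997109933370, 4997109887310)]
  lam := [3692349, 0]
  lam' := [4984020, 6094041]
  Dy := 1000000
  pt := [[(true, [40], 575002)], [(true, [0, 3], 4366668), (true, [10, 3], 2300002)]]
  pt0 := [[(true, [0, 3], 121877), (true, [10, 3], 2300002)], [(true, [1, 1, 1], 20000001), (true,
    [40, 0, 0], 75001)]]
  pt1 := [[(true, [0, 3], 147918), (true, [10, 3], 2300002)], []]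

def p14_17 : PieceD where
  X0 := 188
  X1 := 192
  D := 512
  w := [(303162682701, 303162739469)]
  wS := (2501800504762, 2501800473438)
  wL := (4092203792132, 4092203849237)
  w' := [(4092203957690, 4092203911213), (5003604224195, 5003604178144)]
  lam := [3697147, 0]
  lam' := [4990497, 6101961]
  Dy := 1000000
  pt := [[(true, [40], 575002)], [(true, [0, 3], 4366668), (true, [10, 3], 2300002)]]
  pt0 := [[(true, [0, 3], 147918), (true, [10, 3], 2300002)], [(true, [1, 1, 1], 20000001), (true,
    [40, 0, 0], 75001)]]
  pt1 := [[(true, [0, 3], 200001), (true, [10, 3], 2300002)], []]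

def p14_18 : PieceD where
  X0 := 192
  X1 := 196
  D := 512
  w := [(303952729938, 303952785796)]
  wS := (2508320181565, 2508320150241)
  wL := (4102868044447, 4102868101552)
  w' := [(4102868210005, 4102868163536), (5016643577802, 5016643531751)]
  lam := [3706782, 0]
  lam' := [5003502, 6117862]
  Dy := 1000000
  pt := [[(true, [40], 575002)], [(true, [0, 3], 4366668), (true, [10, 3], 2300002)]]
  pt0 := [[(true, [0, 3], 200001), (true, [10, 3], 2300002)], [(true, [1, 1, 1], 20000001), (true,
    [40, 0, 0], 75001)]]
  pt1 := [[(true, [0, 3], 252085), (true, [10, 3], 2300002)], []]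

def p14_19 : PieceD where
  X0 := 196
  X1 := 200
  D := 512
  w := [(304746905653, 304746960585)]
  wS := (2514873927614, 2514873896290)
  wL := (4113588023823, 4113588080936)
  w' := [(4113588189389, 4113588142911), (5029751069858, 5029751023807)]
  lam := [3716467, 0]
  lam' := [5016575, 6133847]
  Dy := 1000000
  pt := [[(true, [40], 575002)], [(true, [0, 3], 4366668), (true, [10, 3], 2300002)]]
  pt0 := [[(true, [0, 3], 252085), (true, [10, 3], 2300002)], [(true, [1, 1, 1], 20000001), (true,
    [40, 0, 0], 75001)]]
  pt1 := [[(true, [0, 3], 304168), (true, [10, 3], 2300002)], []]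

def p14_20 : PieceD where
  X0 := 200
  X1 := 208
  D := 512
  w := [(305545241991, 305545295094)]
  wS := (2521462010687, 2521461979363)
  wL := (4124364168516, 4124364225621)
  w' := [(4124364334074, 4124364287597), (5042927236061, 5042927190027)]
  lam := [3726203, 0]
  lam' := [5029717, 6149916]
  Dy := 1000000
  pt := [[(true, [40], 575002)], [(true, [0, 3], 4366668), (true, [10, 3], 2300002)]]
  pt0 := [[(true, [0, 3], 304168), (true, [10, 3], 2300002)], [(true, [1, 1, 1], 20000001), (true,
    [40, 0, 0], 75001)]]
  pt1 := [[(true, [0, 3], 408335), (true, [10, 3], 2300002)], []]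

def p14_21 : PieceD where
  X0 := 208
  X1 := 216
  D := 512
  w := [(307154529481, 307154580756)]
  wS := (2534742272651, 2534742241327)
  wL := (4146086727500, 4146086784605)
  w' := [(4146086893058, 4146086846580), (5069487759965, 5069487713931)]
  lam := [3745828, 0]
  lam' := [5056208, 6182307]
  Dy := 1000000
  pt := [[(true, [40], 575002)], [(true, [0, 3], 4366668), (true, [10, 3], 2300002)]]
  pt0 := [[(true, [0, 3], 408335), (true, [10, 3], 2300002)], [(true, [1, 1, 1], 20000001), (true,
    [40, 0, 0], 75001)]]
  pt1 := [[(true, [0, 3], 512501), (true, [10, 3], 2300002)], []]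

def p14_22 : PieceD where
  X0 := 216
  X1 := 224
  D := 512
  w := [(308780858597, 308780908035)]
  wS := (2548163166436, 2548163135112)
  wL := (4168039318345, 4168039375450)
  w' := [(4168039483903, 4168039437425), (5096329547543, 5096329501484)]
  lam := [3765661, 0]
  lam' := [5082979, 6215040]
  Dy := 1000000
  pt := [[(true, [40], 575002)], [(true, [0, 3], 4366668), (true, [10, 3], 2300002)]]
  pt0 := [[(true, [0, 3], 512501), (true, [10, 3], 2300002)], [(true, [1, 1, 1], 20000001), (true,
    [40, 0, 0], 75001)]]
  pt1 := [[(true, [0, 3], 616668), (true, [10, 3], 2300002)], []]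

def p14_23 : PieceD where
  X0 := 224
  X1 := 240
  D := 512
  w := [(310424500881, 310424546654)]
  wS := (2561726938046, 2561726906722)
  wL := (4190225614823, 4190225671936)
  w' := [(4190225780390, 4190225733912), (5123457090755, 5123457044704)]
  lam := [3785706, 0]
  lam' := [5110036, 6248123]
  Dy := 1000000
  pt := [[(true, [40], 575002)], [(true, [0, 3], 4366668), (true, [10, 3], 2300002)]]
  pt0 := [[(true, [0, 3], 616668), (true, [10, 3], 2300002)], [(true, [1, 1, 1], 20000001), (true,
    [40, 0, 0], 75001)]]
  pt1 := [[(true, [0, 3], 825002), (true, [10, 3], 2300002)], []]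

def p14_24 : PieceD where
  X0 := 240
  X1 := 256
  D := 512
  w := [(313764845706, 313764887838)]
  wS := (2589292338133, 2589292306760)
  wL := (4235314411385, 4235314468489)
  w' := [(4235314576943, 4235314530473), (5178587890929, 5178587844878)]
  lam := [3826442, 0]
  lam' := [5165022, 6315355]
  Dy := 1000000
  pt := [[(true, [40], 575002)], [(true, [0, 3], 4366668), (true, [10, 3], 2300002)]]
  pt0 := [[(true, [0, 3], 825002), (true, [10, 3], 2300002)], [(true, [1, 1, 1], 20000001), (true,
    [40, 0, 0], 75001)]]
  pt1 := [[(true, [0, 3], 1033335), (true, [10, 3], 2300002)], []]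

def p14_25 : PieceD where
  X0 := 256
  X1 := 512
  D := 512
  w := [(269601851326, 269620444244)]
  wS := (2696048035625, 2696233980400)
  wL := (5122494150946, 5122494197809)
  w' := [(2426442949423, 2426214150793), (5662448195575, 5662448149564)]
  lam := [1, 3287868]
  lam' := [2959081, 6905429]
  Dy := 1000000
  pt := [[(true, [40], 575002)], [(true, [0, 3], 4366668), (true, [10, 3], 2300002)]]
  pt0 := [[(true, [0, 3], 1033335), (true, [10, 3], 2300002)], [(true, [1, 1, 1], 20000001),
    (true, [40, 0, 0], 75001)]]
  pt1 := [[(true, [0, 3], 4366668), (true, [10, 3], 2300002)], []]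

theorem chk14 : chkAll c14 839 625 [p14_0, p14_1, p14_2, p14_3, p14_4, p14_5, p14_6, p14_7, p14_8,
    p14_9, p14_10, p14_11, p14_12, p14_13, p14_14, p14_15, p14_16, p14_17, p14_18, p14_19, p14_20,
    p14_21, p14_22, p14_23, p14_24, p14_25] = true := by
  decide +kernel

end VB85
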