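import Pool.Agent.LibVB85.CheckDefs

/-! Certificates 4. -/

namespace VB85

/-- bin sizes `36289/50000 ≤ α ≤ 36291/50000` -/
def c17 : CertD where
  M := 69300000
  A0 := 50296554
  A1 := 50299326
  st := [(900000, 900000, 10), (7700000, 7700000, 5), (25148277, 25149663, 5)]
  lf := [⟨1, none, 34650000, 34650000, 3⟩, ⟨2, none, 34650000, 34650000, 5⟩]

def p17_0 : PieceD where
  X0 := 0
  X1 := 1
  D := 1
  w := [(14799590794296, 14799590813699), (125798600327399, 125798600707163)]
  wS := (377396357825718, 377395427405997)
  wL := (377396353003824, 377396542747917)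
  w' := [(33583986966915, 33585840888831), (377396360851356, 377396172778086)]
  lam := [1330659, 3447456, 3388249]
  lam' := [667725, 7503430]
  Dy := 1000000
  pt := [[(true, [76], 131580)], [(true, [17, 7], 500001), (true, [8, 8], 187501)], [(true, [4, 2,
    2], 2500001)]]
  pt0 := [[(true, [38, 0, 1], 71430), (false, [17, 0, 1], 428573), (false, [0, 2, 1], 2500001)],
    [(true, [2, 1, 1, 1], 5000001)]]
  pt1 := [[], []]

theorem chk17 : chkAll c17 839 625 [p17_0] = true := by
  decide +kernel

/-- bin sizes `36291/50000 ≤ α ≤ 7259/10000` -/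
def c18 : CertD where
  M := 173700000
  A0 := 126074934
  A1 := 126088830
  st := [(900000, 900000, 25), (19300000, 19300000, 5), (63037467, 63044415, 5)]
  lf := [⟨1, none, 86850000, 86850000, 3⟩, ⟨2, none, 86850000, 86850000, 5⟩]

def p18_0 : PieceD where
  X0 := 0
  X1 := 1
  D := 1
  w := [(14670191867418, 14670191893473), (315423368420949, 315423368693657)]
  wS := (946271500982298, 946271492118387)
  wL := (946271488897989, 946271492682912)
  w' := [(84063704929947, 84063694473207), (946271508567776, 946271508969024)]
  lam := [1289720, 3449008, 3389845]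
  lam' := [666782, 7505633]
  Dy := 1000000
  pt := [[(false, [140], 178573)], [(true, [150, 2], 82039), (true, [21, 8], 604492)], [(true,
    [10, 2, 2], 2500001)]]
  pt0 := [[(false, [22, 1, 1], 1125876), (false, [11, 6, 0], 20981), (false, [0, 2, 1], 1874127)],
    [(true, [5, 1, 1, 1], 5000001)]]
  pt1 := [[], []]

theorem chk18 : chkAll c18 839 625 [p18_0] = true := by
  decide +kernel

/-- bin sizes `7259/10000 ≤ α ≤ 2269/3125` -/
def c19 : CertD where
  M := 27900000
  A0 := 20252610
  A1 := 20257632
  st := [(180000, 180000, 20), (3100000, 3100000, 5), (10126305, 10128816, 5)]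
  lf := [⟨1, none, 13950000, 13950000, 3⟩, ⟨2, none, 13950000, 13950000, 5⟩]

def p19_0 : PieceD where
  X0 := 0
  X1 := 1
  D := 1
  w := [(2979282653829, 2980021430763), (50649590742156, 50662150217036)]
  wS := (151948996409943, 151948994985927)
  wL := (151948994468939, 151948995076881)
  w' := [(13452514516890, 13427395935687), (151948997628056, 151948553314977)]
  lam := [1471117, 3448735, 3389717]
  lam' := [664242, 7502693]
  Dy := 1000000
  pt := [[(false, [112], 178573)], [(true, [86, 4], 120969), (true, [17, 8], 564518)], [(true, [8,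
    2, 2], 2500001)]]
  pt0 := [[(false, [35, 0, 1], 565791), (false, [9, 6, 0], 21931), (false, [0, 2, 1], 2434212)],
    [(true, [4, 1, 1, 1], 5000001)]]
  pt1 := [[], []]

theorem chk19 : chkAll c19 839 625 [p19_0] = true := by
  decide +kernel

end VB85
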