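import Pool.Agent.LibVB85.CheckDefs

/-! Certificates 5. -/

namespace VB85

/-- bin sizes `2269/3125 ≤ α ≤ 72647/100000` -/
def c20 : CertD where
  M := 23400000
  A0 := 16990272
  A1 := 16999398
  st := [(150000, 150000, 20), (2600000, 2600000, 5), (8495136, 8499699, 5)]
  lf := [⟨1, none, 11700000, 11700000, 3⟩, ⟨2, none, 11700000, 11700000, 5⟩]

def p20_0 : PieceD where
  X0 := 0
  X1 := 1
  D := 1
  w := [(2452593888576, 2452593892788), (42513156184356, 42513156219924)]
  wS := (127539656573940, 127539655375625)
  wL := (127539654946001, 127539655452846)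
  w' := [(11204366483466, 11204366721210), (127539657597924, 127539656658881)]
  lam := [1303044, 3452972, 3394200]
  lam' := [659464, 7506634]
  Dy := 1000000
  pt := [[(false, [113], 176993)], [(true, [121, 2], 80301), (true, [17, 8], 604927)], [(true, [8,
    2, 2], 2500001)]]
  pt0 := [[(false, [35, 0, 1], 500001), (false, [0, 2, 1], 2441862), (true, [43, 2, 1], 58141)],
    [(true, [4, 1, 1, 1], 5000001)]]
  pt1 := [[], []]

theorem chk20 : chkAll c20 839 625 [p20_0] = true := by
  decide +kernel

/-- bin sizes `72647/100000 ≤ α ≤ 72707/100000` -/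
def c21 : CertD where
  M := 142200000
  A0 := 103304034
  A1 := 103389354
  st := [(900000, 900000, 20), (15800000, 15800000, 5), (51652017, 51694677, 5)]
  lf := [⟨1, none, 71100000, 71100000, 3⟩, ⟨2, none, 71100000, 71100000, 5⟩]

def p21_0 : PieceD where
  X0 := 0
  X1 := 1
  D := 1
  w := [(14772757286088, 14783212391778), (258532635609090, 258715601631648)]
  wS := (775599049438398, 775599042180509)
  wL := (775599039545543, 775599042644082)
  w' := [(66989511602226, 66623581436994), (775599055646850, 775593822820518)]
  lam := [1358579, 3458815, 3400643]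
  lam' := [648475, 7507932]
  Dy := 1000000
  pt := [[(true, [157], 127390)], [(true, [35, 7], 465840), (true, [17, 8], 217393)], [(true, [8,
    2, 2], 2500001)]]
  pt0 := [[(true, [8, 4, 1], 45456), (false, [18, 1, 1], 1090911), (false, [0, 2, 1], 1863638)],
    [(true, [4, 1, 1, 1], 5000001)]]
  pt1 := [[], []]

theorem chk21 : chkAll c21 839 625 [p21_0] = true := by
  decide +kernel

/-- bin sizes `72707/100000 ≤ α ≤ 72799/100000` -/
def c22 : CertD where
  M := 120600000
  A0 := 87684642
  A1 := 87795594
  st := [(600000, 600000, 25), (13400000, 13400000, 5), (43842321, 43897797, 5)]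
  lf := [⟨1, none, 60300000, 60300000, 3⟩, ⟨2, none, 60300000, 60300000, 5⟩]

def p22_0 : PieceD where
  X0 := 0
  X1 := 1
  D := 1
  w := [(9829484235846, 9836308407348), (219535437512628, 219687845839812)]
  wS := (658607281586622, 658607275431198)
  wL := (658607273196480, 658607275824353)
  w' := [(55388494564776, 55077605789652), (658607286852018, 658607287130603)]
  lam := [1345271, 3468323, 3411090]
  lam' := [631684, 7511096]
  Dy := 1000000
  pt := [[(false, [146], 171234)], [(false, [146, 0], 102741), (false, [12, 6], 833335)], [(true,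
    [10, 2, 2], 2500001)]]
  pt0 := [[(true, [11, 4, 1], 35089), (false, [0, 2, 1], 1894738), (false, [23, 1, 1], 1070177)],
    [(true, [5, 1, 1, 1], 5000001)]]
  pt1 := [[], []]

theorem chk22 : chkAll c22 839 625 [p22_0] = true := by
  decide +kernel

end VB85
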