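import Pool.Agent.LibVB85.CheckDefs

/-! Certificates 6. -/

namespace VB85

/-- bin sizes `72799/100000 ≤ α ≤ 36501/50000` -/
def c23 : CertD where
  M := 18400000
  A0 := 13395016
  A1 := 13432368
  st := [(800000, 800000, 5), (1674377, 1679046, 5), (6697508, 6716184, 5)]
  lf := [⟨1, none, 9200000, 9200000, 3⟩, ⟨2, none, 9200000, 9200000, 5⟩]

def p23_0 : PieceD where
  X0 := 0
  X1 := 1
  D := 1
  w := [(13020995407208, 13020995401504), (26042064231519, 26042064290400)]
  wS := (104168477422479, 104168476483344)
  wL := (104168476142392, 104168476543328)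
  w' := [(0, 0), (104168478225824, 104168477642727)]
  lam := [1415334, 2830668, 3546004]
  lam' := [0, 7776665]
  Dy := 1000000
  pt := [[(true, [22], 227274)], [(true, [22, 0], 181820), (true, [2, 10], 500001)], [(true, [2,
    2, 2], 2500001)]]
  pt0 := [[(false, [5, 0, 1], 500001), (false, [1, 2, 1], 2500001)], [(true, [1, 1, 1, 1],
    5000001)]]
  pt1 := [[], []]

theorem chk23 : chkAll c23 839 625 [p23_0] = true := by
  decide +kernel

/-- bin sizes `36501/50000 ≤ α ≤ 36657/50000` -/
def c24 : CertD where
  M := 1200000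
  A0 := 876024
  A1 := 879768
  st := [(50000, 50000, 5), (109503, 109971, 5), (438012, 439884, 5)]
  lf := [⟨1, none, 600000, 600000, 3⟩, ⟨2, none, 600000, 600000, 5⟩]

def p24_0 : PieceD where
  X0 := 0
  X1 := 1
  D := 1
  w := [(799764002508, 799764010188), (1701092400887, 1701092404728)]
  wS := (6804383983788, 6804383929344)
  wL := (6804383900291, 6775302940295)
  w' := [(0, 0), (6804384036180, 6833465025096)]
  lam := [1576257, 2835163, 3573294]
  lam' := [0, 7767355]
  Dy := 1000000
  pt := [[(false, [17], 294119)], [(true, [13, 5], 333335), (true, [2, 10], 333335)], [(true, [2,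
    2, 2], 2500001)]]
  pt0 := [[(false, [5, 0, 1], 500001), (false, [1, 2, 1], 2500001)], [(true, [1, 1, 1, 1],
    5000001)]]
  pt1 := [[], []]

theorem chk24 : chkAll c24 839 625 [p24_0] = true := by
  decide +kernel

/-- bin sizes `36657/50000 ≤ α ≤ 36897/50000` -/
def c25 : CertD where
  M := 90900000
  A0 := 66642426
  A1 := 67078746
  st := [(900000, 900000, 10), (10100000, 10100000, 5), (33321213, 33539373, 5)]
  lf := [⟨1, none, 45450000, 45450000, 3⟩, ⟨2, none, 45450000, 45450000, 5⟩]

def p25_0 : PieceD where
  X0 := 0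
  X1 := 1
  D := 1
  w := [(15216780722471, 15316410122171), (167388224140809, 168484147128459)]
  wS := (502165402825742, 500968662211772)
  wL := (502165396501829, 500968662508106)
  w' := [(30795075855342, 30996703028790), (502165406794436, 501945981812766)]
  lam := [1826722, 3559602, 3513526]
  lam' := [462100, 7535227]
  Dy := 1000000
  pt := [[(false, [74], 135137)], [(true, [56, 4], 61883), (true, [11, 8], 594061)], [(true, [4,
    2, 2], 2500001)]]
  pt0 := [[(false, [23, 0, 1], 318183), (false, [1, 2, 1], 2681820)], [(true, [2, 1, 1, 1],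
    5000001)]]
  pt1 := [[], []]

theorem chk25 : chkAll c25 839 625 [p25_0] = true := by
  decide +kernel

/-- bin sizes `36897/50000 ≤ α ≤ 37267/50000` -/
def c26 : CertD where
  M := 27900000
  A0 := 20588526
  A1 := 20794986
  st := [(450000, 450000, 5), (3100000, 3100000, 5), (10294263, 10397493, 5)]
  lf := [⟨1, none, 13950000, 13950000, 3⟩, ⟨2, none, 13950000, 13950000, 5⟩]

def p26_0 : PieceD where
  X0 := 0
  X1 := 1
  D := 1
  w := [(7411251927141, 7451379796013), (51879432715010, 52160328214506)]
  wS := (155638522327950, 155625145849278)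
  wL := (155638520386947, 154077789659291)
  w' := [(6782739507189, 6247698986628), (155638523546343, 157199254946388)]
  lam := [1439902, 3632629, 3597408]
  lam' := [329448, 7559484]
  Dy := 1000000
  pt := [[(true, [61], 81969)], [(false, [4, 6], 797103), (false, [25, 3], 72465)], [(true, [2, 2,
    2], 2500001)]]
  pt0 := [[(false, [14, 0, 1], 357144), (false, [0, 2, 1], 2642859)], [(true, [1, 1, 1, 1],
    5000001)]]
  pt1 := [[], []]

theorem chk26 : chkAll c26 839 625 [p26_0] = true := by
  decide +kernel

/-- bin sizes `37267/50000 ≤ α ≤ 7501/10000` -/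
def c27 : CertD where
  M := 1150000
  A0 := 857141
  A1 := 862615
  st := [(50000, 50000, 1), (230000, 230000, 1)]
  lf := [⟨1, some true, 0, 0, 0⟩, ⟨1, none, 575000, 575000, 1⟩]

def p27_0 : PieceD where
  X0 := 0
  X1 := 1
  D := 1
  w := [(1067354712248, 1074171242247)]
  wS := (4803112336703, 4800840151465)
  wL := (4803112431393, 4899679936327)
  w' := [(0, 0), (9606229271393, 9601684896870)]
  lam := [4358394, 5603649]
  lam' := [1, 11207297]
  Dy := 1000000
  pt := [[(false, [17], 58825)], [(false, [3, 3], 333335)]]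
  pt0 := [[(false, [17, 0], 58825)], [(false, [1, 1, 1], 1000001)]]
  pt1 := [[(false, [3, 3], 333335)], []]

theorem chk27 : chkAll c27 839 625 [p27_0] = true := by
  decide +kernel

/-- bin sizes `7501/10000 ≤ α ≤ 7567/10000` -/
def c28 : CertD where
  M := 30000
  A0 := 22503
  A1 := 22701
  st := [(1200, 1200, 1), (7501, 7567, 1)]
  lf := [⟨1, some false, 0, 0, 0⟩, ⟨1, none, 15000, 15000, 1⟩]

def p28_0 : PieceD where
  X0 := 0
  X1 := 16
  D := 64
  w := [(299999881727, 299999881781)]
  wS := (1799999890899, 1799999890723)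
  wL := (-3600000138330, -3600000137512)
  w' := [(0, 0), (0, 0)]
  lam := [240000002, 0]
  lam' := [0, 0]
  Dy := 1000000
  pt := [[(true, [24], 41668)], [(true, [0, 3], 166668), (true, [6, 3], 166668)]]
  pt0 := [[(true, [24, 0], 41668)], [(true, [6, 1, 1], 166668), (false, [0, 1, 1], 833335)]]
  pt1 := [[(true, [24, 0], 20835), (true, [6, 3], 83335)], []]

def p28_1 : PieceD where
  X0 := 16
  X1 := 20
  D := 64
  w := [(29800218255, 29800218308)]
  wS := (178801910065, 175368912534)
  wL := (-120540, -120000)
  w' := [(0, 0), (268238686209, 270598872558)]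
  lam := [11920136, 0]
  lam' := [0, 11920136]
  Dy := 1000000
  pt := [[(true, [24], 41668)], [(true, [0, 3], 166668), (true, [6, 3], 166668)]]
  pt0 := [[(true, [24, 0], 20835), (true, [6, 3], 83335)], [(true, [6, 1, 1], 166668), (false, [0,
    1, 1], 833335)]]
  pt1 := [[(true, [24, 0], 15626), (true, [6, 3], 104168)], []]

def p28_2 : PieceD where
  X0 := 20
  X1 := 22
  D := 64
  w := [(29800217735, 29800217789)]
  wS := (178801906946, 175205450986)
  wL := (-110570, -120000)
  w' := [(0, 0), (268238679039, 270598865325)]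
  lam := [11920135, 0]
  lam' := [1, 11920135]
  Dy := 1000000
  pt := [[(true, [24], 41668)], [(true, [0, 3], 166668), (true, [6, 3], 166668)]]
  pt0 := [[(true, [24, 0], 15626), (true, [6, 3], 104168)], [(true, [6, 1, 1], 166668), (false,
    [0, 1, 1], 833335)]]
  pt1 := [[(true, [24, 0], 13022), (true, [6, 3], 114585)], []]

def p28_3 : PieceD where
  X0 := 22
  X1 := 24
  D := 64
  w := [(24660099189, 24660099243)]
  wS := (147961195183, 147961195494)
  wL := (98588148455, 96851836172)
  w' := [(98588152992, 96851842885), (197334237322, 199070547704)]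
  lam := [6577813, 0]
  lam' := [4381117, 8769247]
  Dy := 1000000
  pt := [[(true, [24], 41668)], [(true, [0, 3], 166668), (true, [6, 3], 166668)]]
  pt0 := [[(true, [24, 0], 13022), (true, [6, 3], 114585)], [(true, [6, 1, 1], 166668), (false,
    [0, 1, 1], 833335)]]
  pt1 := [[(true, [24, 0], 10418), (true, [6, 3], 125001)], []]

def p28_4 : PieceD where
  X0 := 24
  X1 := 25
  D := 64
  w := [(24832367724, 24832367778)]
  wS := (148994806399, 148994806630)
  wL := (99276855142, 99276855148)
  w' := [(99276859679, 99276861841), (198712753068, 198712751261)]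
  lam := [6623763, 0]
  lam' := [4411722, 8830506]
  Dy := 1000000
  pt := [[(true, [24], 41668)], [(true, [0, 3], 166668), (true, [6, 3], 166668)]]
  pt0 := [[(true, [24, 0], 10418), (true, [6, 3], 125001)], [(true, [6, 1, 1], 166668), (false,
    [0, 1, 1], 833335)]]
  pt1 := [[(true, [24, 0], 9116), (true, [6, 3], 130210)], []]

def p28_5 : PieceD where
  X0 := 25
  X1 := 26
  D := 64
  w := [(24919407717, 24919407771)]
  wS := (149517046351, 149517046582)
  wL := (99624829449, 99624829455)
  w' := [(99624833986, 99624836057), (199409258664, 199409256950)]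
  lam := [6646980, 0]
  lam' := [4427186, 8861458]
  Dy := 1000000
  pt := [[(true, [24], 41668)], [(true, [0, 3], 166668), (true, [6, 3], 166668)]]
  pt0 := [[(true, [24, 0], 9116), (true, [6, 3], 130210)], [(true, [6, 1, 1], 166668), (false, [0,
    1, 1], 833335)]]
  pt1 := [[(true, [24, 0], 7814), (true, [6, 3], 135418)], []]

def p28_6 : PieceD where
  X0 := 26
  X1 := 28
  D := 64
  w := [(21764256177, 21764256230)]
  wS := (130586137110, 130586137421)
  wL := (261102667630, 259953047754)
  w' := [(130516477309, 129366859253), (130655796859, 131805415191)]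
  lam := [2325, 5803058]
  lam' := [5799965, 5806156]
  Dy := 1000000
  pt := [[(true, [24], 41668)], [(true, [0, 3], 166668), (true, [6, 3], 166668)]]
  pt0 := [[(true, [24, 0], 7814), (true, [6, 3], 135418)], [(true, [6, 1, 1], 166668), (false, [0,
    1, 1], 833335)]]
  pt1 := [[(true, [24, 0], 5210), (true, [6, 3], 145835)], []]

def p28_7 : PieceD where
  X0 := 28
  X1 := 32
  D := 64
  w := [(21969641284, 21969641338)]
  wS := (131765721291, 131818448065)
  wL := (263742469116, 263637016034)
  w' := [(131765719874, 129733879883), (131765722655, 132925107032)]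
  lam := [0, 5864852]
  lam' := [5855479, 5855479]
  Dy := 1000000
  pt := [[(true, [24], 41668)], [(true, [0, 3], 166668), (true, [6, 3], 166668)]]
  pt0 := [[(true, [24, 0], 5210), (true, [6, 3], 145835)], [(true, [6, 1, 1], 166668), (false, [0,
    1, 1], 833335)]]
  pt1 := [[(true, [6, 3], 166668)], []]

def p28_8 : PieceD where
  X0 := 32
  X1 := 64
  D := 64
  w := [(22384736525, 22384736579)]
  wS := (134255295609, 134309018916)
  wL := (268725607023, 268618158924)
  w' := [(134255294386, 131946434721), (134255295556, 135436585254)]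
  lam := [0, 5975662]
  lam' := [5966112, 5966112]
  Dy := 1000000
  pt := [[(true, [24], 41668)], [(true, [0, 3], 166668), (true, [6, 3], 166668)]]
  pt0 := [[(true, [6, 3], 166668)], [(true, [6, 1, 1], 166668), (false, [0, 1, 1], 833335)]]
  pt1 := [[(true, [0, 3], 166668), (true, [6, 3], 166668)], []]

theorem chk28 : chkAll c28 6877 5000 [p28_0, p28_1, p28_2, p28_3, p28_4, p28_5, p28_6, p28_7,
    p28_8] = true := by
  decide +kernel

/-- bin sizes `7567/10000 ≤ α ≤ 3819/5000` -/
def c29 : CertD where
  M := 690000
  A0 := 522123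
  A1 := 527022
  st := [(30000, 30000, 20), (138000, 138000, 10), (174041, 175674, 28)]
  lf := [⟨2, some false, 0, 0, 0⟩, ⟨2, none, 345000, 345000, 39⟩]

def p29_0 : PieceD where
  X0 := 0
  X1 := 32
  D := 128
  w := [(2440589749439, 2440589751322), (10982663533459, 10982663530499)]
  wS := (10982663544036, 10982663548604)
  wL := (-21965335307396, -21965335294465)
  w' := [(0, 0), (0, 0)]
  lam := [15916908, 63667631, 0]
  lam' := [0, 0]
  Dy := 1000000
  pt := [[(false, [17], 1176472)], [(true, [9, 3], 1666668), (true, [4, 4], 1250001)], [(true, [5,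
    0, 3], 2250001), (false, [1, 1, 2], 8750001), (true, [0, 1, 3], 1250001)]]
  pt0 := [[(true, [4, 4, 0], 1250001), (true, [9, 3, 0], 1666668)], [(false, [0, 0, 1, 1],
    28000001), (false, [1, 1, 0, 1], 10000001), (true, [11, 0, 0, 1], 833335), (false, [5, 0, 0,
    1], 166668)]]
  pt1 := [[(true, [2, 2, 2], 3166668), (false, [7, 1, 1], 666668), (true, [9, 3, 0], 1000001)],
    []]

def p29_1 : PieceD where
  X0 := 32
  X1 := 40
  D := 128
  w := [(459753661266, 459753659217), (2068901136077, 2068901137236)]
  wS := (2068901136477, 2068901138464)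
  wL := (-2784240, -2732290)
  w' := [(0, 0), (3131076429809, 3131076416030)]
  lam := [2998412, 5996823, 0]
  lam' := [0, 5996823]
  Dy := 1000000
  pt := [[(false, [17], 1176472)], [(true, [9, 3], 1666668), (true, [4, 4], 1250001)], [(true, [5,
    0, 3], 2250001), (false, [1, 1, 2], 8750001), (true, [0, 1, 3], 1250001)]]
  pt0 := [[(true, [2, 2, 2], 3166668), (false, [7, 1, 1], 666668), (true, [9, 3, 0], 1000001)],
    [(false, [0, 0, 1, 1], 28000001), (false, [1, 1, 0, 1], 10000001), (true, [11, 0, 0, 1],
    833335), (false, [5, 0, 0, 1], 166668)]]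
  pt1 := [[(true, [2, 2, 2], 3750001), (false, [7, 1, 1], 1250001), (true, [9, 3, 0], 416668)],
    []]

def p29_2 : PieceD where
  X0 := 40
  X1 := 44
  D := 128
  w := [(459753661963, 459753663164), (2068901125430, 2068901120386)]
  wS := (2068901127279, 2068901136318)
  wL := (-2642811, -2760000)
  w' := [(0, 0), (3131076330518, 3131076337666)]
  lam := [2998412, 5996823, 0]
  lam' := [1, 5996823]
  Dy := 1000000
  pt := [[(false, [17], 1176472)], [(true, [9, 3], 1666668), (true, [4, 4], 1250001)], [(true, [5,
    0, 3], 2250001), (false, [1, 1, 2], 8750001), (true, [0, 1, 3], 1250001)]]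
  pt0 := [[(true, [2, 2, 2], 3750001), (false, [7, 1, 1], 1250001), (true, [9, 3, 0], 416668)],
    [(false, [0, 0, 1, 1], 28000001), (false, [1, 1, 0, 1], 10000001), (true, [11, 0, 0, 1],
    833335), (false, [5, 0, 0, 1], 166668)]]
  pt1 := [[(true, [2, 2, 2], 4041668), (false, [7, 1, 1], 1541668), (true, [9, 3, 0], 125001)],
    []]

def p29_3 : PieceD where
  X0 := 44
  X1 := 46
  D := 128
  w := [(408367298629, 412823341123), (1837662512325, 1725771215276)]
  wS := (1837662514181, 1874959620559)
  wL := (1181717633072, 1107123428644)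
  w' := [(1181717739891, 1192805671231), (2493607270331, 2517004438386)]
  lam := [2663283, 3613928, 0]
  lam' := [2263299, 4775906]
  Dy := 1000000
  pt := [[(false, [17], 1176472)], [(true, [9, 3], 1666668), (true, [4, 4], 1250001)], [(true, [5,
    0, 3], 2250001), (false, [1, 1, 2], 8750001), (true, [0, 1, 3], 1250001)]]
  pt0 := [[(true, [2, 2, 2], 4041668), (false, [7, 1, 1], 1541668), (true, [9, 3, 0], 125001)],
    [(false, [0, 0, 1, 1], 28000001), (false, [1, 1, 0, 1], 10000001), (true, [11, 0, 0, 1],
    833335), (false, [5, 0, 0, 1], 166668)]]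
  pt1 := [[(true, [2, 2, 2], 4135418), (false, [7, 1, 1], 1666668), (false, [1, 1, 2], 62501)],
    []]

def p29_4 : PieceD where
  X0 := 46
  X1 := 47
  D := 128
  w := [(409396743929, 413864019498), (1842295016198, 1732585095666)]
  wS := (1842295018055, 1878864998921)
  wL := (1184696589572, 1111556636160)
  w' := [(1184696696391, 1195812578823), (2499893321572, 2523349470682)]
  lam := [2669997, 3623039, 0]
  lam' := [2269005, 4787945]
  Dy := 1000000
  pt := [[(false, [17], 1176472)], [(true, [9, 3], 1666668), (true, [4, 4], 1250001)], [(true, [5,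
    0, 3], 2250001), (false, [1, 1, 2], 8750001), (true, [0, 1, 3], 1250001)]]
  pt0 := [[(true, [2, 2, 2], 4135418), (false, [7, 1, 1], 1666668), (false, [1, 1, 2], 62501)],
    [(false, [0, 0, 1, 1], 28000001), (false, [1, 1, 0, 1], 10000001), (true, [11, 0, 0, 1],
    833335), (false, [5, 0, 0, 1], 166668)]]
  pt1 := [[(true, [2, 2, 2], 4026043), (false, [7, 1, 1], 1666668), (false, [1, 1, 2], 281251)],
    []]

def p29_5 : PieceD where
  X0 := 47
  X1 := 48
  D := 128
  w := [(384440554732, 388635514233), (1729992164814, 1654482941849)]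
  wS := (1729992166670, 1755161915013)
  wL := (3398710170853, 3348370682480)
  w' := [(1668719633238, 1684377028623), (1791264681962, 1803707823451)]
  lam := [2507239, 88808, 3313378]
  lam' := [3196033, 3430739]
  Dy := 1000000
  pt := [[(false, [17], 1176472)], [(true, [9, 3], 1666668), (true, [4, 4], 1250001)], [(true, [5,
    0, 3], 2250001), (false, [1, 1, 2], 8750001), (true, [0, 1, 3], 1250001)]]
  pt0 := [[(true, [2, 2, 2], 4026043), (false, [7, 1, 1], 1666668), (false, [1, 1, 2], 281251)],
    [(false, [0, 0, 1, 1], 28000001), (false, [1, 1, 0, 1], 10000001), (true, [11, 0, 0, 1],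
    833335), (false, [5, 0, 0, 1], 166668)]]
  pt1 := [[(true, [2, 2, 2], 3916668), (false, [7, 1, 1], 1666668), (false, [1, 1, 2], 500001)],
    []]

def p29_6 : PieceD where
  X0 := 48
  X1 := 64
  D := 128
  w := [(384478380263, 388673752501), (1730162379679, 1654645727333)]
  wS := (1730162381535, 1755334606337)
  wL := (3460327539106, 3409983097817)
  w' := [(1683793965486, 1699592801018), (1776530779437, 1792946056498)]
  lam := [2507486, 0, 3402520]
  lam' := [3224905, 3402520]
  Dy := 1000000
  pt := [[(false, [17], 1176472)], [(true, [9, 3], 1666668), (true, [4, 4], 1250001)], [(true, [5,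
    0, 3], 2250001), (false, [1, 1, 2], 8750001), (true, [0, 1, 3], 1250001)]]
  pt0 := [[(true, [2, 2, 2], 3916668), (false, [7, 1, 1], 1666668), (false, [1, 1, 2], 500001)],
    [(false, [0, 0, 1, 1], 28000001), (false, [1, 1, 0, 1], 10000001), (true, [11, 0, 0, 1],
    833335), (false, [5, 0, 0, 1], 166668)]]
  pt1 := [[(true, [2, 2, 2], 2166668), (false, [7, 1, 1], 1666668), (false, [1, 1, 2], 4000001)],
    []]

def p29_7 : PieceD where
  X0 := 64
  X1 := 128
  D := 128
  w := [(402934265987, 402934266622), (1813213843541, 1813213848723)]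
  wS := (1764619598278, 1813213846839)
  wL := (3723618945881, 3626430417378)
  w' := [(1764619606586, 1781176816702), (1764619552476, 1776120008209)]
  lam := [2627851, 0, 3751989]
  lam' := [3379707, 3379706]
  Dy := 1000000
  pt := [[(false, [17], 1176472)], [(true, [9, 3], 1666668), (true, [4, 4], 1250001)], [(true, [5,
    0, 3], 2250001), (false, [1, 1, 2], 8750001), (true, [0, 1, 3], 1250001)]]
  pt0 := [[(true, [2, 2, 2], 2166668), (false, [7, 1, 1], 1666668), (false, [1, 1, 2], 4000001)],
    [(false, [0, 0, 1, 1], 28000001), (false, [1, 1, 0, 1], 10000001), (true, [11, 0, 0, 1],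
    833335), (false, [5, 0, 0, 1], 166668)]]
  pt1 := [[(true, [5, 0, 3], 2250001), (false, [1, 1, 2], 8750001), (true, [0, 1, 3], 1250001)],
    []]

theorem chk29 : chkAll c29 6877 5000 [p29_0, p29_1, p29_2, p29_3, p29_4, p29_5, p29_6, p29_7] =
    true := by
  decide +kernel

end VB85
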