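import Pool.Agent.LibVB85.CheckDefs

/-! Certificates 7. -/

namespace VB85

/-- bin sizes `3819/5000 ≤ α ≤ 1919/2500` -/
def c30 : CertD where
  M := 345000
  A0 := 263511
  A1 := 264822
  st := [(15000, 15000, 20), (69000, 69000, 10), (87837, 88274, 28)]
  lf := [⟨2, some false, 0, 0, 0⟩, ⟨2, none, 172500, 172500, 39⟩]

def p30_0 : PieceD where
  X0 := 0
  X1 := 32
  D := 128
  w := [(1165833176944, 1165833180519), (5530174654022, 5530174646360)]
  wS := (5530174651065, 5530174655412)
  wL := (-11060353411796, -11060353409454)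
  w' := [(0, 0), (0, 0)]
  lam := [14383580, 64117983, 0]
  lam' := [0, 0]
  Dy := 1000000
  pt := [[(false, [17], 1176472)], [(true, [9, 3], 1666668), (true, [4, 4], 1250001)], [(true, [5,
    0, 3], 2250001), (false, [1, 1, 2], 8750001), (true, [0, 1, 3], 1250001)]]
  pt0 := [[(true, [4, 4, 0], 1250001), (true, [9, 3, 0], 1666668)], [(false, [0, 0, 1, 1],
    28000001), (false, [6, 0, 0, 1], 1666668), (true, [2, 2, 0, 1], 666668), (false, [1, 1, 0, 1],
    8666668)]]
  pt1 := [[(true, [2, 2, 2], 3394738), (true, [17, 0, 1], 210528), (true, [9, 3, 0], 1070177)],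
    []]

def p30_1 : PieceD where
  X0 := 32
  X1 := 40
  D := 128
  w := [(217669055030, 219590567724), (1032525758135, 1026761219923)]
  wS := (1032525758335, 1034447272256)
  wL := (-1392120, -3844392005)
  w' := [(0, 0), (1577287092725, 1585134303110)]
  lam := [2685527, 5985665, 0]
  lam' := [0, 5985665]
  Dy := 1000000
  pt := [[(false, [17], 1176472)], [(true, [9, 3], 1666668), (true, [4, 4], 1250001)], [(true, [5,
    0, 3], 2250001), (false, [1, 1, 2], 8750001), (true, [0, 1, 3], 1250001)]]
  pt0 := [[(true, [2, 2, 2], 3394738), (true, [17, 0, 1], 210528), (true, [9, 3, 0], 1070177)],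
    [(false, [0, 0, 1, 1], 28000001), (false, [6, 0, 0, 1], 1666668), (true, [2, 2, 0, 1],
    666668), (false, [1, 1, 0, 1], 8666668)]]
  pt1 := [[(true, [2, 2, 2], 4177633), (true, [17, 0, 1], 394738), (true, [9, 3, 0], 548247)], []]

def p30_2 : PieceD where
  X0 := 40
  X1 := 44
  D := 128
  w := [(217669057497, 219590567903), (1032525752346, 1026761226292)]
  wS := (1032525753274, 1034447265636)
  wL := (-1321285, -3844341849)
  w' := [(0, 0), (1577287042648, 1577822837201)]
  lam := [2685527, 5985665, 0]
  lam' := [1, 5985665]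
  Dy := 1000000
  pt := [[(false, [17], 1176472)], [(true, [9, 3], 1666668), (true, [4, 4], 1250001)], [(true, [5,
    0, 3], 2250001), (false, [1, 1, 2], 8750001), (true, [0, 1, 3], 1250001)]]
  pt0 := [[(true, [2, 2, 2], 4177633), (true, [17, 0, 1], 394738), (true, [9, 3, 0], 548247)],
    [(false, [0, 0, 1, 1], 28000001), (false, [6, 0, 0, 1], 1666668), (true, [2, 2, 0, 1],
    666668), (false, [1, 1, 0, 1], 8666668)]]
  pt1 := [[(true, [2, 2, 2], 4569080), (true, [17, 0, 1], 486844), (true, [9, 3, 0], 287282)], []]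

def p30_3 : PieceD where
  X0 := 44
  X1 := 46
  D := 128
  w := [(193908210925, 197933918628), (919815365229, 884598754990)]
  wS := (919815366154, 931554239913)
  wL := (568892807841, 545415064487)
  w' := [(568892861254, 571723195590), (1270737861988, 1277059951822)]
  lam := [2392376, 3683303, 0]
  lam' := [2158902, 4822339]
  Dy := 1000000
  pt := [[(false, [17], 1176472)], [(true, [9, 3], 1666668), (true, [4, 4], 1250001)], [(true, [5,
    0, 3], 2250001), (false, [1, 1, 2], 8750001), (true, [0, 1, 3], 1250001)]]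
  pt0 := [[(true, [2, 2, 2], 4569080), (true, [17, 0, 1], 486844), (true, [9, 3, 0], 287282)],
    [(false, [0, 0, 1, 1], 28000001), (false, [6, 0, 0, 1], 1666668), (true, [2, 2, 0, 1],
    666668), (false, [1, 1, 0, 1], 8666668)]]
  pt1 := [[(true, [2, 2, 2], 4764804), (true, [17, 0, 1], 532896), (true, [9, 3, 0], 156800)], []]

def p30_4 : PieceD where
  X0 := 46
  X1 := 47
  D := 128
  w := [(194379331957, 198346615828), (922050143929, 887634632280)]
  wS := (922050144857, 933521985753)
  wL := (570274988331, 547331310701)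
  w' := [(570275041744, 573112252602), (1273825238898, 1280162688815)]
  lam := [2398189, 3692252, 0]
  lam' := [2164147, 4834055]
  Dy := 1000000
  pt := [[(false, [17], 1176472)], [(true, [9, 3], 1666668), (true, [4, 4], 1250001)], [(true, [5,
    0, 3], 2250001), (false, [1, 1, 2], 8750001), (true, [0, 1, 3], 1250001)]]
  pt0 := [[(true, [2, 2, 2], 4764804), (true, [17, 0, 1], 532896), (true, [9, 3, 0], 156800)],
    [(false, [0, 0, 1, 1], 28000001), (false, [6, 0, 0, 1], 1666668), (true, [2, 2, 0, 1],
    666668), (false, [1, 1, 0, 1], 8666668)]]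
  pt1 := [[(true, [2, 2, 2], 4862666), (true, [17, 0, 1], 555923), (true, [9, 3, 0], 91559)], []]

def p30_5 : PieceD where
  X0 := 47
  X1 := 48
  D := 128
  w := [(182157908189, 185586389769), (864077402945, 835587459161)]
  wS := (864077403869, 873574055477)
  wL := (1665706148207, 1646712849155)
  w' := [(801629558865, 805617787220), (926525239807, 931134829033)]
  lam := [2247406, 181015, 3279092]
  lam' := [3042116, 3516084]
  Dy := 1000000
  pt := [[(false, [17], 1176472)], [(true, [9, 3], 1666668), (true, [4, 4], 1250001)], [(true, [5,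
    0, 3], 2250001), (false, [1, 1, 2], 8750001), (true, [0, 1, 3], 1250001)]]
  pt0 := [[(true, [2, 2, 2], 4862666), (true, [17, 0, 1], 555923), (true, [9, 3, 0], 91559)],
    [(false, [0, 0, 1, 1], 28000001), (false, [6, 0, 0, 1], 1666668), (true, [2, 2, 0, 1],
    666668), (false, [1, 1, 0, 1], 8666668)]]
  pt1 := [[(true, [2, 2, 2], 4960528), (true, [17, 0, 1], 578949), (true, [9, 3, 0], 26317)], []]

def p30_6 : PieceD where
  X0 := 48
  X1 := 64
  D := 128
  w := [(181831592281, 185241353075), (862529512286, 834254132765)]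
  wS := (862529513214, 871954643400)
  wL := (1725060414447, 1706210158239)
  w' := [(814917813003, 818972152076), (910141204353, 914669280963)]
  lam := [2243380, 0, 3453908]
  lam' := [3092544, 3453908]
  Dy := 1000000
  pt := [[(false, [17], 1176472)], [(true, [9, 3], 1666668), (true, [4, 4], 1250001)], [(true, [5,
    0, 3], 2250001), (false, [1, 1, 2], 8750001), (true, [0, 1, 3], 1250001)]]
  pt0 := [[(true, [2, 2, 2], 4960528), (true, [17, 0, 1], 578949), (true, [9, 3, 0], 26317)],
    [(false, [0, 0, 1, 1], 28000001), (false, [6, 0, 0, 1], 1666668), (true, [2, 2, 0, 1],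
    666668), (false, [1, 1, 0, 1], 8666668)]]
  pt1 := [[(true, [2, 2, 2], 5000001), (true, [17, 0, 1], 217393), (true, [5, 0, 3], 1260871)],
    []]

def p30_7 : PieceD where
  X0 := 64
  X1 := 128
  D := 128
  w := [(194128375010, 197220945995), (920859721095, 897793323466)]
  wS := (870028168399, 874356663396)
  wL := (1943383931714, 1934726926033)
  w' := [(870028172553, 874356692518), (870028145498, 874356654650)]
  lam := [2395092, 0, 4073287]
  lam' := [3301682, 3301682]
  Dy := 1000000
  pt := [[(false, [17], 1176472)], [(true, [9, 3], 1666668), (true, [4, 4], 1250001)], [(true, [5,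
    0, 3], 2250001), (false, [1, 1, 2], 8750001), (true, [0, 1, 3], 1250001)]]
  pt0 := [[(true, [2, 2, 2], 5000001), (true, [17, 0, 1], 217393), (true, [5, 0, 3], 1260871)],
    [(false, [0, 0, 1, 1], 28000001), (false, [6, 0, 0, 1], 1666668), (true, [2, 2, 0, 1],
    666668), (false, [1, 1, 0, 1], 8666668)]]
  pt1 := [[(true, [5, 0, 3], 2250001), (false, [1, 1, 2], 8750001), (true, [0, 1, 3], 1250001)],
    []]

theorem chk30 : chkAll c30 6877 5000 [p30_0, p30_1, p30_2, p30_3, p30_4, p30_5, p30_6, p30_7] =
    true := by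
  decide +kernel

/-- bin sizes `1919/2500 ≤ α ≤ 7717/10000` -/
def c31 : CertD where
  M := 30000
  A0 := 23028
  A1 := 23151
  st := [(1250, 1250, 20), (6000, 6000, 10), (7676, 7717, 28)]
  lf := [⟨2, some false, 0, 0, 0⟩, ⟨2, none, 15000, 15000, 39⟩]

def p31_0 : PieceD where
  X0 := 0
  X1 := 32
  D := 128
  w := [(103100653852, 103100653865), (488827971543, 488827971654)]
  wS := (488827972323, 488827972442)
  wL := (-977656302009, -977656301287)
  w' := [(0, 0), (0, 0)]
  lam := [16414348, 65177079, 0]
  lam' := [0, 0]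
  Dy := 1000000
  pt := [[(false, [18], 1111113)], [(true, [19, 1], 377360), (false, [4, 3], 3207549)], [(true,
    [2, 2, 2], 2692309), (true, [5, 0, 3], 2923078), (true, [0, 1, 3], 4615386)]]
  pt0 := [[(true, [19, 1, 0], 377360), (false, [4, 3, 0], 3207549)], [(false, [0, 0, 1, 1],
    28000001), (false, [6, 0, 0, 1], 1666668), (true, [2, 2, 0, 1], 666668), (false, [1, 1, 0, 1],
    8666668)]]
  pt1 := [[(true, [2, 2, 2], 3125001), (false, [4, 3, 0], 1000001), (true, [13, 1, 1], 750001)],
    []]

def p31_1 : PieceD where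
  X0 := 32
  X1 := 40
  D := 128
  w := [(18869127142, 18869127006), (89463980762, 89463980834)]
  wS := (89463980779, 89463980858)
  wL := (-121054, -120076)
  w' := [(0, 0), (137345168915, 138078774900)]
  lam := [3004114, 5964274, 0]
  lam' := [0, 5964274]
  Dy := 1000000
  pt := [[(false, [18], 1111113)], [(true, [19, 1], 377360), (false, [4, 3], 3207549)], [(true,
    [2, 2, 2], 2692309), (true, [5, 0, 3], 2923078), (true, [0, 1, 3], 4615386)]]
  pt0 := [[(true, [2, 2, 2], 3125001), (false, [4, 3, 0], 1000001), (true, [13, 1, 1], 750001)],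
    [(false, [0, 0, 1, 1], 28000001), (false, [6, 0, 0, 1], 1666668), (true, [2, 2, 0, 1],
    666668), (false, [1, 1, 0, 1], 8666668)]]
  pt1 := [[(true, [2, 2, 2], 3975696), (false, [4, 3, 0], 416668), (true, [13, 1, 1], 798613)],
    []]

def p31_2 : PieceD where
  X0 := 40
  X1 := 44
  D := 128
  w := [(18869126776, 19037424893), (89463980359, 86266317491)]
  wS := (89463980439, 89463980433)
  wL := (-114885, -114510)
  w' := [(0, 0), (137345164726, 138078770688)]
  lam := [3004113, 5964274, 0]
  lam' := [1, 5964274]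
  Dy := 1000000
  pt := [[(false, [18], 1111113)], [(true, [19, 1], 377360), (false, [4, 3], 3207549)], [(true,
    [2, 2, 2], 2692309), (true, [5, 0, 3], 2923078), (true, [0, 1, 3], 4615386)]]
  pt0 := [[(true, [2, 2, 2], 3975696), (false, [4, 3, 0], 416668), (true, [13, 1, 1], 798613)],
    [(false, [0, 0, 1, 1], 28000001), (false, [6, 0, 0, 1], 1666668), (true, [2, 2, 0, 1],
    666668), (false, [1, 1, 0, 1], 8666668)]]
  pt1 := [[(true, [2, 2, 2], 4401043), (false, [4, 3, 0], 125001), (true, [13, 1, 1], 822918)],
    []]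

def p31_3 : PieceD where
  X0 := 44
  X1 := 46
  D := 128
  w := [(16833467918, 16881544872), (79812382252, 78898921469)]
  wS := (79812382332, 79683313643)
  wL := (48328236867, 48586374607)
  w' := [(48328241511, 47475632389), (111296522365, 111890994099)]
  lam := [2680023, 3709889, 0]
  lam' := [2098679, 4833101]
  Dy := 1000000
  pt := [[(false, [18], 1111113)], [(true, [19, 1], 377360), (false, [4, 3], 3207549)], [(true,
    [2, 2, 2], 2692309), (true, [5, 0, 3], 2923078), (true, [0, 1, 3], 4615386)]]
  pt0 := [[(true, [2, 2, 2], 4401043), (false, [4, 3, 0], 125001), (true, [13, 1, 1], 822918)],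
    [(false, [0, 0, 1, 1], 28000001), (false, [6, 0, 0, 1], 1666668), (true, [2, 2, 0, 1],
    666668), (false, [1, 1, 0, 1], 8666668)]]
  pt1 := [[(true, [2, 2, 2], 4591147), (false, [6, 0, 2], 31251), (true, [13, 1, 1], 817710)], []]

def p31_4 : PieceD where
  X0 := 46
  X1 := 47
  D := 128
  w := [(16873318680, 17029841347), (80001325273, 77027395941)]
  wS := (80001325353, 80428639780)
  wL := (48442646346, 47588017854)
  w' := [(48442650990, 48701400786), (111559998928, 112155877975)]
  lam := [2686367, 3718671, 0]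
  lam' := [2103647, 4844543]
  Dy := 1000000
  pt := [[(false, [18], 1111113)], [(true, [19, 1], 377360), (false, [4, 3], 3207549)], [(true,
    [2, 2, 2], 2692309), (true, [5, 0, 3], 2923078), (true, [0, 1, 3], 4615386)]]
  pt0 := [[(true, [2, 2, 2], 4591147), (false, [6, 0, 2], 31251), (true, [13, 1, 1], 817710)],
    [(false, [0, 0, 1, 1], 28000001), (false, [6, 0, 0, 1], 1666668), (true, [2, 2, 0, 1],
    666668), (false, [1, 1, 0, 1], 8666668)]]
  pt1 := [[(true, [2, 2, 2], 4618491), (false, [6, 0, 2], 140626), (true, [13, 1, 1], 763022)],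
    []]

def p31_5 : PieceD where
  X0 := 47
  X1 := 48
  D := 128
  w := [(16893174990, 17037841619), (80095469301, 77346804693)]
  wS := (80095469382, 81011691238)
  wL := (48499652787, 46667209437)
  w' := [(48499657432, 48758711717), (111691280544, 112287860809)]
  lam := [2689528, 3723047, 0]
  lam' := [2106122, 4850244]
  Dy := 1000000
  pt := [[(false, [18], 1111113)], [(true, [19, 1], 377360), (false, [4, 3], 3207549)], [(true,
    [2, 2, 2], 2692309), (true, [5, 0, 3], 2923078), (true, [0, 1, 3], 4615386)]]
  pt0 := [[(true, [2, 2, 2], 4618491), (false, [6, 0, 2], 140626), (true, [13, 1, 1], 763022)],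
    [(false, [0, 0, 1, 1], 28000001), (false, [6, 0, 0, 1], 1666668), (true, [2, 2, 0, 1],
    666668), (false, [1, 1, 0, 1], 8666668)]]
  pt1 := [[(true, [2, 2, 2], 4645835), (false, [6, 0, 2], 250001), (true, [13, 1, 1], 708335)],
    []]

def p31_6 : PieceD where
  X0 := 48
  X1 := 64
  D := 128
  w := [(15742910875, 15870757542), (74641762304, 72212676978)]
  wS := (74641762384, 75040449650)
  wL := (149283645466, 148486271295)
  w' := [(69386974318, 69757594522), (79896549662, 80323303981)]
  lam := [2506398, 0, 3469545]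
  lam' := [3013162, 3469545]
  Dy := 1000000
  pt := [[(false, [18], 1111113)], [(true, [19, 1], 377360), (false, [4, 3], 3207549)], [(true,
    [2, 2, 2], 2692309), (true, [5, 0, 3], 2923078), (true, [0, 1, 3], 4615386)]]
  pt0 := [[(true, [2, 2, 2], 4645835), (false, [6, 0, 2], 250001), (true, [13, 1, 1], 708335)],
    [(false, [0, 0, 1, 1], 28000001), (false, [6, 0, 0, 1], 1666668), (true, [2, 2, 0, 1],
    666668), (false, [1, 1, 0, 1], 8666668)]]
  pt1 := [[(true, [2, 2, 2], 5000001), (true, [5, 0, 3], 500001), (false, [6, 0, 2], 1250001)],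
    []]

def p31_7 : PieceD where
  X0 := 64
  X1 := 128
  D := 128
  w := [(16974364739, 16974364798), (80480410693, 80480410918)]
  wS := (74814579611, 76327391733)
  wL := (172292603909, 169266978301)
  w' := [(74814579972, 75214190775), (74814577619, 75214187481)]
  lam := [2702454, 0, 4233022]
  lam' := [3248858, 3248858]
  Dy := 1000000
  pt := [[(false, [18], 1111113)], [(true, [19, 1], 377360), (false, [4, 3], 3207549)], [(true,
    [2, 2, 2], 2692309), (true, [5, 0, 3], 2923078), (true, [0, 1, 3], 4615386)]]
  pt0 := [[(true, [2, 2, 2], 5000001), (true, [5, 0, 3], 500001), (false, [6, 0, 2], 1250001)],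
    [(false, [0, 0, 1, 1], 28000001), (false, [6, 0, 0, 1], 1666668), (true, [2, 2, 0, 1],
    666668), (false, [1, 1, 0, 1], 8666668)]]
  pt1 := [[(true, [2, 2, 2], 2692309), (true, [5, 0, 3], 2923078), (true, [0, 1, 3], 4615386)],
    []]

theorem chk31 : chkAll c31 6877 5000 [p31_0, p31_1, p31_2, p31_3, p31_4, p31_5, p31_6, p31_7] =
    true := by
  decide +kernel

/-- bin sizes `7717/10000 ≤ α ≤ 3903/5000` -/
def c32 : CertD where
  M := 210000
  A0 := 162057
  A1 := 163926
  st := [(3000, 3000, 1), (54019, 54642, 1)]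
  lf := [⟨1, some false, 0, 0, 0⟩, ⟨1, none, 105000, 105000, 1⟩]

def p32_0 : PieceD where
  X0 := 0
  X1 := 32
  D := 128
  w := [(1761534165663, 1781849912175)]
  wS := (31707629264157, 31611583048982)
  wL := (-63000000858873, -62807908425251)
  w' := [(0, 0), (320455455438, 324151267958)]
  lam := [584994379, 0]
  lam' := [0, 1977430]
  Dy := 1000000
  pt := [[(false, [54], 18520)], [(true, [0, 3], 266668), (true, [15, 3], 66668)]]
  pt0 := [[(false, [54, 0], 18520)], [(false, [1, 1, 1], 1000001)]]
  pt1 := [[(true, [0, 3], 16668), (true, [15, 3], 66668)], []]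

def p32_1 : PieceD where
  X0 := 32
  X1 := 48
  D := 128
  w := [(73444396212, 74291438631)]
  wS := (1322013414038, 1283007240402)
  wL := (-823440, -840000)
  w' := [(0, 0), (2040395959373, 2063927809843)]
  lam := [11882523, 0]
  lam' := [1, 12590612]
  Dy := 1000000
  pt := [[(false, [54], 18520)], [(true, [0, 3], 266668), (true, [15, 3], 66668)]]
  pt0 := [[(true, [0, 3], 16668), (true, [15, 3], 66668)], [(false, [1, 1, 1], 1000001)]]
  pt1 := [[(true, [0, 3], 58335), (true, [15, 3], 66668)], []]

def p32_2 : PieceD where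
  X0 := 48
  X1 := 52
  D := 128
  w := [(60979042964, 61682322725)]
  wS := (1097637055582, 1110296090658)
  wL := (649450277693, 574386183825)
  w' := [(649450309454, 656940404887), (1545823801342, 1563651761433)]
  lam := [6773160, 0]
  lam' := [4007548, 9538772]
  Dy := 1000000
  pt := [[(false, [54], 18520)], [(true, [0, 3], 266668), (true, [15, 3], 66668)]]
  pt0 := [[(true, [0, 3], 58335), (true, [15, 3], 66668)], [(false, [1, 1, 1], 1000001)]]
  pt1 := [[(true, [0, 3], 68751), (true, [15, 3], 66668)], []]

def p32_3 : PieceD where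
  X0 := 52
  X1 := 56
  D := 128
  w := [(61322538654, 62029779942)]
  wS := (1103819978005, 1116550320597)
  wL := (653108593590, 584460922376)
  w' := [(653108625351, 660640912064), (1554531330292, 1572459714130)]
  lam := [6811313, 0]
  lam' := [4030122, 9592503]
  Dy := 1000000
  pt := [[(false, [54], 18520)], [(true, [0, 3], 266668), (true, [15, 3], 66668)]]
  pt0 := [[(true, [0, 3], 68751), (true, [15, 3], 66668)], [(false, [1, 1, 1], 1000001)]]
  pt1 := [[(true, [0, 3], 79168), (true, [15, 3], 66668)], []]

def p32_4 : PieceD where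
  X0 := 56
  X1 := 58
  D := 128
  w := [(61669926044, 62381173745)]
  wS := (1110072951017, 1122875409018)
  wL := (656808357071, 590855047524)
  w' := [(656808388830, 664383344841), (1563337512838, 1581367458197)]
  lam := [6849898, 0]
  lam' := [4052952, 9646843]
  Dy := 1000000
  pt := [[(false, [54], 18520)], [(true, [0, 3], 266668), (true, [15, 3], 66668)]]
  pt0 := [[(true, [0, 3], 79168), (true, [15, 3], 66668)], [(false, [1, 1, 1], 1000001)]]
  pt1 := [[(true, [0, 3], 84376), (true, [15, 3], 66668)], []]

def p32_5 : PieceD where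
  X0 := 58
  X1 := 59
  D := 128
  w := [(61845099852, 62558367830)]
  wS := (1113226079576, 1126064902542)
  wL := (658674002399, 594000743441)
  w' := [(658674034160, 666270506617), (1567778124626, 1585859283468)]
  lam := [6869355, 0]
  lam' := [4064465, 9674244]
  Dy := 1000000
  pt := [[(false, [54], 18520)], [(true, [0, 3], 266668), (true, [15, 3], 66668)]]
  pt0 := [[(true, [0, 3], 84376), (true, [15, 3], 66668)], [(false, [1, 1, 1], 1000001)]]
  pt1 := [[(true, [0, 3], 86981), (true, [15, 3], 66668)], []]

def p32_6 : PieceD where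
  X0 := 59
  X1 := 60
  D := 128
  w := [(52601263650, 53207922656)]
  wS := (946837027919, 957756889422)
  wL := (1787175556679, 1736605690218)
  w' := [(840337698013, 850029293717), (1053336357456, 1065484470130)]
  lam := [0, 5842623]
  lam' := [5185451, 6499795]
  Dy := 1000000
  pt := [[(false, [54], 18520)], [(true, [0, 3], 266668), (true, [15, 3], 66668)]]
  pt0 := [[(true, [0, 3], 86981), (true, [15, 3], 66668)], [(false, [1, 1, 1], 1000001)]]
  pt1 := [[(true, [0, 3], 89585), (true, [15, 3], 66668)], []]

def p32_7 : PieceD where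
  X0 := 60
  X1 := 64
  D := 128
  w := [(55994476801, 56640269664)]
  wS := (894545574169, 935021586130)
  wL := (2129199840602, 2048247819954)
  w' := [(894545564251, 904862338146), (894545583720, 904862365713)]
  lam := [0, 7618643]
  lam' := [5519950, 5519950]
  Dy := 1000000
  pt := [[(false, [54], 18520)], [(true, [0, 3], 266668), (true, [15, 3], 66668)]]
  pt0 := [[(true, [0, 3], 89585), (true, [15, 3], 66668)], [(false, [1, 1, 1], 1000001)]]
  pt1 := [[(true, [0, 3], 100001), (true, [15, 3], 66668)], []]

def p32_8 : PieceD where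
  X0 := 64
  X1 := 128
  D := 128
  w := [(56429855626, 57080669704)]
  wS := (901500909636, 889802237419)
  wL := (2145754973323, 2169152306615)
  w' := [(901500898342, 867706579172), (901500910541, 911897908175)]
  lam := [0, 7677880]
  lam' := [5562869, 5562869]
  Dy := 1000000
  pt := [[(false, [54], 18520)], [(true, [0, 3], 266668), (true, [15, 3], 66668)]]
  pt0 := [[(true, [0, 3], 100001), (true, [15, 3], 66668)], [(false, [1, 1, 1], 1000001)]]
  pt1 := [[(true, [0, 3], 266668), (true, [15, 3], 66668)], []]

theorem chk32 : chkAll c32 6877 5000 [p32_0, p32_1, p32_2, p32_3, p32_4, p32_5, p32_6, p32_7,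
    p32_8] = true := by
  decide +kernel

end VB85
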