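import Pool.Agent.LibVB85.CheckDefs

/-! Certificates 8. -/

namespace VB85

/-- bin sizes `3903/5000 ≤ α ≤ 3951/5000` -/
def c33 : CertD where
  M := 5000
  A0 := 3903
  A1 := 3951
  st := [(100, 100, 1), (1301, 1317, 1)]
  lf := [⟨1, some false, 0, 0, 0⟩, ⟨1, none, 2500, 2500, 1⟩]

def p33_0 : PieceD where
  X0 := 0
  X1 := 8
  D := 32
  w := [(44393138759, 49131179164)]
  wS := (674599355177, 655647195178)
  wL := (-1349198769778, -1311294449701)
  w' := [(0, 0), (0, 0)]
  lam := [493545943, 0]
  lam' := [0, 0]
  Dy := 1000000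
  pt := [[(false, [39], 25643)], [(true, [0, 3], 233335), (true, [10, 3], 100001)]]
  pt0 := [[(false, [39, 0], 25643)], [(false, [1, 1, 1], 1000001)]]
  pt1 := [[(true, [10, 3], 65791), (false, [13, 2], 26317)], []]

def p33_1 : PieceD where
  X0 := 8
  X1 := 12
  D := 32
  w := [(2377456968, 2406695733)]
  wS := (30907180644, 29910930801)
  wL := (-19637, -20000)
  w' := [(0, 0), (48252301643, 48845719817)]
  lam := [11393616, 0]
  lam' := [1, 12362881]
  Dy := 1000000
  pt := [[(false, [39], 25643)], [(true, [0, 3], 233335), (true, [10, 3], 100001)]]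
  pt0 := [[(true, [10, 3], 65791), (false, [13, 2], 26317)], [(false, [1, 1, 1], 1000001)]]
  pt1 := [[(true, [0, 3], 25001), (true, [10, 3], 100001)], []]

def p33_2 : PieceD where
  X0 := 12
  X1 := 13
  D := 32
  w := [(1995725104, 2020269242)]
  wS := (25944666413, 26263740192)
  wL := (14584309433, 12666091688)
  w' := [(14584310189, 14763671402), (37305022628, 37763808624)]
  lam := [6647371, 0]
  lam' := [3736698, 9558044]
  Dy := 1000000
  pt := [[(false, [39], 25643)], [(true, [0, 3], 233335), (true, [10, 3], 100001)]]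
  pt0 := [[(true, [0, 3], 25001), (true, [10, 3], 100001)], [(false, [1, 1, 1], 1000001)]]
  pt1 := [[(true, [0, 3], 35418), (true, [10, 3], 100001)], []]

def p33_3 : PieceD where
  X0 := 13
  X1 := 14
  D := 32
  w := [(2006429338, 2031105119)]
  wS := (26083821456, 26404606596)
  wL := (14662532893, 12907570626)
  w' := [(14662533649, 14842856872), (37505109254, 37966355962)]
  lam := [6683024, 0]
  lam' := [3756740, 9609308]
  Dy := 1000000
  pt := [[(false, [39], 25643)], [(true, [0, 3], 233335), (true, [10, 3], 100001)]]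
  pt0 := [[(true, [0, 3], 35418), (true, [10, 3], 100001)], [(false, [1, 1, 1], 1000001)]]
  pt1 := [[(true, [0, 3], 45835), (true, [10, 3], 100001)], []]

def p33_4 : PieceD where
  X0 := 14
  X1 := 16
  D := 32
  w := [(1720307327, 1741464313)]
  wS := (22364235304, 22639276110)
  wL := (41221713129, 40671631595)
  w' := [(18857463390, 18453854408), (25871007211, 26189175031)]
  lam := [2, 5730016]
  lam' := [4831536, 6628498]
  Dy := 1000000
  pt := [[(false, [39], 25643)], [(true, [0, 3], 233335), (true, [10, 3], 100001)]]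
  pt0 := [[(true, [0, 3], 45835), (true, [10, 3], 100001)], [(false, [1, 1, 1], 1000001)]]
  pt1 := [[(true, [0, 3], 66668), (true, [10, 3], 100001)], []]

def p33_5 : PieceD where
  X0 := 16
  X1 := 32
  D := 32
  w := [(1902772138, 1926173119)]
  wS := (20857565420, 20554251004)
  wL := (53351287957, 53957916526)
  w' := [(20857565151, 19994425514), (20857565442, 21114076792)]
  lam := [0, 8325320]
  lam' := [5343988, 5343988]
  Dy := 1000000
  pt := [[(false, [39], 25643)], [(true, [0, 3], 233335), (true, [10, 3], 100001)]]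
  pt0 := [[(true, [0, 3], 66668), (true, [10, 3], 100001)], [(false, [1, 1, 1], 1000001)]]
  pt1 := [[(true, [0, 3], 233335), (true, [10, 3], 100001)], []]

theorem chk33 : chkAll c33 6877 5000 [p33_0, p33_1, p33_2, p33_3, p33_4, p33_5] = true := by
  decide +kernel

/-- bin sizes `3951/5000 ≤ α ≤ 161/200` -/
def c34 : CertD where
  M := 285000
  A0 := 225207
  A1 := 229425
  st := [(7500, 7500, 1), (75069, 76475, 1)]
  lf := [⟨1, some false, 0, 0, 0⟩, ⟨1, none, 142500, 142500, 1⟩]

def p34_0 : PieceD where
  X0 := 0
  X1 := 32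
  D := 128
  w := [(2460115345841, 2849998888670)]
  wS := (29663454121631, 28499999148887)
  wL := (-59326911630315, -57000001680386)
  w' := [(0, 0), (0, 0)]
  lam := [372670812, 0]
  lam' := [0, 0]
  Dy := 1000000
  pt := [[(false, [30], 33335)], [(true, [0, 3], 190478), (true, [7, 3], 142859)]]
  pt0 := [[(false, [30, 0], 33335)], [(false, [1, 1, 1], 1000001)]]
  pt1 := [[(true, [7, 3], 31251), (false, [10, 2], 78126)], []]

def p34_1 : PieceD where
  X0 := 32
  X1 := 48
  D := 128
  w := [(171871327253, 175090401652)]
  wS := (1718723535548, 1632174291800)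
  wL := (-1121373, -1140000)
  w' := [(0, 0), (2716271337432, 2767145583168)]
  lam := [10834040, 0]
  lam' := [1, 12061226]
  Dy := 1000000
  pt := [[(false, [30], 33335)], [(true, [0, 3], 190478), (true, [7, 3], 142859)]]
  pt0 := [[(true, [7, 3], 31251), (false, [10, 2], 78126)], [(false, [1, 1, 1], 1000001)]]
  pt1 := [[(true, [7, 3], 109376), (false, [10, 2], 23439)], []]

def p34_2 : PieceD where
  X0 := 48
  X1 := 52
  D := 128
  w := [(145798501410, 148529246497)]
  wS := (1457995277124, 1485302727174)
  wL := (774201908496, 607632923154)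
  w' := [(774201951600, 788702323165), (2141788602152, 2181903110503)]
  lam := [6474029, 0]
  lam' := [3437740, 9510316]
  Dy := 1000000
  pt := [[(false, [30], 33335)], [(true, [0, 3], 190478), (true, [7, 3], 142859)]]
  pt0 := [[(true, [7, 3], 109376), (false, [10, 2], 23439)], [(false, [1, 1, 1], 1000001)]]
  pt1 := [[(true, [7, 3], 128908), (false, [10, 2], 9767)], []]

def p34_3 : PieceD where
  X0 := 52
  X1 := 54
  D := 128
  w := [(146636868511, 149383315742)]
  wS := (1466378948123, 1493843419598)
  wL := (778653678113, 618888936146)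
  w' := [(778653721217, 793237471912), (2154104174530, 2194449346602)]
  lam := [6511255, 0]
  lam' := [3457508, 9565002]
  Dy := 1000000
  pt := [[(false, [30], 33335)], [(true, [0, 3], 190478), (true, [7, 3], 142859)]]
  pt0 := [[(true, [7, 3], 128908), (false, [10, 2], 9767)], [(false, [1, 1, 1], 1000001)]]
  pt1 := [[(true, [7, 3], 138673), (false, [10, 2], 2931)], []]

def p34_4 : PieceD where
  X0 := 54
  X1 := 55
  D := 128
  w := [(147059678026, 149814044242)]
  wS := (1470607043281, 1498150704592)
  wL := (780898816976, 624353322975)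
  w' := [(780898860076, 795524660957), (2160315225985, 2200776727544)]
  lam := [6530029, 0]
  lam' := [3467477, 9592581]
  Dy := 1000000
  pt := [[(false, [30], 33335)], [(true, [0, 3], 190478), (true, [7, 3], 142859)]]
  pt0 := [[(true, [7, 3], 138673), (false, [10, 2], 2931)], [(false, [1, 1, 1], 1000001)]]
  pt1 := [[(true, [0, 3], 374), (true, [7, 3], 142859)], []]

def p34_5 : PieceD where
  X0 := 55
  X1 := 56
  D := 128
  w := [(147268544215, 150026822374)]
  wS := (1472695705163, 1500278485929)
  wL := (782007906477, 628793596616)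
  w' := [(782007949581, 796654523082), (2163383460246, 2203902428100)]
  lam := [6539304, 0]
  lam' := [3472402, 9606205]
  Dy := 1000000
  pt := [[(false, [30], 33335)], [(true, [0, 3], 190478), (true, [7, 3], 142859)]]
  pt0 := [[(true, [0, 3], 374), (true, [7, 3], 142859)], [(false, [1, 1, 1], 1000001)]]
  pt1 := [[(true, [0, 3], 2978), (true, [7, 3], 142859)], []]

def p34_6 : PieceD where
  X0 := 56
  X1 := 64
  D := 128
  w := [(126592854458, 128963888619)]
  wS := (1265938807596, 1289649148369)
  wL := (2274268700234, 2226848023128)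
  w' := [(1008329069891, 970226890315), (1523548544800, 1552083765821)]
  lam := [2, 5621228]
  lam' := [4477349, 6765108]
  Dy := 1000000
  pt := [[(false, [30], 33335)], [(true, [0, 3], 190478), (true, [7, 3], 142859)]]
  pt0 := [[(true, [0, 3], 2978), (true, [7, 3], 142859)], [(false, [1, 1, 1], 1000001)]]
  pt1 := [[(true, [0, 3], 23811), (true, [7, 3], 142859)], []]

def p34_7 : PieceD where
  X0 := 64
  X1 := 128
  D := 128
  w := [(144036500210, 146734244011)]
  wS := (1147269052412, 1120385783272)
  wL := (3173857872739, 3227624395896)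
  w' := [(1147269037084, 1072014811349), (1147269053643, 1168756772172)]
  lam := [0, 8998783]
  lam' := [5094292, 5094292]
  Dy := 1000000
  pt := [[(false, [30], 33335)], [(true, [0, 3], 190478), (true, [7, 3], 142859)]]
  pt0 := [[(true, [0, 3], 23811), (true, [7, 3], 142859)], [(false, [1, 1, 1], 1000001)]]
  pt1 := [[(true, [0, 3], 190478), (true, [7, 3], 142859)], []]

theorem chk34 : chkAll c34 6877 5000 [p34_0, p34_1, p34_2, p34_3, p34_4, p34_5, p34_6, p34_7] =
    true := by
  decide +kernel

/-- bin sizes `161/200 ≤ α ≤ 821/1000` -/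
def c35 : CertD where
  M := 21000
  A0 := 16905
  A1 := 17241
  st := [(750, 750, 1), (5635, 5747, 1)]
  lf := [⟨1, some false, 0, 0, 0⟩, ⟨1, none, 10500, 10500, 1⟩]

def p35_0 : PieceD where
  X0 := 0
  X1 := 32
  D := 128
  w := [(199065082430, 204628419881)]
  wS := (1543985924387, 1534713695253)
  wL := (-3087972098347, -3069427639753)
  w' := [(0, 0), (0, 0)]
  lam := [267965898, 0]
  lam' := [0, 0]
  Dy := 1000000
  pt := [[(false, [22], 45456)], [(true, [0, 3], 133335), (true, [5, 3], 200001)]]
  pt0 := [[(false, [22, 0], 45456)], [(false, [1, 1, 1], 1000001)]]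
  pt1 := [[(true, [5, 3], 68751), (false, [15, 1], 43751)], []]

def p35_1 : PieceD where
  X0 := 32
  X1 := 48
  D := 128
  w := [(17512436118, 17725954292)]
  wS := (122587555417, 115969444767)
  wL := (-82649, -84000)
  w' := [(0, 0), (197366015464, 201288819579)]
  lam := [11115608, 0]
  lam' := [1, 11675014]
  Dy := 1000000
  pt := [[(false, [22], 45456)], [(true, [0, 3], 133335), (true, [5, 3], 200001)]]
  pt0 := [[(true, [5, 3], 68751), (false, [15, 1], 43751)], [(false, [1, 1, 1], 1000001)]]
  pt1 := [[(true, [5, 3], 115626), (false, [15, 1], 28126)], []]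

def p35_2 : PieceD where
  X0 := 48
  X1 := 50
  D := 128
  w := [(15068272860, 14974680476)]
  wS := (105478414312, 112310650425)
  wL := (51101295953, 30964374639)
  w' := [(51101299129, 52116977658), (159855529458, 163032783540)]
  lam := [7130841, 0]
  lam' := [3022856, 9456115]
  Dy := 1000000
  pt := [[(false, [22], 45456)], [(true, [0, 3], 133335), (true, [5, 3], 200001)]]
  pt0 := [[(true, [5, 3], 115626), (false, [15, 1], 28126)], [(false, [1, 1, 1], 1000001)]]
  pt1 := [[(true, [5, 3], 121486), (false, [15, 1], 26173)], []]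

def p35_3 : PieceD where
  X0 := 50
  X1 := 52
  D := 128
  w := [(15107420519, 15291615981)]
  wS := (105752447924, 107041814250)
  wL := (51234057579, 47030231960)
  w' := [(51234060755, 52252378025), (160270835057, 163456343661)]
  lam := [7149367, 0]
  lam' := [3030710, 9480682]
  Dy := 1000000
  pt := [[(false, [22], 45456)], [(true, [0, 3], 133335), (true, [5, 3], 200001)]]
  pt0 := [[(true, [5, 3], 121486), (false, [15, 1], 26173)], [(false, [1, 1, 1], 1000001)]]
  pt1 := [[(true, [5, 3], 127345), (false, [15, 1], 24220)], []]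

def p35_4 : PieceD where
  X0 := 52
  X1 := 53
  D := 128
  w := [(15146772119, 15331447368)]
  wS := (106027909127, 107320633963)
  wL := (51367510833, 47152735203)
  w' := [(51367514009, 52388483765), (160688304209, 163882110336)]
  lam := [7167989, 0]
  lam' := [3038604, 9505377]
  Dy := 1000000
  pt := [[(false, [22], 45456)], [(true, [0, 3], 133335), (true, [5, 3], 200001)]]
  pt0 := [[(true, [5, 3], 127345), (false, [15, 1], 24220)], [(false, [1, 1, 1], 1000001)]]
  pt1 := [[(true, [5, 3], 130275), (false, [15, 1], 23244)], []]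

def p35_5 : PieceD where
  X0 := 53
  X1 := 54
  D := 128
  w := [(15166524896, 15351440977)]
  wS := (106166178566, 107460589226)
  wL := (51434498511, 47214226456)
  w' := [(51434501687, 52456802876), (160897855408, 164095826528)]
  lam := [7177337, 0]
  lam' := [3042567, 9517773]
  Dy := 1000000
  pt := [[(false, [22], 45456)], [(true, [0, 3], 133335), (true, [5, 3], 200001)]]
  pt0 := [[(true, [5, 3], 130275), (false, [15, 1], 23244)], [(false, [1, 1, 1], 1000001)]]
  pt1 := [[(true, [5, 3], 133205), (false, [15, 1], 22267)], []]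

def p35_6 : PieceD where
  X0 := 54
  X1 := 56
  D := 128
  w := [(13131723718, 13291830859)]
  wS := (91922570317, 93043318398)
  wL := (158723388910, 155069322400)
  w' := [(66800828098, 68128546954), (117044312500, 119370660407)]
  lam := [776806, 5437597]
  lam' := [3951548, 6923656]
  Dy := 1000000
  pt := [[(false, [22], 45456)], [(true, [0, 3], 133335), (true, [5, 3], 200001)]]
  pt0 := [[(true, [5, 3], 133205), (false, [15, 1], 22267)], [(false, [1, 1, 1], 1000001)]]
  pt1 := [[(true, [5, 3], 139064), (false, [15, 1], 20314)], []]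

def p35_7 : PieceD where
  X0 := 56
  X1 := 64
  D := 128
  w := [(12927736191, 13085356251)]
  wS := (90494657628, 91597996145)
  wL := (172317319251, 168720014488)
  w' := [(68894758566, 70264095916), (112094556654, 114322524320)]
  lam := [0, 6117869]
  lam' := [4075412, 6630858]
  Dy := 1000000
  pt := [[(false, [22], 45456)], [(true, [0, 3], 133335), (true, [5, 3], 200001)]]
  pt0 := [[(true, [5, 3], 139064), (false, [15, 1], 20314)], [(false, [1, 1, 1], 1000001)]]
  pt1 := [[(true, [5, 3], 162501), (false, [15, 1], 12501)], []]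

def p35_8 : PieceD where
  X0 := 64
  X1 := 128
  D := 128
  w := [(15007741882, 15190722031)]
  wS := (79979509757, 85114440787)
  wL := (250192491572, 239922629070)
  w' := [(79979509003, 81569164374), (79979509398, 81569165566)]
  lam := [0, 10068796]
  lam' := [4731121, 4731121]
  Dy := 1000000
  pt := [[(false, [22], 45456)], [(true, [0, 3], 133335), (true, [5, 3], 200001)]]
  pt0 := [[(true, [5, 3], 162501), (false, [15, 1], 12501)], [(false, [1, 1, 1], 1000001)]]
  pt1 := [[(true, [0, 3], 133335), (true, [5, 3], 200001)], []]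

theorem chk35 : chkAll c35 6877 5000 [p35_0, p35_1, p35_2, p35_3, p35_4, p35_5, p35_6, p35_7,
    p35_8] = true := by
  decide +kernel

/-- bin sizes `821/1000 ≤ α ≤ 4191/5000` -/
def c36 : CertD where
  M := 120000
  A0 := 98520
  A1 := 100584
  st := [(1875, 1875, 3), (32840, 33528, 1)]
  lf := [⟨1, some false, 0, 0, 0⟩, ⟨1, none, 60000, 60000, 1⟩]

def p36_0 : PieceD where
  X0 := 0
  X1 := 32
  D := 128
  w := [(390361786528, 396849915966)]
  wS := (6968671260330, 6944881452124)
  wL := (-13937343946787, -13889764328506)
  w' := [(0, 0), (0, 0)]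
  lam := [210000002, 0]
  lam' := [0, 0]
  Dy := 1000000
  pt := [[(true, [63], 47621)], [(true, [0, 3], 33335), (true, [10, 3], 300001)]]
  pt0 := [[(true, [63, 0], 47621)], [(false, [3, 1, 1], 1000001)]]
  pt1 := [[(true, [46, 1], 50783), (true, [10, 3], 66408)], []]

def p36_1 : PieceD where
  X0 := 32
  X1 := 48
  D := 128
  w := [(38337365196, 39140545410)]
  wS := (684399323012, 642874708795)
  wL := (-482157, -480000)
  w' := [(0, 0), (1123783998231, 1147327349494)]
  lam := [9217635, 0]
  lam' := [0, 11406664]
  Dy := 1000000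
  pt := [[(true, [63], 47621)], [(true, [0, 3], 33335), (true, [10, 3], 300001)]]
  pt0 := [[(true, [46, 1], 50783), (true, [10, 3], 66408)], [(false, [3, 1, 1], 1000001)]]
  pt1 := [[(true, [46, 1], 41017), (true, [10, 3], 111330)], []]

def p36_2 : PieceD where
  X0 := 48
  X1 := 50
  D := 128
  w := [(33408035539, 33963311235)]
  wS := (596401882621, 594365871463)
  wL := (260062889257, 264134911833)
  w' := [(260062907406, 254798898824), (932740857626, 933932845078)]
  lam := [5865273, 0]
  lam' := [2639702, 9467533]
  Dy := 1000000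
  pt := [[(true, [63], 47621)], [(true, [0, 3], 33335), (true, [10, 3], 300001)]]
  pt0 := [[(true, [46, 1], 41017), (true, [10, 3], 111330)], [(false, [3, 1, 1], 1000001)]]
  pt1 := [[(true, [46, 1], 39796), (true, [10, 3], 116945)], []]

def p36_3 : PieceD where
  X0 := 50
  X1 := 52
  D := 128
  w := [(33484956902, 34041511093)]
  wS := (597775067939, 595734368972)
  wL := (260661671649, 264743069848)
  w' := [(260661689798, 255823954397), (934888445872, 935644784522)]
  lam := [5878777, 0]
  lam' := [2645780, 9489332]
  Dy := 1000000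
  pt := [[(true, [63], 47621)], [(true, [0, 3], 33335), (true, [10, 3], 300001)]]
  pt0 := [[(true, [46, 1], 39796), (true, [10, 3], 116945)], [(false, [3, 1, 1], 1000001)]]
  pt1 := [[(true, [46, 1], 38576), (true, [10, 3], 122560)], []]

def p36_4 : PieceD where
  X0 := 52
  X1 := 53
  D := 128
  w := [(29304072150, 29791136728)]
  wS := (523138721326, 521352817598)
  wL := (845488792051, 849060599768)
  w' := [(338625932261, 334573192164), (707651510181, 708132444009)]
  lam := [0, 5144772]
  lam' := [3437134, 7182826]
  Dy := 1000000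
  pt := [[(true, [63], 47621)], [(true, [0, 3], 33335), (true, [10, 3], 300001)]]
  pt0 := [[(true, [46, 1], 38576), (true, [10, 3], 122560)], [(false, [3, 1, 1], 1000001)]]
  pt1 := [[(true, [46, 1], 37965), (true, [10, 3], 125368)], []]

def p36_5 : PieceD where
  X0 := 53
  X1 := 54
  D := 128
  w := [(29347964386, 29835758490)]
  wS := (523922277064, 522133698416)
  wL := (846755162398, 850332319957)
  w' := [(339133125508, 335248843862), (708711428410, 709018553947)]
  lam := [0, 5152478]
  lam' := [3442282, 7193584]
  Dy := 1000000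
  pt := [[(true, [63], 47621)], [(true, [0, 3], 33335), (true, [10, 3], 300001)]]
  pt0 := [[(true, [46, 1], 37965), (true, [10, 3], 125368)], [(false, [3, 1, 1], 1000001)]]
  pt1 := [[(true, [46, 1], 37355), (true, [10, 3], 128175)], []]

def p36_6 : PieceD where
  X0 := 54
  X1 := 56
  D := 128
  w := [(29556830948, 30176058435)]
  wS := (522178857710, 519963369597)
  wL := (863725469794, 851905290542)
  w' := [(341546666403, 348702093415), (702811048807, 707475802496)]
  lam := [0, 5300232]
  lam' := [3466780, 7133694]
  Dy := 1000000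
  pt := [[(true, [63], 47621)], [(true, [0, 3], 33335), (true, [10, 3], 300001)]]
  pt0 := [[(true, [46, 1], 37355), (true, [10, 3], 128175)], [(false, [3, 1, 1], 1000001)]]
  pt1 := [[(true, [46, 1], 36134), (true, [10, 3], 133791)], []]

def p36_7 : PieceD where
  X0 := 56
  X1 := 64
  D := 128
  w := [(36406747976, 37169481642)]
  wS := (420700341787, 472091140539)
  wL := (1508881773801, 1406100178168)
  w' := [(420700336120, 429514037332), (420700347244, 429514053200)]
  lam := [0, 11045285]
  lam' := [4270208, 4270208]
  Dy := 1000000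
  pt := [[(true, [63], 47621)], [(true, [0, 3], 33335), (true, [10, 3], 300001)]]
  pt0 := [[(true, [46, 1], 36134), (true, [10, 3], 133791)], [(false, [3, 1, 1], 1000001)]]
  pt1 := [[(true, [46, 1], 31251), (true, [10, 3], 156251)], []]

def p36_8 : PieceD where
  X0 := 64
  X1 := 128
  D := 128
  w := [(36956082508, 37730324766)]
  wS := (427048129559, 458533672849)
  wL := (1531648722904, 1468677633798)
  w' := [(427048125247, 435994813027), (427048127505, 435994819844)]
  lam := [0, 11211943]
  lam' := [4334639, 4334639]
  Dy := 1000000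
  pt := [[(true, [63], 47621)], [(true, [0, 3], 33335), (true, [10, 3], 300001)]]
  pt0 := [[(true, [46, 1], 31251), (true, [10, 3], 156251)], [(false, [3, 1, 1], 1000001)]]
  pt1 := [[(true, [0, 3], 33335), (true, [10, 3], 300001)], []]

theorem chk36 : chkAll c36 6877 5000 [p36_0, p36_1, p36_2, p36_3, p36_4, p36_5, p36_6, p36_7,
    p36_8] = true := by
  decide +kernel

end VB85
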