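import Pool.Agent.LibVB85.CheckDefs

/-! Certificates 9. -/

namespace VB85

/-- bin sizes `4191/5000 ≤ α ≤ 532/625` -/
def c37 : CertD where
  M := 45000
  A0 := 37719
  A1 := 38304
  st := [(2500, 2500, 1), (12573, 12768, 1)]
  lf := [⟨1, some false, 0, 0, 0⟩, ⟨1, none, 22500, 22500, 1⟩]

def p37_0 : PieceD where
  X0 := 0
  X1 := 16
  D := 64
  w := [(443127174246, 449999824725)]
  wS := (2215636591706, 2249999843970)
  wL := (-4431273718211, -4500000222038)
  w' := [(0, 0), (0, 0)]
  lam := [176221807, 0]
  lam' := [0, 0]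
  Dy := 1000000
  pt := [[(false, [15], 66668)], [(true, [2, 3], 272729), (false, [5, 2], 90911)]]
  pt0 := [[(false, [15, 0], 66668)], [(false, [1, 1, 1], 1000001)]]
  pt1 := [[(false, [15, 0], 25001), (false, [5, 2], 125001)], []]

def p37_1 : PieceD where
  X0 := 16
  X1 := 24
  D := 64
  w := [(50222795587, 51001725090)]
  wS := (251114698413, 239422038215)
  wL := (-180809, -180000)
  w' := [(0, 0), (420968802701, 427497788830)]
  lam := [8811890, 0]
  lam' := [0, 11160662]
  Dy := 1000000
  pt := [[(false, [15], 66668)], [(true, [2, 3], 272729), (false, [5, 2], 90911)]]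
  pt0 := [[(false, [15, 0], 25001), (false, [5, 2], 125001)], [(false, [1, 1, 1], 1000001)]]
  pt1 := [[(false, [15, 0], 4168), (false, [5, 2], 187501)], []]

def p37_2 : PieceD where
  X0 := 24
  X1 := 26
  D := 64
  w := [(50222794603, 51001724091)]
  wS := (251114693496, 238806655349)
  wL := (-165803, -180000)
  w' := [(0, 0), (420968792029, 427497777993)]
  lam := [8811889, 0]
  lam' := [1, 11160661]
  Dy := 1000000
  pt := [[(false, [15], 66668)], [(true, [2, 3], 272729), (false, [5, 2], 90911)]]
  pt0 := [[(false, [15, 0], 4168), (false, [5, 2], 187501)], [(false, [1, 1, 1], 1000001)]]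
  pt1 := [[(true, [2, 3], 2842), (false, [5, 2], 198865)], []]

def p37_3 : PieceD where
  X0 := 26
  X1 := 27
  D := 64
  w := [(44582493727, 45273945391)]
  wS := (222913189112, 226370447301)
  wL := (86058945462, 64626991701)
  w' := [(86058952267, 87393677514), (359767425878, 365347213845)]
  lam := [5909844, 0]
  lam' := [2281586, 9538101]
  Dy := 1000000
  pt := [[(false, [15], 66668)], [(true, [2, 3], 272729), (false, [5, 2], 90911)]]
  pt0 := [[(true, [2, 3], 2842), (false, [5, 2], 198865)], [(false, [1, 1, 1], 1000001)]]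
  pt1 := [[(true, [2, 3], 9945), (false, [5, 2], 196024)], []]

def p37_4 : PieceD where
  X0 := 27
  X1 := 28
  D := 64
  w := [(38746818923, 39347762627)]
  wS := (193734815094, 196739533480)
  wL := (305926136703, 288693516073)
  w' := [(112191341978, 113931365562), (275278288131, 279547698157)]
  lam := [6, 5136266]
  lam' := [2974404, 7298138]
  Dy := 1000000
  pt := [[(false, [15], 66668)], [(true, [2, 3], 272729), (false, [5, 2], 90911)]]
  pt0 := [[(true, [2, 3], 9945), (false, [5, 2], 196024)], [(false, [1, 1, 1], 1000001)]]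
  pt1 := [[(true, [2, 3], 17047), (false, [5, 2], 193183)], []]

def p37_5 : PieceD where
  X0 := 28
  X1 := 32
  D := 64
  w := [(38846366455, 39448854083)]
  wS := (194232552750, 197244990761)
  wL := (306712349955, 300687474634)
  w' := [(112479619188, 105726317828), (275985486234, 280265864495)]
  lam := [0, 5149467]
  lam' := [2982047, 7316887]
  Dy := 1000000
  pt := [[(false, [15], 66668)], [(true, [2, 3], 272729), (false, [5, 2], 90911)]]
  pt0 := [[(true, [2, 3], 17047), (false, [5, 2], 193183)], [(false, [1, 1, 1], 1000001)]]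
  pt1 := [[(true, [2, 3], 45456), (false, [5, 2], 181820)], []]

def p37_6 : PieceD where
  X0 := 32
  X1 := 64
  D := 64
  w := [(50286100514, 51066011839)]
  wS := (145603259385, 141785201737)
  wL := (608690588139, 616326702487)
  w' := [(145603257768, 135708921213), (145603258615, 147861483502)]
  lam := [0, 12277297]
  lam' := [3860215, 3860215]
  Dy := 1000000
  pt := [[(false, [15], 66668)], [(true, [2, 3], 272729), (false, [5, 2], 90911)]]
  pt0 := [[(true, [2, 3], 45456), (false, [5, 2], 181820)], [(false, [1, 1, 1], 1000001)]]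
  pt1 := [[(true, [2, 3], 272729), (false, [5, 2], 90911)], []]

theorem chk37 : chkAll c37 6877 5000 [p37_0, p37_1, p37_2, p37_3, p37_4, p37_5, p37_6] = true :=
    by
  decide +kernel

/-- bin sizes `532/625 ≤ α ≤ 2163/2500` -/
def c38 : CertD where
  M := 7500
  A0 := 6384
  A1 := 6489
  st := [(500, 500, 1), (2128, 2163, 1)]
  lf := [⟨1, some true, 0, 0, 0⟩, ⟨1, none, 3750, 3750, 1⟩]

def p38_0 : PieceD where
  X0 := 0
  X1 := 1
  D := 1
  w := [(9208353320, 9272643853)]
  wS := (36833503362, 37090665423)
  wL := (36833503903, 36319179898)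
  w' := [(0, 0), (57224547406, 57674580805)]
  lam := [2575578, 5769664]
  lam' := [1, 8963750]
  Dy := 1000000
  pt := [[(true, [14], 71430)], [(true, [14, 0], 23811), (true, [2, 3], 333335)]]
  pt0 := [[(true, [14, 0], 71430)], [(false, [1, 1, 1], 1000001)]]
  pt1 := [[(true, [14, 0], 23811), (true, [2, 3], 333335)], []]

theorem chk38 : chkAll c38 6877 5000 [p38_0] = true := by
  decide +kernel

/-- bin sizes `2163/2500 ≤ α ≤ 8867/10000` -/
def c39 : CertD where
  M := 1710000
  A0 := 1479492
  A1 := 1516257
  st := [(90000, 90000, 1), (190000, 190000, 1), (570000, 570000, 1)]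
  lf := [⟨2, some false, 0, 0, 0⟩, ⟨2, none, 855000, 855000, 1⟩]

def p39_0 : PieceD where
  X0 := 0
  X1 := 1
  D := 2
  w := [(1987822700163, 2037219759101), (3975652220250, 4020683958476)]
  wS := (11926970370899, 11145348231121)
  wL := (-6801218, -6840000)
  w' := [(0, 0), (11926970416778, 12223352784860)]
  lam := [2687179, 10748714, 0]
  lam' := [1, 8061536]
  Dy := 1000000
  pt := [[(false, [16], 62501)], [(true, [2, 8], 94596), (false, [10, 3], 81083)], [(true, [2, 2,
    2], 500001)]]
  pt0 := [[(true, [2, 8, 0], 94596), (false, [10, 3, 0], 81083)], [(true, [1, 1, 1, 1], 1000001)]]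
  pt1 := [[(true, [2, 2, 2], 229731), (true, [2, 8, 0], 67569), (false, [10, 0, 1], 40542)], []]

def p39_1 : PieceD where
  X0 := 1
  X1 := 2
  D := 2
  w := [(1387360320613, 1421836042107), (2774727461527, 2806156492129)]
  wS := (8324196082382, 8418483134005)
  wL := (11098930408516, 11487303304821)
  w' := [(2774727724063, 2843679242514), (8324196023541, 7982485397077)]
  lam := [1875465, 0, 5626393]
  lam' := [1875465, 5626393]
  Dy := 1000000
  pt := [[(false, [16], 62501)], [(true, [2, 8], 94596), (false, [10, 3], 81083)], [(true, [2, 2,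
    2], 500001)]]
  pt0 := [[(true, [2, 2, 2], 229731), (true, [2, 8, 0], 67569), (false, [10, 0, 1], 40542)],
    [(true, [1, 1, 1, 1], 1000001)]]
  pt1 := [[(true, [2, 2, 2], 500001)], []]

theorem chk39 : chkAll c39 6877 5000 [p39_0, p39_1] = true := by
  decide +kernel

/-- bin sizes `8867/10000 ≤ α ≤ 9/10` -/
def c40 : CertD where
  M := 10000
  A0 := 8867
  A1 := 9000
  st := [(1250, 1250, 1), (2500, 2500, 1)]
  lf := [⟨1, some true, 0, 0, 0⟩, ⟨1, none, 5000, 5000, 1⟩]

def p40_0 : PieceD where
  X0 := 0
  X1 := 1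
  D := 1
  w := [(19704404839, 19999960416)]
  wS := (39408849457, 39999960851)
  wL := (39408850178, 39999960884)
  w' := [(0, 0), (78817739369, 77931072989)]
  lam := [2222223, 4444445]
  lam' := [1, 8888889]
  Dy := 1000000
  pt := [[(false, [7], 142859)], [(false, [7, 0], 95240), (false, [1, 3], 333335)]]
  pt0 := [[(false, [7, 0], 142859)], [(false, [1, 1, 1], 1000001)]]
  pt1 := [[(false, [7, 0], 95240), (false, [1, 3], 333335)], []]

theorem chk40 : chkAll c40 6877 5000 [p40_0] = true := by
  decide +kernel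

/-- bin sizes `9/10 ≤ α ≤ 1` -/
def c41 : CertD where
  M := 9030
  A0 := 8127
  A1 := 9030
  st := [(210, 210, 1), (1290, 1290, 1), (3010, 3010, 1)]
  lf := [⟨2, some true, 0, 0, 0⟩, ⟨2, none, 4515, 4515, 1⟩]

def p41_0 : PieceD where
  X0 := 0
  X1 := 1
  D := 1
  w := [(4034644840, 4482942720), (24208049524, 26897836790)]
  wS := (48416135327, 53795709390)
  wL := (48416136079, 53795710826)
  w' := [(0, 0), (48416133642, 39898473661)]
  lam := [2978724, 5957447, 5957448]
  lam' := [1, 5957447]
  Dy := 1000000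
  pt := [[(true, [42], 23811)], [(true, [6, 6], 166668)], [(true, [2, 2, 2], 500001)]]
  pt0 := [[(true, [6, 6, 0], 166668)], [(true, [1, 1, 1, 1], 1000001)]]
  pt1 := [[(true, [2, 2, 2], 500001)], []]

theorem chk41 : chkAll c41 6877 5000 [p41_0] = true := by
  decide +kernel

end VB85
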