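import Pool.Agent.LibVB85.Inst

/-!
# The integer certificates and their checker

A certificate covers an interval of bin sizes `α = ((1-s) A0 + s A1) / M`, `s ∈ [0,1]`. All sizes are
given at both endpoints, multiplied by `M`.
-/

namespace VB85

/-- a leaf: last stage before it, kind, sizes at the endpoints (times `M`), number of items -/
structure LeafD where
  lat : ℕ
  kind : Option Bool
  t0 : ℤ
  t1 : ℤ
  n : ℕ
deriving DecidableEq

/-- an adversary on an interval of bin sizes -/
structure CertD where
  M : ℕ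
  A0 : ℤ
  A1 : ℤ
  st : List (ℤ × ℤ × ℕ)
  lf : List LeafD

/-- a pattern: bin type, numbers of items of each type, multiplicity -/
abbrev Pat := Bool × List ℕ × ℕ

/-- a certificate for the piece `[X0 / D, X1 / D]` -/
structure PieceD where
  X0 : ℕ
  X1 : ℕ
  D : ℕ
  w : List (ℤ × ℤ)
  wS : ℤ × ℤ
  wL : ℤ × ℤ
  w' : List (ℤ × ℤ)
  lam : List ℕ
  lam' : List ℕ
  Dy : ℕ
  pt : List (List Pat)
  pt0 : List (List Pat)
  pt1 : List (List Pat)

/-- capacity of a bin of type `B` at the two endpoints, times `M` -/
def CertD.cap (C : CertD) (B : Bool) : ℤ × ℤ := if B then ((C.M : ℤ), (C.M : ℤ)) else (C.A0, C.A1)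

def CertD.leaf (C : CertD) (l : ℕ) : LeafD := C.lf.getD l ⟨0, none, 0, 0, 0⟩
def CertD.stage (C : CertD) (j : ℕ) : ℤ × ℤ × ℕ := C.st.getD j (0, 0, 0)

/-- interpolation -/
def itp (s : ℝ) (a : ℤ × ℤ) : ℝ := (1 - s) * (a.1 : ℝ) + s * (a.2 : ℝ)

/-- the bin size `α` at the parameter `s` -/
noncomputable def CertD.alpha (C : CertD) (s : ℝ) : ℝ := itp s (C.A0, C.A1) / (C.M : ℝ)

/-- the adversary at the parameter `s` -/
noncomputable def CertD.inst (C : CertD) (s : ℝ) : Inst where
  m := C.st.length - 1
  σ := fun j => itp s ((C.stage j).1, (C.stage j).2.1) / (C.M : ℝ)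
  n := fun j => (C.stage j).2.2
  nl := C.lf.length
  lat := fun l => (C.leaf l).lat
  kind := fun l => (C.leaf l).kind
  τ := fun l => itp s ((C.leaf l).t0, (C.leaf l).t1) / (C.M : ℝ)
  nn := fun l => (C.leaf l).n

/-- the weights at the parameter `s` -/
noncomputable def PieceD.wts (P : PieceD) (M : ℕ) (s : ℝ) : Wts where
  w := fun j => itp s (P.w.getD j (0, 0)) / (M : ℝ)
  wS := itp s P.wS / (M : ℝ)
  wL := itp s P.wL / (M : ℝ)
  w' := fun l => itp s (P.w'.getD l (0, 0)) / (M : ℝ)
  lam := fun j => (P.lam.getD j 0 : ℕ)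
  lam' := fun l => (P.lam'.getD l 0 : ℕ)

/-! ### Conditions on the adversary -/

/-- `Inst.Good` at both endpoints -/
def CertD.good (C : CertD) : Bool :=
  decide (0 < C.M) && decide (0 < C.A0 ∨ 0 < C.A1) && decide (0 ≤ C.A0) && decide (0 ≤ C.A1) &&
  decide (0 < C.st.length) &&
  C.st.all (fun x => decide (0 < x.1) && decide (0 < x.2.1) && decide (x.1 < C.M) && decide (x.2.1 < C.M)
    && decide (0 < x.2.2)) &&
  C.lf.all (fun x => decide (x.lat < C.st.length) &&
    (match x.kind with
      | none => decide (0 < x.t0) && decide (0 < x.t1) && decide (x.t0 < C.M) && decide (x.t1 < C.M)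
      | some B => decide (x.lat = C.st.length - 1) &&
          decide (2 * (C.stage (C.st.length - 1)).1 < (C.cap B).1) &&
          decide (2 * (C.stage (C.st.length - 1)).2.1 < (C.cap B).2)))

/-! ### The bin inequality -/

/-- largest `d` with `d * t < r` at one of the endpoints (`0` if there is none) -/
def dMax (r0 r1 t0 t1 : ℤ) : ℕ := max ((r0 - 1) / t0).toNat ((r1 - 1) / t1).toNat

/-- The largest number of items of leaf `x` that may fit into a bin of type `β` with remaining capacities
`r0, r1` after the stage `x.lat`; `cm` is the number of items of the last stage in the bin, `us` tells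
whether the bin is used. -/
def leafD (C : CertD) (β : Bool) (x : LeafD) (r0 r1 : ℤ) (cm : ℕ) (us : Bool) : ℕ :=
  match x.kind with
  | none => dMax r0 r1 x.t0 x.t1
  | some B =>
      let sm := C.stage (C.st.length - 1)
      if B = β then
        if cm = 0 then
          (if us then (if (C.cap β).1 - r0 < sm.1 ∨ (C.cap β).2 - r1 < sm.2.1 then 1 else 0) else 1)
        else 0
      else dMax (r0 + 1) (r1 + 1) ((C.cap B).1 - sm.1) ((C.cap B).2 - sm.2.1)

/-- contribution of the leaves after stage `j` (left side minus right side, at the two endpoints), for a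
bin that is used; from leaf number `l` on -/
def leafSum (C : CertD) (P : PieceD) (β : Bool) (j : ℕ) (r0 r1 : ℤ) (cm : ℕ) (us : Bool) :
    List LeafD → ℕ → ℤ × ℤ
  | [], _ => (0, 0)
  | x :: xs, l =>
      let r := leafSum C P β j r0 r1 cm us xs (l + 1)
      if x.lat = j then
        let d : ℤ := leafD C β x r0 r1 cm us
        let la : ℤ := P.lam'.getD l 0
        let ww := P.w'.getD l (0, 0)
        (r.1 + (ww.1 * d - (C.cap β).1 * la), r.2 + (ww.2 * d - (C.cap β).2 * la))
      else r

/-- weight of `c` items of stage `j` in the bin (at both endpoints); `us`: the bin was used before -/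
def stW (C : CertD) (P : PieceD) (j c : ℕ) (us : Bool) : ℤ × ℤ :=
  if j + 1 = C.st.length then
    (if us ∨ c = 0 then (P.wS.1 * c, P.wS.2 * c)
      else (P.wS.1 * (c - 1) + P.wL.1, P.wS.2 * (c - 1) + P.wL.2))
  else ((P.w.getD j (0, 0)).1 * c, (P.w.getD j (0, 0)).2 * c)

/-- The check of the inequality for all contents of a bin: `k` stages are left, the next one is `j`. -/
def chk (C : CertD) (P : PieceD) (β : Bool) : ℕ → ℕ → ℤ → ℤ → ℤ → ℤ → Bool → Bool
  | 0, _, _, _, T0, T1, _ => decide (T0 ≤ 0) && decide (T1 ≤ 0)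
  | k + 1, j, r0, r1, T0, T1, us =>
      let s := C.stage j
      (List.range (dMax r0 r1 s.1 s.2.1 + 1)).all fun c =>
        let us' := us || decide (c ≠ 0)
        let r0' := r0 - s.1 * c
        let r1' := r1 - s.2.1 * c
        let a := stW C P j c us
        if us' then
          let b := leafSum C P β j r0' r1' c us C.lf 0
          let la : ℤ := P.lam.getD j 0
          chk C P β k (j + 1) r0' r1' (T0 + a.1 + b.1 - (C.cap β).1 * la)
            (T1 + a.2 + b.2 - (C.cap β).2 * la) true
        else chk C P β k (j + 1) r0' r1' T0 T1 false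

/-- a leaf in an otherwise unused bin -/
def chkLeafAlone (C : CertD) (P : PieceD) (β : Bool) : List LeafD → ℕ → Bool
  | [], _ => true
  | x :: xs, l =>
      let d : ℤ := leafD C β x (C.cap β).1 (C.cap β).2 0 false
      let la : ℤ := P.lam'.getD l 0
      let ww := P.w'.getD l (0, 0)
      decide (0 ≤ ww.1) && decide (0 ≤ ww.2) &&
      decide (ww.1 * d ≤ (C.cap β).1 * la) && decide (ww.2 * d ≤ (C.cap β).2 * la) &&
      chkLeafAlone C P β xs (l + 1)

def chkBin (C : CertD) (P : PieceD) : Bool :=
  [true, false].all fun β =>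
    chkLeafAlone C P β C.lf 0 && chk C P β C.st.length 0 (C.cap β).1 (C.cap β).2 0 0 false

/-! ### The patterns -/

/-- total size of the items of a pattern -/
def patSize : List ℕ → List ℤ → ℤ
  | c :: cs, s :: ss => c * s + patSize cs ss
  | _, _ => 0

/-- number of slots for items of type `j` (times `Dy`) -/
def patCov (pt : List Pat) (j : ℕ) : ℕ := (pt.map fun p => p.2.2 * p.2.1.getD j 0).sum

/-- all patterns fit at both endpoints, and cover the demands `dem` (times `Dy * D`) -/
def chkPat (C : CertD) (pt : List Pat) (T : ℕ) (s0 s1 : List ℤ) (dem : List ℕ) (D : ℕ) : Bool :=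
  decide (s0.length = T) && decide (s1.length = T) && decide (dem.length = T) &&
  pt.all (fun p => decide (p.2.1.length = T) && decide (patSize p.2.1 s0 < (C.cap p.1).1) &&
    decide (patSize p.2.1 s1 < (C.cap p.1).2)) &&
  (List.range T).all (fun j => decide (dem.getD j 0 ≤ patCov pt j * D))

/-- total cost of the patterns at the endpoints (times `M * Dy`) -/
def patCost (C : CertD) (pt : List Pat) : ℤ × ℤ :=
  ((pt.map fun p => (p.2.2 : ℤ) * (C.cap p.1).1).sum, (pt.map fun p => (p.2.2 : ℤ) * (C.cap p.1).2).sum)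

def chkPatStage (C : CertD) (P : PieceD) : Bool :=
  (List.range C.st.length).all fun j =>
    chkPat C (P.pt.getD j []) (j + 1) ((C.st.take (j + 1)).map (·.1)) ((C.st.take (j + 1)).map (·.2.1))
      ((C.st.take (j + 1)).map fun x => x.2.2 * P.Dy) 1

/-- demands when the fraction `X / D` of the last stage has to be packed, times `Dy * D` -/
def xDem (C : CertD) (P : PieceD) (X : ℕ) : List ℕ :=
  (List.range C.st.length).map fun j =>
    if j + 1 = C.st.length then (C.stage j).2.2 * X * P.Dy else (C.stage j).2.2 * P.D * P.Dy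

def chkPatLeaf (C : CertD) (P : PieceD) : Bool :=
  (List.range C.lf.length).all fun l =>
    let x := C.leaf l
    match x.kind with
    | none => chkPat C (P.pt0.getD l []) (x.lat + 2) ((C.st.take (x.lat + 1)).map (·.1) ++ [x.t0])
        ((C.st.take (x.lat + 1)).map (·.2.1) ++ [x.t1])
        (((C.st.take (x.lat + 1)).map fun x => x.2.2 * P.Dy) ++ [x.n * P.Dy]) 1
    | some _ => chkPat C (P.pt0.getD l []) C.st.length (C.st.map (·.1)) (C.st.map (·.2.1))
          (xDem C P P.X0) P.D &&
        chkPat C (P.pt1.getD l []) C.st.length (C.st.map (·.1)) (C.st.map (·.2.1)) (xDem C P P.X1) P.D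

/-! ### The final inequality -/

/-- pick the endpoint -/
def pk (e : Bool) (a : ℤ × ℤ) : ℤ := if e then a.2 else a.1

/-- `totalW * M * Dy * D` at the endpoint `e` and `x = X / D` -/
def finW (C : CertD) (P : PieceD) (e : Bool) (X : ℕ) : ℤ :=
  let nm : ℤ := (C.stage (C.st.length - 1)).2.2
  (P.Dy : ℤ) * (
    (((List.range (C.st.length - 1)).map fun j => pk e (P.w.getD j (0, 0)) * (C.stage j).2.2).sum) * P.D
    + pk e P.wS * (nm * ((P.D : ℤ) - X)) + pk e P.wL * (nm * X)
    + ((List.range C.lf.length).map fun l => pk e (P.w'.getD l (0, 0)) *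
        (match (C.leaf l).kind with
          | none => ((C.leaf l).n : ℤ) * P.D
          | some _ => nm * ((P.D : ℤ) - X))).sum)

/-- `totalO * M * Dy * D` at the endpoint `e` and `x = X / D`, where `pts` are the patterns of the leaves -/
def finO (C : CertD) (P : PieceD) (e : Bool) (X : ℕ) (pts : List (List Pat)) : ℤ :=
  let nm : ℤ := (C.stage (C.st.length - 1)).2.2
  (((List.range C.st.length).map fun j => ((P.lam.getD j 0 : ℕ) : ℤ) *
      pk e (patCost C (P.pt.getD j []))).sum) * P.D
  + ((List.range C.lf.length).map fun l => ((P.lam'.getD l 0 : ℕ) : ℤ) *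
      (match (C.leaf l).kind with
        | none => pk e (patCost C (P.pt0.getD l [])) * P.D
        | some B => pk e (C.cap B) * (nm * ((P.D : ℤ) - X)) * P.Dy + pk e (patCost C (pts.getD l [])) * P.D)).sum

def chkFin (C : CertD) (P : PieceD) (cn cd : ℕ) : Bool :=
  [true, false].all fun e =>
    decide ((cn : ℤ) * finO C P e P.X0 P.pt0 < cd * finW C P e P.X0) &&
    decide ((cn : ℤ) * finO C P e P.X1 P.pt1 < cd * finW C P e P.X1)

/-- the complete check of a piece for the constant `cn / cd` -/
def chkPiece (C : CertD) (cn cd : ℕ) (P : PieceD) : Bool :=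
  decide (0 < P.D) && decide (0 < P.Dy) && decide (P.X0 < P.X1) && chkBin C P && chkPatStage C P &&
    chkPatLeaf C P && chkFin C P cn cd

/-- the pieces cover `[0,1]` -/
def chkCover : List PieceD → Bool
  | [] => false
  | P :: Ps => go P Ps
where
  go (P : PieceD) : List PieceD → Bool
    | [] => decide (P.X1 = P.D)
    | Q :: Qs => decide (P.X1 * Q.D = Q.X0 * P.D) && go Q Qs

def chkAll (C : CertD) (cn cd : ℕ) (Ps : List PieceD) : Bool :=
  C.good && decide (0 < cd) && Ps.all (chkPiece C cn cd) && chkCover Ps &&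
    (match Ps with | [] => false | P :: _ => decide (P.X0 = 0))

end VB85
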