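import Pool.Agent.LibVB85.Inst

/-! Upper bounds for the optimum by patterns: two packings side by side. -/

namespace VB85

private def p2_rel (f : Bin → Bin) (P : List (ℝ × Bin)) : List (ℝ × Bin) :=
  P.map fun q => (q.1, f q.2)

private theorem p2_fst (f : Bin → Bin) (P : List (ℝ × Bin)) :
    (p2_rel f P).map Prod.fst = P.map Prod.fst := by
  unfold p2_rel; rw [List.map_map]; rfl

private theorem p2_snd (f : Bin → Bin) (P : List (ℝ × Bin)) :
    (p2_rel f P).map Prod.snd = (P.map Prod.snd).map f := by
  unfold p2_rel; rw [List.map_map, List.map_map]; rfl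

private theorem p2_load {f : Bin → Bin} (hf : Function.Injective f) (P : List (ℝ × Bin)) (b : Bin) :
    load (p2_rel f P) (f b) = load P b := by
  induction P with
  | nil => simp [p2_rel, load]
  | cons q P ih =>
    have h : p2_rel f (q :: P) = (q.1, f q.2) :: p2_rel f P := rfl
    rw [h, load_cons, load_cons, ih]
    simp only [hf.eq_iff]

private theorem p2_load_not {f : Bin → Bin} (P : List (ℝ × Bin)) {b : Bin}
    (hb : ∀ x, f x ≠ b) : load (p2_rel f P) b = 0 := by
  apply load_of_not_mem
  rw [p2_snd]
  intro h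
  obtain ⟨x, _, hx⟩ := List.mem_map.1 h
  exact hb x hx

private theorem p2_cost {α : ℝ} {f : Bin → Bin} (hf : Function.Injective f)
    (hs : ∀ b, bsize α (f b) = bsize α b) (P : List (ℝ × Bin)) :
    cost α (p2_rel f P) = cost α P := by
  unfold cost
  rw [p2_snd]
  have h : ((P.map Prod.snd).map f).toFinset = (P.map Prod.snd).toFinset.image f := by
    ext x; simp only [List.mem_toFinset, List.mem_map, Finset.mem_image]
  rw [h, Finset.sum_image (fun x _ y _ hxy => hf hxy)]
  exact Finset.sum_congr rfl (fun b _ => hs b)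

private theorem p2_cost_append {α : ℝ} (h0 : 0 < α) (P Q : List (ℝ × Bin)) :
    cost α (P ++ Q) ≤ cost α P + cost α Q := by
  unfold cost
  rw [List.map_append, List.toFinset_append, ← Finset.sum_union_inter]
  have : 0 ≤ ∑ b ∈ (P.map Prod.snd).toFinset ∩ (Q.map Prod.snd).toFinset, bsize α b :=
    Finset.sum_nonneg (fun b _ => (bsize_pos h0 b).le)
  linarith

/-- Two packings can be used side by side. -/
theorem optCost_append_le {α : ℝ} (h0 : 0 < α) {L1 L2 : List ℝ} (h1 : IsInput L1) (h2 : IsInput L2) :
    optCost α (L1 ++ L2) ≤ optCost α L1 + optCost α L2 := by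
  obtain ⟨P1, hP1, hc1⟩ := exists_optimal h0 h1
  obtain ⟨P2, hP2, hc2⟩ := exists_optimal h0 h2
  set f1 : Bin → Bin := fun b => (b.1, 2 * b.2) with hf1
  set f2 : Bin → Bin := fun b => (b.1, 2 * b.2 + 1) with hf2
  have i1 : Function.Injective f1 := by
    intro a b h
    simp only [hf1, Prod.mk.injEq] at h
    exact Prod.ext h.1 (by omega)
  have i2 : Function.Injective f2 := by
    intro a b h
    simp only [hf2, Prod.mk.injEq] at h
    exact Prod.ext h.1 (by omega)
  have s1 : ∀ b, bsize α (f1 b) = bsize α b := fun b => rfl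
  have s2 : ∀ b, bsize α (f2 b) = bsize α b := fun b => rfl
  have hpack : IsPacking α (L1 ++ L2) (p2_rel f1 P1 ++ p2_rel f2 P2) := by
    refine ⟨?_, ?_⟩
    · rw [List.map_append, p2_fst, p2_fst]
      exact hP1.1.append hP2.1
    · intro b
      rw [load_append]
      rcases Nat.even_or_odd' b.2 with ⟨k, hk | hk⟩
      · have e : b = f1 (b.1, k) := Prod.ext rfl hk
        have n : ∀ x, f2 x ≠ b := by
          intro x hx
          have := congrArg Prod.snd hx
          simp only [hf2] at this
          omega
        rw [p2_load_not P2 n, add_zero, e, p2_load i1, s1]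
        exact hP1.2 _
      · have e : b = f2 (b.1, k) := Prod.ext rfl hk
        have n : ∀ x, f1 x ≠ b := by
          intro x hx
          have := congrArg Prod.snd hx
          simp only [hf1] at this
          omega
        rw [p2_load_not P1 n, zero_add, e, p2_load i2, s2]
        exact hP2.2 _
  calc optCost α (L1 ++ L2) ≤ cost α (p2_rel f1 P1 ++ p2_rel f2 P2) := optCost_le h0 hpack
    _ ≤ cost α (p2_rel f1 P1) + cost α (p2_rel f2 P2) := p2_cost_append h0 _ _
    _ = optCost α L1 + optCost α L2 := by rw [p2_cost i1 s1, p2_cost i2 s2, hc1, hc2]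

end VB85
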