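import Pool.Agent.LibVB85.Pack1

/-! Using fractional packings. -/

namespace VB85

/-- a common `ε0` -/
theorem exists_eps (K : ℕ) (s c : ℕ → ℝ) (hs : ∀ i < K, 0 < s i) (hc : ∀ i < K, 0 ≤ c i) :
    ∃ ε0 > 0, ∀ i < K, ε0 * c i ≤ s i := by
  induction K with
  | zero => exact ⟨1, one_pos, fun i hi => absurd hi (Nat.not_lt_zero _)⟩
  | succ K ih =>
    obtain ⟨e, he, h⟩ := ih (fun i hi => hs i (by omega)) (fun i hi => hc i (by omega))
    have h1 := hs K (Nat.lt_succ_self _)
    have h2 := hc K (Nat.lt_succ_self _)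
    refine ⟨min e (s K / (c K + 1)), lt_min he (by positivity), ?_⟩
    intro i hi
    rcases Nat.lt_or_eq_of_le (Nat.lt_succ_iff.1 hi) with h3 | h3
    · exact (mul_le_mul_of_nonneg_right (min_le_left _ _) (hc i hi)).trans (h i h3)
    · subst h3
      calc min e (s i / (c i + 1)) * c i ≤ s i / (c i + 1) * c i :=
            mul_le_mul_of_nonneg_right (min_le_right _ _) h2
        _ ≤ s i := by
            rw [div_mul_eq_mul_div, div_le_iff₀ (by positivity)]
            nlinarith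

/-- Using two fractional packing bounds: for all `ρ ∈ [0,1]` at the same time, `ε` small. The constant `κ`
is the number of patterns (each multiplicity `y i * N` is rounded up). -/
theorem patBound_use {α : ℝ} (h0 : 0 < α) (h1 : α < 1) {T : ℕ} {size dem0 dem1 : ℕ → ℝ} {o0 o1 : ℝ}
    (hs : ∀ j < T, 0 ≤ size j) (H0 : PatBound α T size dem0 o0) (H1 : PatBound α T size dem1 o1) :
    ∃ ε0 > 0, ∃ κ ≥ 0, ∀ ρ : ℝ, 0 ≤ ρ → ρ ≤ 1 → ∀ ε : ℝ, 0 < ε → ε < ε0 → ∀ (N : ℕ) (B : ℕ → List ℝ),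
      (∀ j < T, ((B j).length : ℝ) ≤ ((1 - ρ) * dem0 j + ρ * dem1 j) * N) →
      (∀ j < T, ∀ a ∈ B j, a ≤ size j + ε) →
      optCost α ((List.range T).flatMap B) ≤ ((1 - ρ) * o0 + ρ * o1) * N + κ := by
  obtain ⟨K0, ty0, cnt0, y0, hy0, hf0, hd0, ho0⟩ := H0
  obtain ⟨K1, ty1, cnt1, y1, hy1, hf1, hd1, ho1⟩ := H1
  set ty : ℕ → Bool := fun i => if i < K0 then ty0 i else ty1 (i - K0) with hty
  set cnt : ℕ → ℕ → ℕ := fun i j => if i < K0 then cnt0 i j else cnt1 (i - K0) j with hcnt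
  have hf : ∀ i < K0 + K1, ∑ j ∈ Finset.range T, (cnt i j : ℝ) * size j < bs α (ty i) := by
    intro i hi
    by_cases h : i < K0
    · simp only [hty, hcnt, if_pos h]; exact hf0 i h
    · simp only [hty, hcnt, if_neg h]; exact hf1 (i - K0) (by omega)
  obtain ⟨ε0, hε0, hε⟩ := exists_eps (K0 + K1)
    (fun i => bs α (ty i) - ∑ j ∈ Finset.range T, (cnt i j : ℝ) * size j)
    (fun i => ∑ j ∈ Finset.range T, (cnt i j : ℝ)) (fun i hi => by have := hf i hi; linarith)
    (fun i _ => Finset.sum_nonneg fun j _ => Nat.cast_nonneg _)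
  refine ⟨ε0, hε0, ((K0 + K1 : ℕ) : ℝ), Nat.cast_nonneg _, ?_⟩
  intro ρ hρ0 hρ1 ε he he0 N B hB hBs
  have hN : (0:ℝ) ≤ N := Nat.cast_nonneg _
  set y : ℕ → ℝ := fun i => if i < K0 then (1 - ρ) * y0 i else ρ * y1 (i - K0) with hy
  have hρ : 0 ≤ 1 - ρ := by linarith
  have hynn : ∀ i < K0 + K1, 0 ≤ y i := by
    intro i hi
    by_cases h : i < K0
    · simp only [hy, if_pos h]; exact mul_nonneg hρ (hy0 i h)
    · simp only [hy, if_neg h]; exact mul_nonneg hρ0 (hy1 _ (by omega))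
  -- sums over both systems
  have hsum : ∀ g0 g1 : ℕ → ℝ, ∑ i ∈ Finset.range (K0 + K1),
      (if i < K0 then (1 - ρ) * y0 i * g0 i else ρ * y1 (i - K0) * g1 (i - K0)) =
      (1 - ρ) * ∑ i ∈ Finset.range K0, y0 i * g0 i + ρ * ∑ i ∈ Finset.range K1, y1 i * g1 i := by
    intro g0 g1
    rw [Finset.sum_range_add, Finset.mul_sum, Finset.mul_sum]
    congr 1
    · apply Finset.sum_congr rfl
      intro i hi
      rw [if_pos (Finset.mem_range.1 hi)]; ring
    · apply Finset.sum_congr rfl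
      intro i _
      rw [if_neg (by omega), Nat.add_sub_cancel_left]; ring
  have hbs : ∀ B : Bool, 0 ≤ bs α B ∧ bs α B ≤ 1 := by
    intro B; unfold bs; split_ifs <;> constructor <;> linarith
  have key := opt_patterns h0 T (K0 + K1) B (fun j => size j + ε)
    (fun j hj => by have := hs j hj; linarith) hBs ty cnt (fun i => ⌈y i * N⌉₊) ?_ ?_
  · refine key.trans ?_
    calc ∑ i ∈ Finset.range (K0 + K1), ((⌈y i * N⌉₊ : ℕ) : ℝ) * bs α (ty i)
        ≤ ∑ i ∈ Finset.range (K0 + K1), (y i * bs α (ty i) * N + 1) := by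
          apply Finset.sum_le_sum
          intro i hi
          have h2 := (Nat.ceil_lt_add_one (mul_nonneg (hynn i (Finset.mem_range.1 hi)) hN)).le
          calc _ ≤ (y i * N + 1) * bs α (ty i) := mul_le_mul_of_nonneg_right h2 (hbs _).1
            _ ≤ _ := by nlinarith [(hbs (ty i)).2]
      _ = (∑ i ∈ Finset.range (K0 + K1), y i * bs α (ty i)) * N + ((K0 + K1 : ℕ) : ℝ) := by
          rw [Finset.sum_add_distrib, ← Finset.sum_mul]; simp
      _ ≤ ((1 - ρ) * o0 + ρ * o1) * N + ((K0 + K1 : ℕ) : ℝ) := by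
          have e : ∑ i ∈ Finset.range (K0 + K1), y i * bs α (ty i) =
              (1 - ρ) * ∑ i ∈ Finset.range K0, y0 i * bs α (ty0 i) +
                ρ * ∑ i ∈ Finset.range K1, y1 i * bs α (ty1 i) := by
            rw [← hsum (fun i => bs α (ty0 i)) (fun i => bs α (ty1 i))]
            apply Finset.sum_congr rfl
            intro i _
            simp only [hy, hty]
            split_ifs <;> rfl
          rw [e]
          have := add_le_add (mul_le_mul_of_nonneg_left ho0 hρ) (mul_le_mul_of_nonneg_left ho1 hρ0)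
          have := mul_le_mul_of_nonneg_right this hN
          linarith
  · intro i hi
    have h2 := hε i hi
    have h3 : ∑ j ∈ Finset.range T, (cnt i j : ℝ) * (size j + ε) =
        ∑ j ∈ Finset.range T, (cnt i j : ℝ) * size j + ε * ∑ j ∈ Finset.range T, (cnt i j : ℝ) := by
      rw [Finset.mul_sum, ← Finset.sum_add_distrib]
      apply Finset.sum_congr rfl
      intro j _; ring
    rw [h3]
    have h4 : ε * ∑ j ∈ Finset.range T, (cnt i j : ℝ) ≤ ε0 * ∑ j ∈ Finset.range T, (cnt i j : ℝ) :=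
      mul_le_mul_of_nonneg_right he0.le (Finset.sum_nonneg fun j _ => Nat.cast_nonneg _)
    linarith
  · intro j hj
    have h2 := hB j hj
    have h3 : ((1 - ρ) * dem0 j + ρ * dem1 j) * N ≤
        (∑ i ∈ Finset.range (K0 + K1), y i * (cnt i j : ℝ)) * N := by
      apply mul_le_mul_of_nonneg_right _ hN
      have e : ∑ i ∈ Finset.range (K0 + K1), y i * (cnt i j : ℝ) =
          (1 - ρ) * ∑ i ∈ Finset.range K0, y0 i * (cnt0 i j : ℝ) +
            ρ * ∑ i ∈ Finset.range K1, y1 i * (cnt1 i j : ℝ) := by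
        rw [← hsum (fun i => (cnt0 i j : ℝ)) (fun i => (cnt1 i j : ℝ))]
        apply Finset.sum_congr rfl
        intro i _
        simp only [hy, hcnt]
        split_ifs <;> rfl
      rw [e]
      exact add_le_add (mul_le_mul_of_nonneg_left (hd0 j hj) hρ)
        (mul_le_mul_of_nonneg_left (hd1 j hj) hρ0)
    have h4 : (∑ i ∈ Finset.range (K0 + K1), y i * (cnt i j : ℝ)) * N ≤
        ∑ i ∈ Finset.range (K0 + K1), ((⌈y i * N⌉₊ : ℕ) : ℝ) * (cnt i j : ℝ) := by
      rw [Finset.sum_mul]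
      apply Finset.sum_le_sum
      intro i _
      have := Nat.le_ceil (y i * N)
      calc y i * (cnt i j : ℝ) * N = (y i * N) * (cnt i j : ℝ) := by ring
        _ ≤ _ := mul_le_mul_of_nonneg_right this (Nat.cast_nonneg _)
    have h5 := h2.trans (h3.trans h4)
    exact_mod_cast h5

end VB85
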