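import Pool.Agent.LibVB85.Pack1
import Pool.Agent.LibVB85.Pack2
import Pool.Agent.LibVB85.Pack3

/-! Upper bounds for the optimum by patterns. -/

namespace VB85

theorem IsPacking.perm {α : ℝ} {L L' : List ℝ} {P : List (ℝ × Bin)} (hP : IsPacking α L P)
    (h : L.Perm L') : IsPacking α L' P := ⟨hP.1.trans h, hP.2⟩

theorem optCost_perm {α : ℝ} {L L' : List ℝ} (h : L.Perm L') : optCost α L = optCost α L' := by
  unfold optCost
  congr 1
  ext c
  constructor
  · rintro ⟨P, hP, rfl⟩; exact ⟨P, hP.perm h, rfl⟩
  · rintro ⟨P, hP, rfl⟩; exact ⟨P, hP.perm h.symm, rfl⟩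

/-- `k` pairs (an item smaller than `θ`, an item of size `bs B - θ`). -/
theorem optCost_pairs {α : ℝ} (h0 : 0 < α) (B : Bool) (θ : ℝ) (hθ : 0 ≤ θ) (hθ1 : θ ≤ bs α B)
    (S : List ℝ) (hS : ∀ a ∈ S, a ≤ θ) :
    optCost α (S ++ List.replicate S.length (bs α B - θ)) ≤ bs α B * (S.length : ℝ) := by
  have := opt_patterns h0 2 1 (fun j => if j = 0 then S else List.replicate S.length (bs α B - θ))
    (fun j => if j = 0 then θ else bs α B - θ)
    (by intro j hj; by_cases h : j = 0 <;> simp [h] <;> linarith)
    (by
      intro j hj a ha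
      by_cases h : j = 0
      · simp only [h, if_true] at ha ⊢; exact hS a ha
      · simp only [h, if_false] at ha ⊢; exact le_of_eq (List.eq_of_mem_replicate ha))
    (fun _ => B) (fun _ _ => 1) (fun _ => S.length)
    (by intro i hi; simp [Finset.sum_range_succ])
    (by intro j hj; by_cases h : j = 0 <;> simp [h])
  have e : (List.range 2).flatMap (fun j => if j = 0 then S else List.replicate S.length (bs α B - θ))
      = S ++ List.replicate S.length (bs α B - θ) := by
    simp [List.range_succ]
  rw [e] at this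
  simpa [mul_comm] using this

end VB85
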