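import Pool.Agent.LibVB85.Total
import Pool.Agent.LibVB85.Pack

/-! The lower bound for one algorithm from real certificates. -/

open Filter Topology

namespace VB85

theorem filter_lengths (L : List ℝ) (θ : ℝ) (h : ∀ a ∈ L, a ≠ θ) :
    L.length = (L.filter (fun a => decide (a < θ))).length +
      (L.filter (fun a => decide (θ < a))).length := by
  induction L with
  | nil => simp
  | cons a L ih =>
    have h1 := ih (fun x hx => h x (List.mem_cons_of_mem _ hx))
    rcases lt_or_gt_of_ne (h a List.mem_cons_self) with h2 | h2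
    · rw [List.filter_cons_of_pos (by simpa using h2), List.filter_cons_of_neg (by simpa using h2.le)]
      simp only [List.length_cons]; omega
    · rw [List.filter_cons_of_neg (by simpa using h2.le), List.filter_cons_of_pos (by simpa using h2)]
      simp only [List.length_cons]; omega

theorem filter_perm (L : List ℝ) (θ : ℝ) (h : ∀ a ∈ L, a ≠ θ) :
    L.Perm ((L.filter (fun a => decide (θ < a))) ++ (L.filter (fun a => decide (a < θ)))) := by
  have h1 : (L.filter (fun a => decide (a < θ))) = L.filter (fun a => !decide (θ < a)) := by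
    apply List.filter_congr
    intro x hx
    rcases lt_or_gt_of_ne (h x hx) with h2 | h2
    · simp [h2, h2.le]
    · simp [h2, h2.le]
  rw [h1]
  exact (List.filter_append_perm _ L).symm

/-- The adversary can play against every algorithm. -/
theorem exists_game (α ε : ℝ) (I : Inst) (N : ℕ) (place : List ℝ → ℝ → Bin) (hε : 0 < ε)
    (hσ : 0 ≤ I.σ I.m) : Nonempty (Game α ε I N place) := by
  classical
  set S0 : ℕ → List ℝ := fun j => List.replicate (I.n j * N) (I.σ j + ε) with hS0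
  obtain ⟨L, θ, hL, hI, ht1, ht2, hne, hc, hld⟩ := adaptive place (I.n I.m * N) (hst S0 I.m)
    (((run place [] (hst S0 I.m)).map Prod.snd).toFinset) (I.σ I.m) (I.σ I.m + ε) hσ (by linarith)
  set S : ℕ → List ℝ := fun j => if j < I.m then S0 j else L with hS
  have e1 : hst S I.m = hst S0 I.m := by
    unfold hst
    apply List.flatMap_congr
    intro j hj
    rw [hS]; simp only [if_pos (List.mem_range.1 hj)]
  have e2 : S I.m = L := by rw [hS]; simp
  have e3 : rn place S I.m = run place (hst S0 I.m) L := by unfold rn; rw [e1, e2]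
  refine ⟨{
    S := S
    R := fun l => match I.kind l with
      | none => List.replicate (I.nn l * N) (I.τ l + ε)
      | some B => List.replicate (L.filter (fun a => decide (a < θ))).length (bs α B - θ)
    θ := θ
    k := (L.filter (fun a => decide (a < θ))).length
    hS := ?_, hlen := ?_, hSm := ?_, hθ0 := ht1, hθ1 := ht2, hne := ?_, hk := ?_, hX := ?_, hop := ?_, hR := ?_ }⟩
  · intro j hj; rw [hS]; simp only [if_pos hj, hS0]
  · rw [e2, hL]
  · rw [e2]; exact hI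
  · rw [e2]; exact hne
  · rw [e2]
  · rw [e3, e1, ← hc, ← hL]
    exact filter_lengths L θ hne
  · rw [e3, e1]; exact hld
  · intro l _; rfl

variable {α ε : ℝ} {I : Inst} {N : ℕ} {place : List ℝ → ℝ → Bin}

/-- the two bounds used at the same time, for all small `ε` -/
theorem patBound_ev {α : ℝ} (h0 : 0 < α) (h1 : α < 1) {T : ℕ} {size dem0 dem1 : ℕ → ℝ} {o0 o1 : ℝ}
    (hs : ∀ j < T, 0 ≤ size j) (H0 : PatBound α T size dem0 o0) (H1 : PatBound α T size dem1 o1) :
    ∀ᶠ ε in 𝓝[>] (0:ℝ), ∃ κ ≥ 0, ∀ ρ : ℝ, 0 ≤ ρ → ρ ≤ 1 → ∀ (N : ℕ) (B : ℕ → List ℝ),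
      (∀ j < T, ((B j).length : ℝ) ≤ ((1 - ρ) * dem0 j + ρ * dem1 j) * N) →
      (∀ j < T, ∀ a ∈ B j, a ≤ size j + ε) →
      optCost α ((List.range T).flatMap B) ≤ ((1 - ρ) * o0 + ρ * o1) * N + κ := by
  obtain ⟨ε0, he, κ, hκ, h⟩ := patBound_use h0 h1 hs H0 H1
  filter_upwards [Ioo_mem_nhdsGT he] with ε hε
  exact ⟨κ, hκ, fun ρ hρ0 hρ1 N B => h ρ hρ0 hρ1 ε hε.1 hε.2 N B⟩

theorem Game.len_S (G : Game α ε I N place) {j : ℕ} (hj : j ≤ I.m) :
    ((G.S j).length : ℝ) = (I.n j : ℝ) * N := by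
  rcases Nat.lt_or_eq_of_le hj with h | h
  · rw [G.hS j h]; simp
  · subst h; rw [G.hlen]; push_cast; ring

theorem Game.le_S (G : Game α ε I N place) {j : ℕ} (hj : j ≤ I.m) :
    ∀ a ∈ G.S j, a ≤ I.σ j + ε := by
  rcases Nat.lt_or_eq_of_le hj with h | h
  · rw [G.hS j h]; intro a ha; exact le_of_eq (List.eq_of_mem_replicate ha)
  · subst h; intro a ha; exact (G.hSm a ha).2.le

theorem Game.ge_S (G : Game α ε I N place) (hε : 0 < ε) {j : ℕ} (hj : j ≤ I.m) :
    ∀ a ∈ G.S j, I.σ j ≤ a := by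
  rcases Nat.lt_or_eq_of_le hj with h | h
  · rw [G.hS j h]; intro a ha; rw [List.eq_of_mem_replicate ha]; linarith
  · subst h; intro a ha; exact (G.hSm a ha).1.le

/-- all lists are inputs -/
theorem Game.input_hst (G : Game α ε I N place) (hI : I.Good α) (hε : 0 < ε)
    (h : ∀ j ≤ I.m, I.σ j + ε ≤ 1) {j : ℕ} (hj : j ≤ I.m + 1) : IsInput (hst G.S j) := by
  intro a ha
  unfold hst at ha
  rw [List.mem_flatMap] at ha
  obtain ⟨i, hi, ha⟩ := ha
  have hi' : i ≤ I.m := by have := List.mem_range.1 hi; omega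
  exact ⟨lt_of_lt_of_le (hI.σ_pos i hi') (G.ge_S hε hi' a ha), (G.le_S hi' a ha).trans (h i hi')⟩

theorem Game.input_R (G : Game α ε I N place) (h1 : α < 1) (hI : I.Good α) (hε : 0 < ε)
    (ht : ∀ l < I.nl, I.kind l = none → I.τ l + ε ≤ 1)
    (hε2 : ∀ l < I.nl, ∀ B, I.kind l = some B → 2 * (I.σ I.m + ε) ≤ bs α B)
    {l : ℕ} (hl : l < I.nl) : IsInput (G.R l) := by
  intro a ha
  rw [G.hR l hl] at ha
  cases hk : I.kind l with
  | none =>
    rw [hk] at ha
    have := List.eq_of_mem_replicate ha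
    subst this
    exact ⟨by have := hI.τ_pos l hl hk; linarith, ht l hl hk⟩
  | some B =>
    rw [hk] at ha
    have := List.eq_of_mem_replicate ha
    subst this
    have h2 := hε2 l hl B hk
    have h3 := G.hθ1
    have h4 := G.hθ0
    have h5 := hI.σ_pos I.m le_rfl
    have hbs : bs α B ≤ 1 := by unfold bs; split_ifs <;> linarith
    constructor <;> linarith

theorem IsInput.append {L1 L2 : List ℝ} (h1 : IsInput L1) (h2 : IsInput L2) : IsInput (L1 ++ L2) := by
  intro a ha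
  rcases List.mem_append.1 ha with h | h
  · exact h1 a h
  · exact h2 a h

/-- the volume of every node -/
theorem Game.vol (G : Game α ε I N place) (hI : I.Good α) (hε : 0 < ε) {j : ℕ} (hj : j ≤ I.m) :
    I.σ 0 * N ≤ (hst G.S (j + 1)).sum := by
  have hnn : ∀ i ≤ I.m, 0 ≤ (G.S i).sum := fun i hi => List.sum_nonneg (fun a ha =>
    (hI.σ_pos i hi).le.trans (G.ge_S hε hi a ha))
  have h1 : (hst G.S (j + 1)).sum = ∑ i ∈ Finset.range (j + 1), (G.S i).sum := by
    clear hj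
    induction j with
    | zero => simp [hst]
    | succ j ih => rw [hst_succ, List.sum_append, ih, Finset.sum_range_succ _ (j + 1)]
  rw [h1]
  have h2 : (G.S 0).sum ≤ ∑ i ∈ Finset.range (j + 1), (G.S i).sum :=
    Finset.single_le_sum (f := fun i => (G.S i).sum)
      (fun i hi => hnn i (by have := Finset.mem_range.1 hi; omega)) (by simp)
  refine le_trans ?_ h2
  have h3 : ((G.S 0).length : ℝ) * I.σ 0 ≤ (G.S 0).sum := by
    have := List.card_nsmul_le_sum (G.S 0) (I.σ 0) (G.ge_S hε (Nat.zero_le _))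
    simpa using this
  rw [G.len_S (Nat.zero_le _)] at h3
  have h4 : (1:ℝ) ≤ I.n 0 := by exact_mod_cast hI.n_pos 0 (Nat.zero_le _)
  have h5 := hI.σ_pos 0 (Nat.zero_le _)
  have h6 : (0:ℝ) ≤ N := Nat.cast_nonneg _
  nlinarith [mul_nonneg h6 h5.le]

/-- optimal cost of the chain nodes -/
theorem Game.opt_NC (G : Game α ε I N place) {j : ℕ} (hj : j ≤ I.m) {o κ : ℝ}
    (h : ∀ ρ : ℝ, 0 ≤ ρ → ρ ≤ 1 → ∀ (N : ℕ) (B : ℕ → List ℝ),
      (∀ i < j + 1, ((B i).length : ℝ) ≤ ((1 - ρ) * (I.n i : ℝ) + ρ * (I.n i : ℝ)) * N) →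
      (∀ i < j + 1, ∀ a ∈ B i, a ≤ I.σ i + ε) →
      optCost α ((List.range (j + 1)).flatMap B) ≤ ((1 - ρ) * o + ρ * o) * N + κ) :
    optCost α (G.NC j) ≤ o * N + κ := by
  have := h 0 le_rfl zero_le_one N G.S
    (fun i hi => by rw [G.len_S (by omega)]; simp)
    (fun i hi => G.le_S (by omega))
  simpa [Game.NC, hst] using this

/-- optimal cost of the static leaves -/
theorem Game.opt_NL (G : Game α ε I N place) (hI : I.Good α) {l : ℕ} (hl : l < I.nl)
    (hk : I.kind l = none) {o κ : ℝ}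
    (h : ∀ ρ : ℝ, 0 ≤ ρ → ρ ≤ 1 → ∀ (N : ℕ) (B : ℕ → List ℝ),
      (∀ i < I.lat l + 2, ((B i).length : ℝ) ≤ ((1 - ρ) * ldem I l i + ρ * ldem I l i) * N) →
      (∀ i < I.lat l + 2, ∀ a ∈ B i, a ≤ lsize I l i + ε) →
      optCost α ((List.range (I.lat l + 2)).flatMap B) ≤ ((1 - ρ) * o + ρ * o) * N + κ) :
    optCost α (G.NL l) ≤ o * N + κ := by
  have hlat := hI.lat_le l hl
  have hR : G.R l = List.replicate (I.nn l * N) (I.τ l + ε) := by rw [G.hR l hl, hk]
  have := h 0 le_rfl zero_le_one N (fun i => if i ≤ I.lat l then G.S i else G.R l) ?_ ?_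
  · have e : (List.range (I.lat l + 2)).flatMap (fun i => if i ≤ I.lat l then G.S i else G.R l) =
        G.NL l := by
      rw [List.range_succ, List.flatMap_append]
      unfold Game.NL hst
      congr 1
      · apply List.flatMap_congr
        intro i hi
        have := List.mem_range.1 hi
        rw [if_pos (by omega)]
      · simp
    rw [e] at this
    simpa using this
  · intro i hi
    unfold ldem
    by_cases h2 : i ≤ I.lat l
    · simp only [if_pos h2]
      rw [G.len_S (by omega)]; simp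
    · simp only [if_neg h2]
      rw [hR]; simp
  · intro i hi
    unfold lsize
    by_cases h2 : i ≤ I.lat l
    · simp only [if_pos h2]; exact G.le_S (by omega)
    · simp only [if_neg h2, hR]
      intro a ha
      exact le_of_eq (List.eq_of_mem_replicate ha)

/-- optimal cost of the complement leaves -/
theorem Game.opt_NX (G : Game α ε I N place) (h0 : 0 < α) (h1 : α < 1) (hI : I.Good α) (hε : 0 < ε)
    (hσ : ∀ j ≤ I.m, I.σ j + ε ≤ 1)
    (hε2 : ∀ l < I.nl, ∀ B, I.kind l = some B → 2 * (I.σ I.m + ε) ≤ bs α B)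
    {l : ℕ} (hl : l < I.nl) {Bt : Bool} (hk : I.kind l = some Bt) {x0 x1 oc0 oc1 κ ρ : ℝ}
    (hρ0 : 0 ≤ ρ) (hρ1 : ρ ≤ 1) (hx : (G.X : ℝ) = ((1 - ρ) * x0 + ρ * x1) * ((I.n I.m : ℝ) * N))
    (h : ∀ ρ : ℝ, 0 ≤ ρ → ρ ≤ 1 → ∀ (N : ℕ) (B : ℕ → List ℝ),
      (∀ i < I.m + 1, ((B i).length : ℝ) ≤ ((1 - ρ) * xdem I x0 i + ρ * xdem I x1 i) * N) →
      (∀ i < I.m + 1, ∀ a ∈ B i, a ≤ I.σ i + ε) →
      optCost α ((List.range (I.m + 1)).flatMap B) ≤ ((1 - ρ) * oc0 + ρ * oc1) * N + κ) :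
    optCost α (G.NL l) ≤
      (bs α Bt * ((I.n I.m : ℝ) * (1 - ((1 - ρ) * x0 + ρ * x1))) + ((1 - ρ) * oc0 + ρ * oc1)) * N
        + κ := by
  have hlat := hI.comp_lat l hl _ hk
  have hR : G.R l = List.replicate G.k (bs α Bt - G.θ) := by rw [G.hR l hl, hk]
  have hXk : ((I.n I.m * N : ℕ) : ℝ) = (G.k : ℝ) + (G.X : ℝ) := by
    have := G.hX; unfold Game.X; exact_mod_cast this
  have hfX : ((G.S I.m).filter (fun a => decide (G.θ < a))).length = G.X := by
    have h2 := filter_lengths (G.S I.m) G.θ G.hne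
    rw [G.hlen, ← G.hk] at h2
    have h3 := G.hX
    unfold Game.X
    omega
  -- the two parts
  have hp : (G.NL l).Perm ((hst G.S I.m ++ (G.S I.m).filter (fun a => decide (G.θ < a))) ++
      ((G.S I.m).filter (fun a => decide (a < G.θ)) ++ G.R l)) := by
    unfold Game.NL
    rw [hlat, hst_succ]
    have h2 := filter_perm (G.S I.m) G.θ G.hne
    have h3 : (hst G.S I.m ++ G.S I.m ++ G.R l).Perm (hst G.S I.m ++
      ((G.S I.m).filter (fun a => decide (G.θ < a)) ++ (G.S I.m).filter (fun a => decide (a < G.θ)))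
        ++ G.R l) := (h2.append_left _).append_right _
    simpa [List.append_assoc] using h3
  rw [optCost_perm hp]
  have hinS : IsInput (G.S I.m) := fun a ha =>
    ⟨lt_of_lt_of_le (hI.σ_pos _ le_rfl) (G.ge_S hε le_rfl a ha), (G.le_S le_rfl a ha).trans (hσ _ le_rfl)⟩
  have i1 : IsInput (hst G.S I.m ++ (G.S I.m).filter (fun a => decide (G.θ < a))) :=
    (G.input_hst hI hε hσ (by omega)).append (fun a ha => hinS a (List.mem_of_mem_filter ha))
  have hRin : IsInput (G.R l) := by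
    intro a ha
    rw [hR] at ha
    have := List.eq_of_mem_replicate ha
    subst this
    have h2 := hε2 l hl Bt hk
    have h3 := G.hθ1
    have h4 := G.hθ0
    have h5 := hI.σ_pos I.m le_rfl
    have hbs : bs α Bt ≤ 1 := by unfold bs; split_ifs <;> linarith
    constructor <;> linarith
  have i2 : IsInput ((G.S I.m).filter (fun a => decide (a < G.θ)) ++ G.R l) :=
    IsInput.append (fun a ha => hinS a (List.mem_of_mem_filter ha)) hRin
  refine (optCost_append_le h0 i1 i2).trans ?_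
  have b2 : optCost α ((G.S I.m).filter (fun a => decide (a < G.θ)) ++ G.R l) ≤
      bs α Bt * (G.k : ℝ) := by
    have h2 := optCost_pairs h0 Bt G.θ ((hI.σ_pos _ le_rfl).le.trans G.hθ0.le)
      (by have h2 := hε2 l hl Bt hk; have h3 := G.hθ1; have h5 := hI.σ_pos I.m le_rfl; linarith)
      ((G.S I.m).filter (fun a => decide (a < G.θ)))
      (fun a ha => by
        have := List.of_mem_filter ha
        simp only [decide_eq_true_eq] at this
        exact this.le)
    rw [← G.hk] at h2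
    rw [hR]; exact h2
  have b1 : optCost α (hst G.S I.m ++ (G.S I.m).filter (fun a => decide (G.θ < a))) ≤
      ((1 - ρ) * oc0 + ρ * oc1) * N + κ := by
    have h2 := h ρ hρ0 hρ1 N
      (fun i => if i < I.m then G.S i else (G.S I.m).filter (fun a => decide (G.θ < a))) ?_ ?_
    · have e : (List.range (I.m + 1)).flatMap (fun i => if i < I.m then G.S i else
          (G.S I.m).filter (fun a => decide (G.θ < a))) =
          hst G.S I.m ++ (G.S I.m).filter (fun a => decide (G.θ < a)) := by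
        rw [List.range_succ, List.flatMap_append]
        unfold hst
        congr 1
        · apply List.flatMap_congr
          intro i hi
          rw [if_pos (List.mem_range.1 hi)]
        · simp
      rw [e] at h2
      exact h2
    · intro i hi
      unfold xdem
      by_cases h3 : i < I.m
      · simp only [if_pos h3]
        rw [G.len_S (by omega)]
        apply le_of_eq; ring
      · simp only [if_neg h3]
        rw [hfX, hx]
        apply le_of_eq; ring
    · intro i hi a ha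
      by_cases h3 : i < I.m
      · simp only [if_pos h3] at ha; exact G.le_S (by omega) a ha
      · simp only [if_neg h3] at ha
        have : i = I.m := by omega
        subst this
        exact G.le_S le_rfl a (List.mem_of_mem_filter ha)
  have hkv : (G.k : ℝ) = (I.n I.m : ℝ) * (1 - ((1 - ρ) * x0 + ρ * x1)) * N := by
    push_cast at hXk
    rw [hx] at hXk
    linarith
  calc _ ≤ (((1 - ρ) * oc0 + ρ * oc1) * N + κ) + bs α Bt * (G.k : ℝ) := add_le_add b1 b2
    _ = _ := by rw [hkv]; ring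

/-- the bound given by patterns, for one `ε` -/
def PB (α ε : ℝ) (T : ℕ) (size dem0 dem1 : ℕ → ℝ) (o0 o1 κ : ℝ) : Prop :=
  ∀ ρ : ℝ, 0 ≤ ρ → ρ ≤ 1 → ∀ (N : ℕ) (B : ℕ → List ℝ),
    (∀ j < T, ((B j).length : ℝ) ≤ ((1 - ρ) * dem0 j + ρ * dem1 j) * N) →
    (∀ j < T, ∀ a ∈ B j, a ≤ size j + ε) →
    optCost α ((List.range T).flatMap B) ≤ ((1 - ρ) * o0 + ρ * o1) * N + κ

/-- number of items of leaf `l`, divided by `N` -/
def lw (I : Inst) (x : ℝ) (l : ℕ) : ℝ :=
  (I.kind l).elim (I.nn l : ℝ) (fun _ => (I.n I.m : ℝ) * (1 - x))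

/-- optimal cost of leaf `l`, divided by `N` -/
def lo (α : ℝ) (I : Inst) (o' oc : ℕ → ℝ) (x : ℝ) (l : ℕ) : ℝ :=
  (I.kind l).elim (o' l) (fun B => bs α B * ((I.n I.m : ℝ) * (1 - x)) + oc l)

theorem totalW_def (I : Inst) (W : Wts) (x : ℝ) :
    totalW I W x = ∑ j ∈ Finset.range I.m, W.w j * (I.n j : ℝ) + W.wS * ((I.n I.m : ℝ) * (1 - x))
      + W.wL * ((I.n I.m : ℝ) * x) + ∑ l ∈ Finset.range I.nl, W.w' l * lw I x l := by
  unfold totalW lw
  congr 1
  apply Finset.sum_congr rfl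
  intro l _
  cases I.kind l <;> rfl

theorem totalO_def (α : ℝ) (I : Inst) (W : Wts) (o o' oc : ℕ → ℝ) (x : ℝ) :
    totalO α I W o o' oc x = ∑ j ∈ Finset.range (I.m + 1), W.lam j * o j
      + ∑ l ∈ Finset.range I.nl, W.lam' l * lo α I o' oc x l := by
  unfold totalO lo
  congr 1
  apply Finset.sum_congr rfl
  intro l _
  cases I.kind l <;> rfl

theorem totalW_lin (I : Inst) (W : Wts) (x0 x1 ρ : ℝ) :
    totalW I W ((1 - ρ) * x0 + ρ * x1) = (1 - ρ) * totalW I W x0 + ρ * totalW I W x1 := by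
  have e : ∑ l ∈ Finset.range I.nl, W.w' l * lw I ((1 - ρ) * x0 + ρ * x1) l =
      (1 - ρ) * ∑ l ∈ Finset.range I.nl, W.w' l * lw I x0 l
        + ρ * ∑ l ∈ Finset.range I.nl, W.w' l * lw I x1 l := by
    rw [Finset.mul_sum, Finset.mul_sum, ← Finset.sum_add_distrib]
    apply Finset.sum_congr rfl
    intro l _
    unfold lw
    cases I.kind l <;> simp only [Option.elim] <;> ring
  rw [totalW_def, totalW_def, totalW_def, e]; ring

theorem totalO_lin (α : ℝ) (I : Inst) (W : Wts) (o o' oc0 oc1 : ℕ → ℝ) (x0 x1 ρ : ℝ) :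
    totalO α I W o o' (fun l => (1 - ρ) * oc0 l + ρ * oc1 l) ((1 - ρ) * x0 + ρ * x1) =
      (1 - ρ) * totalO α I W o o' oc0 x0 + ρ * totalO α I W o o' oc1 x1 := by
  have e : ∑ l ∈ Finset.range I.nl, W.lam' l *
      lo α I o' (fun l => (1 - ρ) * oc0 l + ρ * oc1 l) ((1 - ρ) * x0 + ρ * x1) l =
      (1 - ρ) * ∑ l ∈ Finset.range I.nl, W.lam' l * lo α I o' oc0 x0 l +
      ρ * ∑ l ∈ Finset.range I.nl, W.lam' l * lo α I o' oc1 x1 l := by
    rw [Finset.mul_sum, Finset.mul_sum, ← Finset.sum_add_distrib]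
    apply Finset.sum_congr rfl
    intro l _
    unfold lo
    cases I.kind l <;> simp only [Option.elim] <;> ring
  rw [totalO_def, totalO_def, totalO_def, e]; ring

/-- For small `ε` and large `N` the adversary wins if the fraction of the opening items is in the piece. -/
theorem piece_win {α μ c : ℝ} (h0 : 0 < α) (h1 : α < 1) (hμ : 0 < μ) (hc : 0 ≤ c) {I : Inst}
    (hI : I.Good α) {x0 x1 : ℝ} (hx : x0 < x1) (P : Piece α μ c I x0 x1) (A : OnlineAlg α) (K : ℕ) :
    ∀ᶠ ε in 𝓝[>] (0:ℝ), ∃ N0 : ℕ, ∀ N ≥ N0, ∀ G : Game α ε I N A.place,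
      x0 * ((I.n I.m : ℝ) * N) ≤ (G.X : ℝ) → (G.X : ℝ) ≤ x1 * ((I.n I.m : ℝ) * N) →
      ∃ L, IsInput L ∧ K ≤ optBins α L ∧ 0 < optCost α L ∧ c * optCost α L ≤ A.cost L := by
  have hσm := hI.σ_pos I.m le_rfl
  have hσ0 := hI.σ_pos 0 (Nat.zero_le _)
  have E1 : ∀ᶠ ε in 𝓝[>] (0:ℝ), ε < μ * I.σ I.m := by
    filter_upwards [Ioo_mem_nhdsGT (mul_pos hμ hσm)] with ε hε using hε.2
  have E2 : ∀ᶠ ε in 𝓝[>] (0:ℝ), ∀ l ∈ Finset.range I.nl, ∀ B, I.kind l = some B →
      2 * (I.σ I.m + ε) ≤ bs α B := by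
    rw [Filter.eventually_all_finset]
    intro l hl
    cases hk : I.kind l with
    | none => exact Eventually.of_forall (fun ε B h => by simp at h)
    | some B =>
      have := hI.comp_two l (Finset.mem_range.1 hl) B hk
      filter_upwards [Ioo_mem_nhdsGT (show (0:ℝ) < (bs α B - 2 * I.σ I.m) / 2 by linarith)] with ε hε B' hB
      have hB' : B = B' := by simpa using hB
      subst hB'; linarith [hε.2]
  have E3 : ∀ᶠ ε in 𝓝[>] (0:ℝ), ∀ j ∈ Finset.range (I.m + 1), I.σ j + ε ≤ 1 := by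
    rw [Filter.eventually_all_finset]
    intro j hj
    have := hI.σ_lt j (by have := Finset.mem_range.1 hj; omega)
    filter_upwards [Ioo_mem_nhdsGT (show (0:ℝ) < 1 - I.σ j by linarith)] with ε hε
    linarith [hε.2]
  have E4 : ∀ᶠ ε in 𝓝[>] (0:ℝ), ∀ l ∈ Finset.range I.nl, I.kind l = none → I.τ l + ε ≤ 1 := by
    rw [Filter.eventually_all_finset]
    intro l hl
    by_cases hk : I.kind l = none
    · have := hI.τ_lt l (Finset.mem_range.1 hl) hk
      filter_upwards [Ioo_mem_nhdsGT (show (0:ℝ) < 1 - I.τ l by linarith)] with ε hε _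
      linarith [hε.2]
    · exact Eventually.of_forall (fun ε h => absurd h hk)
  have P1 : ∀ᶠ ε in 𝓝[>] (0:ℝ), ∀ j ∈ Finset.range (I.m + 1), ∃ κ, 0 ≤ κ ∧
      PB α ε (j + 1) I.σ (fun j => (I.n j : ℝ)) (fun j => (I.n j : ℝ)) (P.o j) (P.o j) κ := by
    rw [Filter.eventually_all_finset]
    intro j hj
    have hj' : j ≤ I.m := by have := Finset.mem_range.1 hj; omega
    filter_upwards [patBound_ev h0 h1 (fun i hi => (hI.σ_pos i (by omega)).le) (P.ho j hj')
      (P.ho j hj')] with ε hε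
    obtain ⟨κ, h, h'⟩ := hε
    exact ⟨κ, h, h'⟩
  have P2 : ∀ᶠ ε in 𝓝[>] (0:ℝ), ∀ l ∈ Finset.range I.nl, ∃ κ, 0 ≤ κ ∧
      (I.kind l = none → PB α ε (I.lat l + 2) (lsize I l) (ldem I l) (ldem I l) (P.o' l) (P.o' l) κ) ∧
      (I.kind l ≠ none → PB α ε (I.m + 1) I.σ (xdem I x0) (xdem I x1) (P.oc0 l) (P.oc1 l) κ) := by
    rw [Filter.eventually_all_finset]
    intro l hl
    have hl' := Finset.mem_range.1 hl
    by_cases hk : I.kind l = none
    · have hs : ∀ j < I.lat l + 2, 0 ≤ lsize I l j := by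
        intro j hj
        unfold lsize
        split_ifs with h
        · exact (hI.σ_pos j (by have := hI.lat_le l hl'; omega)).le
        · exact (hI.τ_pos l hl' hk).le
      filter_upwards [patBound_ev h0 h1 hs (P.ho' l hl' hk) (P.ho' l hl' hk)] with ε hε
      obtain ⟨κ, h, h'⟩ := hε
      exact ⟨κ, h, fun _ => h', fun h => absurd hk h⟩
    · filter_upwards [patBound_ev h0 h1 (fun i hi => (hI.σ_pos i (by omega)).le) (P.hoc0 l hl' hk)
        (P.hoc1 l hl' hk)] with ε hε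
      obtain ⟨κ, h, h'⟩ := hε
      exact ⟨κ, h, fun h => absurd h hk, fun _ => h'⟩
  filter_upwards [self_mem_nhdsWithin, E1, E2, E3, E4, P1, P2] with ε hε e1 e2 e3 e4 p1 p2
  have hε : 0 < ε := hε
  choose! κ hκ0 hκ using p1
  choose! κ' hκ'0 hκ' using p2
  set D : ℝ := ∑ j ∈ Finset.range (I.m + 1), P.W.lam j * κ j +
    ∑ l ∈ Finset.range I.nl, P.W.lam' l * κ' l with hD
  have hD0 : 0 ≤ D := by
    refine add_nonneg (Finset.sum_nonneg fun j hj => ?_) (Finset.sum_nonneg fun l hl => ?_)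
    · exact mul_nonneg (P.lam_nonneg j (by have := Finset.mem_range.1 hj; omega)) (hκ0 j hj)
    · exact mul_nonneg (P.lam'_nonneg l (Finset.mem_range.1 hl)) (hκ'0 l hl)
  set δ0 := totalW I P.W x0 - c * totalO α I P.W P.o P.o' P.oc0 x0 with hδ0
  set δ1 := totalW I P.W x1 - c * totalO α I P.W P.o P.o' P.oc1 x1 with hδ1
  have d0 : 0 < δ0 := by have := P.fin0; linarith
  have d1 : 0 < δ1 := by have := P.fin1; linarith
  have hδ : 0 < min δ0 δ1 := lt_min d0 d1
  obtain ⟨N1, hN1⟩ := exists_nat_gt (c * D / min δ0 δ1)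
  obtain ⟨N2, hN2⟩ := exists_nat_ge ((K : ℝ) / I.σ 0)
  refine ⟨max N1 N2, fun N hN G hx0 hx1 => ?_⟩
  by_contra hcon
  push Not at hcon
  have hNN1 : (N1 : ℝ) ≤ N := by exact_mod_cast (le_max_left _ _).trans hN
  have hNN2 : (N2 : ℝ) ≤ N := by exact_mod_cast (le_max_right _ _).trans hN
  have hN0 : (0:ℝ) < N := by
    have : 0 ≤ c * D / min δ0 δ1 := by positivity
    linarith
  have hvol : (K : ℝ) ≤ I.σ 0 * N := by
    have : (K : ℝ) / I.σ 0 ≤ N := hN2.trans hNN2
    rw [div_le_iff₀ hσ0] at this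
    linarith
  have hn : (0:ℝ) < (I.n I.m : ℝ) := by exact_mod_cast hI.n_pos I.m le_rfl
  have hnN : (0:ℝ) < (I.n I.m : ℝ) * N := mul_pos hn hN0
  have hσ1 : ∀ j ≤ I.m, I.σ j + ε ≤ 1 := fun j hj => e3 j (Finset.mem_range.2 (by omega))
  have hε2 : ∀ l < I.nl, ∀ B, I.kind l = some B → 2 * (I.σ I.m + ε) ≤ bs α B :=
    fun l hl => e2 l (Finset.mem_range.2 hl)
  have ht : ∀ l < I.nl, I.kind l = none → I.τ l + ε ≤ 1 := fun l hl => e4 l (Finset.mem_range.2 hl)
  -- the interpolation parameter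
  obtain ⟨ρ, hρ0, hρ1, hρ⟩ : ∃ ρ : ℝ, 0 ≤ ρ ∧ ρ ≤ 1 ∧
      (G.X : ℝ) = ((1 - ρ) * x0 + ρ * x1) * ((I.n I.m : ℝ) * N) := by
    have hd : 0 < x1 - x0 := by linarith
    have hX0 : x0 ≤ (G.X : ℝ) / ((I.n I.m : ℝ) * N) := (le_div_iff₀ hnN).2 hx0
    have hX1 : (G.X : ℝ) / ((I.n I.m : ℝ) * N) ≤ x1 := (div_le_iff₀ hnN).2 hx1
    refine ⟨((G.X : ℝ) / ((I.n I.m : ℝ) * N) - x0) / (x1 - x0), ?_, ?_, ?_⟩
    · exact div_nonneg (by linarith) hd.le
    · rw [div_le_one hd]; linarith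
    · field_simp
      ring
  set x := (1 - ρ) * x0 + ρ * x1 with hxdef
  -- inputs
  have iC : ∀ j ≤ I.m, IsInput (G.NC j) := fun j hj => G.input_hst hI hε hσ1 (by omega)
  have iR : ∀ l < I.nl, IsInput (G.R l) := fun l hl => G.input_R h1 hI hε ht hε2 hl
  have iL : ∀ l < I.nl, IsInput (G.NL l) := fun l hl =>
    (G.input_hst hI hε hσ1 (by have := hI.lat_le l hl; omega)).append (iR l hl)
  have vC : ∀ j ≤ I.m, I.σ 0 * N ≤ (G.NC j).sum := fun j hj => G.vol hI hε hj
  have vL : ∀ l < I.nl, I.σ 0 * N ≤ (G.NL l).sum := by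
    intro l hl
    unfold Game.NL
    rw [List.sum_append]
    have := G.vol hI hε (hI.lat_le l hl)
    have h2 : 0 ≤ (G.R l).sum := List.sum_nonneg (fun a ha => (iR l hl a ha).1.le)
    linarith
  have hv0 : 0 < I.σ 0 * N := mul_pos hσ0 hN0
  -- costs of the algorithm
  have cC : ∀ j ≤ I.m, A.cost (G.NC j) ≤ c * optCost α (G.NC j) := fun j hj =>
    (hcon _ (iC j hj) (optBins_ge h0 h1 (iC j hj) (hvol.trans (vC j hj)))
      (lt_of_lt_of_le hv0 ((vC j hj).trans (sum_le_optCost h0 (iC j hj))))).le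
  have cL : ∀ l < I.nl, A.cost (G.NL l) ≤ c * optCost α (G.NL l) := fun l hl =>
    (hcon _ (iL l hl) (optBins_ge h0 h1 (iL l hl) (hvol.trans (vL l hl)))
      (lt_of_lt_of_le hv0 ((vL l hl).trans (sum_le_optCost h0 (iL l hl))))).le
  -- optimal costs
  have oC : ∀ j ≤ I.m, optCost α (G.NC j) ≤ P.o j * N + κ j := fun j hj =>
    G.opt_NC hj (hκ j (Finset.mem_range.2 (by omega)))
  have oL : ∀ l < I.nl, optCost α (G.NL l) ≤
      lo α I P.o' (fun l => (1 - ρ) * P.oc0 l + ρ * P.oc1 l) x l * N + κ' l := by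
    intro l hl
    have hl' := Finset.mem_range.2 hl
    unfold lo
    cases hk : I.kind l with
    | none =>
      simp only [Option.elim]
      exact G.opt_NL hI hl hk ((hκ' l hl').1 hk)
    | some B =>
      simp only [Option.elim]
      exact G.opt_NX h0 h1 hI hε hσ1 hε2 hl hk hρ0 hρ1 hρ ((hκ' l hl').2 (by rw [hk]; simp))
  -- the total
  have hfe : ∀ b, Feas α μ I b.1 (G.c b) (G.dt b) := by
    intro b
    refine G.feas hI h1 hε e1 hε2 ?_ ?_ b
    · intro b; exact A.valid _ (iC I.m le_rfl) b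
    · intro l hl b; exact A.valid _ (iL l hl) b
  have htot := G.total P.W (fun b => P.ineq _ _ _ (hfe b))
  have eL : ∑ j ∈ Finset.range I.m, P.W.w j * ((I.n j * N : ℕ) : ℝ)
      + P.W.wS * (((I.n I.m * N : ℕ) : ℝ) - G.X) + P.W.wL * (G.X : ℝ)
      + ∑ l ∈ Finset.range I.nl, P.W.w' l * ((G.R l).length : ℝ) = totalW I P.W x * N := by
    have hXk : ((I.n I.m * N : ℕ) : ℝ) = (G.k : ℝ) + (G.X : ℝ) := by
      have := G.hX; unfold Game.X; exact_mod_cast this
    have hkv : (G.k : ℝ) = (I.n I.m : ℝ) * (1 - x) * N := by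
      push_cast at hXk
      rw [hρ] at hXk
      linarith
    have s1 : ∑ j ∈ Finset.range I.m, P.W.w j * ((I.n j * N : ℕ) : ℝ) =
        (∑ j ∈ Finset.range I.m, P.W.w j * (I.n j : ℝ)) * N := by
      rw [Finset.sum_mul]
      apply Finset.sum_congr rfl
      intro j _
      push_cast; ring
    have s2 : ∑ l ∈ Finset.range I.nl, P.W.w' l * ((G.R l).length : ℝ) =
        (∑ l ∈ Finset.range I.nl, P.W.w' l * lw I x l) * N := by
      rw [Finset.sum_mul]
      apply Finset.sum_congr rfl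
      intro l hl
      rw [G.hR l (Finset.mem_range.1 hl)]
      unfold lw
      cases I.kind l with
      | none => simp only [List.length_replicate, Option.elim]; push_cast; ring
      | some B => simp only [List.length_replicate, Option.elim]; rw [hkv]; ring
    rw [s1, s2, totalW_def, hρ]
    push_cast
    ring
  have eR : ∑ j ∈ Finset.range (I.m + 1), P.W.lam j * VB85.cost α (run A.place [] (G.NC j))
      + ∑ l ∈ Finset.range I.nl, P.W.lam' l * VB85.cost α (run A.place [] (G.NL l)) ≤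
      c * (totalO α I P.W P.o P.o' (fun l => (1 - ρ) * P.oc0 l + ρ * P.oc1 l) x * N + D) := by
    have s1 : ∑ j ∈ Finset.range (I.m + 1), P.W.lam j * VB85.cost α (run A.place [] (G.NC j)) ≤
        ∑ j ∈ Finset.range (I.m + 1), P.W.lam j * (c * (P.o j * N + κ j)) := by
      apply Finset.sum_le_sum
      intro j hj
      have hj' : j ≤ I.m := by have := Finset.mem_range.1 hj; omega
      exact mul_le_mul_of_nonneg_left ((cC j hj').trans (mul_le_mul_of_nonneg_left (oC j hj') hc))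
        (P.lam_nonneg j hj')
    have s2 : ∑ l ∈ Finset.range I.nl, P.W.lam' l * VB85.cost α (run A.place [] (G.NL l)) ≤
        ∑ l ∈ Finset.range I.nl, P.W.lam' l *
          (c * (lo α I P.o' (fun l => (1 - ρ) * P.oc0 l + ρ * P.oc1 l) x l * N + κ' l)) := by
      apply Finset.sum_le_sum
      intro l hl
      have hl' := Finset.mem_range.1 hl
      exact mul_le_mul_of_nonneg_left ((cL l hl').trans (mul_le_mul_of_nonneg_left (oL l hl') hc))
        (P.lam'_nonneg l hl')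
    refine (add_le_add s1 s2).trans (le_of_eq ?_)
    rw [hD, totalO_def]
    have t1 : ∑ j ∈ Finset.range (I.m + 1), P.W.lam j * (c * (P.o j * N + κ j)) =
        c * ((∑ j ∈ Finset.range (I.m + 1), P.W.lam j * P.o j) * N +
          ∑ j ∈ Finset.range (I.m + 1), P.W.lam j * κ j) := by
      rw [Finset.sum_mul, ← Finset.sum_add_distrib, Finset.mul_sum]
      apply Finset.sum_congr rfl
      intro j _; ring
    have t2 : ∑ l ∈ Finset.range I.nl, P.W.lam' l *
          (c * (lo α I P.o' (fun l => (1 - ρ) * P.oc0 l + ρ * P.oc1 l) x l * N + κ' l)) =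
        c * ((∑ l ∈ Finset.range I.nl, P.W.lam' l *
          lo α I P.o' (fun l => (1 - ρ) * P.oc0 l + ρ * P.oc1 l) x l) * N +
          ∑ l ∈ Finset.range I.nl, P.W.lam' l * κ' l) := by
      rw [Finset.sum_mul, ← Finset.sum_add_distrib, Finset.mul_sum]
      apply Finset.sum_congr rfl
      intro l _; ring
    rw [t1, t2]; ring
  rw [eL] at htot
  have hfin := htot.trans eR
  rw [hxdef, totalW_lin, totalO_lin] at hfin
  have hδN : min δ0 δ1 * N ≤ c * D := by
    have m0 : min δ0 δ1 ≤ δ0 := min_le_left _ _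
    have m1 : min δ0 δ1 ≤ δ1 := min_le_right _ _
    have h3 : min δ0 δ1 ≤ (1 - ρ) * δ0 + ρ * δ1 := by
      nlinarith [mul_nonneg (sub_nonneg.2 hρ1) (sub_nonneg.2 m0), mul_nonneg hρ0 (sub_nonneg.2 m1)]
    have h4 : ((1 - ρ) * δ0 + ρ * δ1) * N ≤ c * D := by
      rw [hδ0, hδ1]; linarith
    exact (mul_le_mul_of_nonneg_right h3 hN0.le).trans h4
  have : c * D < min δ0 δ1 * N := by
    have h5 := hN1.trans_le hNN1
    rw [div_lt_iff₀ hδ] at h5
    linarith
  linarith

/-- **The lower bound for one algorithm.** -/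
theorem core {α μ c : ℝ} (h0 : 0 < α) (h1 : α < 1) (hμ : 0 < μ) (hc : 0 ≤ c) {I : Inst}
    (hI : I.Good α) (n : ℕ) (x0 x1 : ℕ → ℝ) (hx : ∀ i < n, x0 i < x1 i)
    (P : ∀ i < n, Nonempty (Piece α μ c I (x0 i) (x1 i)))
    (hcov : ∀ x : ℝ, 0 ≤ x → x ≤ 1 → ∃ i < n, x0 i ≤ x ∧ x ≤ x1 i) (A : OnlineAlg α) (K : ℕ) :
    ∃ L, IsInput L ∧ K ≤ optBins α L ∧ 0 < optCost α L ∧ c * optCost α L ≤ A.cost L := by
  have hev : ∀ᶠ ε in 𝓝[>] (0:ℝ), ∀ i ∈ Finset.range n, ∃ N0 : ℕ, ∀ N ≥ N0,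
      ∀ G : Game α ε I N A.place,
      x0 i * ((I.n I.m : ℝ) * N) ≤ (G.X : ℝ) → (G.X : ℝ) ≤ x1 i * ((I.n I.m : ℝ) * N) →
      ∃ L, IsInput L ∧ K ≤ optBins α L ∧ 0 < optCost α L ∧ c * optCost α L ≤ A.cost L := by
    rw [Filter.eventually_all_finset]
    intro i hi
    have hi' := Finset.mem_range.1 hi
    obtain ⟨Q⟩ := P i hi'
    exact piece_win h0 h1 hμ hc hI (hx i hi') Q A K
  have hev2 : ∀ᶠ ε in 𝓝[>] (0:ℝ), 0 < ε := self_mem_nhdsWithin
  obtain ⟨ε, hε, hε0⟩ := (hev.and hev2).exists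
  choose! N0 hN0 using hε
  set N := (∑ i ∈ Finset.range n, N0 i) + 1 with hN
  obtain ⟨G⟩ := exists_game α ε I N A.place hε0 (hI.σ_pos I.m le_rfl).le
  have hn : (0:ℝ) < (I.n I.m : ℝ) := by exact_mod_cast hI.n_pos I.m le_rfl
  have hNp : (0:ℝ) < N := by rw [hN]; push_cast; positivity
  have hnN : (0:ℝ) < (I.n I.m : ℝ) * N := mul_pos hn hNp
  have hXle : (G.X : ℝ) ≤ (I.n I.m : ℝ) * N := by
    have := G.hX
    have h2 : G.X ≤ I.n I.m * N := by unfold Game.X; omega
    exact_mod_cast h2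
  obtain ⟨i, hi, ha, hb⟩ := hcov ((G.X : ℝ) / ((I.n I.m : ℝ) * N)) (by positivity)
    ((div_le_one hnN).2 hXle)
  have hi' := Finset.mem_range.2 hi
  refine hN0 i hi' N ?_ G ((le_div_iff₀ hnN).1 ha) ((div_le_iff₀ hnN).1 hb)
  have : N0 i ≤ ∑ i ∈ Finset.range n, N0 i := Finset.single_le_sum (f := N0) (fun _ _ => Nat.zero_le _) hi'
  omega

/-- The lower bound for `R^*`. -/
theorem le_Rstar {α c : ℝ} (h : ∀ (A : OnlineAlg α) (K : ℕ), ∃ L, IsInput L ∧ K ≤ optBins α L ∧
    0 < optCost α L ∧ c * optCost α L ≤ A.cost L) : ENNReal.ofReal c ≤ Rstar α := by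
  refine le_iInf fun A => le_iInf fun k => ?_
  obtain ⟨L, hL, hk, hpos, hcost⟩ := h A k
  refine le_trans ?_ (le_iSup_of_le L (le_iSup_of_le hL (le_iSup_of_le hk le_rfl)))
  exact ENNReal.ofReal_le_ofReal ((le_div_iff₀ hpos).2 hcost)

end VB85
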