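import Mathlib

/-!
# On-line variable-sized bin packing with the two bin sizes `1` and `α` (MP_5bf1da_lc): definitions

* a bin is a pair `(ty, i)`: `ty = true` is a bin of size `1`, `ty = false` a bin of size `α`, and `i` is
  its number (there are infinitely many bins of each type);
* an input is a list of items in `(0,1]`, in order of arrival;
* a packing of `L` is a list of pairs (item, bin) whose items are the items of `L`, such that no bin is
  overfull;
* a deterministic on-line algorithm is a function giving, for the list of the previous items and the new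
  item, the bin of the new item.
-/

namespace VB85

/-- Bins: the type (`true`: size `1`; `false`: size `α`) and the number of the bin. -/
abbrev Bin := Bool × ℕ

/-- The size of a bin. -/
def bsize (α : ℝ) (b : Bin) : ℝ := if b.1 then 1 else α

/-- The total size of the items that `P` puts into the bin `b`. -/
def load (P : List (ℝ × Bin)) (b : Bin) : ℝ :=
  ((P.filter (fun q => decide (q.2 = b))).map Prod.fst).sum

/-- `P` is a packing of the items of the list `L` into bins of size `1` and `α`. -/
def IsPacking (α : ℝ) (L : List ℝ) (P : List (ℝ × Bin)) : Prop :=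
  (P.map Prod.fst).Perm L ∧ ∀ b, load P b ≤ bsize α b

/-- The total size of the bins used by `P`. -/
def cost (α : ℝ) (P : List (ℝ × Bin)) : ℝ := ∑ b ∈ (P.map Prod.snd).toFinset, bsize α b

/-- The number of bins used by `P`. -/
def nBins (P : List (ℝ × Bin)) : ℕ := (P.map Prod.snd).toFinset.card

/-- An input: a finite list of items in `(0,1]`. -/
def IsInput (L : List ℝ) : Prop := ∀ a ∈ L, 0 < a ∧ a ≤ 1

/-- `s(OPT, L)`: the minimum total size of the bins over all packings of `L`. -/
noncomputable def optCost (α : ℝ) (L : List ℝ) : ℝ :=
  sInf {c | ∃ P, IsPacking α L P ∧ cost α P = c}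

/-- `OPT(L)`: the (least) number of bins in an optimal packing of `L`. -/
noncomputable def optBins (α : ℝ) (L : List ℝ) : ℕ :=
  sInf {m | ∃ P, IsPacking α L P ∧ cost α P = optCost α L ∧ nBins P = m}

/-- The packing produced on-line from `place`: `place hist a` is the bin of the item `a` which arrives
after the items `hist` (in order of arrival). -/
def run (place : List ℝ → ℝ → Bin) : List ℝ → List ℝ → List (ℝ × Bin)
  | _, [] => []
  | hist, a :: L => (a, place hist a) :: run place (hist ++ [a]) L

/-- A deterministic on-line algorithm for the bin sizes `1` and `α`: a rule that assigns to every list of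
previous items and every new item the bin of the new item, and never overfills a bin. -/
structure OnlineAlg (α : ℝ) where
  place : List ℝ → ℝ → Bin
  valid : ∀ L, IsInput L → ∀ b, load (run place [] L) b ≤ bsize α b

/-- `s(A, L)`: the total size of the bins that the algorithm uses for the input `L`. -/
def OnlineAlg.cost {α : ℝ} (A : OnlineAlg α) (L : List ℝ) : ℝ := VB85.cost α (run A.place [] L)

/-- The supremum of `s(A,L)/s(OPT,L)` over all inputs `L` with `OPT(L) ≥ k`. -/
noncomputable def ratioFrom {α : ℝ} (A : OnlineAlg α) (k : ℕ) : ENNReal :=
  ⨆ (L : List ℝ) (_ : IsInput L) (_ : k ≤ optBins α L), ENNReal.ofReal (A.cost L / optCost α L)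

/-- The worst case ratio `R_A^{var}(α) = lim_{k → ∞} sup {s(A,L)/s(OPT,L) : OPT(L) ≥ k}`; the supremum is
non-increasing in `k`, so the limit is the infimum (`tendsto_ratioFrom`). -/
noncomputable def ratio {α : ℝ} (A : OnlineAlg α) : ENNReal := ⨅ k : ℕ, ratioFrom A k

/-- `R^*(α)`: the infimum of the worst case ratios of all on-line algorithms for the sizes `1`, `α`. -/
noncomputable def Rstar (α : ℝ) : ENNReal := ⨅ A : OnlineAlg α, ratio A

theorem ratioFrom_antitone {α : ℝ} (A : OnlineAlg α) : Antitone (ratioFrom A) := by
  intro k l hkl
  refine iSup_mono fun L => iSup_mono fun hL => iSup_le fun h => ?_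
  exact le_iSup_of_le (hkl.trans h) le_rfl

theorem tendsto_ratioFrom {α : ℝ} (A : OnlineAlg α) :
    Filter.Tendsto (ratioFrom A) Filter.atTop (nhds (ratio A)) :=
  tendsto_atTop_iInf (ratioFrom_antitone A)

end VB85
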