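import Pool.Agent.LibVB85.Nodes

/-! The game against one algorithm: contents of the bins are feasible. -/

namespace VB85

theorem mul_count_lt_load {P : List (ℝ × Bin)} {s : ℝ} (h : ∀ q ∈ P, s < q.1) {b : Bin}
    (hc : (P.map Prod.snd).count b ≠ 0) : s * ((P.map Prod.snd).count b) < load P b := by
  induction P with
  | nil => simp at hc
  | cons q P ih =>
    rw [load_cons]
    have hP : ∀ q ∈ P, s < q.1 := fun q hq => h q (List.mem_cons_of_mem _ hq)
    have h1 := mul_count_le_load (fun q hq => (hP q hq).le) b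
    have h2 := h q List.mem_cons_self
    by_cases e : q.2 = b
    · simp only [List.map_cons, e, List.count_cons_self, if_true]; push_cast; linarith
    · simp only [List.map_cons, if_neg e, zero_add]
      have e' : (q.2 == b) = false := by simpa using e
      simp only [List.map_cons, List.count_cons, e'] at hc ⊢
      simpa using ih hP (by simpa using hc)

/-- the adversary's play against the placement rule `place` -/
structure Game (α ε : ℝ) (I : Inst) (N : ℕ) (place : List ℝ → ℝ → Bin) where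
  S : ℕ → List ℝ
  R : ℕ → List ℝ
  θ : ℝ
  k : ℕ
  hS : ∀ j < I.m, S j = List.replicate (I.n j * N) (I.σ j + ε)
  hlen : (S I.m).length = I.n I.m * N
  hSm : ∀ a ∈ S I.m, I.σ I.m < a ∧ a < I.σ I.m + ε
  hθ0 : I.σ I.m < θ
  hθ1 : θ < I.σ I.m + ε
  hne : ∀ a ∈ S I.m, a ≠ θ
  hk : k = ((S I.m).filter (fun a => decide (a < θ))).length
  hX : (I.n I.m * N : ℕ) = k + ((((rn place S I.m).map Prod.snd).toFinset) \
    (((run place [] (hst S I.m)).map Prod.snd).toFinset)).card
  hop : ∀ b ∈ (((rn place S I.m).map Prod.snd).toFinset) \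
    (((run place [] (hst S I.m)).map Prod.snd).toFinset), θ < load (rn place S I.m) b
  hR : ∀ l < I.nl, R l = match I.kind l with
    | none => List.replicate (I.nn l * N) (I.τ l + ε)
    | some B => List.replicate k (bs α B - θ)

variable {α ε : ℝ} {I : Inst} {N : ℕ} {place : List ℝ → ℝ → Bin}

/-- the packing of the items of leaf `l` -/
def Game.rl (G : Game α ε I N place) (l : ℕ) : List (ℝ × Bin) :=
  run place (hst G.S (I.lat l + 1)) (G.R l)

/-- number of items of leaf `l` in bin `b` -/
def Game.dt (G : Game α ε I N place) (b : Bin) (l : ℕ) : ℕ := ((G.rl l).map Prod.snd).count b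

/-- the numbers of items of the stages in bin `b` -/
abbrev Game.c (G : Game α ε I N place) (b : Bin) (j : ℕ) : ℕ := ct place G.S b j

/-- list at the end of stage `j` -/
def Game.NC (G : Game α ε I N place) (j : ℕ) : List ℝ := hst G.S (j + 1)
/-- list at the end of leaf `l` -/
def Game.NL (G : Game α ε I N place) (l : ℕ) : List ℝ := hst G.S (I.lat l + 1) ++ G.R l

theorem Game.run_NL (G : Game α ε I N place) (l : ℕ) :
    run place [] (G.NL l) = run place [] (hst G.S (I.lat l + 1)) ++ G.rl l := by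
  unfold Game.NL Game.rl; rw [run_append]; simp

theorem Game.load_lt (G : Game α ε I N place) {b : Bin} {j : ℕ} (hj : j < I.m) :
    load (rn place G.S j) b = (I.σ j + ε) * (G.c b j : ℝ) := by
  unfold Game.c ct rn
  rw [G.hS j hj]; exact load_run_replicate _ _ _ _ _

theorem Game.load_m (G : Game α ε I N place) (b : Bin) :
    I.σ I.m * (G.c b I.m : ℝ) ≤ load (rn place G.S I.m) b :=
  mul_count_le_load (fun q hq => (G.hSm q.1 (mem_run_fst hq)).1.le) b

theorem Game.load_m_lt (G : Game α ε I N place) {b : Bin} (h : G.c b I.m ≠ 0) :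
    I.σ I.m * (G.c b I.m : ℝ) < load (rn place G.S I.m) b :=
  mul_count_lt_load (fun q hq => (G.hSm q.1 (mem_run_fst hq)).1) h

theorem Game.load_ge (G : Game α ε I N place) (hε : 0 < ε) (b : Bin) {j : ℕ} (hj : j ≤ I.m) :
    (G.c b j : ℝ) * I.σ j ≤ load (rn place G.S j) b := by
  rcases Nat.lt_or_eq_of_le hj with h | h
  · rw [G.load_lt h]
    have : (0:ℝ) ≤ G.c b j := Nat.cast_nonneg _
    nlinarith
  · subst h; rw [mul_comm]; exact G.load_m b

theorem Game.load_gt (G : Game α ε I N place) (hε : 0 < ε) {b : Bin} {j : ℕ} (hj : j ≤ I.m)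
    (hc : G.c b j ≠ 0) : (G.c b j : ℝ) * I.σ j < load (rn place G.S j) b := by
  rcases Nat.lt_or_eq_of_le hj with h | h
  · rw [G.load_lt h]
    have : (0:ℝ) < G.c b j := by exact_mod_cast Nat.pos_of_ne_zero hc
    nlinarith
  · subst h; rw [mul_comm]; exact G.load_m_lt hc

theorem Game.sum_le_load (G : Game α ε I N place) (hε : 0 < ε) (b : Bin) {j : ℕ} (hj : j ≤ I.m + 1) :
    ∑ i ∈ Finset.range j, (G.c b i : ℝ) * I.σ i ≤ load (run place [] (hst G.S j)) b := by
  rw [load_hst]
  exact Finset.sum_le_sum (fun i hi => G.load_ge hε b (by have := Finset.mem_range.1 hi; omega))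

theorem Game.sum_lt_load (G : Game α ε I N place) (hε : 0 < ε) {b : Bin} {j : ℕ} (hj : j ≤ I.m + 1)
    (h : ∃ i < j, G.c b i ≠ 0) :
    ∑ i ∈ Finset.range j, (G.c b i : ℝ) * I.σ i < load (run place [] (hst G.S j)) b := by
  rw [load_hst]
  obtain ⟨i, hi, hci⟩ := h
  exact Finset.sum_lt_sum (fun i hi => G.load_ge hε b (by have := Finset.mem_range.1 hi; omega))
    ⟨i, Finset.mem_range.2 hi, G.load_gt hε (by omega) hci⟩

/-- The contents of every bin are feasible. -/
theorem Game.feas (G : Game α ε I N place) {μ : ℝ} (hI : I.Good α) (h1 : α < 1) (hε : 0 < ε)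
    (hεμ : ε < μ * I.σ I.m)
    (hε2 : ∀ l < I.nl, ∀ B, I.kind l = some B → 2 * (I.σ I.m + ε) ≤ bs α B)
    (hC : ∀ b, load (run place [] (G.NC I.m)) b ≤ bsize α b)
    (hL : ∀ l < I.nl, ∀ b, load (run place [] (G.NL l)) b ≤ bsize α b) (b : Bin) :
    Feas α μ I b.1 (G.c b) (G.dt b) := by
  have hb : bsize α b = bs α b.1 := rfl
  have hσ : 0 < I.σ I.m := hI.σ_pos _ le_rfl
  refine ⟨?_, ?_, ?_, ?_⟩
  · rintro ⟨j, hj, hc⟩
    have := G.sum_lt_load hε (b := b) (j := I.m + 1) le_rfl ⟨j, by omega, hc⟩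
    have h2 := hC b
    unfold Game.NC at h2
    rw [hb] at h2
    exact this.trans_le h2
  · intro l hl hk h
    have h2 := hL l hl b
    rw [G.run_NL, load_append, hb] at h2
    have hRl : G.R l = List.replicate (I.nn l * N) (I.τ l + ε) := by rw [G.hR l hl, hk]
    have h3 : load (G.rl l) b = (I.τ l + ε) * (G.dt b l : ℝ) := by
      unfold Game.dt Game.rl; rw [hRl]; exact load_run_replicate _ _ _ _ _
    rw [h3] at h2
    have hd : (0:ℝ) ≤ G.dt b l := Nat.cast_nonneg _
    have hlat := hI.lat_le l hl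
    rcases h with ⟨j, hj, hc⟩ | hd0
    · have := G.sum_lt_load hε (b := b) (j := I.lat l + 1) (by omega) ⟨j, by omega, hc⟩
      nlinarith
    · have := G.sum_le_load hε b (j := I.lat l + 1) (by omega)
      have hd1 : (0:ℝ) < G.dt b l := by exact_mod_cast Nat.pos_of_ne_zero hd0
      nlinarith
  · intro l hl hk
    have h2 := hL l hl b
    rw [G.run_NL, load_append, hb] at h2
    have hlat : I.lat l = I.m := hI.comp_lat l hl _ hk
    have hRl : G.R l = List.replicate G.k (bs α b.1 - G.θ) := by rw [G.hR l hl, hk]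
    have h3 : load (G.rl l) b = (bs α b.1 - G.θ) * (G.dt b l : ℝ) := by
      unfold Game.dt Game.rl; rw [hRl]; exact load_run_replicate _ _ _ _ _
    rw [h3, hlat] at h2
    have h4 := hε2 l hl _ hk
    have h5 : 0 ≤ load (run place [] (hst G.S (I.m + 1))) b := by
      refine le_trans ?_ (G.sum_le_load hε b (j := I.m + 1) le_rfl)
      exact Finset.sum_nonneg (fun i hi => mul_nonneg (Nat.cast_nonneg _)
        (hI.σ_pos i (by have := Finset.mem_range.1 hi; omega)).le)
    have hθ := G.hθ1
    have hd1 : G.dt b l ≤ 1 := by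
      by_contra hcon
      have : (2:ℝ) ≤ G.dt b l := by exact_mod_cast (by omega : 2 ≤ G.dt b l)
      nlinarith
    refine ⟨hd1, fun hd0 => ?_⟩
    have hd : (G.dt b l : ℝ) = 1 := by
      have : G.dt b l = 1 := by omega
      rw [this]; simp
    rw [hd] at h2
    have h6 : load (run place [] (hst G.S (I.m + 1))) b ≤ G.θ := by linarith
    rw [load_hst, Finset.sum_range_succ] at h6
    have hsplit : ∑ i ∈ Finset.range I.m, load (rn place G.S i) b =
        ∑ i ∈ Finset.range I.m, (G.c b i : ℝ) * I.σ i + ε * ∑ i ∈ Finset.range I.m, (G.c b i : ℝ) := by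
      rw [Finset.mul_sum, ← Finset.sum_add_distrib]
      apply Finset.sum_congr rfl
      intro i hi
      rw [G.load_lt (Finset.mem_range.1 hi)]; ring
    have hnn : 0 ≤ ∑ i ∈ Finset.range I.m, (G.c b i : ℝ) * I.σ i :=
      Finset.sum_nonneg (fun i hi => mul_nonneg (Nat.cast_nonneg _)
        (hI.σ_pos i (by have := Finset.mem_range.1 hi; omega)).le)
    have hm0 : 0 ≤ load (rn place G.S I.m) b :=
      le_trans (mul_nonneg (Nat.cast_nonneg _) hσ.le) (G.load_ge hε b le_rfl)
    have hone : (∃ j < I.m, G.c b j ≠ 0) → 1 ≤ ∑ i ∈ Finset.range I.m, (G.c b i : ℝ) := by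
      rintro ⟨j, hj, hc⟩
      have h7 : (G.c b j : ℝ) ≤ ∑ i ∈ Finset.range I.m, (G.c b i : ℝ) :=
        Finset.single_le_sum (f := fun i => (G.c b i : ℝ)) (fun i _ => Nat.cast_nonneg _)
          (Finset.mem_range.2 hj)
      have h8 : (1:ℝ) ≤ G.c b j := by exact_mod_cast Nat.one_le_iff_ne_zero.2 hc
      linarith
    constructor
    · by_contra hcm
      by_cases hu : ∃ j < I.m, G.c b j ≠ 0
      · have h7 := hone hu
        have h8 := G.load_m_lt hcm
        have h9 : (1:ℝ) ≤ G.c b I.m := by exact_mod_cast Nat.one_le_iff_ne_zero.2 hcm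
        rw [hsplit] at h6
        have h10 : ε * 1 ≤ ε * ∑ i ∈ Finset.range I.m, (G.c b i : ℝ) :=
          mul_le_mul_of_nonneg_left h7 hε.le
        have h11 : I.σ I.m * 1 ≤ I.σ I.m * (G.c b I.m : ℝ) := mul_le_mul_of_nonneg_left h9 hσ.le
        linarith
      · have hb2 : b ∈ (((rn place G.S I.m).map Prod.snd).toFinset) \
            (((run place [] (hst G.S I.m)).map Prod.snd).toFinset) := by
          rw [Finset.mem_sdiff, List.mem_toFinset, List.mem_toFinset, mem_hst]
          refine ⟨?_, hu⟩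
          rw [← List.count_pos_iff]
          exact Nat.pos_of_ne_zero hcm
        have h7 := G.hop b hb2
        have h8 : 0 ≤ ∑ i ∈ Finset.range I.m, load (rn place G.S i) b := by
          rw [hsplit]
          have : 0 ≤ ∑ i ∈ Finset.range I.m, (G.c b i : ℝ) :=
            Finset.sum_nonneg (fun i _ => Nat.cast_nonneg _)
          positivity
        linarith
    · intro hu
      have h7 := hone hu
      rw [hsplit] at h6
      have h10 : ε * 1 ≤ ε * ∑ i ∈ Finset.range I.m, (G.c b i : ℝ) :=
          mul_le_mul_of_nonneg_left h7 hε.le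
      linarith
  · intro l hl hk hd0
    have h2 := hL l hl b
    rw [G.run_NL, load_append, hb] at h2
    have hlat : I.lat l = I.m := hI.comp_lat l hl _ hk
    have hRl : G.R l = List.replicate G.k (bs α (!b.1) - G.θ) := by rw [G.hR l hl, hk]
    have h3 : load (G.rl l) b = (bs α (!b.1) - G.θ) * (G.dt b l : ℝ) := by
      unfold Game.dt Game.rl; rw [hRl]; exact load_run_replicate _ _ _ _ _
    rw [h3, hlat] at h2
    have h4 := hε2 l hl _ hk
    have h5 := G.sum_le_load hε b (j := I.m + 1) le_rfl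
    have h6 : 0 ≤ ∑ i ∈ Finset.range (I.m + 1), (G.c b i : ℝ) * I.σ i :=
      Finset.sum_nonneg (fun i hi => mul_nonneg (Nat.cast_nonneg _)
        (hI.σ_pos i (by have := Finset.mem_range.1 hi; omega)).le)
    have hθ := G.hθ1
    have hd1 : (1:ℝ) ≤ G.dt b l := by exact_mod_cast Nat.one_le_iff_ne_zero.2 hd0
    have hbs : bs α b.1 ≤ 1 := by unfold bs; split_ifs <;> linarith
    -- `d * σ m ≤ 1`
    have h7 : I.σ I.m * (G.dt b l : ℝ) ≤ 1 := by
      have : I.σ I.m ≤ bs α (!b.1) - G.θ := by linarith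
      nlinarith
    have h8 : ε * (G.dt b l : ℝ) < μ := by
      have : ε * (G.dt b l : ℝ) < μ * I.σ I.m * (G.dt b l : ℝ) := by nlinarith
      have hμ : 0 < μ := by
        by_contra hcon
        push Not at hcon
        nlinarith
      nlinarith
    nlinarith

end VB85
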