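import Pool.Agent.LibVB85.Basic

/-!
# Adversaries: stages, one adaptive stage, leaves; real certificates

An adversary (`Inst`) presents stages `0, …, m` of items one after the other. In stage `j < m` there are
`n j * N` items of size `σ j + ε`. Stage `m` is adaptive: `n m * N` items with sizes in
`(σ m, σ m + ε)` which are chosen so that for some threshold `θ` the items that open a new bin are larger
than `θ` and all others are smaller than `θ`.
Leaf `ℓ` continues the game after the stages `0, …, at ℓ`: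
* `kind ℓ = none`: with `nn ℓ * N` items of size `τ ℓ + ε`;
* `kind ℓ = some B` (then `at ℓ = m`): with as many items of size `(size of the bin type B) - θ` as there
  are items smaller than `θ` in stage `m`.
-/

namespace VB85

/-- the size of a bin type -/
def bs (α : ℝ) (B : Bool) : ℝ := if B then 1 else α

theorem bs_eq (α : ℝ) (b : Bin) : bsize α b = bs α b.1 := rfl

structure Inst where
  m : ℕ
  σ : ℕ → ℝ
  n : ℕ → ℕ
  nl : ℕ
  lat : ℕ → ℕ
  kind : ℕ → Option Bool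
  τ : ℕ → ℝ
  nn : ℕ → ℕ

/-- Conditions on the adversary. -/
structure Inst.Good (I : Inst) (α : ℝ) : Prop where
  σ_pos : ∀ j, j ≤ I.m → 0 < I.σ j
  σ_lt : ∀ j, j ≤ I.m → I.σ j < 1
  n_pos : ∀ j, j ≤ I.m → 0 < I.n j
  lat_le : ∀ l, l < I.nl → I.lat l ≤ I.m
  τ_pos : ∀ l, l < I.nl → I.kind l = none → 0 < I.τ l
  τ_lt : ∀ l, l < I.nl → I.kind l = none → I.τ l < 1
  comp_lat : ∀ l, l < I.nl → ∀ B, I.kind l = some B → I.lat l = I.m
  comp_two : ∀ l, l < I.nl → ∀ B, I.kind l = some B → 2 * I.σ I.m < bs α B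

/-- `c` (numbers of items of the stages in the bin) and `d` (numbers of items of the leaves in the bin, each
leaf is a separate continuation) are possible for a bin of type `β`. -/
def Feas (α μ : ℝ) (I : Inst) (β : Bool) (c d : ℕ → ℕ) : Prop :=
  ((∃ j ≤ I.m, c j ≠ 0) → ∑ j ∈ Finset.range (I.m + 1), (c j : ℝ) * I.σ j < bs α β) ∧
  (∀ l < I.nl, I.kind l = none → ((∃ j ≤ I.lat l, c j ≠ 0) ∨ d l ≠ 0) →
    ∑ j ∈ Finset.range (I.lat l + 1), (c j : ℝ) * I.σ j + (d l : ℝ) * I.τ l < bs α β) ∧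
  (∀ l < I.nl, I.kind l = some β → d l ≤ 1 ∧ (d l ≠ 0 → c I.m = 0 ∧
    ((∃ j < I.m, c j ≠ 0) → ∑ j ∈ Finset.range I.m, (c j : ℝ) * I.σ j < I.σ I.m))) ∧
  (∀ l < I.nl, I.kind l = some (!β) → d l ≠ 0 →
    ∑ j ∈ Finset.range (I.m + 1), (c j : ℝ) * I.σ j + (d l : ℝ) * (bs α (!β) - I.σ I.m) < bs α β + μ)

/-- the weights of a certificate -/
structure Wts where
  w : ℕ → ℝ
  wS : ℝ
  wL : ℝ
  w' : ℕ → ℝ
  lam : ℕ → ℝ
  lam' : ℕ → ℝ

/-- `1` if the bin is opened by an item of stage `m` -/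
def opn (I : Inst) (c : ℕ → ℕ) : ℕ := if c I.m ≠ 0 ∧ ∀ j < I.m, c j = 0 then 1 else 0

/-- `1` if the bin is used at the end of stage `j` -/
def usd (c : ℕ → ℕ) (j : ℕ) : ℕ := if ∃ i ≤ j, c i ≠ 0 then 1 else 0

/-- `1` if the bin is used at the end of leaf `l` -/
def usdL (I : Inst) (c d : ℕ → ℕ) (l : ℕ) : ℕ := if (∃ i ≤ I.lat l, c i ≠ 0) ∨ d l ≠ 0 then 1 else 0

/-- the inequality for one bin -/
def BinIneq (α : ℝ) (I : Inst) (W : Wts) (β : Bool) (c d : ℕ → ℕ) : Prop :=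
  ∑ j ∈ Finset.range I.m, W.w j * (c j : ℝ) + W.wS * ((c I.m : ℝ) - opn I c) + W.wL * (opn I c : ℝ)
    + ∑ l ∈ Finset.range I.nl, W.w' l * (d l : ℝ)
  ≤ bs α β * (∑ j ∈ Finset.range (I.m + 1), W.lam j * (usd c j : ℝ)
    + ∑ l ∈ Finset.range I.nl, W.lam' l * (usdL I c d l : ℝ))

/-- Fractional packing bound: `dem j` items of size (a bit more than) `size j`, `j < T`, can be packed
fractionally at cost `o`. -/
def PatBound (α : ℝ) (T : ℕ) (size dem : ℕ → ℝ) (o : ℝ) : Prop :=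
  ∃ (K : ℕ) (ty : ℕ → Bool) (cnt : ℕ → ℕ → ℕ) (y : ℕ → ℝ),
    (∀ i < K, 0 ≤ y i) ∧
    (∀ i < K, ∑ j ∈ Finset.range T, (cnt i j : ℝ) * size j < bs α (ty i)) ∧
    (∀ j < T, dem j ≤ ∑ i ∈ Finset.range K, y i * (cnt i j : ℝ)) ∧
    ∑ i ∈ Finset.range K, y i * bs α (ty i) ≤ o

/-- sizes and demands for a static leaf -/
def lsize (I : Inst) (l : ℕ) (j : ℕ) : ℝ := if j ≤ I.lat l then I.σ j else I.τ l
def ldem (I : Inst) (l : ℕ) (j : ℕ) : ℝ := if j ≤ I.lat l then (I.n j : ℝ) else (I.nn l : ℝ)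
/-- demand when only the fraction `x` of the items of stage `m` has to be packed -/
def xdem (I : Inst) (x : ℝ) (j : ℕ) : ℝ := if j < I.m then (I.n j : ℝ) else (I.n I.m : ℝ) * x

/-- total weight, when the fraction `x` of the items of stage `m` opens new bins -/
noncomputable def totalW (I : Inst) (W : Wts) (x : ℝ) : ℝ :=
  ∑ j ∈ Finset.range I.m, W.w j * (I.n j : ℝ) + W.wS * ((I.n I.m : ℝ) * (1 - x))
    + W.wL * ((I.n I.m : ℝ) * x)
    + ∑ l ∈ Finset.range I.nl, W.w' l *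
      (match I.kind l with
        | none => (I.nn l : ℝ)
        | some _ => (I.n I.m : ℝ) * (1 - x))

/-- total cost of the optimal packings of all nodes -/
noncomputable def totalO (α : ℝ) (I : Inst) (W : Wts) (o o' : ℕ → ℝ) (oc : ℕ → ℝ) (x : ℝ) : ℝ :=
  ∑ j ∈ Finset.range (I.m + 1), W.lam j * o j
    + ∑ l ∈ Finset.range I.nl, W.lam' l *
      (match I.kind l with
        | none => o' l
        | some B => bs α B * ((I.n I.m : ℝ) * (1 - x)) + oc l)

/-- The certificate (for one bin size `α`) on the piece `[x0, x1]` of the unit interval. -/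
structure Piece (α μ c : ℝ) (I : Inst) (x0 x1 : ℝ) where
  W : Wts
  lam_nonneg : ∀ j, j ≤ I.m → 0 ≤ W.lam j
  lam'_nonneg : ∀ l, l < I.nl → 0 ≤ W.lam' l
  ineq : ∀ β c d, Feas α μ I β c d → BinIneq α I W β c d
  o : ℕ → ℝ
  o' : ℕ → ℝ
  oc0 : ℕ → ℝ
  oc1 : ℕ → ℝ
  ho : ∀ j, j ≤ I.m → PatBound α (j + 1) I.σ (fun j => (I.n j : ℝ)) (o j)
  ho' : ∀ l, l < I.nl → I.kind l = none → PatBound α (I.lat l + 2) (lsize I l) (ldem I l) (o' l)
  hoc0 : ∀ l, l < I.nl → I.kind l ≠ none → PatBound α (I.m + 1) I.σ (xdem I x0) (oc0 l)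
  hoc1 : ∀ l, l < I.nl → I.kind l ≠ none → PatBound α (I.m + 1) I.σ (xdem I x1) (oc1 l)
  fin0 : c * totalO α I W o o' oc0 x0 < totalW I W x0
  fin1 : c * totalO α I W o o' oc1 x1 < totalW I W x1

end VB85
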