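import Pool.Agent.LibVB85.Inst
import Pool.Agent.LibVB85.Adapt

/-! The lists presented by the adversary and the contents of a bin. -/

namespace VB85

/-- the items of the stages `0, …, j-1` -/
def hst (S : ℕ → List ℝ) (j : ℕ) : List ℝ := (List.range j).flatMap S

theorem hst_succ (S : ℕ → List ℝ) (j : ℕ) : hst S (j + 1) = hst S j ++ S j := by
  simp [hst, List.range_succ]

/-- the packing of stage `j` -/
def rn (place : List ℝ → ℝ → Bin) (S : ℕ → List ℝ) (j : ℕ) : List (ℝ × Bin) :=
  run place (hst S j) (S j)

/-- number of items of stage `j` in bin `b` -/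
def ct (place : List ℝ → ℝ → Bin) (S : ℕ → List ℝ) (b : Bin) (j : ℕ) : ℕ :=
  ((rn place S j).map Prod.snd).count b

theorem run_hst (place : List ℝ → ℝ → Bin) (S : ℕ → List ℝ) (j : ℕ) :
    run place [] (hst S (j + 1)) = run place [] (hst S j) ++ rn place S j := by
  rw [hst_succ, run_append]; simp [rn]

theorem load_hst (place : List ℝ → ℝ → Bin) (S : ℕ → List ℝ) (b : Bin) (j : ℕ) :
    load (run place [] (hst S j)) b = ∑ i ∈ Finset.range j, load (rn place S i) b := by
  induction j with
  | zero => simp [hst, run, load]
  | succ j ih => rw [run_hst, load_append, ih, Finset.sum_range_succ]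

theorem mem_hst (place : List ℝ → ℝ → Bin) (S : ℕ → List ℝ) (b : Bin) (j : ℕ) :
    b ∈ (run place [] (hst S j)).map Prod.snd ↔ ∃ i < j, ct place S b i ≠ 0 := by
  induction j with
  | zero => simp [hst, run]
  | succ j ih =>
    rw [run_hst, List.map_append, List.mem_append, ih]
    have : b ∈ (rn place S j).map Prod.snd ↔ ct place S b j ≠ 0 := by
      unfold ct; rw [← List.count_pos_iff]; omega
    rw [this]
    constructor
    · rintro (⟨i, hi, h⟩ | h)
      · exact ⟨i, by omega, h⟩
      · exact ⟨j, by omega, h⟩
    · rintro ⟨i, hi, h⟩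
      by_cases e : i = j
      · subst e; exact Or.inr h
      · exact Or.inl ⟨i, by omega, h⟩

/-- number of the items in a set of bins containing all used ones -/
theorem sum_count_eq_length {P : List (ℝ × Bin)} {U : Finset Bin}
    (hU : (P.map Prod.snd).toFinset ⊆ U) :
    ∑ b ∈ U, ((P.map Prod.snd).count b) = P.length := by
  induction P with
  | nil => simp
  | cons q P ih =>
    have h1 : (P.map Prod.snd).toFinset ⊆ U := by
      intro x hx; apply hU; simp only [List.map_cons, List.toFinset_cons, Finset.mem_insert]; right; exact hx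
    have h2 : q.2 ∈ U := hU (by simp)
    simp only [List.map_cons, List.count_cons, Finset.sum_add_distrib, ih h1, List.length_cons]
    congr 1
    have : ∀ b : Bin, (if (q.2 == b) = true then 1 else 0) = if q.2 = b then 1 else 0 := by
      intro b; by_cases h : q.2 = b <;> simp [h]
    rw [Finset.sum_congr rfl (fun b _ => this b), Finset.sum_ite_eq, if_pos h2]

/-- the cost as a sum over a set of bins containing all used ones -/
theorem cost_eq_sum {α : ℝ} {P : List (ℝ × Bin)} {U : Finset Bin}
    (hU : (P.map Prod.snd).toFinset ⊆ U) (f : Bin → ℕ)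
    (hf : ∀ b, f b = if b ∈ P.map Prod.snd then 1 else 0) :
    cost α P = ∑ b ∈ U, bsize α b * (f b : ℝ) := by
  unfold cost
  rw [← Finset.sum_subset hU (f := fun b => bsize α b * (f b : ℝ))]
  · apply Finset.sum_congr rfl
    intro b hb
    rw [hf b, if_pos (List.mem_toFinset.1 hb)]; simp
  · intro x _ hx
    rw [hf x, if_neg (fun h => hx (List.mem_toFinset.2 h))]; simp

end VB85
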