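import Pool.Agent.LibVB85.Inst

/-! Upper bounds for the optimum by patterns: the pattern lemma. -/

namespace VB85

private theorem p1_sum_range (n : ℕ) (f : ℕ → ℕ) :
    ((List.range n).map f).sum = ∑ i ∈ Finset.range n, f i := by
  induction n with
  | zero => simp
  | succ n ih => rw [List.range_succ, List.map_append, List.sum_append, ih, Finset.sum_range_succ]; simp

private def p1_slots (K : ℕ) (ty : ℕ → Bool) (cnt : ℕ → ℕ → ℕ) (mult : ℕ → ℕ) (j : ℕ) : List Bin :=
  (List.range K).flatMap fun i => (List.range (mult i)).flatMap fun r =>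
    List.replicate (cnt i j) (ty i, Nat.pair i r)

private theorem p1_length (K : ℕ) (ty : ℕ → Bool) (cnt : ℕ → ℕ → ℕ) (mult : ℕ → ℕ) (j : ℕ) :
    (p1_slots K ty cnt mult j).length = ∑ i ∈ Finset.range K, mult i * cnt i j := by
  unfold p1_slots
  rw [List.length_flatMap, p1_sum_range]
  refine Finset.sum_congr rfl (fun i _ => ?_)
  rw [List.length_flatMap, p1_sum_range]
  simp

private theorem p1_mem {K : ℕ} {ty : ℕ → Bool} {cnt : ℕ → ℕ → ℕ} {mult : ℕ → ℕ} {j : ℕ} {b : Bin}
    (h : b ∈ p1_slots K ty cnt mult j) : ∃ i < K, ∃ r < mult i, b = (ty i, Nat.pair i r) := by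
  unfold p1_slots at h
  rw [List.mem_flatMap] at h
  obtain ⟨i, hi, h⟩ := h
  rw [List.mem_flatMap] at h
  obtain ⟨r, hr, h⟩ := h
  exact ⟨i, List.mem_range.1 hi, r, List.mem_range.1 hr, List.eq_of_mem_replicate h⟩

private theorem p1_count_le (K : ℕ) (ty : ℕ → Bool) (cnt : ℕ → ℕ → ℕ) (mult : ℕ → ℕ) (j : ℕ)
    (i0 r0 : ℕ) (t : Bool) :
    (p1_slots K ty cnt mult j).count (t, Nat.pair i0 r0) ≤ cnt i0 j := by
  unfold p1_slots
  rw [List.count_flatMap, p1_sum_range]
  have h1 : ∀ i ∈ Finset.range K, i ≠ i0 →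
      (List.count (t, Nat.pair i0 r0) ∘ fun i => (List.range (mult i)).flatMap fun r =>
        List.replicate (cnt i j) (ty i, Nat.pair i r)) i = 0 := by
    intro i _ hi
    rw [Function.comp_apply, List.count_eq_zero]
    intro hmem
    rw [List.mem_flatMap] at hmem
    obtain ⟨r, _, h⟩ := hmem
    have h2 := List.eq_of_mem_replicate h
    rw [Prod.mk.injEq, Nat.pair_eq_pair] at h2
    exact hi h2.2.1.symm
  have h2 : ∑ i ∈ Finset.range K, (List.count (t, Nat.pair i0 r0) ∘ fun i =>
      (List.range (mult i)).flatMap fun r => List.replicate (cnt i j) (ty i, Nat.pair i r)) i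
      ≤ (List.count (t, Nat.pair i0 r0) ∘ fun i =>
      (List.range (mult i)).flatMap fun r => List.replicate (cnt i j) (ty i, Nat.pair i r)) i0 := by
    by_cases h0 : i0 ∈ Finset.range K
    · rw [Finset.sum_eq_single_of_mem i0 h0 (fun i hi hne => h1 i hi hne)]
    · rw [Finset.sum_eq_zero (fun i hi => h1 i hi (fun e => h0 (e ▸ hi)))]
      exact Nat.zero_le _
  refine h2.trans ?_
  rw [Function.comp_apply, List.count_flatMap, p1_sum_range]
  have h3 : ∀ r ∈ Finset.range (mult i0), r ≠ r0 →
      (List.count (t, Nat.pair i0 r0) ∘ fun r => List.replicate (cnt i0 j) (ty i0, Nat.pair i0 r)) r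
        = 0 := by
    intro r _ hr
    rw [Function.comp_apply, List.count_eq_zero]
    intro h
    have h2 := List.eq_of_mem_replicate h
    rw [Prod.mk.injEq, Nat.pair_eq_pair] at h2
    exact hr h2.2.2.symm
  have h4 : (List.count (t, Nat.pair i0 r0) ∘ fun r =>
      List.replicate (cnt i0 j) (ty i0, Nat.pair i0 r)) r0 ≤ cnt i0 j := by
    rw [Function.comp_apply]
    exact List.count_le_length.trans (by simp)
  by_cases h0 : r0 ∈ Finset.range (mult i0)
  · rw [Finset.sum_eq_single_of_mem r0 h0 (fun r hr hne => h3 r hr hne)]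
    exact h4
  · rw [Finset.sum_eq_zero (fun r hr => h3 r hr (fun e => h0 (e ▸ hr)))]
    exact Nat.zero_le _

private theorem p1_zip_count (b : Bin) : ∀ (B : List ℝ) (S : List Bin),
    ((B.zip S).map Prod.snd).count b ≤ S.count b := by
  intro B
  induction B with
  | nil => intro S; simp
  | cons a B ih =>
    intro S
    cases S with
    | nil => simp
    | cons s S =>
      rw [List.zip_cons_cons, List.map_cons, List.count_cons, List.count_cons]
      have := ih S
      simp only
      omega

private theorem p1_load_flatMap (T : ℕ) (f : ℕ → List (ℝ × Bin)) (b : Bin) :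
    load ((List.range T).flatMap f) b = ∑ j ∈ Finset.range T, load (f j) b := by
  induction T with
  | zero => simp [load]
  | succ T ih =>
    rw [List.range_succ, List.flatMap_append, load_append, ih, Finset.sum_range_succ]
    simp

/-- **Pattern lemma.** Types `j < T` with items `B j`, all of size at most `u j`; patterns `i < K`
(bin type `ty i`, `cnt i j` slots for items of type `j`) used `mult i` times.
Proof: `slots j = (List.range K).flatMap fun i => (List.range (mult i)).flatMap fun r =>
List.replicate (cnt i j) (ty i, Nat.pair i r)` has length `∑ i, mult i * cnt i j ≥ (B j).length`; take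
`P = (List.range T).flatMap fun j => (B j).zip (slots j)`. -/
theorem opt_patterns {α : ℝ} (h0 : 0 < α) (T K : ℕ) (B : ℕ → List ℝ) (u : ℕ → ℝ)
    (hu0 : ∀ j < T, 0 ≤ u j) (hu : ∀ j < T, ∀ a ∈ B j, a ≤ u j)
    (ty : ℕ → Bool) (cnt : ℕ → ℕ → ℕ) (mult : ℕ → ℕ)
    (hfit : ∀ i < K, ∑ j ∈ Finset.range T, (cnt i j : ℝ) * u j ≤ bs α (ty i))
    (hcov : ∀ j < T, (B j).length ≤ ∑ i ∈ Finset.range K, mult i * cnt i j) :
    optCost α ((List.range T).flatMap B) ≤ ∑ i ∈ Finset.range K, (mult i : ℝ) * bs α (ty i) := by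
  classical
  set S : ℕ → List Bin := p1_slots K ty cnt mult with hS
  set P : List (ℝ × Bin) := (List.range T).flatMap (fun j => (B j).zip (S j)) with hP
  set U : Finset Bin := (Finset.range K).biUnion
    (fun i => (Finset.range (mult i)).image (fun r => (ty i, Nat.pair i r))) with hU
  have hmapfst : P.map Prod.fst = (List.range T).flatMap B := by
    rw [hP, List.map_flatMap]
    refine List.flatMap_congr (fun j hj => ?_)
    rw [List.map_fst_zip]
    rw [hS, p1_length]
    exact hcov j (List.mem_range.1 hj)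
  have hmemP : ∀ b ∈ P.map Prod.snd, ∃ j < T, b ∈ S j := by
    intro b hb
    rw [List.mem_map] at hb
    obtain ⟨q, hq, rfl⟩ := hb
    rw [hP, List.mem_flatMap] at hq
    obtain ⟨j, hj, hq⟩ := hq
    exact ⟨j, List.mem_range.1 hj, (List.of_mem_zip (a := q.1) (b := q.2) hq).2⟩
  have hsub : (P.map Prod.snd).toFinset ⊆ U := by
    intro b hb
    rw [List.mem_toFinset] at hb
    obtain ⟨j, _, hb⟩ := hmemP b hb
    obtain ⟨i, hi, r, hr, rfl⟩ := p1_mem hb
    rw [hU, Finset.mem_biUnion]
    exact ⟨i, Finset.mem_range.2 hi, Finset.mem_image.2 ⟨r, Finset.mem_range.2 hr, rfl⟩⟩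
  have hload : ∀ b, load P b ≤ bsize α b := by
    intro b
    by_cases hb : b ∈ P.map Prod.snd
    · obtain ⟨j, _, hbj⟩ := hmemP b hb
      obtain ⟨i, hi, r, hr, rfl⟩ := p1_mem hbj
      rw [hP, p1_load_flatMap]
      refine le_trans (Finset.sum_le_sum (fun j hj => ?_)) (hfit i hi)
      have hj' := Finset.mem_range.1 hj
      have h1 : load ((B j).zip (S j)) (ty i, Nat.pair i r)
          ≤ u j * (((B j).zip (S j)).map Prod.snd).count (ty i, Nat.pair i r) :=
        load_le_mul_count (fun q hq => hu j hj' _ (List.of_mem_zip (a := q.1) (b := q.2) hq).1) _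
      refine h1.trans ?_
      rw [mul_comm]
      refine mul_le_mul_of_nonneg_right ?_ (hu0 j hj')
      have h2 := (p1_zip_count (ty i, Nat.pair i r) (B j) (S j)).trans
        (p1_count_le K ty cnt mult j i r (ty i))
      exact_mod_cast h2
    · rw [load_of_not_mem hb]
      exact (bsize_pos h0 b).le
  have hpack : IsPacking α ((List.range T).flatMap B) P := ⟨by rw [hmapfst], hload⟩
  refine (optCost_le h0 hpack).trans ?_
  unfold cost
  refine (Finset.sum_le_sum_of_subset_of_nonneg hsub (fun b _ _ => (bsize_pos h0 b).le)).trans ?_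
  rw [hU, Finset.sum_biUnion]
  · refine Finset.sum_le_sum (fun i _ => ?_)
    rw [Finset.sum_image]
    · simp only [bs_eq]
      rw [Finset.sum_const, Finset.card_range, nsmul_eq_mul]
    · intro r _ r' _ h
      have h1 : (ty i, Nat.pair i r) = (ty i, Nat.pair i r') := h
      rw [Prod.mk.injEq, Nat.pair_eq_pair] at h1
      exact h1.2.2
  · intro i _ i' _ hne
    rw [Function.onFun, Finset.disjoint_left]
    intro b hb hb'
    rw [Finset.mem_image] at hb hb'
    obtain ⟨r, _, rfl⟩ := hb
    obtain ⟨r', _, h⟩ := hb'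
    rw [Prod.mk.injEq, Nat.pair_eq_pair] at h
    exact hne h.2.1.symm

end VB85
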