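import Pool.Agent.LibVB85.Sound
import Pool.Agent.LibVB85.Cert1
import Pool.Agent.LibVB85.Cert2
import Pool.Agent.LibVB85.Cert3
import Pool.Agent.LibVB85.Cert4
import Pool.Agent.LibVB85.Cert5
import Pool.Agent.LibVB85.Cert6
import Pool.Agent.LibVB85.Cert7
import Pool.Agent.LibVB85.Cert8
import Pool.Agent.LibVB85.Cert9

/-! The lower bounds on all intervals of bin sizes. -/

namespace VB85

theorem r0 {α : ℝ} (h0 : 0 < α) (h1 : α < 1) (ha : (0 : ℝ) ≤ α) (hb : α ≤ (1 : ℝ) / 7) :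
    ENNReal.ofReal 1.3754 ≤ Rstar α := by
  have h := interval_sound c0 _ chk0 h0 h1 (by norm_num [c0]; linarith) (by norm_num [c0]; linarith)
  have e : (((6877 : ℕ) : ℝ) / ((5000 : ℕ) : ℝ)) = 1.3754 := by norm_num
  rwa [e] at h

theorem r1 {α : ℝ} (h0 : 0 < α) (h1 : α < 1) (ha : (1 : ℝ) / 7 ≤ α) (hb : α ≤ (2529 : ℝ) / 10000) :
    ENNReal.ofReal 1.3754 ≤ Rstar α := by
  have h := interval_sound c1 _ chk1 h0 h1 (by norm_num [c1]; linarith) (by norm_num [c1]; linarith)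
  have e : (((6877 : ℕ) : ℝ) / ((5000 : ℕ) : ℝ)) = 1.3754 := by norm_num
  rwa [e] at h

theorem r2 {α : ℝ} (h0 : 0 < α) (h1 : α < 1) (ha : (2529 : ℝ) / 10000 ≤ α) (hb : α ≤ (743 : ℝ) / 2000) :
    ENNReal.ofReal 1.3754 ≤ Rstar α := by
  have h := interval_sound c2 _ chk2 h0 h1 (by norm_num [c2]; linarith) (by norm_num [c2]; linarith)
  have e : (((6877 : ℕ) : ℝ) / ((5000 : ℕ) : ℝ)) = 1.3754 := by norm_num
  rwa [e] at h

theorem r3 {α : ℝ} (h0 : 0 < α) (h1 : α < 1) (ha : (743 : ℝ) / 2000 ≤ α) (hb : α ≤ (2307 : ℝ) / 5000) :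
    ENNReal.ofReal 1.3754 ≤ Rstar α := by
  have h := interval_sound c3 _ chk3 h0 h1 (by norm_num [c3]; linarith) (by norm_num [c3]; linarith)
  have e : (((6877 : ℕ) : ℝ) / ((5000 : ℕ) : ℝ)) = 1.3754 := by norm_num
  rwa [e] at h

theorem r4 {α : ℝ} (h0 : 0 < α) (h1 : α < 1) (ha : (2307 : ℝ) / 5000 ≤ α) (hb : α ≤ (1 : ℝ) / 2) :
    ENNReal.ofReal 1.3754 ≤ Rstar α := by
  have h := interval_sound c4 _ chk4 h0 h1 (by norm_num [c4]; linarith) (by norm_num [c4]; linarith)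
  have e : (((6877 : ℕ) : ℝ) / ((5000 : ℕ) : ℝ)) = 1.3754 := by norm_num
  rwa [e] at h

theorem r5 {α : ℝ} (h0 : 0 < α) (h1 : α < 1) (ha : (1 : ℝ) / 2 ≤ α) (hb : α ≤ (261 : ℝ) / 500) :
    ENNReal.ofReal 1.3754 ≤ Rstar α := by
  have h := interval_sound c5 _ chk5 h0 h1 (by norm_num [c5]; linarith) (by norm_num [c5]; linarith)
  have e : (((6877 : ℕ) : ℝ) / ((5000 : ℕ) : ℝ)) = 1.3754 := by norm_num
  rwa [e] at h

theorem r6 {α : ℝ} (h0 : 0 < α) (h1 : α < 1) (ha : (261 : ℝ) / 500 ≤ α) (hb : α ≤ (713 : ℝ) / 1250) :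
    ENNReal.ofReal 1.3754 ≤ Rstar α := by
  have h := interval_sound c6 _ chk6 h0 h1 (by norm_num [c6]; linarith) (by norm_num [c6]; linarith)
  have e : (((6877 : ℕ) : ℝ) / ((5000 : ℕ) : ℝ)) = 1.3754 := by norm_num
  rwa [e] at h

theorem r7 {α : ℝ} (h0 : 0 < α) (h1 : α < 1) (ha : (713 : ℝ) / 1250 ≤ α) (hb : α ≤ (3211 : ℝ) / 5000) :
    ENNReal.ofReal 1.3754 ≤ Rstar α := by
  have h := interval_sound c7 _ chk7 h0 h1 (by norm_num [c7]; linarith) (by norm_num [c7]; linarith)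
  have e : (((6877 : ℕ) : ℝ) / ((5000 : ℕ) : ℝ)) = 1.3754 := by norm_num
  rwa [e] at h

theorem r8 {α : ℝ} (h0 : 0 < α) (h1 : α < 1) (ha : (3211 : ℝ) / 5000 ≤ α) (hb : α ≤ (3319 : ℝ) / 5000) :
    ENNReal.ofReal 1.3754 ≤ Rstar α := by
  have h := interval_sound c8 _ chk8 h0 h1 (by norm_num [c8]; linarith) (by norm_num [c8]; linarith)
  have e : (((6877 : ℕ) : ℝ) / ((5000 : ℕ) : ℝ)) = 1.3754 := by norm_num
  rwa [e] at h

theorem r9 {α : ℝ} (h0 : 0 < α) (h1 : α < 1) (ha : (3319 : ℝ) / 5000 ≤ α) (hb : α ≤ (673 : ℝ) / 1000) :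
    ENNReal.ofReal 1.3754 ≤ Rstar α := by
  have h := interval_sound c9 _ chk9 h0 h1 (by norm_num [c9]; linarith) (by norm_num [c9]; linarith)
  have e : (((6877 : ℕ) : ℝ) / ((5000 : ℕ) : ℝ)) = 1.3754 := by norm_num
  rwa [e] at h

theorem r10 {α : ℝ} (h0 : 0 < α) (h1 : α < 1) (ha : (673 : ℝ) / 1000 ≤ α) (hb : α ≤ (139 : ℝ) / 200) :
    ENNReal.ofReal 1.3424 ≤ Rstar α := by
  have h := interval_sound c10 _ chk10 h0 h1 (by norm_num [c10]; linarith) (by norm_num [c10]; linarith)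
  have e : (((839 : ℕ) : ℝ) / ((625 : ℕ) : ℝ)) = 1.3424 := by norm_num
  rwa [e] at h

theorem r11 {α : ℝ} (h0 : 0 < α) (h1 : α < 1) (ha : (139 : ℝ) / 200 ≤ α) (hb : α ≤ (2246 : ℝ) / 3125) :
    ENNReal.ofReal 1.3424 ≤ Rstar α := by
  have h := interval_sound c11 _ chk11 h0 h1 (by norm_num [c11]; linarith) (by norm_num [c11]; linarith)
  have e : (((839 : ℕ) : ℝ) / ((625 : ℕ) : ℝ)) = 1.3424 := by norm_num
  rwa [e] at h

theorem r12 {α : ℝ} (h0 : 0 < α) (h1 : α < 1) (ha : (2246 : ℝ) / 3125 ≤ α) (hb : α ≤ (72399 : ℝ) / 100000) :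
    ENNReal.ofReal 1.3424 ≤ Rstar α := by
  have h := interval_sound c12 _ chk12 h0 h1 (by norm_num [c12]; linarith) (by norm_num [c12]; linarith)
  have e : (((839 : ℕ) : ℝ) / ((625 : ℕ) : ℝ)) = 1.3424 := by norm_num
  rwa [e] at h

theorem r13 {α : ℝ} (h0 : 0 < α) (h1 : α < 1) (ha : (72399 : ℝ) / 100000 ≤ α) (hb : α ≤ (14499 : ℝ) / 20000) :
    ENNReal.ofReal 1.3424 ≤ Rstar α := by
  have h := interval_sound c13 _ chk13 h0 h1 (by norm_num [c13]; linarith) (by norm_num [c13]; linarith)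
  have e : (((839 : ℕ) : ℝ) / ((625 : ℕ) : ℝ)) = 1.3424 := by norm_num
  rwa [e] at h

theorem r14 {α : ℝ} (h0 : 0 < α) (h1 : α < 1) (ha : (14499 : ℝ) / 20000 ≤ α) (hb : α ≤ (14509 : ℝ) / 20000) :
    ENNReal.ofReal 1.3424 ≤ Rstar α := by
  have h := interval_sound c14 _ chk14 h0 h1 (by norm_num [c14]; linarith) (by norm_num [c14]; linarith)
  have e : (((839 : ℕ) : ℝ) / ((625 : ℕ) : ℝ)) = 1.3424 := by norm_num
  rwa [e] at h

theorem r15 {α : ℝ} (h0 : 0 < α) (h1 : α < 1) (ha : (14509 : ℝ) / 20000 ≤ α) (hb : α ≤ (36279 : ℝ) / 50000) :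
    ENNReal.ofReal 1.3424 ≤ Rstar α := by
  have h := interval_sound c15 _ chk15 h0 h1 (by norm_num [c15]; linarith) (by norm_num [c15]; linarith)
  have e : (((839 : ℕ) : ℝ) / ((625 : ℕ) : ℝ)) = 1.3424 := by norm_num
  rwa [e] at h

theorem r16 {α : ℝ} (h0 : 0 < α) (h1 : α < 1) (ha : (36279 : ℝ) / 50000 ≤ α) (hb : α ≤ (36289 : ℝ) / 50000) :
    ENNReal.ofReal 1.3424 ≤ Rstar α := by
  have h := interval_sound c16 _ chk16 h0 h1 (by norm_num [c16]; linarith) (by norm_num [c16]; linarith)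
  have e : (((839 : ℕ) : ℝ) / ((625 : ℕ) : ℝ)) = 1.3424 := by norm_num
  rwa [e] at h

theorem r17 {α : ℝ} (h0 : 0 < α) (h1 : α < 1) (ha : (36289 : ℝ) / 50000 ≤ α) (hb : α ≤ (36291 : ℝ) / 50000) :
    ENNReal.ofReal 1.3424 ≤ Rstar α := by
  have h := interval_sound c17 _ chk17 h0 h1 (by norm_num [c17]; linarith) (by norm_num [c17]; linarith)
  have e : (((839 : ℕ) : ℝ) / ((625 : ℕ) : ℝ)) = 1.3424 := by norm_num
  rwa [e] at h

theorem r18 {α : ℝ} (h0 : 0 < α) (h1 : α < 1) (ha : (36291 : ℝ) / 50000 ≤ α) (hb : α ≤ (7259 : ℝ) / 10000) :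
    ENNReal.ofReal 1.3424 ≤ Rstar α := by
  have h := interval_sound c18 _ chk18 h0 h1 (by norm_num [c18]; linarith) (by norm_num [c18]; linarith)
  have e : (((839 : ℕ) : ℝ) / ((625 : ℕ) : ℝ)) = 1.3424 := by norm_num
  rwa [e] at h

theorem r19 {α : ℝ} (h0 : 0 < α) (h1 : α < 1) (ha : (7259 : ℝ) / 10000 ≤ α) (hb : α ≤ (2269 : ℝ) / 3125) :
    ENNReal.ofReal 1.3424 ≤ Rstar α := by
  have h := interval_sound c19 _ chk19 h0 h1 (by norm_num [c19]; linarith) (by norm_num [c19]; linarith)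
  have e : (((839 : ℕ) : ℝ) / ((625 : ℕ) : ℝ)) = 1.3424 := by norm_num
  rwa [e] at h

theorem r20 {α : ℝ} (h0 : 0 < α) (h1 : α < 1) (ha : (2269 : ℝ) / 3125 ≤ α) (hb : α ≤ (72647 : ℝ) / 100000) :
    ENNReal.ofReal 1.3424 ≤ Rstar α := by
  have h := interval_sound c20 _ chk20 h0 h1 (by norm_num [c20]; linarith) (by norm_num [c20]; linarith)
  have e : (((839 : ℕ) : ℝ) / ((625 : ℕ) : ℝ)) = 1.3424 := by norm_num
  rwa [e] at h

theorem r21 {α : ℝ} (h0 : 0 < α) (h1 : α < 1) (ha : (72647 : ℝ) / 100000 ≤ α) (hb : α ≤ (72707 : ℝ) / 100000) :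
    ENNReal.ofReal 1.3424 ≤ Rstar α := by
  have h := interval_sound c21 _ chk21 h0 h1 (by norm_num [c21]; linarith) (by norm_num [c21]; linarith)
  have e : (((839 : ℕ) : ℝ) / ((625 : ℕ) : ℝ)) = 1.3424 := by norm_num
  rwa [e] at h

theorem r22 {α : ℝ} (h0 : 0 < α) (h1 : α < 1) (ha : (72707 : ℝ) / 100000 ≤ α) (hb : α ≤ (72799 : ℝ) / 100000) :
    ENNReal.ofReal 1.3424 ≤ Rstar α := by
  have h := interval_sound c22 _ chk22 h0 h1 (by norm_num [c22]; linarith) (by norm_num [c22]; linarith)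
  have e : (((839 : ℕ) : ℝ) / ((625 : ℕ) : ℝ)) = 1.3424 := by norm_num
  rwa [e] at h

theorem r23 {α : ℝ} (h0 : 0 < α) (h1 : α < 1) (ha : (72799 : ℝ) / 100000 ≤ α) (hb : α ≤ (36501 : ℝ) / 50000) :
    ENNReal.ofReal 1.3424 ≤ Rstar α := by
  have h := interval_sound c23 _ chk23 h0 h1 (by norm_num [c23]; linarith) (by norm_num [c23]; linarith)
  have e : (((839 : ℕ) : ℝ) / ((625 : ℕ) : ℝ)) = 1.3424 := by norm_num
  rwa [e] at h

theorem r24 {α : ℝ} (h0 : 0 < α) (h1 : α < 1) (ha : (36501 : ℝ) / 50000 ≤ α) (hb : α ≤ (36657 : ℝ) / 50000) :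
    ENNReal.ofReal 1.3424 ≤ Rstar α := by
  have h := interval_sound c24 _ chk24 h0 h1 (by norm_num [c24]; linarith) (by norm_num [c24]; linarith)
  have e : (((839 : ℕ) : ℝ) / ((625 : ℕ) : ℝ)) = 1.3424 := by norm_num
  rwa [e] at h

theorem r25 {α : ℝ} (h0 : 0 < α) (h1 : α < 1) (ha : (36657 : ℝ) / 50000 ≤ α) (hb : α ≤ (36897 : ℝ) / 50000) :
    ENNReal.ofReal 1.3424 ≤ Rstar α := by
  have h := interval_sound c25 _ chk25 h0 h1 (by norm_num [c25]; linarith) (by norm_num [c25]; linarith)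
  have e : (((839 : ℕ) : ℝ) / ((625 : ℕ) : ℝ)) = 1.3424 := by norm_num
  rwa [e] at h

theorem r26 {α : ℝ} (h0 : 0 < α) (h1 : α < 1) (ha : (36897 : ℝ) / 50000 ≤ α) (hb : α ≤ (37267 : ℝ) / 50000) :
    ENNReal.ofReal 1.3424 ≤ Rstar α := by
  have h := interval_sound c26 _ chk26 h0 h1 (by norm_num [c26]; linarith) (by norm_num [c26]; linarith)
  have e : (((839 : ℕ) : ℝ) / ((625 : ℕ) : ℝ)) = 1.3424 := by norm_num
  rwa [e] at h

theorem r27 {α : ℝ} (h0 : 0 < α) (h1 : α < 1) (ha : (37267 : ℝ) / 50000 ≤ α) (hb : α ≤ (7501 : ℝ) / 10000) :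
    ENNReal.ofReal 1.3424 ≤ Rstar α := by
  have h := interval_sound c27 _ chk27 h0 h1 (by norm_num [c27]; linarith) (by norm_num [c27]; linarith)
  have e : (((839 : ℕ) : ℝ) / ((625 : ℕ) : ℝ)) = 1.3424 := by norm_num
  rwa [e] at h

theorem r28 {α : ℝ} (h0 : 0 < α) (h1 : α < 1) (ha : (7501 : ℝ) / 10000 ≤ α) (hb : α ≤ (7567 : ℝ) / 10000) :
    ENNReal.ofReal 1.3754 ≤ Rstar α := by
  have h := interval_sound c28 _ chk28 h0 h1 (by norm_num [c28]; linarith) (by norm_num [c28]; linarith)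
  have e : (((6877 : ℕ) : ℝ) / ((5000 : ℕ) : ℝ)) = 1.3754 := by norm_num
  rwa [e] at h

theorem r29 {α : ℝ} (h0 : 0 < α) (h1 : α < 1) (ha : (7567 : ℝ) / 10000 ≤ α) (hb : α ≤ (3819 : ℝ) / 5000) :
    ENNReal.ofReal 1.3754 ≤ Rstar α := by
  have h := interval_sound c29 _ chk29 h0 h1 (by norm_num [c29]; linarith) (by norm_num [c29]; linarith)
  have e : (((6877 : ℕ) : ℝ) / ((5000 : ℕ) : ℝ)) = 1.3754 := by norm_num
  rwa [e] at h

theorem r30 {α : ℝ} (h0 : 0 < α) (h1 : α < 1) (ha : (3819 : ℝ) / 5000 ≤ α) (hb : α ≤ (1919 : ℝ) / 2500) :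
    ENNReal.ofReal 1.3754 ≤ Rstar α := by
  have h := interval_sound c30 _ chk30 h0 h1 (by norm_num [c30]; linarith) (by norm_num [c30]; linarith)
  have e : (((6877 : ℕ) : ℝ) / ((5000 : ℕ) : ℝ)) = 1.3754 := by norm_num
  rwa [e] at h

theorem r31 {α : ℝ} (h0 : 0 < α) (h1 : α < 1) (ha : (1919 : ℝ) / 2500 ≤ α) (hb : α ≤ (7717 : ℝ) / 10000) :
    ENNReal.ofReal 1.3754 ≤ Rstar α := by
  have h := interval_sound c31 _ chk31 h0 h1 (by norm_num [c31]; linarith) (by norm_num [c31]; linarith)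
  have e : (((6877 : ℕ) : ℝ) / ((5000 : ℕ) : ℝ)) = 1.3754 := by norm_num
  rwa [e] at h

theorem r32 {α : ℝ} (h0 : 0 < α) (h1 : α < 1) (ha : (7717 : ℝ) / 10000 ≤ α) (hb : α ≤ (3903 : ℝ) / 5000) :
    ENNReal.ofReal 1.3754 ≤ Rstar α := by
  have h := interval_sound c32 _ chk32 h0 h1 (by norm_num [c32]; linarith) (by norm_num [c32]; linarith)
  have e : (((6877 : ℕ) : ℝ) / ((5000 : ℕ) : ℝ)) = 1.3754 := by norm_num
  rwa [e] at h

theorem r33 {α : ℝ} (h0 : 0 < α) (h1 : α < 1) (ha : (3903 : ℝ) / 5000 ≤ α) (hb : α ≤ (3951 : ℝ) / 5000) :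
    ENNReal.ofReal 1.3754 ≤ Rstar α := by
  have h := interval_sound c33 _ chk33 h0 h1 (by norm_num [c33]; linarith) (by norm_num [c33]; linarith)
  have e : (((6877 : ℕ) : ℝ) / ((5000 : ℕ) : ℝ)) = 1.3754 := by norm_num
  rwa [e] at h

theorem r34 {α : ℝ} (h0 : 0 < α) (h1 : α < 1) (ha : (3951 : ℝ) / 5000 ≤ α) (hb : α ≤ (161 : ℝ) / 200) :
    ENNReal.ofReal 1.3754 ≤ Rstar α := by
  have h := interval_sound c34 _ chk34 h0 h1 (by norm_num [c34]; linarith) (by norm_num [c34]; linarith)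
  have e : (((6877 : ℕ) : ℝ) / ((5000 : ℕ) : ℝ)) = 1.3754 := by norm_num
  rwa [e] at h

theorem r35 {α : ℝ} (h0 : 0 < α) (h1 : α < 1) (ha : (161 : ℝ) / 200 ≤ α) (hb : α ≤ (821 : ℝ) / 1000) :
    ENNReal.ofReal 1.3754 ≤ Rstar α := by
  have h := interval_sound c35 _ chk35 h0 h1 (by norm_num [c35]; linarith) (by norm_num [c35]; linarith)
  have e : (((6877 : ℕ) : ℝ) / ((5000 : ℕ) : ℝ)) = 1.3754 := by norm_num
  rwa [e] at h

theorem r36 {α : ℝ} (h0 : 0 < α) (h1 : α < 1) (ha : (821 : ℝ) / 1000 ≤ α) (hb : α ≤ (4191 : ℝ) / 5000) :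
    ENNReal.ofReal 1.3754 ≤ Rstar α := by
  have h := interval_sound c36 _ chk36 h0 h1 (by norm_num [c36]; linarith) (by norm_num [c36]; linarith)
  have e : (((6877 : ℕ) : ℝ) / ((5000 : ℕ) : ℝ)) = 1.3754 := by norm_num
  rwa [e] at h

theorem r37 {α : ℝ} (h0 : 0 < α) (h1 : α < 1) (ha : (4191 : ℝ) / 5000 ≤ α) (hb : α ≤ (532 : ℝ) / 625) :
    ENNReal.ofReal 1.3754 ≤ Rstar α := by
  have h := interval_sound c37 _ chk37 h0 h1 (by norm_num [c37]; linarith) (by norm_num [c37]; linarith)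
  have e : (((6877 : ℕ) : ℝ) / ((5000 : ℕ) : ℝ)) = 1.3754 := by norm_num
  rwa [e] at h

theorem r38 {α : ℝ} (h0 : 0 < α) (h1 : α < 1) (ha : (532 : ℝ) / 625 ≤ α) (hb : α ≤ (2163 : ℝ) / 2500) :
    ENNReal.ofReal 1.3754 ≤ Rstar α := by
  have h := interval_sound c38 _ chk38 h0 h1 (by norm_num [c38]; linarith) (by norm_num [c38]; linarith)
  have e : (((6877 : ℕ) : ℝ) / ((5000 : ℕ) : ℝ)) = 1.3754 := by norm_num
  rwa [e] at h

theorem r39 {α : ℝ} (h0 : 0 < α) (h1 : α < 1) (ha : (2163 : ℝ) / 2500 ≤ α) (hb : α ≤ (8867 : ℝ) / 10000) :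
    ENNReal.ofReal 1.3754 ≤ Rstar α := by
  have h := interval_sound c39 _ chk39 h0 h1 (by norm_num [c39]; linarith) (by norm_num [c39]; linarith)
  have e : (((6877 : ℕ) : ℝ) / ((5000 : ℕ) : ℝ)) = 1.3754 := by norm_num
  rwa [e] at h

theorem r40 {α : ℝ} (h0 : 0 < α) (h1 : α < 1) (ha : (8867 : ℝ) / 10000 ≤ α) (hb : α ≤ (9 : ℝ) / 10) :
    ENNReal.ofReal 1.3754 ≤ Rstar α := by
  have h := interval_sound c40 _ chk40 h0 h1 (by norm_num [c40]; linarith) (by norm_num [c40]; linarith)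
  have e : (((6877 : ℕ) : ℝ) / ((5000 : ℕ) : ℝ)) = 1.3754 := by norm_num
  rwa [e] at h

theorem r41 {α : ℝ} (h0 : 0 < α) (h1 : α < 1) (ha : (9 : ℝ) / 10 ≤ α) (hb : α ≤ (1 : ℝ)) :
    ENNReal.ofReal 1.3754 ≤ Rstar α := by
  have h := interval_sound c41 _ chk41 h0 h1 (by norm_num [c41]; linarith) (by norm_num [c41]; linarith)
  have e : (((6877 : ℕ) : ℝ) / ((5000 : ℕ) : ℝ)) = 1.3754 := by norm_num
  rwa [e] at h

/-- all sizes up to `0.673` -/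
theorem low_range {α : ℝ} (h0 : 0 < α) (h1 : α < 1) (hb : α ≤ (673 : ℝ) / 1000) :
    ENNReal.ofReal 1.3754 ≤ Rstar α := by
  by_cases g0 : α ≤ (1 : ℝ) / 7
  · exact r0 h0 h1 h0.le g0
  have g0' := (not_le.1 g0).le
  by_cases g1 : α ≤ (2529 : ℝ) / 10000
  · exact r1 h0 h1 g0' g1
  have g1' := (not_le.1 g1).le
  by_cases g2 : α ≤ (743 : ℝ) / 2000
  · exact r2 h0 h1 g1' g2
  have g2' := (not_le.1 g2).le
  by_cases g3 : α ≤ (2307 : ℝ) / 5000
  · exact r3 h0 h1 g2' g3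
  have g3' := (not_le.1 g3).le
  by_cases g4 : α ≤ (1 : ℝ) / 2
  · exact r4 h0 h1 g3' g4
  have g4' := (not_le.1 g4).le
  by_cases g5 : α ≤ (261 : ℝ) / 500
  · exact r5 h0 h1 g4' g5
  have g5' := (not_le.1 g5).le
  by_cases g6 : α ≤ (713 : ℝ) / 1250
  · exact r6 h0 h1 g5' g6
  have g6' := (not_le.1 g6).le
  by_cases g7 : α ≤ (3211 : ℝ) / 5000
  · exact r7 h0 h1 g6' g7
  have g7' := (not_le.1 g7).le
  by_cases g8 : α ≤ (3319 : ℝ) / 5000
  · exact r8 h0 h1 g7' g8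
  have g8' := (not_le.1 g8).le
  exact r9 h0 h1 g8' hb

/-- all sizes between `0.673` and `0.7501` -/
theorem mid_range {α : ℝ} (h0 : 0 < α) (h1 : α < 1) (ha : (673 : ℝ) / 1000 ≤ α) (hb : α ≤ (7501 : ℝ) / 10000) :
    ENNReal.ofReal 1.3424 ≤ Rstar α := by
  by_cases g10 : α ≤ (139 : ℝ) / 200
  · exact r10 h0 h1 ha g10
  have g10' := (not_le.1 g10).le
  by_cases g11 : α ≤ (2246 : ℝ) / 3125
  · exact r11 h0 h1 g10' g11
  have g11' := (not_le.1 g11).le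
  by_cases g12 : α ≤ (72399 : ℝ) / 100000
  · exact r12 h0 h1 g11' g12
  have g12' := (not_le.1 g12).le
  by_cases g13 : α ≤ (14499 : ℝ) / 20000
  · exact r13 h0 h1 g12' g13
  have g13' := (not_le.1 g13).le
  by_cases g14 : α ≤ (14509 : ℝ) / 20000
  · exact r14 h0 h1 g13' g14
  have g14' := (not_le.1 g14).le
  by_cases g15 : α ≤ (36279 : ℝ) / 50000
  · exact r15 h0 h1 g14' g15
  have g15' := (not_le.1 g15).le
  by_cases g16 : α ≤ (36289 : ℝ) / 50000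
  · exact r16 h0 h1 g15' g16
  have g16' := (not_le.1 g16).le
  by_cases g17 : α ≤ (36291 : ℝ) / 50000
  · exact r17 h0 h1 g16' g17
  have g17' := (not_le.1 g17).le
  by_cases g18 : α ≤ (7259 : ℝ) / 10000
  · exact r18 h0 h1 g17' g18
  have g18' := (not_le.1 g18).le
  by_cases g19 : α ≤ (2269 : ℝ) / 3125
  · exact r19 h0 h1 g18' g19
  have g19' := (not_le.1 g19).le
  by_cases g20 : α ≤ (72647 : ℝ) / 100000
  · exact r20 h0 h1 g19' g20
  have g20' := (not_le.1 g20).le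
  by_cases g21 : α ≤ (72707 : ℝ) / 100000
  · exact r21 h0 h1 g20' g21
  have g21' := (not_le.1 g21).le
  by_cases g22 : α ≤ (72799 : ℝ) / 100000
  · exact r22 h0 h1 g21' g22
  have g22' := (not_le.1 g22).le
  by_cases g23 : α ≤ (36501 : ℝ) / 50000
  · exact r23 h0 h1 g22' g23
  have g23' := (not_le.1 g23).le
  by_cases g24 : α ≤ (36657 : ℝ) / 50000
  · exact r24 h0 h1 g23' g24
  have g24' := (not_le.1 g24).le
  by_cases g25 : α ≤ (36897 : ℝ) / 50000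
  · exact r25 h0 h1 g24' g25
  have g25' := (not_le.1 g25).le
  by_cases g26 : α ≤ (37267 : ℝ) / 50000
  · exact r26 h0 h1 g25' g26
  have g26' := (not_le.1 g26).le
  exact r27 h0 h1 g26' hb

/-- all sizes from `0.7501` -/
theorem high_range {α : ℝ} (h0 : 0 < α) (h1 : α < 1) (ha : (7501 : ℝ) / 10000 ≤ α) :
    ENNReal.ofReal 1.3754 ≤ Rstar α := by
  by_cases g28 : α ≤ (7567 : ℝ) / 10000
  · exact r28 h0 h1 ha g28
  have g28' := (not_le.1 g28).le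
  by_cases g29 : α ≤ (3819 : ℝ) / 5000
  · exact r29 h0 h1 g28' g29
  have g29' := (not_le.1 g29).le
  by_cases g30 : α ≤ (1919 : ℝ) / 2500
  · exact r30 h0 h1 g29' g30
  have g30' := (not_le.1 g30).le
  by_cases g31 : α ≤ (7717 : ℝ) / 10000
  · exact r31 h0 h1 g30' g31
  have g31' := (not_le.1 g31).le
  by_cases g32 : α ≤ (3903 : ℝ) / 5000
  · exact r32 h0 h1 g31' g32
  have g32' := (not_le.1 g32).le
  by_cases g33 : α ≤ (3951 : ℝ) / 5000
  · exact r33 h0 h1 g32' g33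
  have g33' := (not_le.1 g33).le
  by_cases g34 : α ≤ (161 : ℝ) / 200
  · exact r34 h0 h1 g33' g34
  have g34' := (not_le.1 g34).le
  by_cases g35 : α ≤ (821 : ℝ) / 1000
  · exact r35 h0 h1 g34' g35
  have g35' := (not_le.1 g35).le
  by_cases g36 : α ≤ (4191 : ℝ) / 5000
  · exact r36 h0 h1 g35' g36
  have g36' := (not_le.1 g36).le
  by_cases g37 : α ≤ (532 : ℝ) / 625
  · exact r37 h0 h1 g36' g37
  have g37' := (not_le.1 g37).le
  by_cases g38 : α ≤ (2163 : ℝ) / 2500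
  · exact r38 h0 h1 g37' g38
  have g38' := (not_le.1 g38).le
  by_cases g39 : α ≤ (8867 : ℝ) / 10000
  · exact r39 h0 h1 g38' g39
  have g39' := (not_le.1 g39).le
  by_cases g40 : α ≤ (9 : ℝ) / 10
  · exact r40 h0 h1 g39' g40
  have g40' := (not_le.1 g40).le
  exact r41 h0 h1 g40' (by linarith)

/-- `R^*(α) ≥ 1.3424` for all `α`. -/
theorem all_sizes {α : ℝ} (h0 : 0 < α) (h1 : α < 1) : ENNReal.ofReal 1.3424 ≤ Rstar α := by
  have e : ENNReal.ofReal 1.3424 ≤ ENNReal.ofReal 1.3754 := ENNReal.ofReal_le_ofReal (by norm_num)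
  by_cases g : α ≤ (673 : ℝ) / 1000
  · exact e.trans (low_range h0 h1 g)
  have g' := (not_le.1 g).le
  by_cases k : α ≤ (7501 : ℝ) / 10000
  · exact mid_range h0 h1 g' k
  · exact e.trans (high_range h0 h1 (not_le.1 k).le)

/-- `R^*(α) ≥ 1.3754` outside of `(0.673, 0.7501)`. -/
theorem far_sizes {α : ℝ} (h0 : 0 < α) (h1 : α < 1) (h : α ≤ 0.673 ∨ 0.7501 ≤ α) :
    ENNReal.ofReal 1.3754 ≤ Rstar α := by
  rcases h with h | h
  · exact low_range h0 h1 (by norm_num at h ⊢; linarith)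
  · exact high_range h0 h1 (by norm_num at h ⊢; linarith)

end VB85
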