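import Pool.Agent.LibVB85.SoundBase

/-! Soundness of `chkFin` and `chkCover`. -/

namespace VB85

private theorem sf_list (n : ℕ) (f : ℕ → ℤ) : ((List.range n).map f).sum = ∑ i ∈ Finset.range n, f i := by
  induction n with
  | zero => simp
  | succ n ih => rw [List.range_succ, List.map_append, List.sum_append, ih, Finset.sum_range_succ]; simp

/-- linear combination of sums -/
private theorem sf_comb (n : ℕ) (s K : ℝ) (a b : ℕ → ℝ) :
    ∑ i ∈ Finset.range n, ((1 - s) * a i + s * b i) / K =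
    ((1 - s) * ∑ i ∈ Finset.range n, a i + s * ∑ i ∈ Finset.range n, b i) / K := by
  rw [← Finset.sum_div, Finset.sum_add_distrib, ← Finset.mul_sum, ← Finset.mul_sum]

/-- `totalO` for the certificate, at the fraction `X / D` -/
theorem totalO_eq (C : CertD) (P : PieceD) (hM : 0 < C.M) (hst : 0 < C.st.length) (hD : 0 < P.D)
    (hDy : 0 < P.Dy) (s : ℝ) (X : ℕ) (pts : List (List Pat)) :
    totalO (C.alpha s) (C.inst s) (P.wts C.M s)
      (fun j => itp s (patCost C (P.pt.getD j [])) / ((C.M : ℝ) * (P.Dy : ℝ)))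
      (fun l => itp s (patCost C (P.pt0.getD l [])) / ((C.M : ℝ) * (P.Dy : ℝ)))
      (fun l => itp s (patCost C (pts.getD l [])) / ((C.M : ℝ) * (P.Dy : ℝ))) ((X : ℝ) / (P.D : ℝ)) =
    itp s (finO C P false X pts, finO C P true X pts) / ((C.M : ℝ) * (P.Dy : ℝ) * (P.D : ℝ)) := by
  have hM' : (C.M : ℝ) ≠ 0 := by exact_mod_cast hM.ne'
  have hD' : (P.D : ℝ) ≠ 0 := by exact_mod_cast hD.ne'
  have hDy' : (P.Dy : ℝ) ≠ 0 := by exact_mod_cast hDy.ne'
  have hm : (C.inst s).m + 1 = C.st.length := by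
    show C.st.length - 1 + 1 = C.st.length
    omega
  -- the leaf terms
  let gl : Bool → ℕ → ℝ := fun e l => ((P.lam'.getD l 0 : ℕ) : ℝ) *
      (match (C.leaf l).kind with
        | none => (pk e (patCost C (P.pt0.getD l [])) : ℝ) * P.D
        | some B => (pk e (C.cap B) : ℝ) * (((C.stage (C.st.length - 1)).2.2 : ℝ) * ((P.D : ℝ) - X)) * P.Dy
            + (pk e (patCost C (pts.getD l [])) : ℝ) * P.D)
  let gj : Bool → ℕ → ℝ := fun e j => ((P.lam.getD j 0 : ℕ) : ℝ) * (pk e (patCost C (P.pt.getD j [])) : ℝ)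
  have hfin : ∀ e, (finO C P e X pts : ℝ) = (∑ j ∈ Finset.range C.st.length, gj e j) * P.D
      + ∑ l ∈ Finset.range C.lf.length, gl e l := by
    intro e
    unfold finO
    dsimp only
    rw [sf_list, sf_list]
    push_cast
    congr 1
    refine Finset.sum_congr rfl (fun l _ => ?_)
    show _ = ((P.lam'.getD l 0 : ℕ) : ℝ) * _
    congr 1
    cases (C.leaf l).kind with
    | none => push_cast; ring
    | some B => push_cast; ring
  have h1 : ∑ j ∈ Finset.range ((C.inst s).m + 1), (P.wts C.M s).lam j *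
      (itp s (patCost C (P.pt.getD j [])) / ((C.M : ℝ) * (P.Dy : ℝ))) =
      ((1 - s) * ∑ j ∈ Finset.range C.st.length, gj false j + s * ∑ j ∈ Finset.range C.st.length, gj true j)
        / ((C.M : ℝ) * (P.Dy : ℝ)) := by
    rw [hm, ← sf_comb]
    refine Finset.sum_congr rfl (fun j _ => ?_)
    show ((P.lam.getD j 0 : ℕ) : ℝ) * _ = _
    show ((P.lam.getD j 0 : ℕ) : ℝ) * (((1 - s) * ((patCost C (P.pt.getD j [])).1 : ℝ)
      + s * ((patCost C (P.pt.getD j [])).2 : ℝ)) / ((C.M : ℝ) * (P.Dy : ℝ))) =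
      ((1 - s) * (((P.lam.getD j 0 : ℕ) : ℝ) * ((patCost C (P.pt.getD j [])).1 : ℝ))
      + s * (((P.lam.getD j 0 : ℕ) : ℝ) * ((patCost C (P.pt.getD j [])).2 : ℝ))) / ((C.M : ℝ) * (P.Dy : ℝ))
    ring
  have h2 : ∑ l ∈ Finset.range (C.inst s).nl, (P.wts C.M s).lam' l *
      (match (C.inst s).kind l with
        | none => itp s (patCost C (P.pt0.getD l [])) / ((C.M : ℝ) * (P.Dy : ℝ))
        | some B => bs (C.alpha s) B * (((C.inst s).n (C.inst s).m : ℝ) * (1 - (X : ℝ) / (P.D : ℝ)))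
            + itp s (patCost C (pts.getD l [])) / ((C.M : ℝ) * (P.Dy : ℝ))) =
      ((1 - s) * ∑ l ∈ Finset.range C.lf.length, gl false l + s * ∑ l ∈ Finset.range C.lf.length, gl true l)
        / ((C.M : ℝ) * (P.Dy : ℝ) * (P.D : ℝ)) := by
    rw [← sf_comb]
    refine Finset.sum_congr rfl (fun l _ => ?_)
    show ((P.lam'.getD l 0 : ℕ) : ℝ) * (match (C.leaf l).kind with
        | none => itp s (patCost C (P.pt0.getD l [])) / ((C.M : ℝ) * (P.Dy : ℝ))
        | some B => bs (C.alpha s) B * (((C.stage (C.st.length - 1)).2.2 : ℝ) * (1 - (X : ℝ) / (P.D : ℝ)))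
            + itp s (patCost C (pts.getD l [])) / ((C.M : ℝ) * (P.Dy : ℝ))) =
      ((1 - s) * (((P.lam'.getD l 0 : ℕ) : ℝ) *
      (match (C.leaf l).kind with
        | none => (pk false (patCost C (P.pt0.getD l [])) : ℝ) * P.D
        | some B => (pk false (C.cap B) : ℝ) * (((C.stage (C.st.length - 1)).2.2 : ℝ) * ((P.D : ℝ) - X)) * P.Dy
            + (pk false (patCost C (pts.getD l [])) : ℝ) * P.D)) + s * (((P.lam'.getD l 0 : ℕ) : ℝ) *
      (match (C.leaf l).kind with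
        | none => (pk true (patCost C (P.pt0.getD l [])) : ℝ) * P.D
        | some B => (pk true (C.cap B) : ℝ) * (((C.stage (C.st.length - 1)).2.2 : ℝ) * ((P.D : ℝ) - X)) * P.Dy
            + (pk true (patCost C (pts.getD l [])) : ℝ) * P.D))) / ((C.M : ℝ) * (P.Dy : ℝ) * (P.D : ℝ))
    cases (C.leaf l).kind with
    | none =>
      simp only [pk, itp]
      simp only [Bool.false_eq_true, if_false, if_true]
      field_simp
    | some B =>
      simp only [bs_cap C hM s B]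
      simp only [pk, itp]
      simp only [Bool.false_eq_true, if_false, if_true]
      field_simp
      ring
  have h3 : totalO (C.alpha s) (C.inst s) (P.wts C.M s)
      (fun j => itp s (patCost C (P.pt.getD j [])) / ((C.M : ℝ) * (P.Dy : ℝ)))
      (fun l => itp s (patCost C (P.pt0.getD l [])) / ((C.M : ℝ) * (P.Dy : ℝ)))
      (fun l => itp s (patCost C (pts.getD l [])) / ((C.M : ℝ) * (P.Dy : ℝ))) ((X : ℝ) / (P.D : ℝ)) =
      ∑ j ∈ Finset.range ((C.inst s).m + 1), (P.wts C.M s).lam j *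
      (itp s (patCost C (P.pt.getD j [])) / ((C.M : ℝ) * (P.Dy : ℝ))) +
      ∑ l ∈ Finset.range (C.inst s).nl, (P.wts C.M s).lam' l *
      (match (C.inst s).kind l with
        | none => itp s (patCost C (P.pt0.getD l [])) / ((C.M : ℝ) * (P.Dy : ℝ))
        | some B => bs (C.alpha s) B * (((C.inst s).n (C.inst s).m : ℝ) * (1 - (X : ℝ) / (P.D : ℝ)))
            + itp s (patCost C (pts.getD l [])) / ((C.M : ℝ) * (P.Dy : ℝ))) := rfl
  rw [h3, h1, h2]
  show _ = ((1 - s) * (finO C P false X pts : ℝ) + s * (finO C P true X pts : ℝ)) / _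
  rw [hfin false, hfin true]
  field_simp
  ring

/-- `totalW` for the certificate, at the fraction `X / D` -/
theorem totalW_eq (C : CertD) (P : PieceD) (hM : 0 < C.M) (hst : 0 < C.st.length) (hD : 0 < P.D)
    (hDy : 0 < P.Dy) (s : ℝ) (X : ℕ) :
    totalW (C.inst s) (P.wts C.M s) ((X : ℝ) / (P.D : ℝ)) =
    itp s (finW C P false X, finW C P true X) / ((C.M : ℝ) * (P.Dy : ℝ) * (P.D : ℝ)) := by
  have _ := hst
  have hM' : (C.M : ℝ) ≠ 0 := by exact_mod_cast hM.ne'
  have hD' : (P.D : ℝ) ≠ 0 := by exact_mod_cast hD.ne'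
  have hDy' : (P.Dy : ℝ) ≠ 0 := by exact_mod_cast hDy.ne'
  let gl : Bool → ℕ → ℝ := fun e l => (pk e (P.w'.getD l (0, 0)) : ℝ) *
      (match (C.leaf l).kind with
        | none => ((C.leaf l).n : ℝ) * P.D
        | some _ => ((C.stage (C.st.length - 1)).2.2 : ℝ) * ((P.D : ℝ) - X))
  let gj : Bool → ℕ → ℝ := fun e j => (pk e (P.w.getD j (0, 0)) : ℝ) * ((C.stage j).2.2 : ℝ)
  have hfin : ∀ e, (finW C P e X : ℝ) = (P.Dy : ℝ) * ((∑ j ∈ Finset.range (C.st.length - 1), gj e j) * P.D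
      + (pk e P.wS : ℝ) * (((C.stage (C.st.length - 1)).2.2 : ℝ) * ((P.D : ℝ) - X))
      + (pk e P.wL : ℝ) * (((C.stage (C.st.length - 1)).2.2 : ℝ) * X)
      + ∑ l ∈ Finset.range C.lf.length, gl e l) := by
    intro e
    unfold finW
    dsimp only
    rw [sf_list, sf_list]
    push_cast
    congr 2
    refine Finset.sum_congr rfl (fun l _ => ?_)
    show _ = (pk e (P.w'.getD l (0, 0)) : ℝ) * _
    congr 1
    cases (C.leaf l).kind with
    | none => push_cast; ring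
    | some B => push_cast; ring
  have h1 : ∑ j ∈ Finset.range (C.inst s).m, (P.wts C.M s).w j * ((C.inst s).n j : ℝ) =
      ((1 - s) * ∑ j ∈ Finset.range (C.st.length - 1), gj false j
        + s * ∑ j ∈ Finset.range (C.st.length - 1), gj true j) / (C.M : ℝ) := by
    rw [← sf_comb]
    refine Finset.sum_congr rfl (fun j _ => ?_)
    show ((1 - s) * ((P.w.getD j (0, 0)).1 : ℝ) + s * ((P.w.getD j (0, 0)).2 : ℝ)) / (C.M : ℝ) *
      ((C.stage j).2.2 : ℝ) = ((1 - s) * (((P.w.getD j (0, 0)).1 : ℝ) * ((C.stage j).2.2 : ℝ))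
      + s * (((P.w.getD j (0, 0)).2 : ℝ) * ((C.stage j).2.2 : ℝ))) / (C.M : ℝ)
    ring
  have h2 : ∑ l ∈ Finset.range (C.inst s).nl, (P.wts C.M s).w' l *
      (match (C.inst s).kind l with
        | none => ((C.inst s).nn l : ℝ)
        | some _ => ((C.inst s).n (C.inst s).m : ℝ) * (1 - (X : ℝ) / (P.D : ℝ))) =
      ((1 - s) * ∑ l ∈ Finset.range C.lf.length, gl false l + s * ∑ l ∈ Finset.range C.lf.length, gl true l)
        / ((C.M : ℝ) * (P.D : ℝ)) := by
    rw [← sf_comb]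
    refine Finset.sum_congr rfl (fun l _ => ?_)
    show ((1 - s) * ((P.w'.getD l (0, 0)).1 : ℝ) + s * ((P.w'.getD l (0, 0)).2 : ℝ)) / (C.M : ℝ) *
      (match (C.leaf l).kind with
        | none => ((C.leaf l).n : ℝ)
        | some _ => ((C.stage (C.st.length - 1)).2.2 : ℝ) * (1 - (X : ℝ) / (P.D : ℝ))) =
      ((1 - s) * (((P.w'.getD l (0, 0)).1 : ℝ) * (match (C.leaf l).kind with
        | none => ((C.leaf l).n : ℝ) * P.D
        | some _ => ((C.stage (C.st.length - 1)).2.2 : ℝ) * ((P.D : ℝ) - X)))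
      + s * (((P.w'.getD l (0, 0)).2 : ℝ) * (match (C.leaf l).kind with
        | none => ((C.leaf l).n : ℝ) * P.D
        | some _ => ((C.stage (C.st.length - 1)).2.2 : ℝ) * ((P.D : ℝ) - X)))) / ((C.M : ℝ) * (P.D : ℝ))
    cases (C.leaf l).kind with
    | none =>
      simp only []
      field_simp
    | some B =>
      simp only []
      field_simp
  have h3 : totalW (C.inst s) (P.wts C.M s) ((X : ℝ) / (P.D : ℝ)) =
      ∑ j ∈ Finset.range (C.inst s).m, (P.wts C.M s).w j * ((C.inst s).n j : ℝ)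
      + (((1 - s) * (P.wS.1 : ℝ) + s * (P.wS.2 : ℝ)) / (C.M : ℝ))
        * (((C.stage (C.st.length - 1)).2.2 : ℝ) * (1 - (X : ℝ) / (P.D : ℝ)))
      + (((1 - s) * (P.wL.1 : ℝ) + s * (P.wL.2 : ℝ)) / (C.M : ℝ))
        * (((C.stage (C.st.length - 1)).2.2 : ℝ) * ((X : ℝ) / (P.D : ℝ)))
      + ∑ l ∈ Finset.range (C.inst s).nl, (P.wts C.M s).w' l *
      (match (C.inst s).kind l with
        | none => ((C.inst s).nn l : ℝ)
        | some _ => ((C.inst s).n (C.inst s).m : ℝ) * (1 - (X : ℝ) / (P.D : ℝ))) := rfl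
  rw [h3, h1, h2]
  show _ = ((1 - s) * (finW C P false X : ℝ) + s * (finW C P true X : ℝ)) / _
  rw [hfin false, hfin true]
  simp only [pk, Bool.false_eq_true, if_false, if_true]
  field_simp
  ring

private theorem sf_lt (C : CertD) (P : PieceD) (hM : 0 < C.M) (hst : 0 < C.st.length) (hD : 0 < P.D)
    (hDy : 0 < P.Dy) {cn cd : ℕ} (hcd : 0 < cd) {s : ℝ} (hs0 : 0 ≤ s)
    (hs1 : s ≤ 1) (X : ℕ) (pts : List (List Pat))
    (h : ∀ e, (cn : ℤ) * finO C P e X pts < cd * finW C P e X) :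
    ((cn : ℝ) / (cd : ℝ)) * totalO (C.alpha s) (C.inst s) (P.wts C.M s)
      (fun j => itp s (patCost C (P.pt.getD j [])) / ((C.M : ℝ) * (P.Dy : ℝ)))
      (fun l => itp s (patCost C (P.pt0.getD l [])) / ((C.M : ℝ) * (P.Dy : ℝ)))
      (fun l => itp s (patCost C (pts.getD l [])) / ((C.M : ℝ) * (P.Dy : ℝ)))
        ((X : ℝ) / (P.D : ℝ)) <
      totalW (C.inst s) (P.wts C.M s) ((X : ℝ) / (P.D : ℝ)) := by
  rw [totalO_eq C P hM hst hD hDy, totalW_eq C P hM hst hD hDy]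
  have hM' : (0 : ℝ) < C.M := by exact_mod_cast hM
  have hD' : (0 : ℝ) < P.D := by exact_mod_cast hD
  have hDy' : (0 : ℝ) < P.Dy := by exact_mod_cast hDy
  have hcd' : (0 : ℝ) < cd := by exact_mod_cast hcd
  have hK : (0 : ℝ) < (C.M : ℝ) * (P.Dy : ℝ) * (P.D : ℝ) := by positivity
  have h1 := itp_lt hs0 hs1 (a := (finO C P false X pts * (cn : ℤ), finO C P true X pts * (cn : ℤ)))
    (b := (finW C P false X * (cd : ℤ), finW C P true X * (cd : ℤ)))
    (by have := h false; show _ * _ < _ * _; linarith) (by have := h true; show _ * _ < _ * _; linarith)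
  rw [itp_mul s (finO C P false X pts, finO C P true X pts) (cn : ℤ),
    itp_mul s (finW C P false X, finW C P true X) (cd : ℤ)] at h1
  push_cast at h1
  rw [← mul_div_assoc, div_lt_div_iff_of_pos_right hK, div_mul_eq_mul_div, div_lt_iff₀ hcd']
  linarith

theorem fin_sound (C : CertD) (P : PieceD) (hM : 0 < C.M) (hst : 0 < C.st.length) (hD : 0 < P.D)
    (hDy : 0 < P.Dy) {cn cd : ℕ} (hcd : 0 < cd) (h : chkFin C P cn cd = true) {s : ℝ} (hs0 : 0 ≤ s)
    (hs1 : s ≤ 1) :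
    ((cn : ℝ) / (cd : ℝ)) * totalO (C.alpha s) (C.inst s) (P.wts C.M s)
      (fun j => itp s (patCost C (P.pt.getD j [])) / ((C.M : ℝ) * (P.Dy : ℝ)))
      (fun l => itp s (patCost C (P.pt0.getD l [])) / ((C.M : ℝ) * (P.Dy : ℝ)))
      (fun l => itp s (patCost C (P.pt0.getD l [])) / ((C.M : ℝ) * (P.Dy : ℝ)))
        ((P.X0 : ℝ) / (P.D : ℝ)) <
      totalW (C.inst s) (P.wts C.M s) ((P.X0 : ℝ) / (P.D : ℝ)) ∧
    ((cn : ℝ) / (cd : ℝ)) * totalO (C.alpha s) (C.inst s) (P.wts C.M s)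
      (fun j => itp s (patCost C (P.pt.getD j [])) / ((C.M : ℝ) * (P.Dy : ℝ)))
      (fun l => itp s (patCost C (P.pt0.getD l [])) / ((C.M : ℝ) * (P.Dy : ℝ)))
      (fun l => itp s (patCost C (P.pt1.getD l [])) / ((C.M : ℝ) * (P.Dy : ℝ)))
        ((P.X1 : ℝ) / (P.D : ℝ)) <
      totalW (C.inst s) (P.wts C.M s) ((P.X1 : ℝ) / (P.D : ℝ)) := by
  unfold chkFin at h
  simp only [List.all_cons, List.all_nil, Bool.and_true, Bool.and_eq_true, decide_eq_true_eq] at h
  obtain ⟨⟨h1, h2⟩, h3, h4⟩ := h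
  constructor
  · exact sf_lt C P hM hst hD hDy hcd hs0 hs1 P.X0 P.pt0 (fun e => by cases e; exacts [h3, h1])
  · exact sf_lt C P hM hst hD hDy hcd hs0 hs1 P.X1 P.pt1 (fun e => by cases e; exacts [h4, h2])

private theorem sf_go (Ps : List PieceD) : ∀ P : PieceD, (∀ Q ∈ P :: Ps, 0 < Q.D) → chkCover.go P Ps = true →
    ∀ x : ℝ, (P.X0 : ℝ) / (P.D : ℝ) ≤ x → x ≤ 1 →
    ∃ Q ∈ P :: Ps, (Q.X0 : ℝ) / (Q.D : ℝ) ≤ x ∧ x ≤ (Q.X1 : ℝ) / (Q.D : ℝ) := by
  induction Ps with
  | nil =>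
    intro P hD h x hx0 hx1
    refine ⟨P, List.mem_cons_self, hx0, ?_⟩
    have h1 : P.X1 = P.D := by
      unfold chkCover.go at h
      exact of_decide_eq_true h
    have hP : (0 : ℝ) < P.D := by exact_mod_cast hD P List.mem_cons_self
    rw [h1, div_self hP.ne']
    exact hx1
  | cons Q Qs ih =>
    intro P hD h x hx0 hx1
    unfold chkCover.go at h
    rw [Bool.and_eq_true] at h
    obtain ⟨h1, h2⟩ := h
    have h1' : P.X1 * Q.D = Q.X0 * P.D := of_decide_eq_true h1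
    have hP : (0 : ℝ) < P.D := by exact_mod_cast hD P List.mem_cons_self
    have hQ : (0 : ℝ) < Q.D := by exact_mod_cast hD Q (List.mem_cons_of_mem _ List.mem_cons_self)
    have h3 : (P.X1 : ℝ) / (P.D : ℝ) = (Q.X0 : ℝ) / (Q.D : ℝ) := by
      rw [div_eq_div_iff hP.ne' hQ.ne']
      exact_mod_cast h1'
    rcases le_total x ((P.X1 : ℝ) / (P.D : ℝ)) with hx | hx
    · exact ⟨P, List.mem_cons_self, hx0, hx⟩
    · rw [h3] at hx
      obtain ⟨R, hR, h4⟩ := ih Q (fun R hR => hD R (List.mem_cons_of_mem _ hR)) h2 x hx hx1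
      exact ⟨R, List.mem_cons_of_mem _ hR, h4⟩

/-- the pieces cover `[0,1]` -/
theorem cover_sound (Ps : List PieceD) (hD : ∀ P ∈ Ps, 0 < P.D) (h : chkCover Ps = true)
    (h0 : (match Ps with | [] => false | P :: _ => decide (P.X0 = 0)) = true) {x : ℝ} (hx0 : 0 ≤ x)
    (hx1 : x ≤ 1) : ∃ P ∈ Ps, (P.X0 : ℝ) / (P.D : ℝ) ≤ x ∧ x ≤ (P.X1 : ℝ) / (P.D : ℝ) := by
  cases Ps with
  | nil => exact absurd h0 (by simp)
  | cons P Ps =>
    have h1 : P.X0 = 0 := of_decide_eq_true h0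
    have h2 : chkCover.go P Ps = true := h
    refine sf_go Ps P hD h2 x ?_ hx1
    rw [h1, Nat.cast_zero, zero_div]
    exact hx0

end VB85
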