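import Pool.Agent.LibVB85.SoundBase

/-! Soundness of `chkPat`. -/

namespace VB85

theorem PatBound.congr {α : ℝ} {T : ℕ} {size size' dem dem' : ℕ → ℝ} {o : ℝ}
    (h : PatBound α T size dem o) (h1 : ∀ j < T, size' j = size j) (h2 : ∀ j < T, dem' j = dem j) :
    PatBound α T size' dem' o := by
  obtain ⟨K, ty, cnt, y, hy, hf, hc, ho⟩ := h
  refine ⟨K, ty, cnt, y, hy, ?_, ?_, ho⟩
  · intro i hi
    have := hf i hi
    rwa [Finset.sum_congr rfl (fun j hj => by rw [h1 j (Finset.mem_range.1 hj)])]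
  · intro j hj
    rw [h2 j hj]; exact hc j hj

private theorem sp_patSize : ∀ (cs : List ℕ) (ss : List ℤ) (T : ℕ), cs.length = T → ss.length = T →
    patSize cs ss = ∑ j ∈ Finset.range T, ((cs.getD j 0 : ℕ) : ℤ) * ss.getD j 0 := by
  intro cs
  induction cs with
  | nil =>
    intro ss T h1 h2
    have h3 : T = 0 := by rw [← h1]; rfl
    subst h3
    rfl
  | cons c cs ih =>
    intro ss T h1 h2
    cases ss with
    | nil =>
      rw [← h2] at h1
      simp at h1
    | cons t ss =>
      have h3 : T = cs.length + 1 := by rw [← h1]; rfl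
      subst h3
      have h4 : ss.length = cs.length := by simpa using h2
      rw [Finset.sum_range_succ', patSize, ih ss cs.length rfl h4]
      simp only [List.getD_cons_succ, List.getD_cons_zero]
      ring

private theorem sp_sum_map {β M : Type} [AddCommMonoid M] (f : β → M) (d : β) (l : List β) :
    (l.map f).sum = ∑ i ∈ Finset.range l.length, f (l.getD i d) := by
  induction l with
  | nil => rfl
  | cons a l ih =>
    rw [List.map_cons, List.sum_cons, List.length_cons, Finset.sum_range_succ', ih]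
    simp only [List.getD_cons_succ, List.getD_cons_zero]
    rw [add_comm]

theorem chkPat_sound (C : CertD) (hM : 0 < C.M) {pt : List Pat} {T : ℕ} {s0 s1 : List ℤ} {dem : List ℕ}
    {D Dy : ℕ} (hD : 0 < D) (hDy : 0 < Dy) (h : chkPat C pt T s0 s1 dem D = true) {s : ℝ}
    (hs0 : 0 ≤ s) (hs1 : s ≤ 1) :
    PatBound (C.alpha s) T (fun j => itp s (s0.getD j 0, s1.getD j 0) / (C.M : ℝ))
      (fun j => ((dem.getD j 0 : ℕ) : ℝ) / ((Dy : ℝ) * (D : ℝ)))
      (itp s (patCost C pt) / ((C.M : ℝ) * (Dy : ℝ))) := by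
  unfold chkPat at h
  simp only [Bool.and_eq_true, decide_eq_true_eq, List.all_eq_true, List.mem_range] at h
  obtain ⟨⟨⟨⟨h1, h2⟩, _⟩, h4⟩, h5⟩ := h
  have hM' : (0 : ℝ) < C.M := by exact_mod_cast hM
  have hD' : (0 : ℝ) < D := by exact_mod_cast hD
  have hDy' : (0 : ℝ) < Dy := by exact_mod_cast hDy
  refine ⟨pt.length, fun i => (pt.getD i (false, [], 0)).1, fun i j => (pt.getD i (false, [], 0)).2.1.getD j 0,
    fun i => ((pt.getD i (false, [], 0)).2.2 : ℝ) / (Dy : ℝ), ?_, ?_, ?_, ?_⟩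
  · intro i _
    positivity
  · intro i hi
    have hmem : pt.getD i (false, [], 0) ∈ pt := by
      rw [List.getD_eq_getElem _ _ hi]
      exact List.getElem_mem hi
    obtain ⟨⟨hl, ha⟩, hb⟩ := h4 _ hmem
    show ∑ j ∈ Finset.range T, (((pt.getD i (false, [], 0)).2.1.getD j 0 : ℕ) : ℝ)
        * (itp s (s0.getD j 0, s1.getD j 0) / (C.M : ℝ)) < bs (C.alpha s) (pt.getD i (false, [], 0)).1
    generalize pt.getD i (false, [], 0) = p at hl ha hb ⊢
    have e1 : ∑ j ∈ Finset.range T, ((p.2.1.getD j 0 : ℕ) : ℝ) * (itp s (s0.getD j 0, s1.getD j 0) / (C.M : ℝ))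
        = itp s (patSize p.2.1 s0, patSize p.2.1 s1) / (C.M : ℝ) := by
      rw [sp_patSize _ _ T hl h1, sp_patSize _ _ T hl h2]
      unfold itp
      push_cast
      rw [Finset.mul_sum, Finset.mul_sum, ← Finset.sum_add_distrib, Finset.sum_div]
      apply Finset.sum_congr rfl
      intro j _
      ring
    rw [e1, bs_cap C hM s p.1]
    apply (div_lt_div_iff_of_pos_right hM').2
    exact itp_lt hs0 hs1 ha hb
  · intro j hj
    have h6 := h5 j hj
    have e1 : patCov pt j = ∑ i ∈ Finset.range pt.length, (pt.getD i (false, [], 0)).2.2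
        * (pt.getD i (false, [], 0)).2.1.getD j 0 := by
      unfold patCov
      rw [sp_sum_map (fun p : Pat => p.2.2 * p.2.1.getD j 0) (false, [], 0) pt]
    have e2 : ∑ i ∈ Finset.range pt.length, (((pt.getD i (false, [], 0)).2.2 : ℝ) / (Dy : ℝ))
        * (((pt.getD i (false, [], 0)).2.1.getD j 0 : ℕ) : ℝ) = (patCov pt j : ℝ) / (Dy : ℝ) := by
      rw [e1]
      push_cast
      rw [Finset.sum_div]
      apply Finset.sum_congr rfl
      intro i _
      ring
    show ((dem.getD j 0 : ℕ) : ℝ) / ((Dy : ℝ) * (D : ℝ)) ≤ _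
    rw [e2]
    have h7 : ((dem.getD j 0 : ℕ) : ℝ) ≤ (patCov pt j : ℝ) * (D : ℝ) := by exact_mod_cast h6
    rw [div_le_div_iff₀ (mul_pos hDy' hD') hDy']
    calc ((dem.getD j 0 : ℕ) : ℝ) * (Dy : ℝ) ≤ ((patCov pt j : ℝ) * (D : ℝ)) * (Dy : ℝ) :=
          mul_le_mul_of_nonneg_right h7 hDy'.le
      _ = (patCov pt j : ℝ) * ((Dy : ℝ) * (D : ℝ)) := by ring
  · apply le_of_eq
    show ∑ i ∈ Finset.range pt.length, (((pt.getD i (false, [], 0)).2.2 : ℝ) / (Dy : ℝ))
        * bs (C.alpha s) (pt.getD i (false, [], 0)).1 = itp s (patCost C pt) / ((C.M : ℝ) * (Dy : ℝ))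
    unfold patCost
    rw [sp_sum_map (fun p : Pat => (p.2.2 : ℤ) * (C.cap p.1).1) (false, [], 0) pt,
      sp_sum_map (fun p : Pat => (p.2.2 : ℤ) * (C.cap p.1).2) (false, [], 0) pt]
    unfold itp
    push_cast
    rw [Finset.mul_sum, Finset.mul_sum, ← Finset.sum_add_distrib, Finset.sum_div]
    apply Finset.sum_congr rfl
    intro i _
    rw [bs_cap C hM s]
    unfold itp
    field_simp

private theorem sp_getD_take {β : Type} (C : CertD) (f : ℤ × ℤ × ℕ → β) (d : β) {i k : ℕ} (h : i < k)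
    (h' : i < C.st.length) : ((C.st.take k).map f).getD i d = f (C.stage i) := by
  have h1 : i < ((C.st.take k).map f).length := by
    rw [List.length_map, List.length_take]
    omega
  rw [List.getD_eq_getElem _ _ h1, List.getElem_map, List.getElem_take]
  unfold CertD.stage
  rw [List.getD_eq_getElem _ _ h']

private theorem sp_getD_take_append {β : Type} (C : CertD) (f : ℤ × ℤ × ℕ → β) (b d : β) {i k : ℕ} (h : i < k)
    (h' : k ≤ C.st.length) : ((C.st.take k).map f ++ [b]).getD i d = f (C.stage i) := by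
  have h1 : i < ((C.st.take k).map f).length := by
    rw [List.length_map, List.length_take]
    omega
  rw [List.getD_append _ _ _ _ h1]
  exact sp_getD_take C f d h (by omega)

private theorem sp_getD_take_append_last {β : Type} (C : CertD) (f : ℤ × ℤ × ℕ → β) (b d : β) {k : ℕ}
    (h' : k ≤ C.st.length) : ((C.st.take k).map f ++ [b]).getD k d = b := by
  have h1 : ((C.st.take k).map f).length = k := by
    rw [List.length_map, List.length_take]
    omega
  rw [List.getD_append_right _ _ _ _ (by rw [h1]), h1, Nat.sub_self]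
  rfl

private theorem sp_getD_map {β : Type} (C : CertD) (f : ℤ × ℤ × ℕ → β) (d : β) {i : ℕ}
    (h' : i < C.st.length) : (C.st.map f).getD i d = f (C.stage i) := by
  have h1 : i < (C.st.map f).length := by rw [List.length_map]; exact h'
  rw [List.getD_eq_getElem _ _ h1, List.getElem_map]
  unfold CertD.stage
  rw [List.getD_eq_getElem _ _ h']

theorem patStage_sound (C : CertD) (P : PieceD) (hC : C.good = true) (hDy : 0 < P.Dy)
    (h : chkPatStage C P = true) {s : ℝ} (hs0 : 0 ≤ s) (hs1 : s ≤ 1) (j : ℕ) (hj : j ≤ (C.inst s).m) :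
    PatBound (C.alpha s) (j + 1) (C.inst s).σ (fun j => ((C.inst s).n j : ℝ))
      (itp s (patCost C (P.pt.getD j [])) / ((C.M : ℝ) * (P.Dy : ℝ))) := by
  obtain ⟨hM, -, -, h5, -, -⟩ := good_iff C hC
  have hj' : j ≤ C.st.length - 1 := hj
  have hjl : j < C.st.length := by omega
  have hDy' : (P.Dy : ℝ) ≠ 0 := by exact_mod_cast hDy.ne'
  unfold chkPatStage at h
  rw [List.all_eq_true] at h
  have h1 := h j (List.mem_range.2 hjl)
  refine (chkPat_sound C hM Nat.one_pos hDy h1 hs0 hs1).congr (fun i hi => ?_) (fun i hi => ?_)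
  · show itp s ((C.stage i).1, (C.stage i).2.1) / (C.M : ℝ) = _
    rw [sp_getD_take C (·.1) 0 hi (by omega), sp_getD_take C (·.2.1) 0 hi (by omega)]
  · show ((C.stage i).2.2 : ℝ) = _
    rw [sp_getD_take C (fun x => x.2.2 * P.Dy) 0 hi (by omega)]
    push_cast
    field_simp

theorem patLeaf_sound (C : CertD) (P : PieceD) (hC : C.good = true) (hDy : 0 < P.Dy)
    (h : chkPatLeaf C P = true) {s : ℝ} (hs0 : 0 ≤ s) (hs1 : s ≤ 1) (l : ℕ) (hl : l < (C.inst s).nl)
    (hk : (C.inst s).kind l = none) :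
    PatBound (C.alpha s) ((C.inst s).lat l + 2) (lsize (C.inst s) l) (ldem (C.inst s) l)
      (itp s (patCost C (P.pt0.getD l [])) / ((C.M : ℝ) * (P.Dy : ℝ))) := by
  obtain ⟨hM, -, -, h5, -, h7⟩ := good_iff C hC
  have hl' : l < C.lf.length := hl
  have hk' : (C.leaf l).kind = none := hk
  have hlat : (C.leaf l).lat < C.st.length := (h7 l hl').1
  have hDy' : (P.Dy : ℝ) ≠ 0 := by exact_mod_cast hDy.ne'
  unfold chkPatLeaf at h
  rw [List.all_eq_true] at h
  have h1 := h l (List.mem_range.2 hl')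
  simp only [hk'] at h1
  refine (chkPat_sound C hM Nat.one_pos hDy h1 hs0 hs1).congr (fun i hi => ?_) (fun i hi => ?_)
  · show (if i ≤ (C.leaf l).lat then itp s ((C.stage i).1, (C.stage i).2.1) / (C.M : ℝ)
      else itp s ((C.leaf l).t0, (C.leaf l).t1) / (C.M : ℝ)) = _
    by_cases hi' : i ≤ (C.leaf l).lat
    · rw [if_pos hi', sp_getD_take_append C (·.1) _ 0 (Nat.lt_succ_of_le hi') (by omega),
        sp_getD_take_append C (·.2.1) _ 0 (Nat.lt_succ_of_le hi') (by omega)]
    · have hi2 : i = (C.leaf l).lat + 1 := by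
        have : i < (C.leaf l).lat + 2 := hi
        omega
      rw [if_neg hi', hi2, sp_getD_take_append_last C (·.1) _ 0 (by omega),
        sp_getD_take_append_last C (·.2.1) _ 0 (by omega)]
  · show (if i ≤ (C.leaf l).lat then ((C.stage i).2.2 : ℝ) else ((C.leaf l).n : ℝ)) = _
    by_cases hi' : i ≤ (C.leaf l).lat
    · rw [if_pos hi', sp_getD_take_append C (fun x => x.2.2 * P.Dy) _ 0 (Nat.lt_succ_of_le hi') (by omega)]
      push_cast
      field_simp
    · have hi2 : i = (C.leaf l).lat + 1 := by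
        have : i < (C.leaf l).lat + 2 := hi
        omega
      rw [if_neg hi', hi2, sp_getD_take_append_last C (fun x => x.2.2 * P.Dy) _ 0 (by omega)]
      push_cast
      field_simp

private theorem sp_x (C : CertD) (P : PieceD) (hM : 0 < C.M) (h5 : 0 < C.st.length) (hD : 0 < P.D)
    (hDy : 0 < P.Dy) {pt : List Pat} {X : ℕ}
    (h : chkPat C pt C.st.length (C.st.map (·.1)) (C.st.map (·.2.1)) (xDem C P X) P.D = true)
    {s : ℝ} (hs0 : 0 ≤ s) (hs1 : s ≤ 1) :
    PatBound (C.alpha s) ((C.inst s).m + 1) (C.inst s).σ (xdem (C.inst s) ((X : ℝ) / (P.D : ℝ)))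
      (itp s (patCost C pt) / ((C.M : ℝ) * (P.Dy : ℝ))) := by
  have hT : (C.inst s).m + 1 = C.st.length := by
    show C.st.length - 1 + 1 = C.st.length
    omega
  have hD' : (P.D : ℝ) ≠ 0 := by exact_mod_cast hD.ne'
  have hDy' : (P.Dy : ℝ) ≠ 0 := by exact_mod_cast hDy.ne'
  rw [hT]
  refine (chkPat_sound C hM hD hDy h hs0 hs1).congr (fun i hi => ?_) (fun i hi => ?_)
  · show itp s ((C.stage i).1, (C.stage i).2.1) / (C.M : ℝ) = _
    rw [sp_getD_map C (·.1) 0 hi, sp_getD_map C (·.2.1) 0 hi]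
  · have h1 : (xDem C P X).getD i 0 = if i + 1 = C.st.length then (C.stage i).2.2 * X * P.Dy
        else (C.stage i).2.2 * P.D * P.Dy := by
      unfold xDem
      have h2 : i < ((List.range C.st.length).map fun j =>
          if j + 1 = C.st.length then (C.stage j).2.2 * X * P.Dy else (C.stage j).2.2 * P.D * P.Dy).length := by
        rw [List.length_map, List.length_range]; exact hi
      rw [List.getD_eq_getElem _ _ h2, List.getElem_map, List.getElem_range]
    show (if i < C.st.length - 1 then ((C.stage i).2.2 : ℝ)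
      else ((C.stage (C.st.length - 1)).2.2 : ℝ) * ((X : ℝ) / (P.D : ℝ))) = _
    rw [h1]
    by_cases hi' : i + 1 = C.st.length
    · have hi2 : ¬ i < C.st.length - 1 := by omega
      have hi3 : C.st.length - 1 = i := by omega
      rw [if_neg hi2, if_pos hi', hi3]
      push_cast
      field_simp
    · have hi2 : i < C.st.length - 1 := by omega
      rw [if_pos hi2, if_neg hi']
      push_cast
      field_simp

theorem patX0_sound (C : CertD) (P : PieceD) (hC : C.good = true) (hD : 0 < P.D) (hDy : 0 < P.Dy)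
    (h : chkPatLeaf C P = true) {s : ℝ} (hs0 : 0 ≤ s) (hs1 : s ≤ 1) (l : ℕ) (hl : l < (C.inst s).nl)
    (hk : (C.inst s).kind l ≠ none) :
    PatBound (C.alpha s) ((C.inst s).m + 1) (C.inst s).σ (xdem (C.inst s) ((P.X0 : ℝ) / (P.D : ℝ)))
      (itp s (patCost C (P.pt0.getD l [])) / ((C.M : ℝ) * (P.Dy : ℝ))) := by
  obtain ⟨hM, -, -, h5, -, -⟩ := good_iff C hC
  obtain ⟨B, hB⟩ := Option.ne_none_iff_exists'.1 hk
  have hB' : (C.leaf l).kind = some B := hB
  unfold chkPatLeaf at h
  rw [List.all_eq_true] at h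
  have h1 := h l (List.mem_range.2 hl)
  simp only [hB', Bool.and_eq_true] at h1
  exact sp_x C P hM h5 hD hDy h1.1 hs0 hs1

theorem patX1_sound (C : CertD) (P : PieceD) (hC : C.good = true) (hD : 0 < P.D) (hDy : 0 < P.Dy)
    (h : chkPatLeaf C P = true) {s : ℝ} (hs0 : 0 ≤ s) (hs1 : s ≤ 1) (l : ℕ) (hl : l < (C.inst s).nl)
    (hk : (C.inst s).kind l ≠ none) :
    PatBound (C.alpha s) ((C.inst s).m + 1) (C.inst s).σ (xdem (C.inst s) ((P.X1 : ℝ) / (P.D : ℝ)))
      (itp s (patCost C (P.pt1.getD l [])) / ((C.M : ℝ) * (P.Dy : ℝ))) := by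
  obtain ⟨hM, -, -, h5, -, -⟩ := good_iff C hC
  obtain ⟨B, hB⟩ := Option.ne_none_iff_exists'.1 hk
  have hB' : (C.leaf l).kind = some B := hB
  unfold chkPatLeaf at h
  rw [List.all_eq_true] at h
  have h1 := h l (List.mem_range.2 hl)
  simp only [hB', Bool.and_eq_true] at h1
  exact sp_x C P hM h5 hD hDy h1.2 hs0 hs1

end VB85
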