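import Pool.Agent.LibVB85.SoundBin
import Pool.Agent.LibVB85.SoundPat
import Pool.Agent.LibVB85.SoundFin
import Pool.Agent.LibVB85.Core

/-! Soundness of the checker: the lower bound on an interval of bin sizes. -/

namespace VB85

theorem piece_sound (C : CertD) (P : PieceD) {cn cd : ℕ} (hC : C.good = true) (hcd : 0 < cd)
    (h : chkPiece C cn cd P = true) {s : ℝ} (hs0 : 0 ≤ s) (hs1 : s ≤ 1) :
    Nonempty (Piece (C.alpha s) (1 / (C.M : ℝ)) ((cn : ℝ) / (cd : ℝ)) (C.inst s)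
      ((P.X0 : ℝ) / (P.D : ℝ)) ((P.X1 : ℝ) / (P.D : ℝ))) := by
  unfold chkPiece at h
  simp only [Bool.and_eq_true, decide_eq_true_eq] at h
  obtain ⟨⟨⟨⟨⟨⟨hD, hDy⟩, -⟩, hbin⟩, hst⟩, hlf⟩, hfin⟩ := h
  obtain ⟨hM, -, -, hlen, -, -⟩ := good_iff C hC
  have hf := fin_sound C P hM hlen hD hDy hcd hfin hs0 hs1
  exact ⟨{
    W := P.wts C.M s
    lam_nonneg := fun j _ => Nat.cast_nonneg _
    lam'_nonneg := fun l _ => Nat.cast_nonneg _
    ineq := fun β c d hfe => chkBin_sound C P hC hbin hs0 hs1 β c d hfe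
    o := fun j => itp s (patCost C (P.pt.getD j [])) / ((C.M : ℝ) * (P.Dy : ℝ))
    o' := fun l => itp s (patCost C (P.pt0.getD l [])) / ((C.M : ℝ) * (P.Dy : ℝ))
    oc0 := fun l => itp s (patCost C (P.pt0.getD l [])) / ((C.M : ℝ) * (P.Dy : ℝ))
    oc1 := fun l => itp s (patCost C (P.pt1.getD l [])) / ((C.M : ℝ) * (P.Dy : ℝ))
    ho := fun j hj => patStage_sound C P hC hDy hst hs0 hs1 j hj
    ho' := fun l hl hk => patLeaf_sound C P hC hDy hlf hs0 hs1 l hl hk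
    hoc0 := fun l hl hk => patX0_sound C P hC hD hDy hlf hs0 hs1 l hl hk
    hoc1 := fun l hl hk => patX1_sound C P hC hD hDy hlf hs0 hs1 l hl hk
    fin0 := hf.1
    fin1 := hf.2 }⟩

/-- **Soundness of the checker.** -/
theorem chkAll_sound (C : CertD) {cn cd : ℕ} (Ps : List PieceD) (h : chkAll C cn cd Ps = true) {s : ℝ}
    (hs0 : 0 ≤ s) (hs1 : s ≤ 1) (h0 : 0 < C.alpha s) (h1 : C.alpha s < 1) :
    ENNReal.ofReal ((cn : ℝ) / (cd : ℝ)) ≤ Rstar (C.alpha s) := by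
  unfold chkAll at h
  rw [Bool.and_eq_true, Bool.and_eq_true, Bool.and_eq_true, Bool.and_eq_true] at h
  obtain ⟨⟨⟨⟨hC, hcd⟩, hPs⟩, hcov⟩, hfirst⟩ := h
  have hcd : 0 < cd := by simpa using hcd
  have hPs' : ∀ P ∈ Ps, chkPiece C cn cd P = true := by simpa using hPs
  have hpos : ∀ P ∈ Ps, 0 < P.D ∧ P.X0 < P.X1 := by
    intro P hP
    have := hPs' P hP
    unfold chkPiece at this
    simp only [Bool.and_eq_true, decide_eq_true_eq] at this
    exact ⟨this.1.1.1.1.1.1, this.1.1.1.1.2⟩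
  obtain ⟨hM, -, -, -, -, -⟩ := good_iff C hC
  have hM' : (0:ℝ) < 1 / (C.M : ℝ) := by
    have : (0:ℝ) < C.M := by exact_mod_cast hM
    positivity
  have hc : (0:ℝ) ≤ (cn : ℝ) / (cd : ℝ) := by positivity
  apply le_Rstar
  intro A K
  refine core h0 h1 hM' hc (good_sound C hC hs0 hs1) Ps.length
    (fun i => ((Ps.getD i ⟨0, 0, 0, [], (0, 0), (0, 0), [], [], [], 0, [], [], []⟩).X0 : ℝ) /
      ((Ps.getD i ⟨0, 0, 0, [], (0, 0), (0, 0), [], [], [], 0, [], [], []⟩).D : ℝ))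
    (fun i => ((Ps.getD i ⟨0, 0, 0, [], (0, 0), (0, 0), [], [], [], 0, [], [], []⟩).X1 : ℝ) /
      ((Ps.getD i ⟨0, 0, 0, [], (0, 0), (0, 0), [], [], [], 0, [], [], []⟩).D : ℝ)) ?_ ?_ ?_ A K
  · intro i hi
    simp only [List.getD_eq_getElem _ _ hi]
    obtain ⟨hD, hX⟩ := hpos _ (List.getElem_mem hi)
    have hD' : (0:ℝ) < (Ps[i].D : ℝ) := by exact_mod_cast hD
    rw [div_lt_div_iff_of_pos_right hD']
    exact_mod_cast hX
  · intro i hi
    simp only [List.getD_eq_getElem _ _ hi]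
    exact piece_sound C _ hC hcd (hPs' _ (List.getElem_mem hi)) hs0 hs1
  · intro x hx0 hx1
    obtain ⟨P, hP, ha, hb⟩ := cover_sound Ps (fun P hP => (hpos P hP).1) hcov
      (by cases Ps <;> exact hfirst) hx0 hx1
    obtain ⟨i, hi, rfl⟩ := List.getElem_of_mem hP
    refine ⟨i, hi, ?_⟩
    simp only [List.getD_eq_getElem _ _ hi]
    exact ⟨ha, hb⟩

/-- The lower bound for all bin sizes of an interval. -/
theorem interval_sound (C : CertD) {cn cd : ℕ} (Ps : List PieceD) (h : chkAll C cn cd Ps = true) {α : ℝ}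
    (h0 : 0 < α) (h1 : α < 1) (ha : (C.A0 : ℝ) ≤ α * (C.M : ℝ)) (hb : α * (C.M : ℝ) ≤ (C.A1 : ℝ)) :
    ENNReal.ofReal ((cn : ℝ) / (cd : ℝ)) ≤ Rstar α := by
  have hC : C.good = true := by
    unfold chkAll at h
    rw [Bool.and_eq_true, Bool.and_eq_true, Bool.and_eq_true, Bool.and_eq_true] at h
    exact h.1.1.1.1
  obtain ⟨hM, -, -, -, -, -⟩ := good_iff C hC
  have hM' : (0:ℝ) < (C.M : ℝ) := by exact_mod_cast hM
  obtain ⟨s, hs0, hs1, rfl⟩ : ∃ s : ℝ, 0 ≤ s ∧ s ≤ 1 ∧ C.alpha s = α := by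
    rcases eq_or_lt_of_le (ha.trans hb) with he | hlt
    · refine ⟨0, le_rfl, zero_le_one, ?_⟩
      unfold CertD.alpha itp
      rw [div_eq_iff hM'.ne']
      simp only
      linarith
    · have hd : (0:ℝ) < (C.A1 : ℝ) - C.A0 := by linarith
      refine ⟨(α * C.M - C.A0) / (C.A1 - C.A0), div_nonneg (by linarith) hd.le,
        (div_le_one hd).2 (by linarith), ?_⟩
      unfold CertD.alpha itp
      rw [div_eq_iff hM'.ne']
      simp only
      field_simp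
      ring
  exact chkAll_sound C Ps h hs0 hs1 h0 h1

end VB85
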