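import Pool.Agent.LibVB85.CheckDefs

/-! Soundness of the checker: basic lemmas. -/

namespace VB85

theorem itp_add (s : ℝ) (a b : ℤ × ℤ) : itp s (a.1 + b.1, a.2 + b.2) = itp s a + itp s b := by
  unfold itp; push_cast; ring

theorem itp_sub (s : ℝ) (a b : ℤ × ℤ) : itp s (a.1 - b.1, a.2 - b.2) = itp s a - itp s b := by
  unfold itp; push_cast; ring

theorem itp_mul (s : ℝ) (a : ℤ × ℤ) (c : ℤ) : itp s (a.1 * c, a.2 * c) = itp s a * c := by
  unfold itp; push_cast; ring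

theorem itp_const (s : ℝ) (c : ℤ) : itp s (c, c) = c := by
  unfold itp; ring

theorem itp_nonneg {s : ℝ} (h0 : 0 ≤ s) (h1 : s ≤ 1) {a : ℤ × ℤ} (ha : 0 ≤ a.1) (hb : 0 ≤ a.2) :
    0 ≤ itp s a := by
  unfold itp
  have h2 : (0:ℝ) ≤ a.1 := by exact_mod_cast ha
  have h3 : (0:ℝ) ≤ a.2 := by exact_mod_cast hb
  have h4 : 0 ≤ 1 - s := by linarith
  positivity

theorem itp_nonpos {s : ℝ} (h0 : 0 ≤ s) (h1 : s ≤ 1) {a : ℤ × ℤ} (ha : a.1 ≤ 0) (hb : a.2 ≤ 0) :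
    itp s a ≤ 0 := by
  unfold itp
  have h2 : (a.1 : ℝ) ≤ 0 := by exact_mod_cast ha
  have h3 : (a.2 : ℝ) ≤ 0 := by exact_mod_cast hb
  have h4 : 0 ≤ 1 - s := by linarith
  nlinarith [mul_nonneg h4 (neg_nonneg.2 h2), mul_nonneg h0 (neg_nonneg.2 h3)]

theorem itp_mono {s : ℝ} (h0 : 0 ≤ s) (h1 : s ≤ 1) {a b : ℤ × ℤ} (ha : a.1 ≤ b.1) (hb : a.2 ≤ b.2) :
    itp s a ≤ itp s b := by
  have := itp_nonneg h0 h1 (a := (b.1 - a.1, b.2 - a.2)) (by simpa using ha) (by simpa using hb)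
  rw [itp_sub] at this; linarith

theorem itp_pos {s : ℝ} (h0 : 0 ≤ s) (h1 : s ≤ 1) {a : ℤ × ℤ} (ha : 0 < a.1) (hb : 0 < a.2) :
    0 < itp s a := by
  have h2 : itp s (1, 1) ≤ itp s a := itp_mono h0 h1 (Int.add_one_le_iff.2 ha) (Int.add_one_le_iff.2 hb)
  rw [itp_const] at h2
  push_cast at h2; linarith

theorem itp_lt {s : ℝ} (h0 : 0 ≤ s) (h1 : s ≤ 1) {a b : ℤ × ℤ} (ha : a.1 < b.1) (hb : a.2 < b.2) :
    itp s a < itp s b := by
  have := itp_pos h0 h1 (a := (b.1 - a.1, b.2 - a.2)) (by simpa using ha) (by simpa using hb)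
  rw [itp_sub] at this; linarith

/-- if the interpolation is positive then one of the endpoints is -/
theorem pos_of_itp_pos {s : ℝ} (h0 : 0 ≤ s) (h1 : s ≤ 1) {a : ℤ × ℤ} (h : 0 < itp s a) :
    0 < a.1 ∨ 0 < a.2 := by
  by_contra hc
  push Not at hc
  linarith [itp_nonpos h0 h1 hc.1 hc.2]

theorem bs_cap (C : CertD) (hM : 0 < C.M) (s : ℝ) (B : Bool) :
    bs (C.alpha s) B = itp s (C.cap B) / (C.M : ℝ) := by
  have hM' : (C.M : ℝ) ≠ 0 := by exact_mod_cast hM.ne'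
  cases B
  · rfl
  · unfold bs CertD.cap itp
    field_simp
    ring_nf
    simp

/-- The facts in `CertD.good`. -/
theorem good_iff (C : CertD) (h : C.good = true) :
    0 < C.M ∧ 0 ≤ C.A0 ∧ 0 ≤ C.A1 ∧ 0 < C.st.length ∧
    (∀ j < C.st.length, 0 < (C.stage j).1 ∧ 0 < (C.stage j).2.1 ∧ (C.stage j).1 < C.M ∧
      (C.stage j).2.1 < C.M ∧ 0 < (C.stage j).2.2) ∧
    (∀ l < C.lf.length, (C.leaf l).lat < C.st.length ∧
      ((C.leaf l).kind = none → 0 < (C.leaf l).t0 ∧ 0 < (C.leaf l).t1 ∧ (C.leaf l).t0 < C.M ∧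
        (C.leaf l).t1 < C.M) ∧
      (∀ B, (C.leaf l).kind = some B → (C.leaf l).lat = C.st.length - 1 ∧
        2 * (C.stage (C.st.length - 1)).1 < (C.cap B).1 ∧
        2 * (C.stage (C.st.length - 1)).2.1 < (C.cap B).2)) := by
  unfold CertD.good at h
  simp only [Bool.and_eq_true, decide_eq_true_eq, List.all_eq_true] at h
  obtain ⟨⟨⟨⟨⟨⟨h1, -⟩, h3⟩, h4⟩, h5⟩, h6⟩, h7⟩ := h
  refine ⟨h1, h3, h4, h5, ?_, ?_⟩
  · intro j hj
    have e : C.stage j = C.st[j] := by unfold CertD.stage; rw [List.getD_eq_getElem _ _ hj]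
    obtain ⟨⟨⟨⟨a, b⟩, c⟩, d⟩, f⟩ := h6 _ (List.getElem_mem hj)
    rw [e]
    exact ⟨a, b, c, d, f⟩
  · intro l hl
    have e : C.leaf l = C.lf[l] := by unfold CertD.leaf; rw [List.getD_eq_getElem _ _ hl]
    obtain ⟨a, b⟩ := h7 _ (List.getElem_mem hl)
    rw [e]
    refine ⟨a, ?_, ?_⟩
    · intro hk
      rw [hk] at b
      simp only [Bool.and_eq_true, decide_eq_true_eq] at b
      exact ⟨b.1.1.1, b.1.1.2, b.1.2, b.2⟩
    · intro B hk
      rw [hk] at b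
      simp only [Bool.and_eq_true, decide_eq_true_eq] at b
      exact ⟨b.1.1, b.1.2, b.2⟩

theorem good_sound (C : CertD) (h : C.good = true) {s : ℝ} (hs0 : 0 ≤ s) (hs1 : s ≤ 1) :
    (C.inst s).Good (C.alpha s) := by
  obtain ⟨hM, h3, h4, h5, h6, h7⟩ := good_iff C h
  have hM' : (0:ℝ) < C.M := by exact_mod_cast hM
  have hm : (C.inst s).m = C.st.length - 1 := rfl
  have hlt : ∀ j ≤ (C.inst s).m, j < C.st.length := by intro j hj; rw [hm] at hj; omega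
  have one : itp s ((C.M : ℤ), (C.M : ℤ)) = C.M := by rw [itp_const]; simp
  constructor
  · intro j hj
    exact div_pos (itp_pos hs0 hs1 (h6 j (hlt j hj)).1 (h6 j (hlt j hj)).2.1) hM'
  · intro j hj
    have := itp_lt hs0 hs1 (a := ((C.stage j).1, (C.stage j).2.1)) (b := ((C.M : ℤ), (C.M : ℤ)))
      (h6 j (hlt j hj)).2.2.1 (h6 j (hlt j hj)).2.2.2.1
    rw [one] at this
    exact (div_lt_one hM').2 this
  · intro j hj; exact (h6 j (hlt j hj)).2.2.2.2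
  · intro l hl
    have := (h7 l hl).1
    show (C.leaf l).lat ≤ C.st.length - 1
    omega
  · intro l hl hk
    have := (h7 l hl).2.1 hk
    exact div_pos (itp_pos hs0 hs1 this.1 this.2.1) hM'
  · intro l hl hk
    have h8 := (h7 l hl).2.1 hk
    have := itp_lt hs0 hs1 (a := ((C.leaf l).t0, (C.leaf l).t1)) (b := ((C.M : ℤ), (C.M : ℤ)))
      h8.2.2.1 h8.2.2.2
    rw [one] at this
    exact (div_lt_one hM').2 this
  · intro l hl B hk
    exact ((h7 l hl).2.2 B hk).1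
  · intro l hl B hk
    have h8 := ((h7 l hl).2.2 B hk).2
    rw [bs_cap C hM s B]
    show 2 * (itp s ((C.stage (C.st.length - 1)).1, (C.stage (C.st.length - 1)).2.1) / (C.M : ℝ)) <
      itp s (C.cap B) / (C.M : ℝ)
    rw [← mul_div_assoc, div_lt_div_iff_of_pos_right hM']
    have := itp_lt hs0 hs1 (a := ((C.stage (C.st.length - 1)).1 * 2, (C.stage (C.st.length - 1)).2.1 * 2))
      (b := C.cap B) (by show _ * 2 < _; linarith [h8.1]) (by show _ * 2 < _; linarith [h8.2])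
    rw [itp_mul s ((C.stage (C.st.length - 1)).1, (C.stage (C.st.length - 1)).2.1) 2] at this
    push_cast at this
    linarith

end VB85
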