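import Pool.Agent.LibVB85.SoundBase

/-! Soundness of `chkBin`. -/

namespace VB85

/-- remaining capacity (times `M`, at the two endpoints) before stage `j` -/
def rem (C : CertD) (β : Bool) (c : ℕ → ℕ) : ℕ → ℤ × ℤ
  | 0 => C.cap β
  | j + 1 => ((rem C β c j).1 - (C.stage j).1 * c j, (rem C β c j).2 - (C.stage j).2.1 * c j)

/-- the bin is used before stage `j` -/
def us (c : ℕ → ℕ) (j : ℕ) : Bool := decide (∃ i < j, c i ≠ 0)

theorem itp_rem (C : CertD) (β : Bool) (c : ℕ → ℕ) (s : ℝ) (j : ℕ) :
    itp s (rem C β c j) = itp s (C.cap β) -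
      ∑ i ∈ Finset.range j, (c i : ℝ) * itp s ((C.stage i).1, (C.stage i).2.1) := by
  induction j with
  | zero => rw [Finset.range_zero, Finset.sum_empty, sub_zero]; rfl
  | succ j ih =>
    have h1 : rem C β c (j + 1) = ((rem C β c j).1 - (C.stage j).1 * c j,
        (rem C β c j).2 - (C.stage j).2.1 * c j) := rfl
    have h2 := itp_sub s (rem C β c j) ((C.stage j).1 * (c j : ℤ), (C.stage j).2.1 * (c j : ℤ))
    have h3 := itp_mul s ((C.stage j).1, (C.stage j).2.1) (c j : ℤ)
    rw [Finset.sum_range_succ, h1, h2, h3, ih]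
    push_cast
    ring

/-- `dMax` is an upper bound -/
theorem le_dMax {s : ℝ} (h0 : 0 ≤ s) (h1 : s ≤ 1) {r0 r1 t0 t1 : ℤ} (ht0 : 0 < t0) (ht1 : 0 < t1) {c : ℕ}
    (h : (c : ℝ) * itp s (t0, t1) < itp s (r0, r1)) : c ≤ dMax r0 r1 t0 t1 := by
  have h2 := itp_sub s (r0, r1) (t0 * (c : ℤ), t1 * (c : ℤ))
  have h3 := itp_mul s (t0, t1) (c : ℤ)
  have h4 : 0 < itp s (r0 - t0 * (c : ℤ), r1 - t1 * (c : ℤ)) := by
    rw [h2, h3]
    push_cast
    linarith
  unfold dMax
  rcases pos_of_itp_pos h0 h1 h4 with h5 | h5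
  · refine le_trans ?_ (le_max_left _ _)
    have h6 : (c : ℤ) ≤ (r0 - 1) / t0 := by
      rw [Int.le_ediv_iff_mul_le ht0]
      simp only at h5
      nlinarith
    omega
  · refine le_trans ?_ (le_max_right _ _)
    have h6 : (c : ℤ) ≤ (r1 - 1) / t1 := by
      rw [Int.le_ediv_iff_mul_le ht1]
      simp only at h5
      nlinarith
    omega

private theorem sum_sig (C : CertD) (β : Bool) (c : ℕ → ℕ) (s : ℝ) (n : ℕ) :
    ∑ i ∈ Finset.range n, (c i : ℝ) * (C.inst s).σ i =
      (itp s (C.cap β) - itp s (rem C β c n)) / (C.M : ℝ) := by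
  rw [itp_rem, sub_sub_cancel, Finset.sum_div]
  refine Finset.sum_congr rfl (fun i _ => ?_)
  change (c i : ℝ) * (itp s ((C.stage i).1, (C.stage i).2.1) / (C.M : ℝ)) = _
  rw [mul_div_assoc]

private theorem itp_add1 (s : ℝ) (a : ℤ × ℤ) : itp s (a.1 + 1, a.2 + 1) = itp s a + 1 := by
  have h := itp_add s a (1, 1)
  have h2 := itp_const s 1
  rw [h2] at h
  push_cast at h
  exact h

/-- In a used bin, the number of items of stage `j` is at most `dMax`. -/
theorem feas_stage (C : CertD) (hC : C.good = true) {s : ℝ} (hs0 : 0 ≤ s) (hs1 : s ≤ 1) (β : Bool)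
    (c d : ℕ → ℕ) (hf : Feas (C.alpha s) (1 / (C.M : ℝ)) (C.inst s) β c d) (j : ℕ)
    (hj : j < C.st.length) :
    c j ≤ dMax (rem C β c j).1 (rem C β c j).2 (C.stage j).1 (C.stage j).2.1 := by
  obtain ⟨hM, -, -, h5, h6, h7⟩ := good_iff C hC
  have hM' : (0:ℝ) < C.M := by exact_mod_cast hM
  have hm : (C.inst s).m + 1 = C.st.length := by
    change C.st.length - 1 + 1 = C.st.length
    omega
  by_cases hcj : c j = 0
  · rw [hcj]; exact Nat.zero_le _
  have h1 := hf.1 ⟨j, by omega, hcj⟩
  rw [sum_sig C β c s, bs_cap C hM s β, hm, div_lt_div_iff_of_pos_right hM'] at h1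
  have h2 : itp s (rem C β c C.st.length) ≤ itp s (rem C β c (j + 1)) := by
    rw [itp_rem, itp_rem]
    have h3 : ∑ i ∈ Finset.range (j + 1), (c i : ℝ) * itp s ((C.stage i).1, (C.stage i).2.1) ≤
        ∑ i ∈ Finset.range C.st.length, (c i : ℝ) * itp s ((C.stage i).1, (C.stage i).2.1) := by
      refine Finset.sum_le_sum_of_subset_of_nonneg ?_ ?_
      · intro i hi
        rw [Finset.mem_range] at hi ⊢
        omega
      · intro i hi _
        rw [Finset.mem_range] at hi
        exact mul_nonneg (Nat.cast_nonneg _)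
          (itp_nonneg hs0 hs1 (h6 i hi).1.le (h6 i hi).2.1.le)
    linarith
  have h4 : itp s (rem C β c (j + 1)) = itp s (rem C β c j) -
      (c j : ℝ) * itp s ((C.stage j).1, (C.stage j).2.1) := by
    rw [itp_rem, itp_rem, Finset.sum_range_succ]
    ring
  refine le_dMax hs0 hs1 (h6 j hj).1 (h6 j hj).2.1 ?_
  change _ < itp s (rem C β c j)
  linarith

/-- In a used bin, the number of items of leaf `l` is at most `leafD`. -/
theorem feas_leaf (C : CertD) (hC : C.good = true) {s : ℝ} (hs0 : 0 ≤ s) (hs1 : s ≤ 1) (β : Bool)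
    (c d : ℕ → ℕ) (hf : Feas (C.alpha s) (1 / (C.M : ℝ)) (C.inst s) β c d) (l : ℕ)
    (hl : l < C.lf.length) (hus : us c ((C.leaf l).lat + 1) = true) :
    d l ≤ leafD C β (C.leaf l) (rem C β c ((C.leaf l).lat + 1)).1 (rem C β c ((C.leaf l).lat + 1)).2
      (c (C.leaf l).lat) (us c (C.leaf l).lat) := by
  obtain ⟨hM, -, -, h5, h6, h7⟩ := good_iff C hC
  have hM' : (0:ℝ) < C.M := by exact_mod_cast hM
  have hm : (C.inst s).m + 1 = C.st.length := by
    change C.st.length - 1 + 1 = C.st.length
    omega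
  by_cases hdl : d l = 0
  · rw [hdl]; exact Nat.zero_le _
  obtain ⟨hf1, hf2, hf3, hf4⟩ := hf
  have hlnl : l < (C.inst s).nl := hl
  unfold leafD
  cases hk : (C.leaf l).kind with
  | none =>
    simp only
    have h8 := (h7 l hl).2.1 hk
    have h9 := hf2 l hlnl hk (Or.inr hdl)
    have hlat : (C.inst s).lat l = (C.leaf l).lat := rfl
    have hτ : (C.inst s).τ l = itp s ((C.leaf l).t0, (C.leaf l).t1) / (C.M : ℝ) := rfl
    rw [hlat, sum_sig C β c s, bs_cap C hM s β, hτ, ← mul_div_assoc, ← add_div,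
      div_lt_div_iff_of_pos_right hM'] at h9
    refine le_dMax hs0 hs1 h8.1 h8.2.1 ?_
    change _ < itp s (rem C β c ((C.leaf l).lat + 1))
    linarith
  | some B =>
    simp only
    have h8 := (h7 l hl).2.2 B hk
    have h10 := h6 (C.st.length - 1) (by omega)
    have hσ : (C.inst s).σ (C.inst s).m =
        itp s ((C.stage (C.st.length - 1)).1, (C.stage (C.st.length - 1)).2.1) / (C.M : ℝ) := rfl
    by_cases hB : B = β
    · rw [if_pos hB]
      subst hB
      obtain ⟨h11, h12⟩ := hf3 l hlnl hk
      obtain ⟨h13, h14⟩ := h12 hdl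
      have h15 : c (C.leaf l).lat = 0 := by
        rw [h8.1]; exact h13
      rw [if_pos h15]
      cases hu : us c (C.leaf l).lat with
      | false => simpa using h11
      | true =>
        rw [if_pos rfl]
        have hu' : ∃ i < (C.leaf l).lat, c i ≠ 0 := of_decide_eq_true hu
        obtain ⟨i, hi, hci⟩ := hu'
        have h16 := h14 ⟨i, by
          change i < C.st.length - 1
          rw [← h8.1]; exact hi, hci⟩
        rw [sum_sig C B c s, hσ, div_lt_div_iff_of_pos_right hM'] at h16
        have h17 : itp s (rem C B c ((C.leaf l).lat + 1)) = itp s (rem C B c (C.inst s).m) := by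
          rw [itp_rem, itp_rem, Finset.sum_range_succ, h15]
          have : (C.inst s).m = (C.leaf l).lat := h8.1.symm
          rw [this]
          push_cast
          ring
        have h18 : (C.cap B).1 - (rem C B c ((C.leaf l).lat + 1)).1 < (C.stage (C.st.length - 1)).1 ∨
            (C.cap B).2 - (rem C B c ((C.leaf l).lat + 1)).2 < (C.stage (C.st.length - 1)).2.1 := by
          have e1 := itp_sub s (C.cap B) (rem C B c ((C.leaf l).lat + 1))
          have e2 := itp_sub s ((C.stage (C.st.length - 1)).1, (C.stage (C.st.length - 1)).2.1)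
            ((C.cap B).1 - (rem C B c ((C.leaf l).lat + 1)).1,
              (C.cap B).2 - (rem C B c ((C.leaf l).lat + 1)).2)
          have e3 := pos_of_itp_pos hs0 hs1 (a := ((C.stage (C.st.length - 1)).1 -
            ((C.cap B).1 - (rem C B c ((C.leaf l).lat + 1)).1),
            (C.stage (C.st.length - 1)).2.1 -
              ((C.cap B).2 - (rem C B c ((C.leaf l).lat + 1)).2))) (by
              simp only at e2
              rw [e2, e1, h17]
              linarith)
          simp only at e3
          rcases e3 with e3 | e3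
          · left; linarith
          · right; linarith
        rw [if_pos h18]
        exact h11
    · rw [if_neg hB]
      have hB' : B = !β := by
        cases B <;> cases β <;> simp_all
      subst hB'
      have h9 := hf4 l hlnl hk hdl
      rw [hm, sum_sig C β c s, bs_cap C hM s β, bs_cap C hM s (!β), hσ, ← sub_div, ← mul_div_assoc,
        ← add_div, ← add_div, div_lt_div_iff_of_pos_right hM'] at h9
      have hlat : (C.leaf l).lat + 1 = C.st.length := by
        rw [h8.1]; omega
      refine le_dMax hs0 hs1 (by linarith [h8.2.1, h10.1]) (by linarith [h8.2.2, h10.2.1]) ?_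
      rw [itp_sub s (C.cap !β) ((C.stage (C.st.length - 1)).1, (C.stage (C.st.length - 1)).2.1),
        itp_add1, hlat]
      linarith

/-- In a bin that is not used before leaf `l`, the number of items of leaf `l` is at most `leafD`. -/
theorem feas_alone (C : CertD) (hC : C.good = true) {s : ℝ} (hs0 : 0 ≤ s) (hs1 : s ≤ 1) (β : Bool)
    (c d : ℕ → ℕ) (hf : Feas (C.alpha s) (1 / (C.M : ℝ)) (C.inst s) β c d) (l : ℕ)
    (hl : l < C.lf.length) (hus : us c ((C.leaf l).lat + 1) = false) :
    d l ≤ leafD C β (C.leaf l) (C.cap β).1 (C.cap β).2 0 false := by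
  obtain ⟨hM, -, -, h5, h6, h7⟩ := good_iff C hC
  have hM' : (0:ℝ) < C.M := by exact_mod_cast hM
  have hm : (C.inst s).m + 1 = C.st.length := by
    change C.st.length - 1 + 1 = C.st.length
    omega
  by_cases hdl : d l = 0
  · rw [hdl]; exact Nat.zero_le _
  obtain ⟨hf1, hf2, hf3, hf4⟩ := hf
  have hlnl : l < (C.inst s).nl := hl
  have hc0 : ∀ i < (C.leaf l).lat + 1, c i = 0 := by
    intro i hi
    by_contra hci
    have h1 : us c ((C.leaf l).lat + 1) = true := decide_eq_true ⟨i, hi, hci⟩
    rw [hus] at h1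
    exact Bool.false_ne_true h1
  have hrem : itp s (rem C β c ((C.leaf l).lat + 1)) = itp s (C.cap β) := by
    rw [itp_rem, Finset.sum_eq_zero, sub_zero]
    intro i hi
    rw [hc0 i (Finset.mem_range.1 hi), Nat.cast_zero, zero_mul]
  unfold leafD
  cases hk : (C.leaf l).kind with
  | none =>
    simp only
    have h8 := (h7 l hl).2.1 hk
    have h9 := hf2 l hlnl hk (Or.inr hdl)
    have hlat : (C.inst s).lat l = (C.leaf l).lat := rfl
    have hτ : (C.inst s).τ l = itp s ((C.leaf l).t0, (C.leaf l).t1) / (C.M : ℝ) := rfl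
    rw [hlat, sum_sig C β c s, bs_cap C hM s β, hτ, ← mul_div_assoc, ← add_div,
      div_lt_div_iff_of_pos_right hM', hrem] at h9
    refine le_dMax hs0 hs1 h8.1 h8.2.1 ?_
    change _ < itp s (C.cap β)
    linarith
  | some B =>
    simp only
    have h8 := (h7 l hl).2.2 B hk
    have h10 := h6 (C.st.length - 1) (by omega)
    have hσ : (C.inst s).σ (C.inst s).m =
        itp s ((C.stage (C.st.length - 1)).1, (C.stage (C.st.length - 1)).2.1) / (C.M : ℝ) := rfl
    by_cases hB : B = β
    · rw [if_pos hB]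
      subst hB
      obtain ⟨h11, h12⟩ := hf3 l hlnl hk
      simpa using h11
    · rw [if_neg hB]
      have hB' : B = !β := by
        cases B <;> cases β <;> simp_all
      subst hB'
      have h9 := hf4 l hlnl hk hdl
      have hlat : (C.leaf l).lat + 1 = C.st.length := by
        rw [h8.1]; omega
      rw [hlat] at hrem
      rw [hm, sum_sig C β c s, bs_cap C hM s β, bs_cap C hM s (!β), hσ, ← sub_div, ← mul_div_assoc,
        ← add_div, ← add_div, div_lt_div_iff_of_pos_right hM', hrem] at h9
      refine le_dMax hs0 hs1 (by linarith [h8.2.1, h10.1]) (by linarith [h8.2.2, h10.2.1]) ?_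
      rw [itp_sub s (C.cap !β) ((C.stage (C.st.length - 1)).1, (C.stage (C.st.length - 1)).2.1),
        itp_add1]
      linarith

/-- the facts checked by `chkLeafAlone` -/
theorem chkLeafAlone_sound (C : CertD) (P : PieceD) (β : Bool) (h : chkLeafAlone C P β C.lf 0 = true)
    (l : ℕ) (hl : l < C.lf.length) :
    0 ≤ (P.w'.getD l (0, 0)).1 ∧ 0 ≤ (P.w'.getD l (0, 0)).2 ∧
    (P.w'.getD l (0, 0)).1 * (leafD C β (C.leaf l) (C.cap β).1 (C.cap β).2 0 false : ℕ) ≤
      (C.cap β).1 * ((P.lam'.getD l 0 : ℕ) : ℤ) ∧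
    (P.w'.getD l (0, 0)).2 * (leafD C β (C.leaf l) (C.cap β).1 (C.cap β).2 0 false : ℕ) ≤
      (C.cap β).2 * ((P.lam'.getD l 0 : ℕ) : ℤ) := by
  have key : ∀ (xs : List LeafD) (k : ℕ), chkLeafAlone C P β xs k = true →
      ∀ i (hi : i < xs.length),
        0 ≤ (P.w'.getD (k + i) (0, 0)).1 ∧ 0 ≤ (P.w'.getD (k + i) (0, 0)).2 ∧
        (P.w'.getD (k + i) (0, 0)).1 * (leafD C β xs[i] (C.cap β).1 (C.cap β).2 0 false : ℕ) ≤
          (C.cap β).1 * ((P.lam'.getD (k + i) 0 : ℕ) : ℤ) ∧
        (P.w'.getD (k + i) (0, 0)).2 * (leafD C β xs[i] (C.cap β).1 (C.cap β).2 0 false : ℕ) ≤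
          (C.cap β).2 * ((P.lam'.getD (k + i) 0 : ℕ) : ℤ) := by
    intro xs
    induction xs with
    | nil => intro k _ i hi; simp at hi
    | cons x xs ih =>
      intro k hk i hi
      unfold chkLeafAlone at hk
      simp only [Bool.and_eq_true, decide_eq_true_eq] at hk
      obtain ⟨⟨⟨⟨h1, h2⟩, h3⟩, h4⟩, h5⟩ := hk
      cases i with
      | zero => exact ⟨h1, h2, h3, h4⟩
      | succ i =>
        have := ih (k + 1) h5 i (by simpa using hi)
        have e : k + 1 + i = k + (i + 1) := by omega
        rw [e] at this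
        simpa using this
  have h1 := key C.lf 0 h l hl
  have e : C.leaf l = C.lf[l] := by unfold CertD.leaf; rw [List.getD_eq_getElem _ _ hl]
  rw [e]
  simpa using h1

/-- `leafSum` as a sum over the leaves -/
theorem itp_leafSum (C : CertD) (P : PieceD) (β : Bool) (j : ℕ) (r0 r1 : ℤ) (cm : ℕ) (u : Bool)
    (s : ℝ) :
    itp s (leafSum C P β j r0 r1 cm u C.lf 0) = ∑ l ∈ Finset.range C.lf.length,
      if (C.leaf l).lat = j then
        itp s (P.w'.getD l (0, 0)) * (leafD C β (C.leaf l) r0 r1 cm u : ℝ)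
          - itp s (C.cap β) * ((P.lam'.getD l 0 : ℕ) : ℝ)
      else 0 := by
  have key : ∀ (n k : ℕ), n + k = C.lf.length →
      itp s (leafSum C P β j r0 r1 cm u (C.lf.drop k) k) = ∑ l ∈ Finset.Ico k C.lf.length,
      if (C.leaf l).lat = j then
        itp s (P.w'.getD l (0, 0)) * (leafD C β (C.leaf l) r0 r1 cm u : ℝ)
          - itp s (C.cap β) * ((P.lam'.getD l 0 : ℕ) : ℝ)
      else 0 := by
    intro n
    induction n with
    | zero =>
      intro k hk
      have : k = C.lf.length := by omega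
      subst this
      rw [List.drop_length, Finset.Ico_self, Finset.sum_empty]
      simp [leafSum, itp]
    | succ n ih =>
      intro k hk
      have hk' : k < C.lf.length := by omega
      rw [List.drop_eq_getElem_cons hk', Finset.sum_eq_sum_Ico_succ_bot hk', ← ih (k + 1) (by omega)]
      have e : C.lf[k] = C.leaf k := by unfold CertD.leaf; rw [List.getD_eq_getElem _ _ hk']
      rw [e]
      simp only [leafSum]
      split_ifs with hl
      · unfold itp
        push_cast
        ring
      · simp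
  have := key C.lf.length 0 (by omega)
  rw [List.drop_zero] at this
  rw [this, Finset.range_eq_Ico]

/-- the contribution of stage `i` (and of the leaves after it) -/
noncomputable def contr (C : CertD) (P : PieceD) (β : Bool) (s : ℝ) (c : ℕ → ℕ) (i : ℕ) : ℝ :=
  if us c (i + 1) = true then
    itp s (stW C P i (c i) (us c i))
      + itp s (leafSum C P β i (rem C β c (i + 1)).1 (rem C β c (i + 1)).2 (c i) (us c i) C.lf 0)
      - itp s (C.cap β) * ((P.lam.getD i 0 : ℕ) : ℝ)
  else 0

/-- the main induction -/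
theorem chk_sound (C : CertD) (P : PieceD) (β : Bool) {s : ℝ} (hs0 : 0 ≤ s) (hs1 : s ≤ 1) (c : ℕ → ℕ)
    (hc : ∀ j < C.st.length, c j ≤ dMax (rem C β c j).1 (rem C β c j).2 (C.stage j).1 (C.stage j).2.1)
    (k j : ℕ) (hk : k + j = C.st.length) (T0 T1 : ℤ)
    (h : chk C P β k j (rem C β c j).1 (rem C β c j).2 T0 T1 (us c j) = true) :
    itp s (T0, T1) + ∑ i ∈ Finset.Ico j C.st.length, contr C P β s c i ≤ 0 := by
  induction k generalizing j T0 T1 with
  | zero =>
    have hj : j = C.st.length := by omega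
    subst hj
    unfold chk at h
    simp only [Bool.and_eq_true, decide_eq_true_eq] at h
    rw [Finset.Ico_self, Finset.sum_empty, add_zero]
    exact itp_nonpos hs0 hs1 h.1 h.2
  | succ k ih =>
    have hj : j < C.st.length := by omega
    rw [Finset.sum_eq_sum_Ico_succ_bot hj]
    unfold chk at h
    rw [List.all_eq_true] at h
    have h2 := h (c j) (List.mem_range.2 (Nat.lt_succ_of_le (hc j hj)))
    have hus : us c (j + 1) = (us c j || decide (c j ≠ 0)) := by
      unfold us
      rw [Bool.eq_iff_iff]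
      simp only [decide_eq_true_eq, Bool.or_eq_true]
      constructor
      · rintro ⟨i, hi, hci⟩
        rcases Nat.lt_succ_iff_lt_or_eq.1 hi with hi | hi
        · exact Or.inl ⟨i, hi, hci⟩
        · subst hi; exact Or.inr hci
      · rintro (⟨i, hi, hci⟩ | hci)
        · exact ⟨i, by omega, hci⟩
        · exact ⟨j, by omega, hci⟩
    simp only at h2
    rw [← hus] at h2
    by_cases hu : us c (j + 1) = true
    · rw [if_pos hu] at h2
      have h3 := ih (j + 1) (by omega)
        (T0 + (stW C P j (c j) (us c j)).1 +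
          (leafSum C P β j (rem C β c (j + 1)).1 (rem C β c (j + 1)).2 (c j) (us c j) C.lf 0).1
            - (C.cap β).1 * ((P.lam.getD j 0 : ℕ) : ℤ))
        (T1 + (stW C P j (c j) (us c j)).2 +
          (leafSum C P β j (rem C β c (j + 1)).1 (rem C β c (j + 1)).2 (c j) (us c j) C.lf 0).2
            - (C.cap β).2 * ((P.lam.getD j 0 : ℕ) : ℤ))
        (by rw [hu]; exact h2)
      have e : contr C P β s c j = itp s (stW C P j (c j) (us c j))
        + itp s (leafSum C P β j (rem C β c (j + 1)).1 (rem C β c (j + 1)).2 (c j) (us c j) C.lf 0)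
        - itp s (C.cap β) * ((P.lam.getD j 0 : ℕ) : ℝ) := by
        unfold contr; rw [if_pos hu]
      rw [e]
      refine le_trans (le_of_eq ?_) h3
      unfold itp
      push_cast
      ring
    · rw [if_neg hu] at h2
      have hu' : us c (j + 1) = false := by simpa using hu
      have h3 := ih (j + 1) (by omega) T0 T1 (by rw [hu']; exact h2)
      have e : contr C P β s c j = 0 := by
        unfold contr; rw [if_neg hu]
      rw [e, zero_add]
      exact h3

theorem us_succ_eq (c : ℕ → ℕ) (j : ℕ) : us c (j + 1) = decide (∃ i ≤ j, c i ≠ 0) := by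
  unfold us
  congr 1
  simp only [Nat.lt_succ_iff]

theorem usd_eq_of_us (c : ℕ → ℕ) (j : ℕ) : usd c j = if us c (j + 1) = true then 1 else 0 := by
  unfold usd
  rw [us_succ_eq]
  simp

/-- the stage part of the contribution, in an unused bin -/
theorem itp_stW_unused (C : CertD) (P : PieceD) (s : ℝ) (c : ℕ → ℕ) (i : ℕ)
    (h : us c (i + 1) = false) : itp s (stW C P i (c i) (us c i)) = 0 := by
  have hc : c i = 0 := by
    rw [us_succ_eq] at h
    simp only [decide_eq_false_iff_not, not_exists, not_and, not_not] at h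
    exact h i le_rfl
  unfold stW
  rw [hc]
  simp [itp]

/-- the stage part of the contribution, below the last stage -/
theorem itp_stW_lt (C : CertD) (P : PieceD) (s : ℝ) (c : ℕ → ℕ) (i : ℕ) (u : Bool)
    (h : i + 1 ≠ C.st.length) : itp s (stW C P i (c i) u) = itp s (P.w.getD i (0, 0)) * (c i : ℝ) := by
  unfold stW
  rw [if_neg h, itp_mul]
  push_cast
  rfl

/-- the stage part of the contribution, last stage -/
theorem itp_stW_last (C : CertD) (P : PieceD) (s : ℝ) (c : ℕ → ℕ) (h : 0 < C.st.length) :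
    itp s (stW C P (C.inst s).m (c (C.inst s).m) (us c (C.inst s).m)) =
      itp s P.wS * ((c (C.inst s).m : ℝ) - (opn (C.inst s) c : ℝ))
        + itp s P.wL * (opn (C.inst s) c : ℝ) := by
  have hm : (C.inst s).m + 1 = C.st.length := by
    show C.st.length - 1 + 1 = C.st.length
    omega
  generalize hI : C.inst s = I at *
  unfold stW
  rw [if_pos hm]
  unfold opn
  by_cases hu : us c I.m = true ∨ c I.m = 0
  · rw [if_pos hu, itp_mul]
    have : ¬ (c I.m ≠ 0 ∧ ∀ j < I.m, c j = 0) := by
      rintro ⟨h1, h2⟩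
      rcases hu with hu | hu
      · unfold us at hu
        simp only [decide_eq_true_eq] at hu
        obtain ⟨i, hi, hi2⟩ := hu
        exact hi2 (h2 i hi)
      · exact h1 hu
    rw [if_neg this]
    push_cast
    ring
  · rw [if_neg hu]
    push Not at hu
    have : (c I.m ≠ 0 ∧ ∀ j < I.m, c j = 0) := by
      refine ⟨hu.2, ?_⟩
      intro j hj
      by_contra hc
      apply hu.1
      unfold us
      simp only [decide_eq_true_eq]
      exact ⟨j, hj, hc⟩
    rw [if_pos this]
    rw [itp_add s (P.wS.1 * ((c I.m : ℕ) - 1), P.wS.2 * ((c I.m : ℕ) - 1)) P.wL, itp_mul]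
    push_cast
    ring

/-- contribution of one leaf -/
theorem leaf_contr (C : CertD) (P : PieceD) (hC : C.good = true) {s : ℝ} (hs0 : 0 ≤ s) (hs1 : s ≤ 1)
    (β : Bool) (h : chkLeafAlone C P β C.lf 0 = true) (c d : ℕ → ℕ)
    (hf : Feas (C.alpha s) (1 / (C.M : ℝ)) (C.inst s) β c d) (l : ℕ) (hl : l < C.lf.length) :
    itp s (P.w'.getD l (0, 0)) * (d l : ℝ)
      - itp s (C.cap β) * (((P.lam'.getD l 0 : ℕ) : ℝ) * (usdL (C.inst s) c d l : ℝ)) ≤
    if us c ((C.leaf l).lat + 1) = true then
      itp s (P.w'.getD l (0, 0)) *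
        (leafD C β (C.leaf l) (rem C β c ((C.leaf l).lat + 1)).1 (rem C β c ((C.leaf l).lat + 1)).2
          (c (C.leaf l).lat) (us c (C.leaf l).lat) : ℝ)
          - itp s (C.cap β) * ((P.lam'.getD l 0 : ℕ) : ℝ)
    else 0 := by
  obtain ⟨hw1, hw2, hl1, hl2⟩ := chkLeafAlone_sound C P β h l hl
  have hw : 0 ≤ itp s (P.w'.getD l (0, 0)) := itp_nonneg hs0 hs1 hw1 hw2
  have hlat : (C.inst s).lat l = (C.leaf l).lat := rfl
  by_cases hus : us c ((C.leaf l).lat + 1) = true
  · rw [if_pos hus]
    have h1 := feas_leaf C hC hs0 hs1 β c d hf l hl hus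
    have h2 : usdL (C.inst s) c d l = 1 := by
      unfold usdL
      rw [if_pos]
      left
      rw [us_succ_eq] at hus
      rw [hlat]
      simpa only [decide_eq_true_eq] using hus
    rw [h2]
    have h3 : (d l : ℝ) ≤ (leafD C β (C.leaf l) (rem C β c ((C.leaf l).lat + 1)).1
        (rem C β c ((C.leaf l).lat + 1)).2 (c (C.leaf l).lat) (us c (C.leaf l).lat) : ℝ) := by
      exact_mod_cast h1
    have h4 := mul_le_mul_of_nonneg_left h3 hw
    push_cast at h4 ⊢
    linarith
  · rw [if_neg hus]
    have hus' : us c ((C.leaf l).lat + 1) = false := by simpa using hus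
    by_cases hd : d l = 0
    · have h2 : usdL (C.inst s) c d l = 0 := by
        unfold usdL
        rw [if_neg]
        rintro (h | h)
        · rw [us_succ_eq] at hus'
          simp only [decide_eq_false_iff_not] at hus'
          exact hus' h
        · exact h hd
      rw [h2, hd]
      simp
    · have h2 : usdL (C.inst s) c d l = 1 := by
        unfold usdL
        rw [if_pos]
        right; exact hd
      have h1 := feas_alone C hC hs0 hs1 β c d hf l hl hus'
      have h3 : (d l : ℝ) ≤ (leafD C β (C.leaf l) (C.cap β).1 (C.cap β).2 0 false : ℝ) := by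
        exact_mod_cast h1
      have h4 := mul_le_mul_of_nonneg_left h3 hw
      have h5 := itp_mono hs0 hs1
        (a := ((P.w'.getD l (0, 0)).1 * ((leafD C β (C.leaf l) (C.cap β).1 (C.cap β).2 0 false : ℕ) : ℤ),
          (P.w'.getD l (0, 0)).2 * ((leafD C β (C.leaf l) (C.cap β).1 (C.cap β).2 0 false : ℕ) : ℤ)))
        (b := ((C.cap β).1 * ((P.lam'.getD l 0 : ℕ) : ℤ), (C.cap β).2 * ((P.lam'.getD l 0 : ℕ) : ℤ)))
        hl1 hl2
      rw [itp_mul, itp_mul] at h5
      rw [h2]
      push_cast at h4 h5 ⊢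
      linarith

/-- **Soundness of `chkBin`.** -/
theorem chkBin_sound (C : CertD) (P : PieceD) (hC : C.good = true) (h : chkBin C P = true) {s : ℝ}
    (hs0 : 0 ≤ s) (hs1 : s ≤ 1) (β : Bool) (c d : ℕ → ℕ)
    (hf : Feas (C.alpha s) (1 / (C.M : ℝ)) (C.inst s) β c d) :
    BinIneq (C.alpha s) (C.inst s) (P.wts C.M s) β c d := by
  obtain ⟨hM, h3, h4, h5, h6, h7⟩ := good_iff C hC
  have hM' : (0:ℝ) < C.M := by exact_mod_cast hM
  have hβ : chkLeafAlone C P β C.lf 0 = true ∧
      chk C P β C.st.length 0 (C.cap β).1 (C.cap β).2 0 0 false = true := by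
    unfold chkBin at h
    simp only [List.all_cons, List.all_nil, Bool.and_true, Bool.and_eq_true] at h
    cases β
    · exact h.2
    · exact h.1
  obtain ⟨hA, hB⟩ := hβ
  have hm1 : (C.inst s).m + 1 = C.st.length := by
    show C.st.length - 1 + 1 = C.st.length
    omega
  have hus0 : us c 0 = false := by unfold us; simp
  have key := chk_sound C P β hs0 hs1 c (fun j hj => feas_stage C hC hs0 hs1 β c d hf j hj)
    C.st.length 0 (by omega) 0 0 (by rw [hus0]; exact hB)
  rw [itp_const] at key
  simp only [Int.cast_zero, zero_add, Nat.Ico_zero_eq_range] at key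
  -- the sum of the contributions
  have hsum : ∑ i ∈ Finset.range C.st.length, contr C P β s c i =
      ∑ i ∈ Finset.range C.st.length, itp s (stW C P i (c i) (us c i))
      + ∑ l ∈ Finset.range C.lf.length, (if us c ((C.leaf l).lat + 1) = true then
          itp s (P.w'.getD l (0, 0)) *
            (leafD C β (C.leaf l) (rem C β c ((C.leaf l).lat + 1)).1
              (rem C β c ((C.leaf l).lat + 1)).2 (c (C.leaf l).lat) (us c (C.leaf l).lat) : ℝ)
            - itp s (C.cap β) * ((P.lam'.getD l 0 : ℕ) : ℝ)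
        else 0)
      - itp s (C.cap β) * ∑ i ∈ Finset.range C.st.length, ((P.lam.getD i 0 : ℕ) : ℝ) * (usd c i : ℝ) := by
    have e1 : ∀ i ∈ Finset.range C.st.length, contr C P β s c i =
        itp s (stW C P i (c i) (us c i))
        + (∑ l ∈ Finset.range C.lf.length, if (C.leaf l).lat = i then
            (if us c ((C.leaf l).lat + 1) = true then
              itp s (P.w'.getD l (0, 0)) *
                (leafD C β (C.leaf l) (rem C β c ((C.leaf l).lat + 1)).1
                  (rem C β c ((C.leaf l).lat + 1)).2 (c (C.leaf l).lat) (us c (C.leaf l).lat) : ℝ)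
                - itp s (C.cap β) * ((P.lam'.getD l 0 : ℕ) : ℝ)
            else 0) else 0)
        - itp s (C.cap β) * (((P.lam.getD i 0 : ℕ) : ℝ) * (usd c i : ℝ)) := by
      intro i _
      unfold contr
      rw [usd_eq_of_us]
      by_cases hu : us c (i + 1) = true
      · rw [if_pos hu, if_pos hu, itp_leafSum]
        have e2 : ∑ l ∈ Finset.range C.lf.length,
            (if (C.leaf l).lat = i then
              itp s (P.w'.getD l (0, 0)) *
                (leafD C β (C.leaf l) (rem C β c (i + 1)).1 (rem C β c (i + 1)).2 (c i) (us c i) : ℝ)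
                - itp s (C.cap β) * ((P.lam'.getD l 0 : ℕ) : ℝ)
            else 0) = ∑ l ∈ Finset.range C.lf.length, (if (C.leaf l).lat = i then
            (if us c ((C.leaf l).lat + 1) = true then
              itp s (P.w'.getD l (0, 0)) *
                (leafD C β (C.leaf l) (rem C β c ((C.leaf l).lat + 1)).1
                  (rem C β c ((C.leaf l).lat + 1)).2 (c (C.leaf l).lat) (us c (C.leaf l).lat) : ℝ)
                - itp s (C.cap β) * ((P.lam'.getD l 0 : ℕ) : ℝ)
            else 0) else 0) := by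
          refine Finset.sum_congr rfl (fun l _ => ?_)
          by_cases hl : (C.leaf l).lat = i
          · rw [if_pos hl, if_pos hl, hl, if_pos hu]
          · rw [if_neg hl, if_neg hl]
        rw [e2]
        push_cast
        ring
      · rw [if_neg hu, if_neg hu]
        have hu' : us c (i + 1) = false := by simpa using hu
        rw [itp_stW_unused C P s c i hu']
        have e2 : ∑ l ∈ Finset.range C.lf.length, (if (C.leaf l).lat = i then
            (if us c ((C.leaf l).lat + 1) = true then
              itp s (P.w'.getD l (0, 0)) *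
                (leafD C β (C.leaf l) (rem C β c ((C.leaf l).lat + 1)).1
                  (rem C β c ((C.leaf l).lat + 1)).2 (c (C.leaf l).lat) (us c (C.leaf l).lat) : ℝ)
                - itp s (C.cap β) * ((P.lam'.getD l 0 : ℕ) : ℝ)
            else 0) else 0) = 0 := by
          refine Finset.sum_eq_zero (fun l _ => ?_)
          by_cases hl : (C.leaf l).lat = i
          · rw [if_pos hl, hl, if_neg hu]
          · rw [if_neg hl]
        rw [e2]
        simp
    rw [Finset.sum_congr rfl e1, Finset.sum_sub_distrib, Finset.sum_add_distrib, Finset.sum_comm,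
      Finset.mul_sum]
    congr 2
    refine Finset.sum_congr rfl (fun l hl => ?_)
    rw [Finset.sum_ite_eq, if_pos]
    exact Finset.mem_range.2 (h7 l (Finset.mem_range.1 hl)).1
  -- stage part
  have hstage : ∑ i ∈ Finset.range C.st.length, itp s (stW C P i (c i) (us c i)) =
      ∑ j ∈ Finset.range (C.inst s).m, itp s (P.w.getD j (0, 0)) * (c j : ℝ)
      + (itp s P.wS * ((c (C.inst s).m : ℝ) - (opn (C.inst s) c : ℝ))
        + itp s P.wL * (opn (C.inst s) c : ℝ)) := by
    rw [← hm1, Finset.sum_range_succ, itp_stW_last C P s c h5]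
    congr 1
    refine Finset.sum_congr rfl (fun j hj => ?_)
    have := Finset.mem_range.1 hj
    exact itp_stW_lt C P s c j _ (by omega)
  -- leaves
  have hleaf : ∑ l ∈ Finset.range C.lf.length, (itp s (P.w'.getD l (0, 0)) * (d l : ℝ)
      - itp s (C.cap β) * (((P.lam'.getD l 0 : ℕ) : ℝ) * (usdL (C.inst s) c d l : ℝ))) ≤
      ∑ l ∈ Finset.range C.lf.length, (if us c ((C.leaf l).lat + 1) = true then
          itp s (P.w'.getD l (0, 0)) *
            (leafD C β (C.leaf l) (rem C β c ((C.leaf l).lat + 1)).1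
              (rem C β c ((C.leaf l).lat + 1)).2 (c (C.leaf l).lat) (us c (C.leaf l).lat) : ℝ)
            - itp s (C.cap β) * ((P.lam'.getD l 0 : ℕ) : ℝ)
        else 0) :=
    Finset.sum_le_sum (fun l hl => leaf_contr C P hC hs0 hs1 β hA c d hf l (Finset.mem_range.1 hl))
  rw [Finset.sum_sub_distrib, ← Finset.mul_sum] at hleaf
  rw [hsum, hstage] at key
  unfold BinIneq
  have hnl : (C.inst s).nl = C.lf.length := rfl
  rw [hnl, hm1, bs_cap C hM s β]
  have w1 : ∀ j, (P.wts C.M s).w j = itp s (P.w.getD j (0, 0)) / (C.M : ℝ) := fun j => rfl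
  have w2 : (P.wts C.M s).wS = itp s P.wS / (C.M : ℝ) := rfl
  have w3 : (P.wts C.M s).wL = itp s P.wL / (C.M : ℝ) := rfl
  have w4 : ∀ l, (P.wts C.M s).w' l = itp s (P.w'.getD l (0, 0)) / (C.M : ℝ) := fun l => rfl
  have w5 : ∀ j, (P.wts C.M s).lam j = ((P.lam.getD j 0 : ℕ) : ℝ) := fun j => rfl
  have w6 : ∀ l, (P.wts C.M s).lam' l = ((P.lam'.getD l 0 : ℕ) : ℝ) := fun l => rfl
  simp only [w1, w2, w3, w4, w5, w6]
  have e3 : ∑ j ∈ Finset.range (C.inst s).m, itp s (P.w.getD j (0, 0)) / (C.M : ℝ) * (c j : ℝ) =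
      (∑ j ∈ Finset.range (C.inst s).m, itp s (P.w.getD j (0, 0)) * (c j : ℝ)) / (C.M : ℝ) := by
    rw [Finset.sum_div]
    exact Finset.sum_congr rfl (fun j _ => by ring)
  have e4 : ∑ l ∈ Finset.range C.lf.length, itp s (P.w'.getD l (0, 0)) / (C.M : ℝ) * (d l : ℝ) =
      (∑ l ∈ Finset.range C.lf.length, itp s (P.w'.getD l (0, 0)) * (d l : ℝ)) / (C.M : ℝ) := by
    rw [Finset.sum_div]
    exact Finset.sum_congr rfl (fun j _ => by ring)
  rw [e3, e4, div_mul_eq_mul_div, div_mul_eq_mul_div, div_mul_eq_mul_div, ← add_div, ← add_div, ← add_div]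
  apply div_le_div_of_nonneg_right _ hM'.le
  linarith

end VB85
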