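import Pool.Agent.LibVB85.Game

/-! Summing the bin inequality over all bins. -/

namespace VB85

variable {α ε : ℝ} {I : Inst} {N : ℕ} {place : List ℝ → ℝ → Bin}

/-- the number of bins opened in stage `m` -/
def Game.X (G : Game α ε I N place) : ℕ := ((((rn place G.S I.m).map Prod.snd).toFinset) \
    (((run place [] (hst G.S I.m)).map Prod.snd).toFinset)).card

/-- all bins used at some node -/
def Game.U (G : Game α ε I N place) : Finset Bin :=
  ((run place [] (hst G.S (I.m + 1))).map Prod.snd).toFinset ∪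
    (Finset.range I.nl).biUnion fun l => ((run place [] (G.NL l)).map Prod.snd).toFinset

theorem Game.usd_eq (G : Game α ε I N place) (j : ℕ) (b : Bin) :
    usd (G.c b) j = if b ∈ (run place [] (G.NC j)).map Prod.snd then 1 else 0 := by
  unfold usd Game.NC
  simp only [mem_hst, Nat.lt_succ_iff]

theorem Game.usdL_eq (G : Game α ε I N place) (l : ℕ) (b : Bin) :
    usdL I (G.c b) (G.dt b) l = if b ∈ (run place [] (G.NL l)).map Prod.snd then 1 else 0 := by
  unfold usdL
  rw [G.run_NL, List.map_append]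
  simp only [List.mem_append, mem_hst, Nat.lt_succ_iff]
  have : (b ∈ (G.rl l).map Prod.snd) ↔ G.dt b l ≠ 0 := by
    unfold Game.dt; rw [← List.count_pos_iff]; omega
  simp only [this]

theorem Game.sub_NC (G : Game α ε I N place) {j : ℕ} (hj : j ≤ I.m) :
    ((run place [] (G.NC j)).map Prod.snd).toFinset ⊆ G.U := by
  intro b hb
  rw [List.mem_toFinset] at hb
  unfold Game.NC at hb
  rw [mem_hst] at hb
  obtain ⟨i, hi, hc⟩ := hb
  apply Finset.mem_union_left
  rw [List.mem_toFinset, mem_hst]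
  exact ⟨i, by omega, hc⟩

theorem Game.sub_rn (G : Game α ε I N place) {j : ℕ} (hj : j ≤ I.m) :
    ((rn place G.S j).map Prod.snd).toFinset ⊆ G.U := by
  intro b hb
  rw [List.mem_toFinset] at hb
  apply Finset.mem_union_left
  rw [List.mem_toFinset, mem_hst]
  refine ⟨j, by omega, ?_⟩
  unfold ct
  have := List.count_pos_iff.2 hb
  omega

theorem Game.sub_NL (G : Game α ε I N place) {l : ℕ} (hl : l < I.nl) :
    ((run place [] (G.NL l)).map Prod.snd).toFinset ⊆ G.U := by
  intro b hb
  apply Finset.mem_union_right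
  exact Finset.mem_biUnion.2 ⟨l, Finset.mem_range.2 hl, hb⟩

theorem Game.sub_rl (G : Game α ε I N place) {l : ℕ} (hl : l < I.nl) :
    ((G.rl l).map Prod.snd).toFinset ⊆ G.U := by
  intro b hb
  apply G.sub_NL hl
  rw [G.run_NL, List.map_append, List.toFinset_append]
  exact Finset.mem_union_right _ hb

theorem Game.sum_opn (G : Game α ε I N place) :
    ∑ b ∈ G.U, (opn I (G.c b) : ℝ) = G.X := by
  have h : ∀ b, opn I (G.c b) = if b ∈ ((((rn place G.S I.m).map Prod.snd).toFinset) \
    (((run place [] (hst G.S I.m)).map Prod.snd).toFinset)) then 1 else 0 := by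
    intro b
    have h1 : (G.c b I.m ≠ 0) ↔ b ∈ (rn place G.S I.m).map Prod.snd := by
      unfold Game.c ct; rw [← List.count_pos_iff]; omega
    have h2 : (∀ j < I.m, G.c b j = 0) ↔ ¬ ∃ i < I.m, ct place G.S b i ≠ 0 := by
      push Not; rfl
    have h3 : (G.c b I.m ≠ 0 ∧ ∀ j < I.m, G.c b j = 0) ↔
        b ∈ ((((rn place G.S I.m).map Prod.snd).toFinset) \
          (((run place [] (hst G.S I.m)).map Prod.snd).toFinset)) := by
      rw [Finset.mem_sdiff, List.mem_toFinset, List.mem_toFinset, mem_hst, h1, h2]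
    unfold opn
    by_cases h4 : (G.c b I.m ≠ 0 ∧ ∀ j < I.m, G.c b j = 0)
    · rw [if_pos h4, if_pos (h3.1 h4)]
    · rw [if_neg h4, if_neg (fun h => h4 (h3.2 h))]
  have h2 : ∀ b ∈ G.U, (opn I (G.c b) : ℝ) = if b ∈ ((((rn place G.S I.m).map Prod.snd).toFinset) \
    (((run place [] (hst G.S I.m)).map Prod.snd).toFinset)) then (1:ℝ) else 0 := by
    intro b _
    rw [h b]; split_ifs <;> simp
  rw [Finset.sum_congr rfl h2, Finset.sum_ite_mem, Finset.inter_eq_right.2]
  · unfold Game.X; simp
  · exact (Finset.sdiff_subset).trans (G.sub_rn le_rfl)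

/-- The total weight is at most the weighted cost of the nodes. -/
theorem Game.total (G : Game α ε I N place) (W : Wts)
    (h : ∀ b, BinIneq α I W b.1 (G.c b) (G.dt b)) :
    ∑ j ∈ Finset.range I.m, W.w j * ((I.n j * N : ℕ) : ℝ)
      + W.wS * (((I.n I.m * N : ℕ) : ℝ) - G.X) + W.wL * (G.X : ℝ)
      + ∑ l ∈ Finset.range I.nl, W.w' l * ((G.R l).length : ℝ)
    ≤ ∑ j ∈ Finset.range (I.m + 1), W.lam j * cost α (run place [] (G.NC j))
      + ∑ l ∈ Finset.range I.nl, W.lam' l * cost α (run place [] (G.NL l)) := by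
  have hsum := Finset.sum_le_sum (s := G.U) (fun b _ => h b)
  -- counts
  have c1 : ∀ j ≤ I.m, ∑ b ∈ G.U, (G.c b j : ℝ) = ((G.S j).length : ℝ) := by
    intro j hj
    have := sum_count_eq_length (G.sub_rn hj)
    rw [show (rn place G.S j).length = (G.S j).length by unfold rn; exact run_length _ _ _] at this
    exact_mod_cast this
  have c2 : ∀ j < I.m, ((G.S j).length : ℝ) = ((I.n j * N : ℕ) : ℝ) := by
    intro j hj; rw [G.hS j hj]; simp
  have c3 : ∀ l < I.nl, ∑ b ∈ G.U, (G.dt b l : ℝ) = ((G.R l).length : ℝ) := by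
    intro l hl
    have := sum_count_eq_length (G.sub_rl hl)
    rw [show (G.rl l).length = (G.R l).length by unfold Game.rl; exact run_length _ _ _] at this
    exact_mod_cast this
  -- costs
  have k1 : ∀ j ≤ I.m, cost α (run place [] (G.NC j)) =
      ∑ b ∈ G.U, bsize α b * (usd (G.c b) j : ℝ) := by
    intro j hj
    exact cost_eq_sum (G.sub_NC hj) (fun b => usd (G.c b) j) (fun b => G.usd_eq j b)
  have k2 : ∀ l < I.nl, cost α (run place [] (G.NL l)) =
      ∑ b ∈ G.U, bsize α b * (usdL I (G.c b) (G.dt b) l : ℝ) := by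
    intro l hl
    exact cost_eq_sum (G.sub_NL hl) (fun b => usdL I (G.c b) (G.dt b) l) (fun b => G.usdL_eq l b)
  have eR : ∑ b ∈ G.U, bs α b.1 * (∑ j ∈ Finset.range (I.m + 1), W.lam j * (usd (G.c b) j : ℝ)
      + ∑ l ∈ Finset.range I.nl, W.lam' l * (usdL I (G.c b) (G.dt b) l : ℝ)) =
      ∑ j ∈ Finset.range (I.m + 1), W.lam j * cost α (run place [] (G.NC j))
      + ∑ l ∈ Finset.range I.nl, W.lam' l * cost α (run place [] (G.NL l)) := by
    have e1 : ∑ j ∈ Finset.range (I.m + 1), W.lam j * cost α (run place [] (G.NC j)) =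
        ∑ b ∈ G.U, bs α b.1 * ∑ j ∈ Finset.range (I.m + 1), W.lam j * (usd (G.c b) j : ℝ) := by
      rw [Finset.sum_congr rfl (fun j hj => by
        rw [k1 j (by have := Finset.mem_range.1 hj; omega), Finset.mul_sum]), Finset.sum_comm]
      apply Finset.sum_congr rfl
      intro b _
      rw [Finset.mul_sum]
      apply Finset.sum_congr rfl
      intro j _
      rw [bs_eq]; ring
    have e2 : ∑ l ∈ Finset.range I.nl, W.lam' l * cost α (run place [] (G.NL l)) =
        ∑ b ∈ G.U, bs α b.1 * ∑ l ∈ Finset.range I.nl, W.lam' l *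
          (usdL I (G.c b) (G.dt b) l : ℝ) := by
      rw [Finset.sum_congr rfl (fun l hl => by
        rw [k2 l (Finset.mem_range.1 hl), Finset.mul_sum]), Finset.sum_comm]
      apply Finset.sum_congr rfl
      intro b _
      rw [Finset.mul_sum]
      apply Finset.sum_congr rfl
      intro j _
      rw [bs_eq]; ring
    rw [e1, e2, ← Finset.sum_add_distrib]
    apply Finset.sum_congr rfl
    intro b _
    ring
  have eL : ∑ b ∈ G.U, (∑ j ∈ Finset.range I.m, W.w j * (G.c b j : ℝ)
      + W.wS * ((G.c b I.m : ℝ) - opn I (G.c b)) + W.wL * (opn I (G.c b) : ℝ)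
      + ∑ l ∈ Finset.range I.nl, W.w' l * (G.dt b l : ℝ)) =
      ∑ j ∈ Finset.range I.m, W.w j * ((I.n j * N : ℕ) : ℝ)
      + W.wS * (((I.n I.m * N : ℕ) : ℝ) - G.X) + W.wL * (G.X : ℝ)
      + ∑ l ∈ Finset.range I.nl, W.w' l * ((G.R l).length : ℝ) := by
    rw [Finset.sum_add_distrib, Finset.sum_add_distrib, Finset.sum_add_distrib]
    congr 1
    · congr 1
      · congr 1
        · rw [Finset.sum_comm]
          apply Finset.sum_congr rfl
          intro j hj
          have hj' := Finset.mem_range.1 hj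
          rw [← Finset.mul_sum, c1 j hj'.le, c2 j hj']
        · rw [← Finset.mul_sum, Finset.sum_sub_distrib, c1 I.m le_rfl, G.sum_opn, G.hlen]
      · rw [← Finset.mul_sum, G.sum_opn]
    · rw [Finset.sum_comm]
      apply Finset.sum_congr rfl
      intro l hl
      rw [← Finset.mul_sum, c3 l (Finset.mem_range.1 hl)]
  rw [← eL, ← eR]
  exact hsum

end VB85
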