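import Pool.Agent.LibVB85.UBDefs

/-! Integer data for the classes. -/

namespace VB85

/-- a class with integer data (sizes and weight times `D`) -/
structure IC where
  lo : ℤ
  hi : ℤ
  ty : Bool
  k : ℕ
  w : ℤ

noncomputable def IC.toCls (D : ℝ) (x : IC) : Cls := ⟨(x.lo : ℝ) / D, (x.hi : ℝ) / D, x.ty, x.k⟩

/-- capacities times `D` -/
def icap (D A : ℤ) (B : Bool) : ℤ := if B then D else A

/-- the classes form a chain from `h` down to `e` -/
def chkChain (e : ℤ) : ℤ → List IC → Bool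
  | h, [] => decide (h = e)
  | h, x :: xs => decide (x.hi = h) && decide (x.lo ≤ x.hi) && chkChain e x.lo xs

def chkUB (D A e : ℤ) (ics : List IC) : Bool :=
  decide (0 < e) && decide (e < D) && decide (0 < A) && decide (A < D) && chkChain e D ics &&
  ics.all (fun x => decide (0 < x.lo) && decide (0 ≤ x.hi) && decide (0 < x.k) &&
    decide ((x.k : ℤ) * x.hi ≤ icap D A x.ty) && decide (icap D A x.ty ≤ x.w * x.k))

private theorem u5_chain {D : ℝ} (e : ℤ) : ∀ (ics : List IC) (h : ℤ),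
    chkChain e h ics = true → ∀ a : ℝ, (e : ℝ) / D < a → a ≤ (h : ℝ) / D →
      ∃ c ∈ ics.map (IC.toCls D), c.lo < a ∧ a ≤ c.hi := by
  intro ics
  induction ics with
  | nil =>
    intro h hc a h1 h2
    simp only [chkChain, decide_eq_true_eq] at hc
    subst hc
    exact absurd h1 (not_lt.2 h2)
  | cons x xs ih =>
    intro h hc a h1 h2
    simp only [chkChain, Bool.and_eq_true, decide_eq_true_eq] at hc
    obtain ⟨⟨rfl, -⟩, hc2⟩ := hc
    rcases le_or_gt a ((x.lo : ℝ) / D) with hle | hgt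
    · obtain ⟨c, hc, h3⟩ := ih x.lo hc2 a h1 hle
      exact ⟨c, List.mem_cons_of_mem _ hc, h3⟩
    · exact ⟨IC.toCls D x, List.mem_cons_self, hgt, h2⟩

private theorem u5_icap {D A : ℤ} (hD : (0 : ℝ) < D) (B : Bool) :
    (icap D A B : ℝ) / (D : ℝ) = bs ((A : ℝ) / (D : ℝ)) B := by
  cases B
  · simp [icap, bs]
  · simp only [icap, bs, if_true]
    exact div_self hD.ne'

theorem chkUB_good {D A e : ℤ} {ics : List IC} (h : chkUB D A e ics = true) :
    GoodCls ((A : ℝ) / (D : ℝ)) ((e : ℝ) / (D : ℝ)) (ics.map (IC.toCls (D : ℝ))) := by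
  simp only [chkUB, Bool.and_eq_true, decide_eq_true_eq, List.all_eq_true] at h
  obtain ⟨⟨⟨⟨⟨he, heD⟩, hA⟩, hAD⟩, hch⟩, hall⟩ := h
  have he' : (0 : ℝ) < e := by exact_mod_cast he
  have heD' : (e : ℝ) < D := by exact_mod_cast heD
  have hD : (0 : ℝ) < D := he'.trans heD'
  refine ⟨div_pos he' hD, (div_lt_one hD).2 heD', ?_, ?_, ?_, ?_⟩
  · intro c hc
    obtain ⟨x, hx, rfl⟩ := List.mem_map.1 hc
    exact (hall x hx).1.1.2
  · intro c hc
    obtain ⟨x, hx, rfl⟩ := List.mem_map.1 hc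
    have : (0 : ℝ) ≤ x.hi := by exact_mod_cast (hall x hx).1.1.1.2
    exact div_nonneg this hD.le
  · intro c hc
    obtain ⟨x, hx, rfl⟩ := List.mem_map.1 hc
    have h1 : ((x.k : ℤ) * x.hi : ℤ) ≤ icap D A x.ty := (hall x hx).1.2
    have h2 : ((x.k : ℝ) * x.hi) ≤ icap D A x.ty := by exact_mod_cast h1
    change (x.k : ℝ) * ((x.hi : ℝ) / D) ≤ bs ((A : ℝ) / (D : ℝ)) x.ty
    rw [← u5_icap hD, ← mul_div_assoc]
    exact div_le_div_of_nonneg_right h2 hD.le
  · intro a h1 h2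
    refine u5_chain e ics D hch a h1 ?_
    rw [div_self hD.ne']; exact h2

/-- the weights -/
theorem chkUB_wt {D A e : ℤ} {ics : List IC} (h : chkUB D A e ics = true) (a : ℝ) (ha : 0 < a)
    (ha1 : a ≤ 1) :
    wt ((A : ℝ) / (D : ℝ)) ((e : ℝ) / (D : ℝ)) (ics.map (IC.toCls (D : ℝ))) a ≤
        a * (((D : ℤ) : ℝ) / ((D - e : ℤ) : ℝ)) ∨
      ∃ p ∈ ics.map (fun x => (x.lo, x.w)), (p.1 : ℝ) / (D : ℝ) < a ∧
        wt ((A : ℝ) / (D : ℝ)) ((e : ℝ) / (D : ℝ)) (ics.map (IC.toCls (D : ℝ))) a ≤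
          (p.2 : ℝ) / (D : ℝ) := by
  have hg := chkUB_good h
  simp only [chkUB, Bool.and_eq_true, decide_eq_true_eq, List.all_eq_true] at h
  obtain ⟨⟨⟨⟨⟨he, heD⟩, hA⟩, hAD⟩, hch⟩, hall⟩ := h
  have he' : (0 : ℝ) < e := by exact_mod_cast he
  have heD' : (e : ℝ) < D := by exact_mod_cast heD
  have hD : (0 : ℝ) < D := he'.trans heD'
  by_cases hae : a ≤ (e : ℝ) / (D : ℝ)
  · left
    unfold wt
    rw [if_pos hae]
    have hDe : (0 : ℝ) < (D : ℝ) - e := by linarith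
    have h1 : (1 : ℝ) - (e : ℝ) / (D : ℝ) = ((D : ℝ) - e) / D := by
      rw [sub_div, div_self hD.ne']
    rw [h1]
    push_cast
    rw [div_div_eq_mul_div, mul_div_assoc]
  · right
    have hcov := hg.cover a (not_le.1 hae) ha1
    have hlt := idx_lt hcov
    have hmem := cl_mem hlt
    have hlo := (cl_idx hcov).1
    obtain ⟨x, hx, hxe⟩ := List.mem_map.1 hmem
    refine ⟨(x.lo, x.w), List.mem_map.2 ⟨x, hx, rfl⟩, ?_, ?_⟩
    · rw [← hxe] at hlo
      exact hlo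
    · unfold wt
      rw [if_neg hae, ← hxe]
      change bs ((A : ℝ) / (D : ℝ)) x.ty / (x.k : ℝ) ≤ (x.w : ℝ) / (D : ℝ)
      have hk : (0 : ℝ) < x.k := by exact_mod_cast (hall x hx).1.1.2
      have h2 : (icap D A x.ty : ℝ) ≤ (x.w : ℝ) * x.k := by exact_mod_cast (hall x hx).2
      rw [← u5_icap hD, div_div, div_le_div_iff₀ (mul_pos hD hk) hD]
      nlinarith [mul_le_mul_of_nonneg_right h2 hD.le]

end VB85
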