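import Pool.Agent.LibVB85.UBDefs

/-! The cost of the harmonic algorithm. -/

namespace VB85

theorem U2_tsum_append (e : ℝ) (L M : List ℝ) : tsum e (L ++ M) = tsum e L + tsum e M := by
  unfold tsum
  rw [List.filter_append, List.sum_append]

theorem U2_ncl_append (e : ℝ) (cs : List Cls) (L M : List ℝ) (i : ℕ) :
    ncl e cs (L ++ M) i = ncl e cs L i + ncl e cs M i := by
  unfold ncl
  rw [List.filter_append, List.length_append]

theorem U2_tsum_nonneg (e : ℝ) (L : List ℝ) (hL : IsInput L) : 0 ≤ tsum e L := by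
  unfold tsum
  refine List.sum_nonneg (fun a ha => ?_)
  exact (hL a (List.mem_of_mem_filter ha)).1.le

/-- The total weight in terms of the classes. -/
theorem sum_wt_eq {α e : ℝ} {cs : List Cls} (hg : GoodCls α e cs) (L : List ℝ) (hL : IsInput L) :
    (L.map (wt α e cs)).sum = tsum e L / (1 - e) +
      ∑ i ∈ Finset.range cs.length, (ncl e cs L i : ℝ) * (bs α (cl cs i).ty / ((cl cs i).k : ℝ)) := by
  classical
  induction L with
  | nil => simp [tsum, ncl]
  | cons a L ih =>
    rw [List.map_cons, List.sum_cons, ih (fun x hx => hL x (List.mem_cons_of_mem _ hx))]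
    have ha := hL a List.mem_cons_self
    have e1 : tsum e (a :: L) = (if a ≤ e then a else 0) + tsum e L := by
      unfold tsum
      by_cases h : a ≤ e
      · rw [List.filter_cons_of_pos (by simpa using h), List.sum_cons, if_pos h]
      · rw [List.filter_cons_of_neg (by simpa using h), if_neg h, zero_add]
    have e2 : ∀ i, (ncl e cs (a :: L) i : ℝ) =
        (if (¬ a ≤ e ∧ idx cs a = i) then 1 else 0) + (ncl e cs L i : ℝ) := by
      intro i
      unfold ncl
      by_cases h : ¬ a ≤ e ∧ idx cs a = i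
      · rw [List.filter_cons_of_pos (by simpa using h), List.length_cons, if_pos h]
        push_cast
        ring
      · rw [List.filter_cons_of_neg (by simpa using h), if_neg h, zero_add]
    simp only [e1, e2, add_mul, Finset.sum_add_distrib, add_div]
    unfold wt
    by_cases h : a ≤ e
    · rw [if_pos h, if_pos h]
      have e3 : ∑ i ∈ Finset.range cs.length, (if (¬ a ≤ e ∧ idx cs a = i) then (1:ℝ) else 0) *
          (bs α (cl cs i).ty / ((cl cs i).k : ℝ)) = 0 := by
        refine Finset.sum_eq_zero (fun i _ => ?_)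
        rw [if_neg (fun hh => hh.1 h), zero_mul]
      rw [e3]
      ring
    · rw [if_neg h, if_neg h]
      have e3 : ∑ i ∈ Finset.range cs.length, (if (¬ a ≤ e ∧ idx cs a = i) then (1:ℝ) else 0) *
          (bs α (cl cs i).ty / ((cl cs i).k : ℝ)) =
          bs α (cl cs (idx cs a)).ty / ((cl cs (idx cs a)).k : ℝ) := by
        rw [Finset.sum_eq_single (idx cs a)]
        · rw [if_pos ⟨h, rfl⟩, one_mul]
        · intro i _ hi
          rw [if_neg (fun hh => hi hh.2.symm), zero_mul]
        · intro hi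
          exact absurd (Finset.mem_range.2 (idx_lt (hg.cover a (not_le.1 h) ha.2))) hi
      rw [e3]
      ring

theorem U2_one_sub {α e : ℝ} {cs : List Cls} (hg : GoodCls α e cs) : 0 < 1 - e := by
  have := hg.e_lt
  linarith

/-- Used bins (induction on `L` from the right). -/
theorem hplace_used {α e : ℝ} {cs : List Cls} (hg : GoodCls α e cs) (L : List ℝ) (hL : IsInput L)
    (b : Bin) (hb : b ∈ (run (hplace e cs) [] L).map Prod.snd) :
    (∃ j : ℕ, b = (true, Nat.pair 0 j) ∧ j ≤ ⌊tsum e L / (1 - e)⌋₊) ∨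
    (∃ i < cs.length, ∃ q : ℕ, b = ((cl cs i).ty, Nat.pair (i + 1) q) ∧
      q ≤ ncl e cs L i / (cl cs i).k) := by
  induction L using List.reverseRecOn with
  | nil => simp [run] at hb
  | append_singleton L a ih =>
    have hL1 : IsInput L := fun x hx => hL x (List.mem_append_left _ hx)
    have hL2 : IsInput [a] := fun x hx => hL x (List.mem_append_right _ hx)
    have ha := hL a (List.mem_append_right _ List.mem_cons_self)
    have hm : ⌊tsum e L / (1 - e)⌋₊ ≤ ⌊tsum e (L ++ [a]) / (1 - e)⌋₊ := by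
      refine Nat.floor_le_floor ?_
      rw [U2_tsum_append]
      have := U2_tsum_nonneg e [a] hL2
      exact div_le_div_of_nonneg_right (by linarith) (U2_one_sub hg).le
    have hn : ∀ i, ncl e cs L i / (cl cs i).k ≤ ncl e cs (L ++ [a]) i / (cl cs i).k := by
      intro i
      refine Nat.div_le_div_right ?_
      rw [U2_ncl_append]
      exact Nat.le_add_right _ _
    rw [run_append, List.map_append, List.mem_append] at hb
    rcases hb with hb | hb
    · rcases ih hL1 hb with ⟨j, h1, h2⟩ | ⟨i, h1, q, h2, h3⟩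
      · exact Or.inl ⟨j, h1, h2.trans hm⟩
      · exact Or.inr ⟨i, h1, q, h2, h3.trans (hn i)⟩
    · have hb' : b = hplace e cs L a := by simpa [run] using hb
      by_cases h : a ≤ e
      · left
        refine ⟨⌊tsum e L / (1 - e)⌋₊, ?_, hm⟩
        rw [hb', hplace, if_pos h]
      · right
        refine ⟨idx cs a, idx_lt (hg.cover a (not_le.1 h) ha.2), _, ?_, hn _⟩
        rw [hb', hplace, if_neg h]

theorem U2_bs_le {α : ℝ} (h1 : α < 1) (B : Bool) : bs α B ≤ 1 := by
  unfold bs
  split_ifs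
  · exact le_rfl
  · exact h1.le

theorem U2_bs_nonneg {α : ℝ} (h0 : 0 < α) (B : Bool) : 0 ≤ bs α B := by
  unfold bs
  split_ifs
  · exact zero_le_one
  · exact h0.le

/-- **Cost of the harmonic algorithm.** -/
theorem hplace_cost {α e : ℝ} {cs : List Cls} (h0 : 0 < α) (h1 : α < 1) (hg : GoodCls α e cs)
    (L : List ℝ) (hL : IsInput L) :
    cost α (run (hplace e cs) [] L) ≤ (L.map (wt α e cs)).sum + ((cs.length : ℝ) + 1) := by
  classical
  set ty : ℕ → Bool := fun i => match i with
    | 0 => true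
    | i + 1 => (cl cs i).ty with hty
  set cnt : ℕ → ℕ := fun i => match i with
    | 0 => ⌊tsum e L / (1 - e)⌋₊
    | i + 1 => ncl e cs L i / (cl cs i).k with hcnt
  set T : Finset ((_ : ℕ) × ℕ) := (Finset.range (cs.length + 1)).sigma
    (fun i => Finset.range (cnt i + 1)) with hT
  set g : ((_ : ℕ) × ℕ) → Bin := fun t => (ty t.1, Nat.pair t.1 t.2) with hgd
  have hinj : Function.Injective g := by
    rintro ⟨i, q⟩ ⟨i', q'⟩ h
    have h2 : Nat.pair i q = Nat.pair i' q' := congrArg Prod.snd h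
    obtain ⟨h3, h4⟩ := Nat.pair_eq_pair.1 h2
    subst h3
    subst h4
    rfl
  have hsub : ((run (hplace e cs) [] L).map Prod.snd).toFinset ⊆ T.image g := by
    intro b hb
    rw [List.mem_toFinset] at hb
    rw [Finset.mem_image]
    rcases hplace_used hg L hL b hb with ⟨j, h2, h3⟩ | ⟨i, hi, q, h2, h3⟩
    · refine ⟨⟨0, j⟩, ?_, h2.symm⟩
      rw [hT, Finset.mem_sigma]
      exact ⟨Finset.mem_range.2 (Nat.succ_pos _), Finset.mem_range.2 (Nat.lt_succ_of_le h3)⟩
    · refine ⟨⟨i + 1, q⟩, ?_, h2.symm⟩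
      rw [hT, Finset.mem_sigma]
      exact ⟨Finset.mem_range.2 (Nat.succ_lt_succ hi), Finset.mem_range.2 (Nat.lt_succ_of_le h3)⟩
  have e1 : cost α (run (hplace e cs) [] L) ≤ ∑ b ∈ T.image g, bsize α b :=
    Finset.sum_le_sum_of_subset_of_nonneg hsub (fun b _ _ => (bsize_pos h0 b).le)
  rw [Finset.sum_image (fun x _ y _ h => hinj h), hT, Finset.sum_sigma] at e1
  have e2 : ∀ i, ∑ q ∈ Finset.range (cnt i + 1), bsize α (g ⟨i, q⟩) =
      ((cnt i : ℝ) + 1) * bs α (ty i) := by
    intro i
    have h2 : ∀ q ∈ Finset.range (cnt i + 1), bsize α (g ⟨i, q⟩) = bs α (ty i) :=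
      fun q _ => bs_eq α (g ⟨i, q⟩)
    rw [Finset.sum_congr rfl h2, Finset.sum_const, Finset.card_range, nsmul_eq_mul]
    push_cast
    rfl
  rw [Finset.sum_congr rfl (fun i _ => e2 i), Finset.sum_range_succ'] at e1
  rw [sum_wt_eq hg L hL]
  have e3 : ((cnt 0 : ℝ) + 1) * bs α (ty 0) ≤ tsum e L / (1 - e) + 1 := by
    have h2 : (cnt 0 : ℝ) ≤ tsum e L / (1 - e) :=
      Nat.floor_le (div_nonneg (U2_tsum_nonneg e L hL) (U2_one_sub hg).le)
    have h3 : bs α (ty 0) = 1 := rfl
    rw [h3]
    linarith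
  have e4 : ∑ i ∈ Finset.range cs.length, ((cnt (i + 1) : ℝ) + 1) * bs α (ty (i + 1)) ≤
      ∑ i ∈ Finset.range cs.length,
        ((ncl e cs L i : ℝ) * (bs α (cl cs i).ty / ((cl cs i).k : ℝ)) + 1) := by
    refine Finset.sum_le_sum (fun i hi => ?_)
    have hk : (0 : ℝ) < ((cl cs i).k : ℝ) := by
      exact_mod_cast hg.k_pos _ (cl_mem (Finset.mem_range.1 hi))
    have h2 : (cnt (i + 1) : ℝ) ≤ (ncl e cs L i : ℝ) / ((cl cs i).k : ℝ) := Nat.cast_div_le
    have h3 : ty (i + 1) = (cl cs i).ty := rfl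
    rw [h3, add_mul, one_mul]
    have h4 := mul_le_mul_of_nonneg_right h2 (U2_bs_nonneg h0 (cl cs i).ty)
    have h5 : (ncl e cs L i : ℝ) / ((cl cs i).k : ℝ) * bs α (cl cs i).ty =
        (ncl e cs L i : ℝ) * (bs α (cl cs i).ty / ((cl cs i).k : ℝ)) := by ring
    have h6 := U2_bs_le h1 (cl cs i).ty
    linarith
  rw [Finset.sum_add_distrib, Finset.sum_const, Finset.card_range, nsmul_eq_mul, mul_one] at e4
  linarith

end VB85
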