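import Pool.Agent.LibVB85.Basic
import Pool.Agent.LibVB85.Inst

/-! Upper bound: a harmonic algorithm with classes of items. -/

namespace VB85

/-- a class of items: sizes in `(lo, hi]`, `k` items per bin of type `ty` -/
structure Cls where
  lo : ℝ
  hi : ℝ
  ty : Bool
  k : ℕ

/-- conditions on the classes; items `≤ e` are tiny -/
structure GoodCls (α e : ℝ) (cs : List Cls) : Prop where
  e_pos : 0 < e
  e_lt : e < 1
  k_pos : ∀ c ∈ cs, 0 < c.k
  hi_nonneg : ∀ c ∈ cs, 0 ≤ c.hi
  fit : ∀ c ∈ cs, (c.k : ℝ) * c.hi ≤ bs α c.ty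
  cover : ∀ a, e < a → a ≤ 1 → ∃ c ∈ cs, c.lo < a ∧ a ≤ c.hi

open Classical in
/-- index of the class of an item (`cs.length` if there is none) -/
noncomputable def idx (cs : List Cls) (a : ℝ) : ℕ := cs.findIdx (fun c => decide (c.lo < a ∧ a ≤ c.hi))

/-- class number `i` -/
def cl (cs : List Cls) (i : ℕ) : Cls := cs.getD i ⟨0, 0, true, 1⟩

open Classical in
/-- total size of the tiny items -/
noncomputable def tsum (e : ℝ) (L : List ℝ) : ℝ := (L.filter (fun a => decide (a ≤ e))).sum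

open Classical in
/-- number of items of class `i` -/
noncomputable def ncl (e : ℝ) (cs : List Cls) (L : List ℝ) (i : ℕ) : ℕ :=
  (L.filter (fun a => decide (¬ a ≤ e ∧ idx cs a = i))).length

open Classical in
/-- the placement rule -/
noncomputable def hplace (e : ℝ) (cs : List Cls) (hist : List ℝ) (a : ℝ) : Bin :=
  if a ≤ e then (true, Nat.pair 0 ⌊tsum e hist / (1 - e)⌋₊)
  else ((cl cs (idx cs a)).ty, Nat.pair (idx cs a + 1) (ncl e cs hist (idx cs a) / (cl cs (idx cs a)).k))

open Classical in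
/-- the weight of an item -/
noncomputable def wt (α e : ℝ) (cs : List Cls) (a : ℝ) : ℝ :=
  if a ≤ e then a / (1 - e) else bs α (cl cs (idx cs a)).ty / ((cl cs (idx cs a)).k : ℝ)

theorem idx_lt {cs : List Cls} {a : ℝ} (h : ∃ c ∈ cs, c.lo < a ∧ a ≤ c.hi) : idx cs a < cs.length := by
  unfold idx
  rw [List.findIdx_lt_length]
  obtain ⟨c, hc, h⟩ := h
  exact ⟨c, hc, by simpa using h⟩

theorem cl_mem {cs : List Cls} {i : ℕ} (h : i < cs.length) : cl cs i ∈ cs := by
  unfold cl; rw [List.getD_eq_getElem _ _ h]; exact List.getElem_mem h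

theorem cl_idx {cs : List Cls} {a : ℝ} (h : ∃ c ∈ cs, c.lo < a ∧ a ≤ c.hi) :
    (cl cs (idx cs a)).lo < a ∧ a ≤ (cl cs (idx cs a)).hi := by
  classical
  have h1 := idx_lt h
  unfold cl
  rw [List.getD_eq_getElem _ _ h1]
  unfold idx at h1 ⊢
  have := List.findIdx_getElem (w := h1)
  simpa using this

end VB85
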