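import Pool.Agent.LibVB85.UBDefs

/-! Weights and packings. -/

namespace VB85

/-- The weight of every packing. -/
theorem sum_weight_le {α c : ℝ} {W : ℝ → ℝ}
    (hW : ∀ (B : Bool) (M : List ℝ), IsInput M → M.sum ≤ bs α B → (M.map W).sum ≤ c * bs α B)
    {L : List ℝ} {P : List (ℝ × Bin)} (hL : IsInput L) (hP : IsPacking α L P) :
    (L.map W).sum ≤ c * cost α P := by
  obtain ⟨hperm, hload⟩ := hP
  have e1 : (L.map W).sum = ((P.map (fun q : ℝ × Bin => (W q.1, q.2))).map Prod.fst).sum := by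
    rw [← (hperm.map W).sum_eq, List.map_map, List.map_map]
    rfl
  rw [e1, ← sum_load, cost, Finset.mul_sum]
  have e2 : ((P.map (fun q : ℝ × Bin => (W q.1, q.2))).map Prod.snd) = P.map Prod.snd := by
    rw [List.map_map]
    rfl
  rw [e2]
  refine Finset.sum_le_sum (fun b _ => ?_)
  have e3 : load (P.map (fun q : ℝ × Bin => (W q.1, q.2))) b =
      (((P.filter (fun q => decide (q.2 = b))).map Prod.fst).map W).sum := by
    unfold load
    rw [List.filter_map, List.map_map, List.map_map]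
    rfl
  rw [e3, bs_eq]
  refine hW b.1 _ ?_ (hload b)
  intro a ha
  obtain ⟨q, hq, rfl⟩ := List.mem_map.1 ha
  exact hL _ (hperm.mem_iff.1 (List.mem_map_of_mem (List.mem_of_mem_filter hq)))

/-- Upper bound for `R^*` from one algorithm. (`optCost ≥ α * optBins` by `exists_optimal`, and
`bsize ≥ α`; then `ratioFrom A k ≤ ofReal (c + C / (α k))`.) -/
theorem Rstar_le {α c C : ℝ} (h0 : 0 < α) (h1 : α < 1) (hc : 0 ≤ c) (hC : 0 ≤ C) (A : OnlineAlg α)
    (h : ∀ L, IsInput L → A.cost L ≤ c * optCost α L + C) : Rstar α ≤ ENNReal.ofReal c := by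
  refine (iInf_le _ A).trans ?_
  refine ENNReal.le_of_forall_pos_le_add (fun ε hε _ => ?_)
  have hε' : (0 : ℝ) < (ε : ℝ) := by exact_mod_cast hε
  obtain ⟨k, hk⟩ := exists_nat_gt (C / (α * ε))
  have hk0 : (0 : ℝ) < k := lt_of_le_of_lt (div_nonneg hC (mul_pos h0 hε').le) hk
  have hk1 : C ≤ ε * (α * k) := by
    rw [div_lt_iff₀ (mul_pos h0 hε')] at hk
    nlinarith
  refine (iInf_le _ k).trans ?_
  have h3 : ENNReal.ofReal c + (ε : ENNReal) = ENNReal.ofReal (c + ε) := by
    rw [ENNReal.ofReal_add hc hε'.le, ENNReal.ofReal_coe_nnreal]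
  rw [h3]
  refine iSup_le (fun L => iSup_le (fun hL => iSup_le (fun hb => ?_)))
  refine ENNReal.ofReal_le_ofReal ?_
  obtain ⟨P, hP, hPc⟩ := exists_optimal h0 hL
  have h4 : optBins α L ≤ nBins P := Nat.sInf_le ⟨P, hP, hPc, rfl⟩
  have h5 : α * nBins P ≤ cost α P := by
    unfold cost nBins
    rw [mul_comm, ← nsmul_eq_mul]
    refine Finset.card_nsmul_le_sum _ _ _ (fun b _ => ?_)
    unfold bsize
    split_ifs
    · exact h1.le
    · exact le_rfl
  have h6 : (k : ℝ) ≤ nBins P := by exact_mod_cast hb.trans h4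
  have h7 : α * k ≤ optCost α L := by
    rw [← hPc]
    exact (mul_le_mul_of_nonneg_left h6 h0.le).trans h5
  have h8 : 0 < optCost α L := lt_of_lt_of_le (mul_pos h0 hk0) h7
  rw [div_le_iff₀ h8]
  have h9 := h L hL
  have h10 : ε * (α * k) ≤ ε * optCost α L := mul_le_mul_of_nonneg_left h7 hε'.le
  linarith

end VB85
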