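import Pool.Agent.LibVB85.UBDefs

/-! The harmonic algorithm never overfills a bin. -/

namespace VB85

theorem U1_mem_run (place : List ℝ → ℝ → Bin) (L : List ℝ) : ∀ (h : List ℝ) (b : Bin),
    b ∈ (run place h L).map Prod.snd → ∃ h' a, a ∈ L ∧ b = place h' a := by
  induction L with
  | nil => intro h b hb; simp [run] at hb
  | cons a L ih =>
    intro h b hb
    simp only [run, List.map_cons, List.mem_cons] at hb
    rcases hb with hb | hb
    · exact ⟨h, a, List.mem_cons_self, hb⟩
    · obtain ⟨h', a', ha', hb'⟩ := ih _ b hb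
      exact ⟨h', a', List.mem_cons_of_mem _ ha', hb'⟩

theorem U1_load_snoc (place : List ℝ → ℝ → Bin) (L : List ℝ) (a : ℝ) (b : Bin) :
    load (run place [] (L ++ [a])) b =
      load (run place [] L) b + (if place L a = b then a else 0) := by
  rw [run_append, load_append]
  simp only [List.nil_append, run, load_cons, load_nil, add_zero]

theorem U1_tsum_snoc (e : ℝ) (L : List ℝ) (a : ℝ) :
    tsum e (L ++ [a]) = tsum e L + (if a ≤ e then a else 0) := by
  classical
  unfold tsum
  rw [List.filter_append, List.sum_append]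
  by_cases h : a ≤ e
  · simp [h]
  · simp [h]

theorem U1_ncl_snoc (e : ℝ) (cs : List Cls) (L : List ℝ) (a : ℝ) (i : ℕ) :
    ncl e cs (L ++ [a]) i = ncl e cs L i + (if ¬ a ≤ e ∧ idx cs a = i then 1 else 0) := by
  classical
  unfold ncl
  rw [List.filter_append, List.length_append]
  by_cases h : ¬ a ≤ e ∧ idx cs a = i
  · rw [if_pos h, List.filter_cons_of_pos (by simpa using h)]; simp
  · rw [if_neg h, List.filter_cons_of_neg (by simpa using h)]; simp

theorem U1_isInput_left {L : List ℝ} {a : ℝ} (h : IsInput (L ++ [a])) : IsInput L :=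
  fun x hx => h x (List.mem_append_left _ hx)

theorem U1_isInput_last {L : List ℝ} {a : ℝ} (h : IsInput (L ++ [a])) : 0 < a ∧ a ≤ 1 :=
  h a (List.mem_append_right _ (List.mem_singleton_self _))

theorem U1_tsum_nonneg (e : ℝ) {L : List ℝ} (hL : IsInput L) : 0 ≤ tsum e L := by
  classical
  unfold tsum
  apply List.sum_nonneg
  intro x hx
  exact (hL x (List.mem_filter.1 hx).1).1.le

theorem U1_tiny {α e : ℝ} {cs : List Cls} (hg : GoodCls α e cs) (j : ℕ) (L : List ℝ) :
    IsInput L → load (run (hplace e cs) [] L) (true, Nat.pair 0 j) ≤ 1 ∧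
      load (run (hplace e cs) [] L) (true, Nat.pair 0 j) ≤ max 0 (tsum e L - j * (1 - e)) := by
  have he := hg.e_pos
  have he1 : 0 < 1 - e := by linarith [hg.e_lt]
  induction L using List.reverseRecOn with
  | nil => intro _; simp [run, load_nil]
  | append_singleton L a ih =>
    intro hL
    obtain ⟨h1, h2⟩ := ih (U1_isInput_left hL)
    have ha := (U1_isInput_last hL).1
    have hT := U1_tsum_nonneg e (U1_isInput_left hL)
    rw [U1_load_snoc, U1_tsum_snoc]
    by_cases hae : a ≤ e
    · rw [if_pos hae]
      by_cases hb : hplace e cs L a = (true, Nat.pair 0 j)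
      · rw [if_pos hb]
        have hj : ⌊tsum e L / (1 - e)⌋₊ = j := by
          unfold hplace at hb
          rw [if_pos hae] at hb
          have := (Prod.ext_iff.1 hb).2
          exact (Nat.pair_eq_pair.1 this).2
        have hdiv : 0 ≤ tsum e L / (1 - e) := div_nonneg hT he1.le
        have hlo : (j : ℝ) * (1 - e) ≤ tsum e L := by
          rw [← le_div_iff₀ he1, ← hj]; exact Nat.floor_le hdiv
        have hhi : tsum e L < ((j : ℝ) + 1) * (1 - e) := by
          rw [← div_lt_iff₀ he1, ← hj]; exact Nat.lt_floor_add_one _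
        rw [max_eq_right (by linarith)] at h2
        constructor
        · nlinarith
        · rw [max_eq_right (by linarith)]; linarith
      · rw [if_neg hb, add_zero]
        refine ⟨h1, h2.trans (max_le_max le_rfl ?_)⟩
        linarith
    · rw [if_neg hae, add_zero]
      have hb : hplace e cs L a ≠ (true, Nat.pair 0 j) := by
        intro hb
        unfold hplace at hb
        rw [if_neg hae] at hb
        have := (Prod.ext_iff.1 hb).2
        have := (Nat.pair_eq_pair.1 this).1
        omega
      rw [if_neg hb, add_zero]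
      exact ⟨h1, h2⟩

theorem U1_cls {α e : ℝ} {cs : List Cls} (hg : GoodCls α e cs) (i q : ℕ) (hi : i < cs.length)
    (L : List ℝ) : IsInput L →
      load (run (hplace e cs) [] L) ((cl cs i).ty, Nat.pair (i + 1) q) ≤
        (cl cs i).hi * ((min (cl cs i).k (ncl e cs L i - q * (cl cs i).k) : ℕ) : ℝ) := by
  have hk : 0 < (cl cs i).k := hg.k_pos _ (cl_mem hi)
  have hh : 0 ≤ (cl cs i).hi := hg.hi_nonneg _ (cl_mem hi)
  induction L using List.reverseRecOn with
  | nil => intro _; simp [run, load_nil, ncl]
  | append_singleton L a ih =>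
    intro hL
    have h1 := ih (U1_isInput_left hL)
    obtain ⟨ha0, ha1⟩ := U1_isInput_last hL
    rw [U1_load_snoc, U1_ncl_snoc]
    by_cases hc : ¬ a ≤ e ∧ idx cs a = i
    · rw [if_pos hc]
      have hcov := hg.cover a (not_le.1 hc.1) ha1
      have hahi : a ≤ (cl cs i).hi := by have := (cl_idx hcov).2; rwa [hc.2] at this
      by_cases hb : hplace e cs L a = ((cl cs i).ty, Nat.pair (i + 1) q)
      · rw [if_pos hb]
        have hq : ncl e cs L i / (cl cs i).k = q := by
          unfold hplace at hb
          rw [if_neg hc.1, hc.2] at hb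
          have := (Prod.ext_iff.1 hb).2
          exact (Nat.pair_eq_pair.1 this).2
        set n := ncl e cs L i with hn
        set k := (cl cs i).k with hkd
        have hdm := Nat.div_add_mod n k
        have hr := Nat.mod_lt n hk
        rw [hq] at hdm
        have e1 : n - q * k = n % k := by rw [mul_comm]; omega
        have e2 : n + 1 - q * k = n % k + 1 := by rw [mul_comm]; omega
        rw [e1, min_eq_right (by omega)] at h1
        rw [e2, min_eq_right (by omega)]
        push_cast
        nlinarith
      · rw [if_neg hb, add_zero]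
        refine h1.trans (mul_le_mul_of_nonneg_left ?_ hh)
        exact_mod_cast min_le_min le_rfl (by omega)
    · have hb : hplace e cs L a ≠ ((cl cs i).ty, Nat.pair (i + 1) q) := by
        intro hb
        unfold hplace at hb
        by_cases hae : a ≤ e
        · rw [if_pos hae] at hb
          have := (Prod.ext_iff.1 hb).2
          have := (Nat.pair_eq_pair.1 this).1
          omega
        · rw [if_neg hae] at hb
          have := (Prod.ext_iff.1 hb).2
          have := (Nat.pair_eq_pair.1 this).1
          exact hc ⟨hae, by omega⟩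
      rw [if_neg hc, if_neg hb, add_zero, add_zero]
      exact h1

theorem U1_bs (α : ℝ) (t : Bool) (m : ℕ) : bsize α (t, m) = bs α t := by
  rfl

theorem hplace_valid {α e : ℝ} {cs : List Cls} (h0 : 0 < α) (hg : GoodCls α e cs) (L : List ℝ)
    (hL : IsInput L) (b : Bin) : load (run (hplace e cs) [] L) b ≤ bsize α b := by
  by_cases hmem : b ∈ (run (hplace e cs) [] L).map Prod.snd
  · obtain ⟨h', a, ha, rfl⟩ := U1_mem_run _ _ _ _ hmem
    obtain ⟨ha0, ha1⟩ := hL a ha
    unfold hplace
    by_cases hae : a ≤ e
    · rw [if_pos hae]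
      have := (U1_tiny hg (⌊tsum e h' / (1 - e)⌋₊) L hL).1
      refine le_trans this ?_
      simp [bsize]
    · rw [if_neg hae]
      have hcov := hg.cover a (not_le.1 hae) ha1
      have hi := idx_lt hcov
      have h1 := U1_cls hg (idx cs a) (ncl e cs h' (idx cs a) / (cl cs (idx cs a)).k) hi L hL
      refine le_trans h1 ?_
      have hk := cl_mem hi
      have hfit := hg.fit _ hk
      have hh := hg.hi_nonneg _ hk
      rw [U1_bs]
      refine le_trans (mul_le_mul_of_nonneg_left ?_ hh) (by rw [mul_comm]; exact hfit)
      exact_mod_cast min_le_left _ _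
  · rw [load_of_not_mem hmem]; exact (bsize_pos h0 b).le

/-- the harmonic algorithm -/
noncomputable def halg {α e : ℝ} {cs : List Cls} (h0 : 0 < α) (hg : GoodCls α e cs) : OnlineAlg α :=
  ⟨hplace e cs, fun L hL b => hplace_valid h0 hg L hL b⟩

end VB85
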