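import Pool.Agent.LibVB85.UBData
import Pool.Agent.LibVB85.UBValid
import Pool.Agent.LibVB85.UBCost
import Pool.Agent.LibVB85.UBPack

/-! The upper bound for `α = 5/7`. -/

namespace VB85

theorem ub_alpha : ((ubA : ℝ) / (ubD : ℝ)) = 5 / 7 := by
  norm_num [ubA, ubD]

theorem ub_main : Rstar ((ubA : ℝ) / (ubD : ℝ)) ≤ ENNReal.ofReal 1.37535 := by
  have hg := chkUB_good ub_chk
  have h0 : (0:ℝ) < (ubA : ℝ) / (ubD : ℝ) := by rw [ub_alpha]; norm_num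
  have h1 : ((ubA : ℝ) / (ubD : ℝ)) < 1 := by rw [ub_alpha]; norm_num
  have hD : (0:ℝ) < (ubD : ℝ) := by norm_num [ubD]
  have hv : 0 < ubD - ubE := by norm_num [ubD, ubE]
  have hpos : ∀ p ∈ ubC.map (fun x => (x.lo, x.w)), 0 < p.1 := by
    intro p hp
    rw [List.mem_map] at hp
    obtain ⟨x, hx, rfl⟩ := hp
    have h := ub_chk
    unfold chkUB at h
    simp only [Bool.and_eq_true, decide_eq_true_eq, List.all_eq_true] at h
    exact (h.2 x hx).1.1.1.1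
  refine Rstar_le h0 h1 (by norm_num) (by positivity : (0:ℝ) ≤ ((ubC.map (IC.toCls (ubD : ℝ))).length : ℝ) + 1)
    (halg h0 hg) ?_
  intro L hL
  have hc := hplace_cost h0 h1 hg L hL
  obtain ⟨P, hP, hopt⟩ := exists_optimal h0 hL
  have hW : ∀ (B : Bool) (M : List ℝ), IsInput M → M.sum ≤ bs ((ubA : ℝ) / (ubD : ℝ)) B →
      (M.map (wt ((ubA : ℝ) / (ubD : ℝ)) ((ubE : ℝ) / (ubD : ℝ)) (ubC.map (IC.toCls (ubD : ℝ))))).sum ≤
        1.37535 * bs ((ubA : ℝ) / (ubD : ℝ)) B := by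
    intro B M hM hs
    have hwt : ∀ a ∈ M, wt ((ubA : ℝ) / (ubD : ℝ)) ((ubE : ℝ) / (ubD : ℝ))
          (ubC.map (IC.toCls (ubD : ℝ))) a ≤ a * ((ubD : ℝ) / ((ubD - ubE : ℤ) : ℝ)) ∨
        ∃ p ∈ (ubC.map (fun x => (x.lo, x.w)) : List (ℤ × ℤ)), ((p.1 : ℤ) : ℝ) / (ubD : ℝ) < a ∧
          wt ((ubA : ℝ) / (ubD : ℝ)) ((ubE : ℝ) / (ubD : ℝ)) (ubC.map (IC.toCls (ubD : ℝ))) a ≤
            ((p.2 : ℤ) : ℝ) / (ubD : ℝ) := by
      intro a ha
      rcases chkUB_wt ub_chk a (hM a ha).1 (hM a ha).2 with h | ⟨p, hp, h3, h4⟩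
      · exact Or.inl h
      · obtain ⟨x, hx, rfl⟩ := List.mem_map.1 hp
        exact Or.inr ⟨(x.lo, x.w), List.mem_map.2 ⟨x, hx, rfl⟩, h3, h4⟩
    cases B
    · have h := bb_sound hD hv _ 100 _ hpos ubA 0 (by norm_num [ubA]) ub_bbA M (fun a ha => (hM a ha).1)
        hwt hs
      have e : (ubTA : ℝ) / (ubD : ℝ) ≤ 1.37535 * ((ubA : ℝ) / (ubD : ℝ)) := by
        norm_num [ubTA, ubA, ubD]
      have e2 : bs ((ubA : ℝ) / (ubD : ℝ)) false = (ubA : ℝ) / (ubD : ℝ) := rfl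
      rw [e2]
      rw [Int.cast_zero, zero_div, zero_add] at h
      exact h.trans e
    · have e2 : bs ((ubA : ℝ) / (ubD : ℝ)) true = 1 := rfl
      rw [e2] at hs ⊢
      have e3 : (ubD : ℝ) / (ubD : ℝ) = 1 := div_self hD.ne'
      have h := bb_sound hD hv _ 100 _ hpos ubD 0 (by norm_num [ubD]) ub_bb1 M (fun a ha => (hM a ha).1)
        hwt (by rw [e3]; exact hs)
      have e : (ubT1 : ℝ) / (ubD : ℝ) ≤ 1.37535 := by
        norm_num [ubT1, ubD]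
      rw [Int.cast_zero, zero_div, zero_add] at h
      rw [mul_one]
      exact h.trans e
  have h2 := sum_weight_le hW hL hP
  rw [hopt] at h2
  show VB85.cost _ (run (hplace _ _) [] L) ≤ _
  linarith

/-- `R^*(5/7) ≤ 1.37535`. -/
theorem Rstar_five_sevenths : Rstar (5 / 7) ≤ ENNReal.ofReal 1.37535 := by
  have := ub_main
  rwa [ub_alpha] at this

end VB85
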