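import Pool.Agent.LibVB85.UBDefs

/-! Branch and bound for the weights of the items of one bin. -/

namespace VB85

/-- All items with density bounded by `(tgt - cur) / r`. The classes are pairs (lower bound of the size,
weight), `u / v` is the density of the tiny items. -/
def prune (u v tgt : ℤ) (cs : List (ℤ × ℤ)) (r cur : ℤ) : Bool :=
  decide (cur ≤ tgt) && cs.all (fun p => decide (r * p.2 ≤ (tgt - cur) * p.1)) &&
    decide (r * u ≤ (tgt - cur) * v)

def bb (u v tgt : ℤ) : ℕ → List (ℤ × ℤ) → ℤ → ℤ → Bool
  | 0, _, _, _ => false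
  | n + 1, cs, r, cur => prune u v tgt cs r cur ||
      (match cs with
        | [] => false
        | p :: cs' => bb u v tgt n cs' r cur &&
            (if p.1 < r then bb u v tgt n (p :: cs') (r - p.1) (cur + p.2) else true))

/-- **Soundness of the branch and bound.** Induction on `n`. If `prune` holds: every item has
`W a ≤ a * ((tgt - cur) / r)`. Otherwise: if some item has `p.1 / D < a`, `W a ≤ p.2 / D` for the first
class `p`, remove it (`List.perm_cons_erase`), else all witnesses are in `cs'`. -/
theorem bb_sound {u v tgt : ℤ} {D : ℝ} (hD : 0 < D) (hv : 0 < v) (W : ℝ → ℝ) (n : ℕ) :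
    ∀ (cs : List (ℤ × ℤ)) (_ : ∀ p ∈ cs, 0 < p.1) (r cur : ℤ) (_ : 0 ≤ r)
      (_ : bb u v tgt n cs r cur = true) (M : List ℝ) (_ : ∀ a ∈ M, 0 < a)
      (_ : ∀ a ∈ M, W a ≤ a * ((u : ℝ) / (v : ℝ)) ∨
        ∃ p ∈ cs, (p.1 : ℝ) / D < a ∧ W a ≤ (p.2 : ℝ) / D)
      (_ : M.sum ≤ (r : ℝ) / D), (cur : ℝ) / D + (M.map W).sum ≤ (tgt : ℝ) / D := by
  induction n with
  | zero =>
    intro cs _ r cur _ h
    simp [bb] at h
  | succ n ih =>
    intro cs hcs r cur hr h M hM hW hsum
    rw [bb.eq_def] at h
    simp only [Bool.or_eq_true] at h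
    rcases h with h | h
    · -- pruned
      simp only [prune, Bool.and_eq_true, decide_eq_true_eq, List.all_eq_true] at h
      obtain ⟨⟨h1, h2⟩, h3⟩ := h
      rcases hr.eq_or_lt with hr0 | hr0
      · -- no items
        rw [← hr0, Int.cast_zero, zero_div] at hsum
        have hnil : M = [] := by
          rcases M with _ | ⟨a, M⟩
          · rfl
          · exfalso
            have ha := hM a (List.mem_cons_self ..)
            have hs : 0 ≤ M.sum := List.sum_nonneg fun x hx => (hM x (List.mem_cons_of_mem _ hx)).le
            rw [List.sum_cons] at hsum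
            linarith
        rw [hnil, List.map_nil, List.sum_nil, add_zero]
        exact div_le_div_of_nonneg_right (by exact_mod_cast h1) hD.le
      · have hr' : (0 : ℝ) < r := by exact_mod_cast hr0
        have hv' : (0 : ℝ) < v := by exact_mod_cast hv
        have h1' : (0 : ℝ) ≤ (tgt : ℝ) - cur := by
          have : (cur : ℝ) ≤ tgt := by exact_mod_cast h1
          linarith
        obtain ⟨q, hq⟩ : ∃ q : ℝ, q = ((tgt : ℝ) - cur) / r := ⟨_, rfl⟩
        have hq0 : 0 ≤ q := by rw [hq]; exact div_nonneg h1' hr'.le
        have hqr : q * r = (tgt : ℝ) - cur := by rw [hq, div_mul_cancel₀ _ hr'.ne']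
        have hWa : ∀ a ∈ M, W a ≤ a * q := by
          intro a ha
          rcases hW a ha with h4 | ⟨p, hp, h4, h5⟩
          · refine h4.trans (mul_le_mul_of_nonneg_left ?_ (hM a ha).le)
            have h3' : (r : ℝ) * u ≤ ((tgt : ℝ) - cur) * v := by exact_mod_cast h3
            rw [hq, div_le_div_iff₀ hv' hr']
            linarith
          · have h2' : (r : ℝ) * p.2 ≤ ((tgt : ℝ) - cur) * p.1 := by exact_mod_cast h2 p hp
            have h6 : (p.2 : ℝ) ≤ q * p.1 := by
              rw [← hqr] at h2'
              have : (r : ℝ) * p.2 ≤ r * (q * p.1) := by linarith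
              exact le_of_mul_le_mul_left this hr'
            calc W a ≤ (p.2 : ℝ) / D := h5
              _ ≤ q * p.1 / D := div_le_div_of_nonneg_right h6 hD.le
              _ = (p.1 : ℝ) / D * q := by ring
              _ ≤ a * q := mul_le_mul_of_nonneg_right h4.le hq0
        have hsW : (M.map W).sum ≤ (M.map fun a => a * q).sum :=
          List.sum_le_sum fun a ha => hWa a ha
        rw [List.sum_map_mul_right, List.map_id'] at hsW
        have h7 : M.sum * q ≤ (r : ℝ) / D * q := mul_le_mul_of_nonneg_right hsum hq0
        have h8 : (r : ℝ) / D * q = ((tgt : ℝ) - cur) / D := by rw [← hqr]; ring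
        have h9 : (tgt : ℝ) / D = (cur : ℝ) / D + ((tgt : ℝ) - cur) / D := by ring
        rw [h9]
        linarith
    · rcases cs with _ | ⟨p, cs'⟩
      · simp at h
      · simp only [Bool.and_eq_true] at h
        obtain ⟨h1, h2⟩ := h
        have hp := hcs p (List.mem_cons_self ..)
        by_cases hex : ∃ a ∈ M, (p.1 : ℝ) / D < a ∧ W a ≤ (p.2 : ℝ) / D
        · obtain ⟨a, ha, h4, h5⟩ := hex
          have hperm := List.perm_cons_erase ha
          have hs1 : M.sum = a + (M.erase a).sum := by rw [hperm.sum_eq, List.sum_cons]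
          have hs2 : (M.map W).sum = W a + ((M.erase a).map W).sum := by
            rw [(hperm.map W).sum_eq, List.map_cons, List.sum_cons]
          have hpos : ∀ x ∈ M.erase a, 0 < x := fun x hx => hM x (List.mem_of_mem_erase hx)
          have hs3 : 0 ≤ (M.erase a).sum := List.sum_nonneg fun x hx => (hpos x hx).le
          by_cases hlt : p.1 < r
          · rw [if_pos hlt] at h2
            have h6 := ih (p :: cs') hcs (r - p.1) (cur + p.2) (by omega) h2 (M.erase a) hpos
              (fun x hx => hW x (List.mem_of_mem_erase hx))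
              (by push_cast; rw [sub_div]; linarith)
            push_cast at h6
            rw [add_div] at h6
            rw [hs2]
            linarith
          · exfalso
            have h6 : (r : ℝ) ≤ p.1 := by exact_mod_cast not_lt.1 hlt
            have h7 : (r : ℝ) / D ≤ (p.1 : ℝ) / D := div_le_div_of_nonneg_right h6 hD.le
            linarith
        · push Not at hex
          refine ih cs' (fun x hx => hcs x (List.mem_cons_of_mem _ hx)) r cur hr h1 M hM ?_ hsum
          intro a ha
          rcases hW a ha with h4 | ⟨x, hx, h4, h5⟩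
          · exact Or.inl h4
          · rcases List.mem_cons.1 hx with rfl | hx
            · exact absurd h5 (not_le.2 (hex a ha h4))
            · exact Or.inr ⟨x, hx, h4, h5⟩

end VB85
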